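import Pool.Agent.Lib.MP_7b7e48_nt.BR3.A

/-!
# BR3.A2 (50 minutes): the logarithms and the cells of the marks

PROOFS. `fx_log`: `FXs N f = pc g`, `fx_g`, `pc_log`, `pc_cell`. `rs_log`: `rs_g`, `pc_log`, `pc_cell`. `bal_log`: `bal_g`.
`px_log`, `py_log`: definition (`OW.mem_PR`, `OW.mem_PR_log`), `k t + i ≤ k np - 1` for `t < np`, `i < k`: `2 (k t + i) + t + 3 ≤ (2k + 1) np ≤ (2/5) l0` (`np3`).
`pair_cell`: `t + 1 < log u - log w < t + 3`; `cell l ≤ K log l < cell l + 1` (`cell_le`, `lt_cell`).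
-/

set_option autoImplicit false

open Finset

namespace Pool.Agent.Lib.TC

namespace MPar

variable {Q : MPar} {N : ℕ}

private theorem A2_up {i t : ℕ} (hi : i < Q.k) (ht : t < Q.np N) :
    ((Q.k * t + i : ℕ) : ℝ) + 1 ≤ (Q.k : ℝ) * Q.np N := by
  have h1 : Q.k * t + i + 1 ≤ Q.k * Q.np N := by
    have h2 : Q.k * (t + 1) ≤ Q.k * Q.np N := Nat.mul_le_mul_left _ ht
    rw [Nat.mul_add, Nat.mul_one] at h2
    omega
  exact_mod_cast h1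

theorem fx_log (hQ : Q.Ok) (h : Q.Lg N) {f p : ℕ} (hf : f < Q.n0 N) (hp : p ∈ Q.FXs N f) :
    (kp N) ^ 25 < Real.log p ∧ Real.log p ≤ (kp N) ^ 50 + 1 / Real.log N ∧ (cell N p : ℝ) ≤ Real.log N * (kp N) ^ 50 := by
  have hg := fx_g hQ h hf
  have h1 := pc_log h hp
  have h2 := pc_cell h hp
  have hK := h.K1
  have hK0 : 0 ≤ Real.log N := le_trans (by norm_num) hK
  refine ⟨lt_of_le_of_lt hg.1 h1.1, h1.2.trans (by linarith [hg.2]), h2.2.trans (mul_le_mul_of_nonneg_left hg.2 hK0)⟩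

theorem rs_log (hQ : Q.Ok) (h : Q.Lg N) {i r p : ℕ} (hi : i < Q.k) (hp : p ∈ Q.rs N i r) :
    Real.exp (Q.j3 N + r / 6 : ℕ) < Real.log p ∧ Real.log p ≤ Real.exp (Q.j3 N + r / 6 + 1 : ℕ) + 1 / Real.log N ∧
      Real.log N * Real.exp (Q.j3 N + r / 6 : ℕ) < cell N p ∧ (cell N p : ℝ) ≤ Real.log N * Real.exp (Q.j3 N + r / 6 + 1 : ℕ) := by
  have hg := rs_g hQ h hi r
  have h1 := pc_log h hp
  have h2 := pc_cell h hp
  have hK := h.K1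
  have hK0 : 0 ≤ Real.log N := le_trans (by norm_num) hK
  exact ⟨lt_of_le_of_lt hg.1 h1.1, h1.2.trans (by linarith [hg.2]), lt_of_le_of_lt (mul_le_mul_of_nonneg_left hg.1 hK0) h2.1,
    h2.2.trans (mul_le_mul_of_nonneg_left hg.2 hK0)⟩

theorem bal_log (hQ : Q.Ok) (h : Q.Lg N) {i p : ℕ} (hi : i < Q.k) (hp : p ∈ Q.pc N (j5 N * Q.G + i)) :
    (kp N) ^ 70 < Real.log p ∧ Real.log p ≤ 9 * (kp N) ^ 70 + 1 / Real.log N ∧
      Real.log N * (kp N) ^ 70 < cell N p ∧ (cell N p : ℝ) ≤ 9 * (Real.log N * (kp N) ^ 70) := by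
  have hg := bal_g hQ h hi
  have h1 := pc_log h hp
  have h2 := pc_cell h hp
  have hK := h.K1
  have hK0 : 0 ≤ Real.log N := le_trans (by norm_num) hK
  refine ⟨lt_of_le_of_lt hg.1 h1.1, h1.2.trans (by linarith [hg.2]), lt_of_le_of_lt (mul_le_mul_of_nonneg_left hg.1 hK0) h2.1, ?_⟩
  have h3 := mul_le_mul_of_nonneg_left hg.2 hK0
  linarith [h2.2, h3]

theorem px_log (hQ : Q.Ok) (h : Q.Lg N) {i t p : ℕ} (hi : i < Q.k) (ht : t < Q.np N) (hp : p ∈ Q.PXs N i t) :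
    p.Prime ∧ ¬ p ∣ N ∧ Q.l0 N < Real.log p ∧ Real.log p ≤ 7 / 5 * Q.l0 N := by
  unfold PXs at hp
  obtain ⟨h1, h2⟩ := mem_filter.1 hp
  have h3 : p.Prime := (Pool.Agent.Lib.OW.mem_PR.1 h1).1
  have h4 := (Pool.Agent.Lib.OW.mem_PR_log h3).1 h1
  have h5 : (0 : ℝ) ≤ ((Q.k * t + i : ℕ) : ℝ) := Nat.cast_nonneg _
  have h6 : (0 : ℝ) ≤ (t : ℝ) := Nat.cast_nonneg _
  have h7 := A2_up hi ht
  have h8 : (t : ℝ) + 1 ≤ Q.np N := by exact_mod_cast ht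
  have h9 := h.np3
  refine ⟨h3, h2, by linarith [h4.1], ?_⟩
  have h10 := h4.2
  linarith

theorem py_log (hQ : Q.Ok) (h : Q.Lg N) {i t p : ℕ} (hi : i < Q.k) (ht : t < Q.np N) (hp : p ∈ Q.PYs N i t) :
    p.Prime ∧ ¬ p ∣ N ∧ Q.l0 N < Real.log p ∧ Real.log p ≤ 7 / 5 * Q.l0 N := by
  unfold PYs at hp
  obtain ⟨h1, h2⟩ := mem_filter.1 hp
  have h3 : p.Prime := (Pool.Agent.Lib.OW.mem_PR.1 h1).1
  have h4 := (Pool.Agent.Lib.OW.mem_PR_log h3).1 h1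
  have h5 : (0 : ℝ) ≤ ((Q.k * t + i : ℕ) : ℝ) := Nat.cast_nonneg _
  have h7 := A2_up hi ht
  have h8 : (t : ℝ) + 1 ≤ Q.np N := by exact_mod_cast ht
  have h6 : (0 : ℝ) ≤ (t : ℝ) := Nat.cast_nonneg _
  have h9 := h.np3
  refine ⟨h3, h2, by linarith [h4.1], ?_⟩
  have h10 := h4.2
  linarith

/-- the value of a pair -/
theorem pair_cell (h : Q.Lg N) {i t u w : ℕ} (hu : u ∈ Q.PXs N i t) (hw : w ∈ Q.PYs N i t) :
    Real.log N * (t + 1) - 1 ≤ (cell N u : ℝ) - cell N w ∧ (cell N u : ℝ) - cell N w ≤ Real.log N * (t + 3) + 1 := by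
  unfold PXs at hu
  unfold PYs at hw
  obtain ⟨h1, -⟩ := mem_filter.1 hu
  obtain ⟨h2, -⟩ := mem_filter.1 hw
  have h3 : u.Prime := (Pool.Agent.Lib.OW.mem_PR.1 h1).1
  have h4 : w.Prime := (Pool.Agent.Lib.OW.mem_PR.1 h2).1
  obtain ⟨a1, a2⟩ := (Pool.Agent.Lib.OW.mem_PR_log h3).1 h1
  obtain ⟨b1, b2⟩ := (Pool.Agent.Lib.OW.mem_PR_log h4).1 h2
  have hK := h.K1
  have hK0 : 0 ≤ Real.log N := le_trans (by norm_num) hK
  have c1 := cell_le h.N1.le h3.one_lt.le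
  have c2 := lt_cell N u
  have d1 := cell_le h.N1.le h4.one_lt.le
  have d2 := lt_cell N w
  have e1 : Real.log N * (t + 1) ≤ Real.log N * (Real.log u - Real.log w) := mul_le_mul_of_nonneg_left (by linarith) hK0
  have e2 : Real.log N * (Real.log u - Real.log w) ≤ Real.log N * (t + 3) := mul_le_mul_of_nonneg_left (by linarith) hK0
  rw [mul_sub] at e1 e2
  constructor <;> linarith

end MPar

end Pool.Agent.Lib.TC
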