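import Pool.Agent.Lib.MP_7b7e48_nt.BR3.F1

/-!
# BR3.F (60 minutes): divisors of `N`, short intervals

`div_loss`: let `D` be the set. `∏_{p ∈ D} p ∣ N` (distinct primes, `Finset.prod_primes_dvd`), so `|D| s ≤ ∑ log p ≤ log N`; every term is `≤ exp (-s)`.
`short`: `OW.theta_int 1` with `Q = 1`, `a = 0` (`0.Coprime 1`, every number is `≡ 0 mod 1`): `∑_{PR s (s+1)} log p ≥ exp (s+1) - exp s - C exp (s+1) / s ≥ 1.6 exp s`
for large `s` (`e ≥ 2.71`), and `1/p ≥ log p / ((s + 1) exp (s + 1))`; `1.6 / 2.7183 ≥ 0.55`.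
-/

set_option autoImplicit false

open Finset Filter

namespace Pool.Agent.Lib.TC

open Pool.Agent.Lib.OW (PR)

theorem div_loss {N : ℕ} (hN : 1 ≤ N) {s : ℝ} (hs : 0 < s) (t : ℝ) :
    ∑ p ∈ (PR s t).filter (fun p => p ∣ N), 1 / (p : ℝ) ≤ Real.log N / s * Real.exp (-s) := by
  have h1 : ∏ p ∈ (PR s t).filter (fun p => p ∣ N), p ∣ N := by
    refine Finset.prod_primes_dvd N ?_ ?_
    · intro p hp
      exact (Pool.Agent.Lib.OW.mem_PR.mp (mem_filter.mp hp).1).1.prime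
    · intro p hp
      exact (mem_filter.mp hp).2
  have h2 := Nat.le_of_dvd (by omega) h1
  have h3 : ((∏ p ∈ (PR s t).filter (fun p => p ∣ N), p : ℕ) : ℝ) ≤ N := by exact_mod_cast h2
  have hpos : ∀ p ∈ (PR s t).filter (fun p => p ∣ N), (0 : ℝ) < (p : ℝ) := by
    intro p hp
    exact_mod_cast (Pool.Agent.Lib.OW.mem_PR.mp (mem_filter.mp hp).1).1.pos
  have h4 : ∑ p ∈ (PR s t).filter (fun p => p ∣ N), Real.log p ≤ Real.log N := by
    rw [← Real.log_prod fun p hp => (hpos p hp).ne']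
    refine Real.log_le_log (prod_pos hpos) ?_
    rw [← Nat.cast_prod]
    exact h3
  have h5 : (((PR s t).filter (fun p => p ∣ N)).card : ℝ) * s ≤ Real.log N := by
    refine le_trans ?_ h4
    rw [← nsmul_eq_mul]
    refine card_nsmul_le_sum _ _ _ fun p hp => ?_
    have h6 := (mem_filter.mp hp).1
    exact ((Pool.Agent.Lib.OW.mem_PR_log (Pool.Agent.Lib.OW.mem_PR.mp h6).1).mp h6).1.le
  have h6 : ∑ p ∈ (PR s t).filter (fun p => p ∣ N), 1 / (p : ℝ) ≤
      (((PR s t).filter (fun p => p ∣ N)).card : ℝ) * Real.exp (-s) := by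
    rw [← nsmul_eq_mul]
    refine sum_le_card_nsmul _ _ _ fun p hp => ?_
    have h7 := (Pool.Agent.Lib.OW.mem_PR.mp (mem_filter.mp hp).1).2.1
    rw [Real.exp_neg, one_div]
    exact inv_anti₀ (Real.exp_pos s) h7.le
  refine h6.trans (mul_le_mul_of_nonneg_right ?_ (Real.exp_pos _).le)
  rw [le_div_iff₀ hs]
  exact h5

theorem short : ∃ s0 : ℝ, 1 ≤ s0 ∧ ∀ s : ℝ, s0 ≤ s → 0.55 / (s + 1) ≤ ∑ p ∈ PR s (s + 1), 1 / (p : ℝ) := by
  obtain ⟨C, hC, h⟩ := Pool.Agent.Lib.OW.theta_int 1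
  refine ⟨30 * C, by linarith, ?_⟩
  intro s hs
  have hs1 : 1 ≤ s := by linarith
  have hs0 : 0 < s := by linarith
  have h1 := h 1 0 le_rfl (by norm_num) s (s + 1) hs1 (by linarith)
  have h2 : (PR s (s + 1)).filter (fun p => p ≡ 0 [MOD 1]) = PR s (s + 1) :=
    filter_true_of_mem fun p _ => Nat.modEq_one
  rw [h2, Nat.totient_one, Nat.cast_one, div_one, mul_one, pow_one] at h1
  have h3 := (abs_le.mp h1).1
  have he := Real.exp_pos s
  have h4 : Real.exp (s + 1) = Real.exp s * Real.exp 1 := Real.exp_add s 1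
  have h5 := Real.exp_one_gt_d9
  have h6 := Real.exp_one_lt_d9
  have h7 : C * Real.exp (s + 1) / s ≤ 0.1 * Real.exp s := by
    rw [div_le_iff₀ hs0, h4]
    have h8 : C * Real.exp 1 ≤ 0.1 * s := by nlinarith
    nlinarith
  have h8 : 1.6 * Real.exp s ≤ ∑ p ∈ PR s (s + 1), Real.log p := by
    rw [h4] at h3 h7
    nlinarith
  have h9 : (∑ p ∈ PR s (s + 1), Real.log p) * (1 / ((s + 1) * Real.exp (s + 1))) ≤
      ∑ p ∈ PR s (s + 1), 1 / (p : ℝ) := by
    rw [sum_mul]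
    refine sum_le_sum fun p hp => ?_
    have hpp := (Pool.Agent.Lib.OW.mem_PR.mp hp)
    have hp0 : (0 : ℝ) < p := by exact_mod_cast hpp.1.pos
    have hl := ((Pool.Agent.Lib.OW.mem_PR_log hpp.1).mp hp)
    have h10 : Real.log p * (1 / ((s + 1) * Real.exp (s + 1))) ≤
        (s + 1) * (1 / ((s + 1) * Real.exp (s + 1))) :=
      mul_le_mul_of_nonneg_right hl.2 (by positivity)
    refine h10.trans ?_
    have h11 : (s + 1) * (1 / ((s + 1) * Real.exp (s + 1))) = 1 / Real.exp (s + 1) := by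
      field_simp
    rw [h11]
    exact one_div_le_one_div_of_le hp0 hpp.2.2
  refine le_trans ?_ h9
  refine le_trans ?_ (mul_le_mul_of_nonneg_right h8 (by positivity))
  rw [h4]
  have h10 : 1.6 * Real.exp s * (1 / ((s + 1) * (Real.exp s * Real.exp 1))) = 1.6 / Real.exp 1 / (s + 1) := by
    field_simp
  rw [h10]
  refine div_le_div_of_nonneg_right ?_ (by linarith)
  rw [le_div_iff₀ (by linarith)]
  linarith

end Pool.Agent.Lib.TC
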