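import Pool.Agent.Lib.MP_7b7e48_nt.BR3.B
import Pool.Agent.Lib.MP_7b7e48_nt.BR3.F

/-!
# BR3.G2 (60 minutes): three more facts for large `N`

`ev_prm`: `short` and `div_loss`: `0.55 / (s+1) ≥ 0.55 / (2.01 l0) ≥ 0.27 / l0`, loss `≤ K exp (-l0) ≤ K ^ (-1) ≤ 0.01 / l0` (`l0 = (Cp + 1) log K ≥ 2 log K`).
`ev_mup`: `mer_diff` with `ε = 1/10` and `l0 → ∞` (`Real.tendsto_log_atTop` twice). `ev_mer`: `mer_up` with `t = kp ^ 80`: `80 log kp + C ≤ 90 log kp` for large `N` (`kp → ∞`).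
-/

set_option autoImplicit false

open Finset Filter

namespace Pool.Agent.Lib.TC

namespace MPar

private theorem G2_kp : Tendsto (fun N : ℕ => kp N) atTop atTop :=
  (tendsto_rpow_atTop (by norm_num : (0 : ℝ) < 1 / 100)).comp
    (Real.tendsto_log_atTop.comp tendsto_natCast_atTop_atTop)

private theorem G2_l0 (Q : MPar) : Tendsto (fun N : ℕ => Q.l0 N) atTop atTop := by
  have h1 : Tendsto (fun N : ℕ => Real.log (Real.log N)) atTop atTop :=
    Real.tendsto_log_atTop.comp (Real.tendsto_log_atTop.comp tendsto_natCast_atTop_atTop)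
  exact h1.const_mul_atTop (by positivity : (0 : ℝ) < (Q.Cp : ℝ) + 1)

theorem ev_prm {Q : MPar} (hQ : Q.Ok) : ∀ᶠ N : ℕ in atTop, ∀ s : ℝ, Q.l0 N ≤ s → s ≤ 2 * Q.l0 N →
    1 / (5 * Q.l0 N) ≤ ∑ p ∈ (Pool.Agent.Lib.OW.PR s (s + 1)).filter (fun p => ¬ p ∣ N), 1 / (p : ℝ) := by
  obtain ⟨s0, hs0, hshort⟩ := short
  filter_upwards [(G2_l0 Q).eventually_ge_atTop s0, (G2_l0 Q).eventually_ge_atTop 100,
    (Real.tendsto_log_atTop.comp (tendsto_natCast_atTop_atTop (R := ℝ))).eventually_ge_atTop 100,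
    eventually_ge_atTop 1] with N h1 h2 h3 hN s hs1 hs2
  have h3' : (100 : ℝ) ≤ Real.log N := h3
  have hl0 : 0 < Q.l0 N := by linarith
  have hs : 0 < s := by linarith
  have hK0 : 0 < Real.log N := by linarith
  have hsum := hshort s (h1.trans hs1)
  have hloss := div_loss hN hs (s + 1)
  have hsplit := Finset.sum_filter_add_sum_filter_not (Pool.Agent.Lib.OW.PR s (s + 1))
    (fun p => p ∣ N) (fun p => 1 / (p : ℝ))
  have hexp : Real.exp (-s) ≤ 1 / (Real.log N * Real.log N) := by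
    have h4 : Real.exp (-s) ≤ Real.exp (-(2 * Real.log (Real.log N))) := by
      refine Real.exp_le_exp.2 (neg_le_neg (le_trans ?_ hs1))
      have h5 : Q.l0 N = ((Q.Cp : ℝ) + 1) * Real.log (Real.log N) := rfl
      rw [h5]
      refine mul_le_mul_of_nonneg_right ?_ (Real.log_nonneg (by linarith))
      have : (1 : ℝ) ≤ Q.Cp := by exact_mod_cast hQ.Cp
      linarith
    refine h4.trans (le_of_eq ?_)
    rw [two_mul, Real.exp_neg, Real.exp_add, Real.exp_log hK0, one_div]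
  have hloss2 : Real.log N / s * Real.exp (-s) ≤ 0.01 / Q.l0 N := by
    calc Real.log N / s * Real.exp (-s) ≤ Real.log N / Q.l0 N * (1 / (Real.log N * Real.log N)) :=
          mul_le_mul (div_le_div_of_nonneg_left hK0.le hl0 hs1) hexp (Real.exp_pos _).le
            (by positivity)
      _ = 1 / Real.log N / Q.l0 N := by field_simp
      _ ≤ 0.01 / Q.l0 N := by
          refine div_le_div_of_nonneg_right ?_ hl0.le
          rw [div_le_iff₀ hK0]
          linarith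
  have hmain : 0.27 / Q.l0 N ≤ 0.55 / (s + 1) := by
    rw [div_le_div_iff₀ hl0 (by linarith)]
    linarith
  have h5 : 1 / (5 * Q.l0 N) = 0.2 / Q.l0 N := by
    field_simp
    norm_num
  have h6 : 0.27 / Q.l0 N = 0.2 / Q.l0 N + 0.07 / Q.l0 N := by ring
  have h7 : 0.01 / Q.l0 N ≤ 0.07 / Q.l0 N := div_le_div_of_nonneg_right (by norm_num) hl0.le
  rw [h5]
  linarith

theorem ev_mup (Q : MPar) : ∀ᶠ N : ℕ in atTop, ∀ s t : ℝ, Q.l0 N ≤ s → s ≤ t →
    ∑ p ∈ Pool.Agent.Lib.OW.PR s t, 1 / (p : ℝ) ≤ Real.log (t / s) + 1 / 10 := by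
  obtain ⟨s0, -, hs0⟩ := mer_diff (show (0 : ℝ) < 1 / 10 by norm_num)
  filter_upwards [(G2_l0 Q).eventually_ge_atTop s0] with N h1 s t hs ht
  have h2 := (abs_le.1 (hs0 s t (h1.trans hs) ht)).2
  linarith

theorem ev_mer : ∀ᶠ N : ℕ in atTop, ∑ p ∈ Pool.Agent.Lib.OW.PR 0 ((kp N) ^ 80), 1 / (p : ℝ) ≤ 90 * Real.log (kp N) := by
  obtain ⟨C, hC, h⟩ := mer_up
  filter_upwards [G2_kp.eventually_ge_atTop 1,
    (Real.tendsto_log_atTop.comp G2_kp).eventually_ge_atTop (C / 10)] with N h1 h2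
  have h2' : C / 10 ≤ Real.log (kp N) := h2
  have h3 := h (kp N ^ 80) (one_le_pow₀ h1)
  rw [Real.log_pow] at h3
  push_cast at h3
  linarith

end MPar

end Pool.Agent.Lib.TC
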