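import Pool.Agent.Lib.MP_7b7e48_nt.BR3.G1
import Pool.Agent.Lib.MP_7b7e48_nt.BR3.G2

/-!
# BR3.G: all facts hold for large `N`
-/

set_option autoImplicit false

open Finset Filter

namespace Pool.Agent.Lib.TC

namespace MPar

theorem ev_Lg {Q : MPar} (hQ : Q.Ok) : ∀ᶠ N : ℕ in atTop, Q.Lg N := by
  filter_upwards [ev_base Q, ev_cnt Q, ev_win hQ, ev_windows hQ, ev_pcm hQ, ev_prm hQ, ev_mer, ev_ppd Q, ev_mup Q] with N h1 h2 h3 h4 h5 h6 h7 h8 h9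
  obtain ⟨a1, a2, a3, a4, a5⟩ := h1
  have hk : (0 : ℝ) ≤ Q.k := Nat.cast_nonneg _
  have hk1 : (1 : ℝ) ≤ ((Q.k : ℝ) + 1) ^ 4 := one_le_pow₀ (by linarith)
  obtain ⟨n1, n2, n3⟩ := np_bounds a3
  have a0 : (10 : ℝ) ^ 10 ≤ kp N := by nlinarith
  obtain ⟨u1, u2, u3, u4, u5, u6, u7, u8⟩ := units (Q := Q) a1 a0 (by nlinarith) a4
  exact ⟨a1, a2, a5, a3, a4, n1, n2, n3, u1, u2, u3, u4, u5, u6, u7, u8, h2, h8, h3.1, h3.2, h5, h6, h4.1, h4.2, h9, h7⟩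

end MPar

end Pool.Agent.Lib.TC
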