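import Pool.Agent.Lib.MP_7b7e48_nt.BR3.P1
import Pool.Agent.Lib.MP_7b7e48_nt.BR3.A2
import Pool.Agent.Lib.MP_7b7e48_nt.BR3.F
import Pool.Agent.Lib.MP_7b7e48_nt.BR3.G

/-!
# BR3.P2 (100 minutes): Siegel-Walfisz in cells

`K = log N = κ ^ 100`. PROOF. Let `thr g < c ≤ thr (g+1)`. `l ∈ pc g` and `cell l = c` iff `l` is a prime, `¬ l ∣ N`, `c ≤ K log l < c + 1` (then `l ≤ N`, as `log l ≤ κ ^ 80 + 1 ≤ K`).
With `s = c / K`, `t = (c + 1) / K`: this set and `{p ∈ PR s t, ¬ p ∣ N}` differ by at most the two numbers with `K log l = c`, `K log l = c + 1`, each with `1/l ≤ exp (-s)`; and the primes of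
`PR s t` which divide `N` have sum `≤ K exp (-s)` (`div_loss`). `s ≥ κ ^ 25`, `s ≤ 2 κ ^ 80`. `ap_err k` (`k = 8 (2 A + B + 3)`): `|∑_{PR s t, ≡ a} - (∑_{PR s t}) / φ(q)| ≤ C q / s ^ k`;
`ap_lo 4`: `∑_{PR s t} 1/p ≥ 1 / (20 K s)` (`1/K = κ ^ (-100) ≥ 1 / s ^ 4`, `t ≤ s + 1`). So all errors together are at most `C q / s ^ k + 4 K exp (-s)`, and `M ≥ 1 / (20 K s) - 2 K exp (-s) ≥ 1 / (40 K s)`;
`(C q / s ^ k + 4 K exp (-s)) φ(q) ≤ K ^ (-B) / (40 K s)` for large `N` since `q ≤ K ^ A`, `s ≥ K ^ (1/4)`, `s ≤ K`.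
-/

set_option autoImplicit false

open Finset Filter

namespace Pool.Agent.Lib.TC

namespace MPar

private theorem P2_one {X : Finset ℕ} {s : ℝ} (h : ∀ l ∈ X, 0 < l ∧ Real.log (l : ℝ) = s) :
    ∑ l ∈ X, 1 / (l : ℝ) ≤ Real.exp (-s) := by
  have h1 : X.card ≤ 1 := by
    rw [card_le_one]
    intro a ha b hb
    have h2 := (h a ha).2.trans (h b hb).2.symm
    have h3 : (0 : ℝ) < a := by exact_mod_cast (h a ha).1
    have h4 : (0 : ℝ) < b := by exact_mod_cast (h b hb).1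
    have h5 := Real.log_injOn_pos (Set.mem_Ioi.mpr h3) (Set.mem_Ioi.mpr h4) h2
    exact_mod_cast h5
  have h2 : ∀ l ∈ X, 1 / (l : ℝ) ≤ Real.exp (-s) := by
    intro l hl
    obtain ⟨h3, h4⟩ := h l hl
    have h5 : (0 : ℝ) < l := by exact_mod_cast h3
    rw [Real.exp_neg, ← h4, Real.exp_log h5, one_div]
  have h3 := sum_le_card_nsmul X _ _ h2
  rw [nsmul_eq_mul] at h3
  refine h3.trans ?_
  have h4 : (X.card : ℝ) ≤ 1 := by exact_mod_cast h1
  calc (X.card : ℝ) * Real.exp (-s) ≤ 1 * Real.exp (-s) :=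
        mul_le_mul_of_nonneg_right h4 (Real.exp_pos _).le
    _ = _ := one_mul _

/-- a cell and the primes of an interval -/
private theorem P2_diff {Q : MPar} {N g c : ℕ} {s t : ℝ} (hN : 1 < N) (h1 : Q.thr N g < c)
    (h2 : c ≤ Q.thr N (g + 1)) (hs : s * Real.log N = c) (ht : t * Real.log N = c + 1)
    (htN : t ≤ Real.log N) (hs1 : 1 ≤ s) (φ : ℕ → Prop) [DecidablePred φ] :
    |∑ l ∈ ((Q.pc N g).filter (fun l => cell N l = c)).filter φ, 1 / (l : ℝ) -
      ∑ p ∈ (Pool.Agent.Lib.OW.PR s t).filter φ, 1 / (p : ℝ)| ≤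
      (Real.log N + 2) * Real.exp (-s) := by
  have hK : 0 < Real.log N := Real.log_pos (by exact_mod_cast hN)
  obtain ⟨S, hS⟩ : ∃ S : Finset ℕ, S = (Q.pc N g).filter (fun l => cell N l = c) := ⟨_, rfl⟩
  obtain ⟨R, hR⟩ : ∃ R : Finset ℕ, R = Pool.Agent.Lib.OW.PR s t := ⟨_, rfl⟩
  rw [← hS, ← hR]
  have hst : s ≤ t := by
    by_contra h
    have h3 := mul_lt_mul_of_pos_right (not_le.mp h) hK
    linarith
  have hS1 : ∀ l ∈ S, l.Prime ∧ s ≤ Real.log l ∧ Real.log l < t := by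
    intro l hl
    rw [hS, mem_filter, mem_pc] at hl
    obtain ⟨⟨h3, h4, h5, h6, h7⟩, h8⟩ := hl
    have h9 := cell_le (by omega : 1 ≤ N) h3.one_le
    have h10 := lt_cell N l
    rw [h8] at h9 h10
    refine ⟨h3, ?_, ?_⟩
    · rw [← hs] at h9
      by_contra h
      have h11 := mul_lt_mul_of_pos_right (not_le.mp h) hK
      linarith
    · rw [← ht] at h10
      by_contra h
      have h11 := mul_le_mul_of_nonneg_right (not_lt.mp h) hK.le
      linarith
  have hS2 : ∀ l : ℕ, l.Prime → ¬ l ∣ N → s ≤ Real.log l → Real.log l < t → l ∈ S := by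
    intro l h3 h4 h5 h6
    have h7 : (0 : ℝ) < l := by exact_mod_cast h3.pos
    have h8 : cell N l = c := by
      unfold cell
      rw [Nat.floor_eq_iff (by have := Real.log_nonneg (show (1 : ℝ) ≤ l by exact_mod_cast h3.one_le); positivity)]
      constructor
      · rw [← hs]
        have := mul_le_mul_of_nonneg_right h5 hK.le
        linarith
      · rw [← ht]
        have := mul_lt_mul_of_pos_right h6 hK
        linarith
    have h9 : l ≤ N := by
      have h10 : Real.log l ≤ Real.log N := by linarith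
      have h11 := (Real.log_le_log_iff h7 (by exact_mod_cast (by omega : 0 < N))).mp h10
      exact_mod_cast h11
    rw [hS, mem_filter, mem_pc, h8]
    exact ⟨⟨h3, h4, h1, h2, h9⟩, rfl⟩
  have hA : ∑ l ∈ S.filter φ \ R.filter φ, 1 / (l : ℝ) ≤ Real.exp (-s) := by
    apply P2_one
    intro l hl
    rw [Finset.mem_sdiff, mem_filter, mem_filter] at hl
    obtain ⟨⟨h3, h4⟩, h5⟩ := hl
    obtain ⟨h6, h7, h8⟩ := hS1 l h3
    refine ⟨h6.pos, ?_⟩
    by_contra h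
    apply h5
    refine ⟨?_, h4⟩
    rw [hR, Pool.Agent.Lib.OW.mem_PR_log h6]
    exact ⟨lt_of_le_of_ne h7 (fun h9 => h h9.symm), h8.le⟩
  have hB : ∑ l ∈ R.filter φ \ S.filter φ, 1 / (l : ℝ) ≤
      Real.log N / s * Real.exp (-s) + Real.exp (-t) := by
    have h3 : R.filter φ \ S.filter φ ⊆ R.filter (fun p => p ∣ N) ∪
        R.filter (fun p : ℕ => p.Prime ∧ Real.log (p : ℝ) = t) := by
      intro l hl
      rw [Finset.mem_sdiff, mem_filter, mem_filter] at hl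
      obtain ⟨⟨h4, h5⟩, h6⟩ := hl
      rw [mem_union, mem_filter, mem_filter]
      by_cases h7 : l ∣ N
      · exact Or.inl ⟨h4, h7⟩
      · right
        have h8 : l.Prime := by
          rw [hR, Pool.Agent.Lib.OW.mem_PR] at h4
          exact h4.1
        have h9 := h4
        rw [hR, Pool.Agent.Lib.OW.mem_PR_log h8] at h9
        refine ⟨h4, h8, ?_⟩
        by_contra h
        apply h6
        exact ⟨hS2 l h8 h7 h9.1.le (lt_of_le_of_ne h9.2 h), h5⟩
    refine (sum_le_sum_of_subset_of_nonneg h3 fun _ _ _ => by positivity).trans ?_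
    obtain ⟨X1, hX1⟩ : ∃ X1 : Finset ℕ, X1 = R.filter (fun p => p ∣ N) := ⟨_, rfl⟩
    obtain ⟨X2, hX2⟩ : ∃ X2 : Finset ℕ,
      X2 = R.filter (fun p : ℕ => p.Prime ∧ Real.log (p : ℝ) = t) := ⟨_, rfl⟩
    rw [← hX1, ← hX2]
    have hun := sum_union_inter (s₁ := X1) (s₂ := X2) (f := fun l : ℕ => 1 / (l : ℝ))
    have hin : 0 ≤ ∑ l ∈ X1 ∩ X2, 1 / (l : ℝ) := sum_nonneg fun _ _ => by positivity
    have hle : ∑ l ∈ X1 ∪ X2, 1 / (l : ℝ) ≤ ∑ l ∈ X1, 1 / (l : ℝ) + ∑ l ∈ X2, 1 / (l : ℝ) := by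
      linarith
    refine hle.trans (add_le_add ?_ ?_)
    · rw [hX1, hR]
      exact div_loss (by omega) (by linarith) t
    · apply P2_one
      intro l hl
      rw [hX2, mem_filter] at hl
      exact ⟨hl.2.1.pos, hl.2.2⟩
  have hAB := sum_sdiff_sub_sum_sdiff (s₁ := R.filter φ) (s₂ := S.filter φ)
    (f := fun l : ℕ => 1 / (l : ℝ))
  have hA0 : 0 ≤ ∑ l ∈ S.filter φ \ R.filter φ, 1 / (l : ℝ) := sum_nonneg fun _ _ => by positivity
  have hB0 : 0 ≤ ∑ l ∈ R.filter φ \ S.filter φ, 1 / (l : ℝ) := sum_nonneg fun _ _ => by positivity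
  have h4 : Real.exp (-t) ≤ Real.exp (-s) := Real.exp_le_exp.mpr (by linarith)
  have h5 : Real.log N / s * Real.exp (-s) ≤ Real.log N * Real.exp (-s) :=
    mul_le_mul_of_nonneg_right (div_le_self hK.le hs1) (Real.exp_pos _).le
  rw [← hAB, abs_le]
  have h6 : (Real.log N + 2) * Real.exp (-s) = Real.log N * Real.exp (-s) + 2 * Real.exp (-s) := by
    ring
  have h7 : 0 < Real.exp (-s) := Real.exp_pos _
  constructor
  · linarith
  · have h8 : 0 ≤ Real.log N * Real.exp (-s) := by positivity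
    linarith

private theorem P2_kp : Tendsto kp atTop atTop := by
  unfold kp
  exact (tendsto_rpow_atTop (by norm_num : (0 : ℝ) < 1 / 100)).comp
    (Real.tendsto_log_atTop.comp tendsto_natCast_atTop_atTop)

private theorem P2_K {N : ℕ} : (kp N) ^ 100 = Real.log N := by
  unfold kp
  rw [← Real.rpow_natCast, ← Real.rpow_mul (Real.log_natCast_nonneg N)]
  norm_num

private theorem P2_exp (n : ℕ) : ∀ᶠ y : ℝ in atTop, y ^ n ≤ Real.exp y := by
  filter_upwards [(Real.tendsto_pow_mul_exp_neg_atTop_nhds_zero n).eventually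
    (gt_mem_nhds one_pos)] with y hy
  have h1 := Real.exp_pos y
  rw [Real.exp_neg, ← div_eq_mul_inv, div_lt_one h1] at hy
  exact hy.le

theorem ev_sw {Q : MPar} (hQ : Q.Ok) (A B : ℕ) : ∀ᶠ N : ℕ in atTop, ∀ q a : ℕ, 1 ≤ q → (q : ℝ) ≤ (Real.log N) ^ A → a.Coprime q →
    ∀ g c : ℕ, (kp N) ^ 25 ≤ Real.exp ((g : ℝ) / Q.G) → Real.exp (((g : ℝ) + 1) / Q.G) ≤ (kp N) ^ 80 → Q.thr N g < c → c ≤ Q.thr N (g + 1) →
    |∑ l ∈ (Q.pc N g).filter (fun l => cell N l = c ∧ l ≡ a [MOD q]), 1 / (l : ℝ) -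
      (∑ l ∈ (Q.pc N g).filter (fun l => cell N l = c), 1 / (l : ℝ)) / (q.totient : ℝ)| ≤
      1 / (Real.log N) ^ B * ((∑ l ∈ (Q.pc N g).filter (fun l => cell N l = c), 1 / (l : ℝ)) / (q.totient : ℝ)) := by
  have _ := hQ
  obtain ⟨C, hC1, hC⟩ := ap_err (4 * (2 * A + B + 3))
  obtain ⟨s0, hs01, hs0⟩ := ap_lo 4
  filter_upwards [P2_kp.eventually_ge_atTop 1200, P2_kp.eventually_ge_atTop (80 * C),
    P2_kp.eventually_ge_atTop s0, P2_kp.eventually (P2_exp (100 * (A + B + 3) + 1)),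
    eventually_gt_atTop 1] with N hk1 hk2 hk3 hk4 hN
  intro q a hq hqA hqa g c hg1 hg2 hc1 hc2
  obtain ⟨κ, hκ⟩ : ∃ κ : ℝ, κ = kp N := ⟨_, rfl⟩
  obtain ⟨K, hK⟩ : ∃ K : ℝ, K = Real.log N := ⟨_, rfl⟩
  have hKκ : K = κ ^ 100 := by rw [hκ, hK, P2_K]
  rw [← hκ] at hk1 hk2 hk3 hk4 hg1 hg2
  have hκ1 : (1 : ℝ) ≤ κ := by linarith
  have hκK : κ ≤ K := by
    rw [hKκ]
    calc κ = κ ^ 1 := (pow_one κ).symm
      _ ≤ κ ^ 100 := pow_le_pow_right₀ hκ1 (by norm_num)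
  have hK1 : (1 : ℝ) ≤ K := hκ1.trans hκK
  have hK0 : 0 < K := by linarith
  obtain ⟨s, hs⟩ : ∃ s : ℝ, s = c / K := ⟨_, rfl⟩
  obtain ⟨t, ht⟩ : ∃ t : ℝ, t = (c + 1) / K := ⟨_, rfl⟩
  have hsK : s * Real.log N = c := by
    rw [hs, ← hK]
    field_simp
  have htK : t * Real.log N = c + 1 := by
    rw [ht, ← hK]
    field_simp
  have hts : t = s + 1 / K := by
    rw [ht, hs]
    ring
  -- the size of `s`
  have hc3 : K * Real.exp ((g : ℝ) / Q.G) < c := by
    unfold thr at hc1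
    rw [← hK] at hc1
    exact (Nat.floor_lt (by positivity)).mp hc1
  have hc4 : (c : ℝ) ≤ K * Real.exp (((g : ℝ) + 1) / Q.G) := by
    unfold thr at hc2
    rw [← hK] at hc2
    have h1 := (Nat.le_floor_iff (by positivity)).mp hc2
    push_cast at h1
    exact h1
  have hslo : κ ^ 25 ≤ s := by
    rw [hs, le_div_iff₀ hK0]
    have h1 := mul_le_mul_of_nonneg_left hg1 hK0.le
    linarith
  have hshi : s ≤ κ ^ 80 := by
    rw [hs, div_le_iff₀ hK0]
    have h1 := mul_le_mul_of_nonneg_left hg2 hK0.le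
    linarith
  have hκs : κ ≤ s := by
    refine le_trans ?_ hslo
    calc κ = κ ^ 1 := (pow_one κ).symm
      _ ≤ κ ^ 25 := pow_le_pow_right₀ hκ1 (by norm_num)
  have hs1 : 1 ≤ s := hκ1.trans hκs
  have hsK2 : s + 1 ≤ K := by
    have h1 : κ ^ 80 * 2 ≤ κ ^ 80 * κ := mul_le_mul_of_nonneg_left (by linarith) (by positivity)
    have h2 : κ ^ 80 * κ ≤ κ ^ 100 := by
      rw [← pow_succ]
      exact pow_le_pow_right₀ hκ1 (by norm_num)
    have h3 : (1 : ℝ) ≤ κ ^ 80 := one_le_pow₀ hκ1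
    rw [hKκ]
    linarith
  have hKi : 1 / K ≤ 1 := by
    rw [div_le_one hK0]
    exact hK1
  have htN : t ≤ Real.log N := by
    rw [← hK, hts]
    linarith
  have hts1 : t ≤ s + 1 := by
    rw [hts]
    linarith
  have hst : s ≤ t := by
    rw [hts]
    have : 0 < 1 / K := by positivity
    linarith
  have hs4 : K ≤ s ^ 4 := by
    calc K = (κ ^ 25) ^ 4 := by rw [hKκ]; ring
      _ ≤ s ^ 4 := pow_le_pow_left₀ (by positivity) hslo 4
  -- the sums
  have hd1 := P2_diff (Q := Q) hN hc1 hc2 hsK htK htN hs1 (fun l => l ≡ a [MOD q])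
  have hd2 := P2_diff (Q := Q) hN hc1 hc2 hsK htK htN hs1 (fun _ => True)
  rw [filter_true_of_mem (fun _ _ => trivial), filter_true_of_mem (fun _ _ => trivial)] at hd2
  rw [filter_filter] at hd1
  have hd3 := hC q a hq hqa s t hs1 hst hts1
  have hd4 := hs0 s t (hk3.trans hκs) (by
    rw [hts]
    have h1 : 1 / s ^ 4 ≤ 1 / K := one_div_le_one_div_of_le hK0 hs4
    linarith) hts1
  rw [← hK] at hqA hd1 hd2 ⊢
  obtain ⟨x1, hx1⟩ : ∃ x1 : ℝ, x1 = ∑ l ∈ (Q.pc N g).filter (fun l => cell N l = c ∧ l ≡ a [MOD q]),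
    1 / (l : ℝ) := ⟨_, rfl⟩
  obtain ⟨x2, hx2⟩ : ∃ x2 : ℝ, x2 = ∑ l ∈ (Q.pc N g).filter (fun l => cell N l = c),
    1 / (l : ℝ) := ⟨_, rfl⟩
  obtain ⟨y1, hy1⟩ : ∃ y1 : ℝ, y1 = ∑ p ∈ (Pool.Agent.Lib.OW.PR s t).filter
    (fun l => l ≡ a [MOD q]), 1 / (p : ℝ) := ⟨_, rfl⟩
  obtain ⟨y2, hy2⟩ : ∃ y2 : ℝ, y2 = ∑ p ∈ Pool.Agent.Lib.OW.PR s t, 1 / (p : ℝ) := ⟨_, rfl⟩
  rw [← hx1, ← hy1] at hd1
  rw [← hx2, ← hy2] at hd2
  rw [← hy1, ← hy2] at hd3
  rw [← hy2] at hd4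
  rw [← hx1, ← hx2]
  obtain ⟨E, hE⟩ : ∃ E : ℝ, E = (K + 2) * Real.exp (-s) := ⟨_, rfl⟩
  rw [← hE] at hd1 hd2
  have hE0 : 0 ≤ E := by
    rw [hE]
    positivity
  obtain ⟨f, hf⟩ : ∃ f : ℝ, f = (q.totient : ℝ) := ⟨_, rfl⟩
  rw [← hf] at hd3 ⊢
  have hf1 : 1 ≤ f := by
    rw [hf]
    exact_mod_cast Nat.totient_pos.mpr hq
  have hf0 : 0 < f := by linarith
  have hfK : f ≤ K ^ A := by
    rw [hf]
    refine le_trans ?_ hqA
    exact_mod_cast Nat.totient_le q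
  -- the exponential is small
  have hEZ : E * K ^ (A + B + 2) ≤ 1 / 400 := by
    have h1 : Real.exp (-s) ≤ Real.exp (-κ) := Real.exp_le_exp.mpr (by linarith)
    have h2 : (K + 2) * K ^ (A + B + 2) * 400 ≤ Real.exp κ := by
      refine le_trans ?_ hk4
      have h3 : (K + 2) * 400 ≤ K * 1200 := by linarith
      calc (K + 2) * K ^ (A + B + 2) * 400 = ((K + 2) * 400) * K ^ (A + B + 2) := by ring
        _ ≤ (K * 1200) * K ^ (A + B + 2) := mul_le_mul_of_nonneg_right h3 (by positivity)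
        _ ≤ (K * κ) * K ^ (A + B + 2) :=
            mul_le_mul_of_nonneg_right (mul_le_mul_of_nonneg_left hk1 hK0.le) (by positivity)
        _ = K ^ (A + B + 3) * κ := by ring
        _ = κ ^ (100 * (A + B + 3) + 1) := by
            rw [hKκ, ← pow_mul, pow_succ]
    have h3 : E ≤ (K + 2) * Real.exp (-κ) := by
      rw [hE]
      exact mul_le_mul_of_nonneg_left h1 (by linarith)
    calc E * K ^ (A + B + 2) ≤ ((K + 2) * Real.exp (-κ)) * K ^ (A + B + 2) :=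
          mul_le_mul_of_nonneg_right h3 (by positivity)
      _ = ((K + 2) * K ^ (A + B + 2) * 400) * Real.exp (-κ) / 400 := by ring
      _ ≤ Real.exp κ * Real.exp (-κ) / 400 := by
          apply div_le_div_of_nonneg_right _ (by norm_num : (0 : ℝ) ≤ 400)
          exact mul_le_mul_of_nonneg_right h2 (Real.exp_pos _).le
      _ = 1 / 400 := by rw [← Real.exp_add, add_neg_cancel, Real.exp_zero]
  have hEK2 : E * K ^ 2 ≤ 1 / 400 := by
    refine le_trans ?_ hEZ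
    exact mul_le_mul_of_nonneg_left (pow_le_pow_right₀ hK1 (by omega)) hE0
  -- the lower bound
  have hx2lo : 1 / 20 - 1 / 400 ≤ x2 * K ^ 2 := by
    have h1 : 1 / 20 ≤ (t - s) / (20 * s) * K ^ 2 := by
      have h2 : t - s = 1 / K := by
        rw [hts]
        ring
      rw [h2]
      have h3 : 1 / K / (20 * s) * K ^ 2 = K / (20 * s) := by
        field_simp
      rw [h3, div_le_div_iff₀ (by norm_num) (by positivity)]
      linarith
    have h2 := mul_le_mul_of_nonneg_right hd4 (by positivity : (0 : ℝ) ≤ K ^ 2)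
    have h3 : y2 - E ≤ x2 := by
      have := (abs_le.mp hd2).1
      linarith
    have h4 := mul_le_mul_of_nonneg_right h3 (by positivity : (0 : ℝ) ≤ K ^ 2)
    have h5 : (y2 - E) * K ^ 2 = y2 * K ^ 2 - E * K ^ 2 := by ring
    linarith
  -- the error
  have hskK : K ^ (2 * A + B + 3) ≤ s ^ (4 * (2 * A + B + 3)) := by
    rw [pow_mul]
    exact pow_le_pow_left₀ hK0.le hs4 _
  have herr : (2 * E + C * q / s ^ (4 * (2 * A + B + 3))) * (K ^ B * f) * K ^ 2 ≤
      2 / 400 + 1 / 80 := by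
    have h1 : C * q / s ^ (4 * (2 * A + B + 3)) ≤ C * K ^ A / K ^ (2 * A + B + 3) := by
      apply div_le_div₀ (by positivity) _ (by positivity) hskK
      exact mul_le_mul_of_nonneg_left hqA (by linarith)
    have h2 : (2 * E + C * q / s ^ (4 * (2 * A + B + 3))) * (K ^ B * f) ≤
        (2 * E + C * K ^ A / K ^ (2 * A + B + 3)) * (K ^ B * K ^ A) := by
      apply mul_le_mul (by linarith) (mul_le_mul_of_nonneg_left hfK (by positivity))
        (by positivity) (by positivity)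
    have h3 := mul_le_mul_of_nonneg_right h2 (by positivity : (0 : ℝ) ≤ K ^ 2)
    have h4 : (2 * E + C * K ^ A / K ^ (2 * A + B + 3)) * (K ^ B * K ^ A) * K ^ 2 =
        2 * (E * K ^ (A + B + 2)) + C / K := by
      have h5 : K ^ (2 * A + B + 3) = K ^ A * K ^ B * K ^ A * K ^ 2 * K := by ring
      rw [h5]
      field_simp
      ring
    have h5 : C / K ≤ 1 / 80 := by
      rw [div_le_div_iff₀ hK0 (by norm_num)]
      linarith
    linarith
  have hfin : (2 * E + C * q / s ^ (4 * (2 * A + B + 3))) * (K ^ B * f) ≤ x2 := by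
    have h1 : (2 * E + C * q / s ^ (4 * (2 * A + B + 3))) * (K ^ B * f) * K ^ 2 ≤ x2 * K ^ 2 := by
      refine herr.trans (le_trans ?_ hx2lo)
      norm_num
    exact le_of_mul_le_mul_right h1 (by positivity)
  have hrhs : 1 / K ^ B * (x2 / f) = x2 / (K ^ B * f) := by
    field_simp
  rw [hrhs]
  have hlhs : |x1 - x2 / f| ≤ 2 * E + C * q / s ^ (4 * (2 * A + B + 3)) := by
    have h1 : x1 - x2 / f = (x1 - y1) + (y1 - y2 / f) - (x2 - y2) / f := by
      ring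
    have h2 : |(x2 - y2) / f| ≤ E := by
      rw [abs_div, abs_of_pos hf0, div_le_iff₀ hf0]
      refine hd2.trans ?_
      calc E = E * 1 := (mul_one E).symm
        _ ≤ E * f := mul_le_mul_of_nonneg_left hf1 hE0
    rw [h1]
    refine (abs_sub _ _).trans ?_
    have h3 := abs_add_le (x1 - y1) (y1 - y2 / f)
    linarith
  refine hlhs.trans ?_
  rw [le_div_iff₀ (by positivity)]
  exact hfin

end MPar

end Pool.Agent.Lib.TC
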