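import Pool.Agent.Lib.MP_7b7e48_nt.BR3.P0
import Pool.Agent.Lib.MP_7b7e48_nt.BR3.P2

/-!
# BR3.P3 (60 minutes): the conditions of `MS.An` for the free pieces

`SWc` for the piece `FXs N f`, `f < n0`: if the cell `c` is not in `(thr g, thr (g+1)]`, all sums are empty. Otherwise `ev_sw` (bounds on `exp (g / G)`: `fx_g`) with `q = ∏ p ^ ex p`, `ex p = padicValNat p D + 1`, class `a` from `crt_cls`;
every `l ∈ FXs` is a prime with `log l > κ ^ 25` (`fx_log`, `mem_pc`), and `q ≤ ⌊K ^ A⌋`, so every prime of `q` is `≤ K ^ A < l` (for large `N`) and `l` is coprime to `q`. (`ev_Lg` is available; use `Finset.filter_congr`.)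
-/

set_option autoImplicit false

open Finset Filter

namespace Pool.Agent.Lib.TC

namespace MPar

private theorem P3_kp : Tendsto kp atTop atTop := by
  unfold kp
  exact (tendsto_rpow_atTop (by norm_num : (0 : ℝ) < 1 / 100)).comp
    (Real.tendsto_log_atTop.comp tendsto_natCast_atTop_atTop)

private theorem P3_exp (n : ℕ) : ∀ᶠ y : ℝ in atTop, y ^ n ≤ Real.exp y := by
  filter_upwards [(Real.tendsto_pow_mul_exp_neg_atTop_nhds_zero n).eventually
    (gt_mem_nhds one_pos)] with y hy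
  have h1 := Real.exp_pos y
  rw [Real.exp_neg, ← div_eq_mul_inv, div_lt_one h1] at hy
  exact hy.le

private theorem P3_sum {P P' : Finset ℕ} {φ φ' : ℕ → Prop} (i : DecidablePred φ)
    (i' : DecidablePred φ') (F : ℕ → ℝ) (h : ∀ l, (l ∈ P ∧ φ l) ↔ (l ∈ P' ∧ φ' l)) :
    ∑ l ∈ @Finset.filter _ φ i P, F l = ∑ l ∈ @Finset.filter _ φ' i' P', F l := by
  refine Finset.sum_congr ?_ fun _ _ => rfl
  ext l
  rw [mem_filter, mem_filter]
  exact h l

theorem ev_SWc {Q : MPar} (hQ : Q.Ok) (A B : ℕ) : ∀ᶠ N : ℕ in atTop, ∀ D f : ℕ, f < Q.n0 N →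
    SWc N D (fun l => 1 / (l : ℝ)) (1 / (Real.log N) ^ B) ⌊(Real.log N) ^ A⌋₊ (Q.FXs N f) := by
  filter_upwards [ev_sw hQ A B, ev_Lg hQ, P3_kp.eventually (P3_exp (100 * A)),
    P3_kp.eventually_ge_atTop 1] with N hsw h hexp hkp1
  intro D f hf P hP hq c u
  obtain ⟨⟨a, ha, hal⟩, hcard⟩ := crt_cls P hP (fun p => padicValNat p D + 1)
    (fun p _ => Nat.succ_le_succ (Nat.zero_le _)) u
  obtain ⟨q, hqd⟩ : ∃ q : ℕ, q = ∏ p ∈ P, p ^ (padicValNat p D + 1) := ⟨_, rfl⟩
  rw [← hqd] at ha hal hcard hq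
  have hK1 : (1 : ℝ) ≤ Real.log N := le_trans (by norm_num) h.K1
  have hq1 : 1 ≤ q := by
    rw [hqd]
    exact Nat.one_le_iff_ne_zero.2 (Finset.prod_ne_zero_iff.2 fun p hp =>
      pow_ne_zero _ (hP p hp).ne_zero)
  have hqK : (q : ℝ) ≤ (Real.log N) ^ A :=
    (Nat.cast_le.2 hq).trans (Nat.floor_le (by positivity))
  obtain ⟨g, hg⟩ : ∃ g : ℕ, g = (j1 N + f / Q.la) * Q.G + f % Q.la := ⟨_, rfl⟩
  obtain ⟨g1, g2⟩ := fx_g hQ h hf
  rw [← hg] at g1 g2
  have hF : Q.FXs N f = Q.pc N g := by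
    unfold FXs
    rw [hg]
  have hcop : ∀ l ∈ Q.pc N g, l.Coprime q := by
    intro l hl
    have h1 := (mem_pc.1 hl).1
    rw [← hF] at hl
    have h2 := (fx_log hQ h hf hl).1
    have h3 : (0 : ℝ) < l := by exact_mod_cast h1.pos
    have h4 : (q : ℝ) < l := by
      have h5 : Real.exp (kp N ^ 25) < l := (Real.lt_log_iff_exp_lt h3).1 h2
      have h6 : Real.exp (kp N) ≤ Real.exp (kp N ^ 25) := by
        refine Real.exp_le_exp.2 ?_
        calc kp N = kp N ^ 1 := (pow_one _).symm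
          _ ≤ kp N ^ 25 := pow_le_pow_right₀ hkp1 (by norm_num)
      have h7 : (Real.log N) ^ A = kp N ^ (100 * A) := by
        rw [← h.Kk, pow_mul]
      rw [h7] at hqK
      linarith
    have h5 : q < l := by exact_mod_cast h4
    refine (Nat.Prime.coprime_iff_not_dvd h1).2 fun h6 => ?_
    exact absurd (Nat.le_of_dvd hq1 h6) (not_le.2 h5)
  have hcardR : (Nat.card (∀ p : P, HP D p) : ℝ) = (q.totient : ℝ) := by
    exact_mod_cast hcard
  rw [hF, hcardR]
  by_cases hc : Q.thr N g < c ∧ c ≤ Q.thr N (g + 1)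
  · have h1 := hsw q a hq1 hqK ha g c g1
      (g2.trans (pow_le_pow_right₀ hkp1 (by norm_num))) hc.1 hc.2
    rw [P3_sum (φ' := fun l => cell N l = c ∧ l ≡ a [MOD q]) (P' := Q.pc N g) _
      (fun l => inferInstance) (fun l => 1 / (l : ℝ)) (fun l => ?_),
      P3_sum (φ := fun l => cell N l = c) (φ' := fun l => cell N l = c) (P := Q.pc N g)
        (P' := Q.pc N g) _ (fun l => inferInstance) (fun l => 1 / (l : ℝ)) (fun l => Iff.rfl)]
    · exact h1
    · constructor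
      · rintro ⟨h2, h3, h4⟩
        exact ⟨h2, h3, (hal l (hcop l h2)).1 h4⟩
      · rintro ⟨h2, h3, h4⟩
        exact ⟨h2, h3, (hal l (hcop l h2)).2 h4⟩
  · have h0 : ∀ l ∈ Q.pc N g, cell N l ≠ c := by
      intro l hl h1
      obtain ⟨-, -, h3, h4, -⟩ := mem_pc.1 hl
      rw [h1] at h3 h4
      exact hc ⟨h3, h4⟩
    rw [Finset.sum_eq_zero (fun l hl => by
        rw [mem_filter] at hl
        exact absurd hl.2.1 (h0 l hl.1)),
      Finset.sum_eq_zero (fun l hl => by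
        rw [mem_filter] at hl
        exact absurd hl.2 (h0 l hl.1))]
    simp

end MPar

end Pool.Agent.Lib.TC
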