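import Pool.Agent.Lib.MP_7b7e48_nt.BR3.J

/-!
# BR3.J2 (60 minutes): the products of the tuples are small

`κ = kp N`, `K = log N = κ ^ 100`, `m = k + 1`. `prX id μ = ∏_{i ≤ k} α_i ∏ (other marks)`. `α_i ≤ 4 Z i ≤ 4 16 ^ k N ^ e1` (`i < k`), `α_k ≤ 4 16 ^ k N ^ (2 m e1)`. The other marks: at most
`n0 + k nit ≤ κ` of them (`cnt`), each `≤ exp (3 κ ^ 75 + 1)`: for FX: `log ≤ κ^50 + 1`; OX: pairs `log ≤ (7/5) l0 ≤ 2 κ`, reserved `≤ exp j4 + 1 ≤ 3 κ^75 + 1` (`rs_log`, `j3 + r / 6 + 1 ≤ j4`); OY: ballast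
`≤ 9 κ^70 + 1` (for `Y`: `n0 + k (np + 1) ≤ κ`). So the product of the others is `≤ exp (κ ^ 80)`, and `4 ^ m 16 ^ (k m) exp (κ^80) ≤ (16 ^ (k+2) exp (κ ^ 90)) ^ (k + 2) ≤ N ^ ((k + 2) e1)` (`win2`).
Sum of the exponents: `k e1 + 2 (k+1) e1 + (k+2) e1 = (4 k + 4) e1`.
`wi_le`: `4 Z i ≤ N ^ (3 (k+1) e1)`: `4 16^k N^(2(k+1) e1)` and `4 16 ^ k ≤ N ^ e1`.
-/

set_option autoImplicit false

open Finset

namespace Pool.Agent.Lib.TC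

namespace MPar

variable {Q : MPar} {N : ℕ}

private theorem J2_N (h : Q.Lg N) : (1 : ℝ) ≤ N := by
  have := h.N1
  exact_mod_cast this.le

private theorem J2_16 (h : Q.Lg N) : (16 : ℝ) ^ (Q.k + 2) ≤ (N : ℝ) ^ Q.e1 := by
  refine le_trans ?_ h.win2
  have hk : 0 ≤ kp N := by
    have h1 := h.k0
    exact le_trans (by positivity) h1
  have h1 : 1 ≤ Real.exp ((kp N) ^ 90) := Real.one_le_exp (by positivity)
  calc (16 : ℝ) ^ (Q.k + 2) = (16 : ℝ) ^ (Q.k + 2) * 1 := (mul_one _).symm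
    _ ≤ (16 : ℝ) ^ (Q.k + 2) * Real.exp ((kp N) ^ 90) := mul_le_mul_of_nonneg_left h1 (by positivity)

private theorem J2_Z (h : Q.Lg N) {i : ℕ} (hi : i ≤ Q.k) :
    (4 * Q.Z N i : ℝ) ≤ (16 : ℝ) ^ (Q.k + 2) *
      (N : ℝ) ^ (if i < Q.k then Q.e1 else 2 * ((Q.k : ℝ) + 1) * Q.e1) := by
  obtain ⟨x, hx⟩ : ∃ x : ℝ, x = (N : ℝ) ^ (if i < Q.k then Q.e1 else 2 * ((Q.k : ℝ) + 1) * Q.e1) :=
    ⟨_, rfl⟩
  have hx0 : 0 ≤ x := by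
    rw [hx]
    exact Real.rpow_nonneg (Nat.cast_nonneg _) _
  have h1 : (Q.Z N i : ℝ) ≤ 16 ^ i * x := by
    unfold Z
    rw [← hx]
    push_cast
    exact mul_le_mul_of_nonneg_left (Nat.floor_le hx0) (by positivity)
  have h2 : (16 : ℝ) ^ i ≤ 16 ^ Q.k := pow_le_pow_right₀ (by norm_num) hi
  have h3 : (16 : ℝ) ^ i * x ≤ 16 ^ Q.k * x := mul_le_mul_of_nonneg_right h2 hx0
  rw [← hx, pow_add]
  have h4 : 0 ≤ (16 : ℝ) ^ Q.k * x := by positivity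
  nlinarith

theorem wi_le (hQ : Q.Ok) (h : Q.Lg N) {i : ℕ} (hi : i ≤ Q.k) : (4 * Q.Z N i : ℝ) ≤ (N : ℝ) ^ (3 * ((Q.k : ℝ) + 1) * Q.e1) := by
  have hN := J2_N h
  have hN0 : (0 : ℝ) < N := by linarith
  have he := hQ.e0
  have hk : (0 : ℝ) ≤ Q.k := Nat.cast_nonneg _
  refine (J2_Z h hi).trans ?_
  have h1 : (N : ℝ) ^ (if i < Q.k then Q.e1 else 2 * ((Q.k : ℝ) + 1) * Q.e1) ≤
      (N : ℝ) ^ (2 * ((Q.k : ℝ) + 1) * Q.e1) := by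
    refine Real.rpow_le_rpow_of_exponent_le hN ?_
    split_ifs
    · nlinarith
    · exact le_rfl
  calc (16 : ℝ) ^ (Q.k + 2) * (N : ℝ) ^ (if i < Q.k then Q.e1 else 2 * ((Q.k : ℝ) + 1) * Q.e1)
      ≤ (N : ℝ) ^ Q.e1 * (N : ℝ) ^ (2 * ((Q.k : ℝ) + 1) * Q.e1) :=
        mul_le_mul (J2_16 h) h1 (by positivity) (by positivity)
    _ = (N : ℝ) ^ (Q.e1 + 2 * ((Q.k : ℝ) + 1) * Q.e1) := (Real.rpow_add hN0 _ _).symm
    _ ≤ (N : ℝ) ^ (3 * ((Q.k : ℝ) + 1) * Q.e1) := by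
        refine Real.rpow_le_rpow_of_exponent_le hN ?_
        nlinarith

private theorem J2_prod {n : ℕ} (f : Fin n → ℕ) {E : ℝ} (hf : ∀ i, (f i : ℝ) ≤ E) :
    ((∏ i, f i : ℕ) : ℝ) ≤ E ^ n := by
  rw [Nat.cast_prod]
  calc ∏ i, (f i : ℝ) ≤ ∏ _i : Fin n, E :=
        Finset.prod_le_prod (fun i _ => Nat.cast_nonneg _) fun i _ => hf i
    _ = E ^ n := by rw [Finset.prod_const, Finset.card_univ, Fintype.card_fin]

private theorem J2_gen (hQ : Q.Ok) (h : Q.Lg N) {n m : ℕ} (hnm : (n : ℝ) + m ≤ kp N)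
    (α : Fin (Q.k + 1) → ℕ) (β : Fin n → ℕ) (γ : Fin m → ℕ) (hα : ∀ i, α i ≤ 4 * Q.Z N i)
    (hβ : ∀ i, (β i : ℝ) ≤ Real.exp ((kp N) ^ 80)) (hγ : ∀ i, (γ i : ℝ) ≤ Real.exp ((kp N) ^ 80)) :
    (((∏ i, α i) * (∏ f, β f) * ∏ e, γ e : ℕ) : ℝ) ≤ (N : ℝ) ^ (4 * ((Q.k : ℝ) + 1) * Q.e1) := by
  have hN := J2_N h
  have hN0 : (0 : ℝ) < N := by linarith
  have he := hQ.e0
  have hk : (0 : ℝ) ≤ Q.k := Nat.cast_nonneg _
  have hkp1 : 1 ≤ kp N := by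
    have h1 := h.k0
    have h2 : (1 : ℝ) ≤ ((Q.k : ℝ) + 1) ^ 4 := one_le_pow₀ (by linarith)
    have h3 : (1 : ℝ) ≤ (10 : ℝ) ^ 10 * ((Q.k : ℝ) + 1) ^ 4 := by
      calc (1 : ℝ) = 1 * 1 := (mul_one 1).symm
        _ ≤ (10 : ℝ) ^ 10 * ((Q.k : ℝ) + 1) ^ 4 :=
          mul_le_mul (by norm_num) h2 (by norm_num) (by norm_num)
    linarith
  obtain ⟨y, hy⟩ : ∃ y : ℝ, y = (N : ℝ) ^ Q.e1 := ⟨_, rfl⟩
  have hy0 : 0 < y := by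
    rw [hy]
    positivity
  have h16 : (16 : ℝ) ^ (Q.k + 2) * Real.exp ((kp N) ^ 90) ≤ y := by
    rw [hy]
    exact h.win2
  obtain ⟨w, hw⟩ : ∃ w : ℝ, w = (N : ℝ) ^ (2 * ((Q.k : ℝ) + 1) * Q.e1) := ⟨_, rfl⟩
  have hw0 : 0 < w := by
    rw [hw]
    positivity
  -- windows
  have h1 : ((∏ i, α i : ℕ) : ℝ) ≤ ((16 : ℝ) ^ (Q.k + 2)) ^ (Q.k + 1) * (y ^ Q.k * w) := by
    rw [Nat.cast_prod]
    have h2 : ∀ i : Fin (Q.k + 1), (α i : ℝ) ≤ (16 : ℝ) ^ (Q.k + 2) *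
        (N : ℝ) ^ (if (i : ℕ) < Q.k then Q.e1 else 2 * ((Q.k : ℝ) + 1) * Q.e1) := by
      intro i
      refine le_trans ?_ (J2_Z h (Nat.le_of_lt_succ i.2))
      exact_mod_cast hα i
    calc ∏ i, (α i : ℝ) ≤ ∏ i : Fin (Q.k + 1), ((16 : ℝ) ^ (Q.k + 2) *
          (N : ℝ) ^ (if (i : ℕ) < Q.k then Q.e1 else 2 * ((Q.k : ℝ) + 1) * Q.e1)) :=
          Finset.prod_le_prod (fun i _ => Nat.cast_nonneg _) fun i _ => h2 i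
      _ = ((16 : ℝ) ^ (Q.k + 2)) ^ (Q.k + 1) * (y ^ Q.k * w) := by
          rw [Finset.prod_mul_distrib, Finset.prod_const, Finset.card_univ, Fintype.card_fin,
            Fin.prod_univ_castSucc]
          have h3 : ∀ i : Fin Q.k, (N : ℝ) ^ (if ((i.castSucc : Fin (Q.k + 1)) : ℕ) < Q.k then Q.e1
              else 2 * ((Q.k : ℝ) + 1) * Q.e1) = y := by
            intro i
            rw [Fin.val_castSucc, if_pos i.2, hy]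
          rw [Finset.prod_congr rfl fun i _ => h3 i, Finset.prod_const, Finset.card_univ,
            Fintype.card_fin, Fin.val_last, if_neg (lt_irrefl _), ← hw]
  -- the other marks
  have hE : 1 ≤ Real.exp ((kp N) ^ 80) := Real.one_le_exp (by positivity)
  have h2 := J2_prod β hβ
  have h3 := J2_prod γ hγ
  have h4 : Real.exp ((kp N) ^ 80) ^ n * Real.exp ((kp N) ^ 80) ^ m ≤
      Real.exp ((kp N) ^ 90) ^ (Q.k + 1) := by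
    rw [← pow_add, ← Real.exp_nat_mul, ← Real.exp_nat_mul]
    refine Real.exp_le_exp.2 ?_
    push_cast
    have h5 : ((n : ℝ) + m) * kp N ^ 80 ≤ kp N * kp N ^ 80 :=
      mul_le_mul_of_nonneg_right hnm (by positivity)
    have h6 : kp N * kp N ^ 80 ≤ kp N ^ 90 := by
      calc kp N * kp N ^ 80 = kp N ^ 81 := by ring
        _ ≤ kp N ^ 90 := pow_le_pow_right₀ hkp1 (by norm_num)
    have h7 : 0 ≤ kp N ^ 90 := by positivity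
    nlinarith
  rw [Nat.cast_mul, Nat.cast_mul]
  calc ((∏ i, α i : ℕ) : ℝ) * ((∏ f, β f : ℕ) : ℝ) * ((∏ e, γ e : ℕ) : ℝ)
      ≤ ((16 : ℝ) ^ (Q.k + 2)) ^ (Q.k + 1) * (y ^ Q.k * w) * Real.exp ((kp N) ^ 80) ^ n *
          Real.exp ((kp N) ^ 80) ^ m :=
        mul_le_mul (mul_le_mul h1 h2 (Nat.cast_nonneg _) (by positivity)) h3 (Nat.cast_nonneg _)
          (by positivity)
    _ = ((16 : ℝ) ^ (Q.k + 2)) ^ (Q.k + 1) * (y ^ Q.k * w) * (Real.exp ((kp N) ^ 80) ^ n *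
          Real.exp ((kp N) ^ 80) ^ m) := by ring
    _ ≤ ((16 : ℝ) ^ (Q.k + 2)) ^ (Q.k + 1) * (y ^ Q.k * w) * Real.exp ((kp N) ^ 90) ^ (Q.k + 1) :=
        mul_le_mul_of_nonneg_left h4 (by positivity)
    _ = ((16 : ℝ) ^ (Q.k + 2) * Real.exp ((kp N) ^ 90)) ^ (Q.k + 1) * (y ^ Q.k * w) := by
        rw [mul_pow]
        ring
    _ ≤ y ^ (Q.k + 1) * (y ^ Q.k * w) :=
        mul_le_mul_of_nonneg_right (pow_le_pow_left₀ (by positivity) h16 _) (by positivity)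
    _ = (N : ℝ) ^ ((2 * (Q.k : ℝ) + 1) * Q.e1 + 2 * ((Q.k : ℝ) + 1) * Q.e1) := by
        rw [← mul_assoc, ← pow_add, hy, hw, ← Real.rpow_natCast, ← Real.rpow_mul hN0.le,
          ← Real.rpow_add hN0]
        congr 1
        push_cast
        ring
    _ ≤ (N : ℝ) ^ (4 * ((Q.k : ℝ) + 1) * Q.e1) := by
        refine Real.rpow_le_rpow_of_exponent_le hN ?_
        nlinarith

private theorem J2_exp (hQ : Q.Ok) (h : Q.Lg N) {p : ℕ}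
    (hp : (∃ f, p ∈ (Q.sys N).FX f) ∨ (∃ f, p ∈ (Q.sys N).FY f) ∨ (∃ e, p ∈ (Q.sys N).OX e) ∨ ∃ e, p ∈ (Q.sys N).OY e) :
    (p : ℝ) ≤ Real.exp ((kp N) ^ 80) := by
  obtain ⟨h1, -, -, h2, -⟩ := nw_ok hQ h hp
  have h3 : (0 : ℝ) < p := by exact_mod_cast h1.pos
  exact (Real.log_le_iff_le_exp h3).1 h2

theorem small_x (hQ : Q.Ok) (h : Q.Lg N) {μ : (Q.sys N).TX} (hμ : μ ∈ (Q.sys N).MX) :
    (((Q.sys N).prX id μ : ℕ) : ℝ) ≤ (N : ℝ) ^ (4 * ((Q.k : ℝ) + 1) * Q.e1) := by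
  unfold MS.MX at hμ
  rw [mem_product, mem_product, Fintype.mem_piFinset, Fintype.mem_piFinset,
    Fintype.mem_piFinset] at hμ
  obtain ⟨h1, h2, h3⟩ := hμ
  have hc := h.cnt
  have hnm : ((Q.n0 N : ℕ) : ℝ) + ((Q.k * Q.nit N : ℕ) : ℝ) ≤ kp N := by
    rw [Nat.cast_mul]
    have a1 : (0 : ℝ) ≤ (Q.k : ℝ) * (Q.nit N : ℝ) := by positivity
    have a2 : (0 : ℝ) ≤ (Q.n0 N : ℝ) := Nat.cast_nonneg _
    have a3 : (0 : ℝ) ≤ (Q.k : ℝ) * ((Q.np N : ℝ) + 1) := by positivity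
    have a4 : (0 : ℝ) ≤ (Q.k : ℝ) := Nat.cast_nonneg _
    linarith
  exact J2_gen hQ h hnm μ.1 μ.2.1 μ.2.2
    (fun i => (w_ok hQ h (Nat.le_of_lt_succ i.2) (Or.inl (h1 i))).2.2.2)
    (fun f => J2_exp hQ h (Or.inl ⟨f, h2 f⟩)) (fun e => J2_exp hQ h (Or.inr (Or.inr (Or.inl ⟨e, h3 e⟩))))

theorem small_y (hQ : Q.Ok) (h : Q.Lg N) {ν : (Q.sys N).TY} (hν : ν ∈ (Q.sys N).MY) :
    (((Q.sys N).prY id ν : ℕ) : ℝ) ≤ (N : ℝ) ^ (4 * ((Q.k : ℝ) + 1) * Q.e1) := by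
  unfold MS.MY at hν
  rw [mem_product, mem_product, Fintype.mem_piFinset, Fintype.mem_piFinset,
    Fintype.mem_piFinset] at hν
  obtain ⟨h1, h2, h3⟩ := hν
  have hc := h.cnt
  have hnm : ((Q.n0 N : ℕ) : ℝ) + ((Q.k * (Q.np N + 1) : ℕ) : ℝ) ≤ kp N := by
    rw [Nat.cast_mul, Nat.cast_add, Nat.cast_one]
    have a1 : (0 : ℝ) ≤ (Q.k : ℝ) * (Q.nit N : ℝ) := by positivity
    have a2 : (0 : ℝ) ≤ (Q.n0 N : ℝ) := Nat.cast_nonneg _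
    have a3 : (0 : ℝ) ≤ (Q.k : ℝ) * ((Q.np N : ℝ) + 1) := by positivity
    have a4 : (0 : ℝ) ≤ (Q.k : ℝ) := Nat.cast_nonneg _
    linarith
  exact J2_gen hQ h hnm ν.1 ν.2.1 ν.2.2
    (fun i => (w_ok hQ h (Nat.le_of_lt_succ i.2) (Or.inr (h1 i))).2.2.2)
    (fun f => J2_exp hQ h (Or.inr (Or.inl ⟨f, h2 f⟩))) (fun e => J2_exp hQ h (Or.inr (Or.inr (Or.inr ⟨e, h3 e⟩))))

end MPar

end Pool.Agent.Lib.TC
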