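import Pool.Agent.Lib.MP_7b7e48_nt.BR3.P4

/-!
# BR3.P6 (60 minutes): the windows of `Y` in the residue classes of a prime

For a prime `p` not dividing `W`, `p ≤ 2 K`, `r` not divisible by `p`: `l ≡ b i mod W^2`, `l ≡ r mod p` is one class modulo `W^2 p` (`Nat.chineseRemainder`, coprime to `W^2 p`: `bc`), `φ(W^2 p) = φ(W^2) (p - 1)`: the sum is between
`0.9 V / (φ(W^2) (p-1))` and `1.1 V / (φ(W^2)(p-1))` (`ev_wcl 3`, `x = 1`), and the sum over `WYs N i` is between `0.9 V / φ(W^2)` and `1.1 V / φ(W^2)`.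
-/

set_option autoImplicit false

open Finset Filter

namespace Pool.Agent.Lib.TC

namespace MPar

private theorem p6_set (Q : MPar) (N i : ℕ) :
    ∑ l ∈ Q.WYs N i, 1 / (l : ℝ) = WCL N 1 (Q.Z N i) (Q.W ^ 2) (Q.b i) := by
  unfold WYs WCL
  rw [one_mul]

theorem ev_WYp {Q : MPar} (hQ : Q.Ok) : ∀ᶠ N : ℕ in atTop, ∀ i ≤ Q.k, ∀ p : ℕ, p.Prime → ¬ p ∣ Q.W → (p : ℝ) ≤ 2 * Real.log N →
    ∀ r : ℕ, ¬ p ∣ r →
    (∑ l ∈ Q.WYs N i, 1 / (l : ℝ)) / (4 * ((p : ℝ) - 1)) ≤ ∑ l ∈ (Q.WYs N i).filter (fun l => l ≡ r [MOD p]), 1 / (l : ℝ) ∧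
    ∑ l ∈ (Q.WYs N i).filter (fun l => l ≡ r [MOD p]), 1 / (l : ℝ) ≤ 4 * (∑ l ∈ Q.WYs N i, 1 / (l : ℝ)) / ((p : ℝ) - 1) := by
  have hlog : Tendsto (fun N : ℕ => Real.log (N : ℝ)) atTop atTop :=
    Real.tendsto_log_atTop.comp tendsto_natCast_atTop_atTop
  filter_upwards [ev_wcl hQ 3, hlog.eventually_ge_atTop ((Q.W : ℝ) ^ 2), hlog.eventually_ge_atTop 2]
    with N hN hW h2 i hi p hp hpW hpK r hr
  obtain ⟨V, hV, h⟩ := hN 1 (Or.inl rfl) i hi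
  have hcb : (Q.b i).Coprime (Q.W ^ 2) := Nat.Coprime.pow_right 2 (hQ.bc i)
  have hW1 : 1 ≤ Q.W ^ 2 := Nat.one_le_pow _ _ hQ.W0
  have hK0 : (0 : ℝ) < Real.log N := by linarith
  have hK1 : (1 : ℝ) ≤ Real.log N := by linarith
  have hq0 : ((Q.W ^ 2 : ℕ) : ℝ) ≤ (Real.log N) ^ 3 := by
    push_cast
    nlinarith [mul_nonneg hK0.le hK0.le]
  have hq1 : ((Q.W ^ 2 * p : ℕ) : ℝ) ≤ (Real.log N) ^ 3 := by
    push_cast
    have h3 : (Q.W : ℝ) ^ 2 * p ≤ Real.log N * (2 * Real.log N) :=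
      mul_le_mul hW hpK (by positivity) hK0.le
    nlinarith [mul_nonneg hK0.le hK0.le]
  have hpc : p.Coprime Q.W := (Nat.Prime.coprime_iff_not_dvd hp).mpr hpW
  have hc : (Q.W ^ 2).Coprime p := (Nat.Coprime.pow_left 2 hpc.symm)
  have hrc : r.Coprime p := ((Nat.Prime.coprime_iff_not_dvd hp).mpr hr).symm
  set a := (Nat.chineseRemainder hc (Q.b i) r : ℕ) with ha
  have ha1 : a ≡ Q.b i [MOD Q.W ^ 2] := (Nat.chineseRemainder hc (Q.b i) r).2.1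
  have ha2 : a ≡ r [MOD p] := (Nat.chineseRemainder hc (Q.b i) r).2.2
  have hac : a.Coprime (Q.W ^ 2 * p) := by
    refine Nat.Coprime.mul_right ?_ ?_
    · unfold Nat.Coprime
      rw [ha1.gcd_eq]
      exact hcb
    · unfold Nat.Coprime
      rw [ha2.gcd_eq]
      exact hrc
  have hset : ∑ l ∈ (Q.WYs N i).filter (fun l => l ≡ r [MOD p]), 1 / (l : ℝ) =
      WCL N 1 (Q.Z N i) (Q.W ^ 2 * p) a := by
    unfold WYs WCL
    rw [one_mul, filter_filter]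
    refine sum_congr ?_ fun _ _ => rfl
    refine filter_congr fun l _ => ?_
    rw [← Nat.modEq_and_modEq_iff_modEq_mul hc]
    constructor
    · rintro ⟨⟨h4, h5, h6⟩, h7⟩
      exact ⟨h4, h5, h6.trans ha1.symm, h7.trans ha2.symm⟩
    · rintro ⟨h4, h5, h6, h7⟩
      exact ⟨⟨h4, h5, h6.trans ha1⟩, h7.trans ha2⟩
  have hA := h (Q.W ^ 2) (Q.b i) hW1 hq0 hcb
  have hB := h (Q.W ^ 2 * p) a (Nat.mul_pos hW1 hp.pos) hq1 hac
  rw [← p6_set] at hA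
  rw [← hset] at hB
  have hφ : (0 : ℝ) < (Q.W ^ 2).totient := by exact_mod_cast Nat.totient_pos.mpr hW1
  have hp1 : (0 : ℝ) < (p : ℝ) - 1 := by
    have : (1 : ℝ) < p := by exact_mod_cast hp.one_lt
    linarith
  have hφ2 : (((Q.W ^ 2 * p).totient : ℕ) : ℝ) = (Q.W ^ 2).totient * ((p : ℝ) - 1) := by
    rw [Nat.totient_mul hc, Nat.totient_prime hp, Nat.cast_mul, Nat.cast_sub hp.one_lt.le, Nat.cast_one]
  rw [hφ2] at hB
  set S0 := ∑ l ∈ Q.WYs N i, 1 / (l : ℝ)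
  set S1 := ∑ l ∈ (Q.WYs N i).filter (fun l => l ≡ r [MOD p]), 1 / (l : ℝ)
  set F : ℝ := (((Q.W ^ 2).totient : ℕ) : ℝ) with hF
  have hu : 0 < V / (F * ((p : ℝ) - 1)) := by positivity
  have e1 : 0.9 * V / F = (0.9 * ((p : ℝ) - 1)) * (V / (F * ((p : ℝ) - 1))) := by field_simp
  have e2 : 1.1 * V / F = (1.1 * ((p : ℝ) - 1)) * (V / (F * ((p : ℝ) - 1))) := by field_simp
  have e3 : 0.9 * V / (F * ((p : ℝ) - 1)) = 0.9 * (V / (F * ((p : ℝ) - 1))) := by field_simp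
  have e4 : 1.1 * V / (F * ((p : ℝ) - 1)) = 1.1 * (V / (F * ((p : ℝ) - 1))) := by field_simp
  rw [e1, e2] at hA
  rw [e3, e4] at hB
  set v := V / (F * ((p : ℝ) - 1))
  constructor
  · rw [div_le_iff₀ (by positivity)]
    nlinarith [hA.1, hA.2, hB.1, hB.2, mul_pos hp1 hu, mul_le_mul_of_nonneg_left hB.1 hp1.le]
  · rw [le_div_iff₀ hp1]
    nlinarith [hA.1, hA.2, hB.1, hB.2, mul_pos hp1 hu, mul_le_mul_of_nonneg_left hB.2 hp1.le]

end MPar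

end Pool.Agent.Lib.TC
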