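import Pool.Agent.Lib.MP_7b7e48_nt.BR3.R

/-!
# BR3.RY (70 minutes): the density of the family of `Y`

As `rhoX_lo` (copy its proof): `∏_e`: `e < k (np + 1)`: factor `≥ 1/(5 l0)` for `e % (np + 1) < np` (`mPY`; `k np` of them, `(5 l0) ^ (k np) ≤ K`), and `≥ 1/(1.1 G)` for the ballast (`mBal`; `k` of them, `k ≤ k L`); the free part
`(1.1 G) ^ (- n0)`, `n0 ≤ la L / 4`.
-/

set_option autoImplicit false

open Finset

namespace Pool.Agent.Lib.TC

open Pool.Agent.Lib.TCB (famX famY)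
open Pool.Agent.Lib.TCF (rho)

namespace MPar

variable {Q : MPar} {N : ℕ}

theorem rhoY_lo (hQ : Q.Ok) (h : Q.Lg N) : 1 ≤ (Real.log N) ^ Q.Cf * rho (famY (Q.sys N)) := by
  obtain ⟨hL, hK, ha, hn0, hnr, hl⟩ := R_base hQ h
  have hK1 : (1 : ℝ) ≤ Real.log N := by linarith
  have hk : (0 : ℝ) ≤ Q.k := Nat.cast_nonneg _
  rw [R_rhoY]
  unfold Cf
  refine R_fin (K := Real.log N) (a := 1.1 * Q.G) (b := 5 * Q.l0 N) (m := Q.k + 1) (n1 := Q.n0 N) (n2 := Q.k)
    (s := Q.k * Q.np N) hK1 ha hl (R_pow ha hK1 ?_) h.ppd ?_ ?_ ?_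
  · push_cast
    have h2 : (Q.k : ℝ) * 1 ≤ Q.k * Real.log (Real.log N) := mul_le_mul_of_nonneg_left hL hk
    nlinarith
  · refine R_const (m := Q.k + 1) _ (by positivity) (fun i : Fin (Q.k + 1) => ∑ p ∈ Q.WYs N i, 1 / (p : ℝ)) fun i => ?_
    refine le_trans ?_ (h.wym i (by omega))
    gcongr
    norm_num
  · exact R_const (m := Q.n0 N) _ (by positivity) (fun f : Fin (Q.n0 N) => ∑ p ∈ Q.FXs N f, 1 / (p : ℝ))
      fun f => mFX hQ h f.2
  · have h1 : ∏ e : Fin (Q.k * (Q.np N + 1)), ∑ p ∈ Q.OYs N ((e : ℕ) / (Q.np N + 1)) ((e : ℕ) % (Q.np N + 1)), 1 / (p : ℝ) =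
        ∏ i ∈ range Q.k, ∏ t ∈ range (Q.np N + 1), ∑ p ∈ Q.OYs N i t, 1 / (p : ℝ) :=
      R_prod Q.k (Q.np N + 1) (fun i t => ∑ p ∈ Q.OYs N i t, 1 / (p : ℝ))
    have h2 : (1 / (5 * Q.l0 N)) ^ (Q.k * Q.np N) * (1 / (1.1 * (Q.G : ℝ))) ^ Q.k ≤
        ∏ i ∈ range Q.k, ∏ t ∈ range (Q.np N + 1), ∑ p ∈ Q.OYs N i t, 1 / (p : ℝ) := by
      calc (1 / (5 * Q.l0 N)) ^ (Q.k * Q.np N) * (1 / (1.1 * (Q.G : ℝ))) ^ Q.k
          = ∏ _i ∈ range Q.k, ((1 / (5 * Q.l0 N)) ^ (Q.np N) * (1 / (1.1 * (Q.G : ℝ)))) := by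
            rw [prod_const, card_range, mul_pow, ← pow_mul, mul_comm (Q.np N)]
        _ ≤ _ := by
            refine prod_le_prod (fun i _ => by positivity) fun i hi => ?_
            rw [mem_range] at hi
            rw [Finset.prod_range_succ]
            have h3 : (1 / (5 * Q.l0 N)) ^ (Q.np N) ≤ ∏ t ∈ range (Q.np N), ∑ p ∈ Q.OYs N i t, 1 / (p : ℝ) := by
              calc (1 / (5 * Q.l0 N)) ^ (Q.np N) = ∏ _t ∈ range (Q.np N), (1 / (5 * Q.l0 N)) := by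
                    rw [prod_const, card_range]
                _ ≤ _ := prod_le_prod (fun _ _ => by positivity) fun t ht => by
                    rw [mem_range] at ht
                    unfold OYs
                    rw [if_pos ht]
                    exact mPY hQ h hi ht
            have h4 : 1 / (1.1 * (Q.G : ℝ)) ≤ ∑ p ∈ Q.OYs N i (Q.np N), 1 / (p : ℝ) := by
              unfold OYs
              rw [if_neg (lt_irrefl _)]
              exact mBal hQ h hi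
            exact mul_le_mul h3 h4 (by positivity) ((by positivity : (0 : ℝ) ≤ (1 / (5 * Q.l0 N)) ^ (Q.np N)).trans h3)
    exact h2.trans (le_of_eq h1.symm)

end MPar

end Pool.Agent.Lib.TC
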