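import Pool.Agent.Lib.MP_7b7e48_nt.BR3.S
import Pool.Agent.Lib.MP_7b7e48_nt.BR3.RY
import Pool.Agent.Lib.MP_7b7e48_nt.BR3.P6
import Pool.Agent.Lib.MP_7b7e48_nt.BR3.J2
import Pool.Agent.Lib.MP_7b7e48_nt.BR.E0

/-!
# BR3.WO: the concrete mark system and the hypotheses of the bridge and of the pair theorem
-/

set_option autoImplicit false

open Finset Filter

namespace Pool.Agent.Lib.TC

open Pool.Agent.Lib.TCB (famX famY)
open Pool.Agent.Lib.TCF (rho)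

namespace MPar

/-- the windows of `Y` are equidistributed modulo small primes -/
theorem ev_winok {Q : MPar} (hQ : Q.Ok) : ∀ᶠ N : ℕ in atTop, ∀ T : Dat, T.N = N →
    (∀ p : ℕ, p.Prime → p ∣ Q.W → p < T.p0) → ∀ y1 : ℕ, (y1 : ℝ) ≤ 2 * Real.log N → TCB.WinOk (Q.sys N) T y1 := by
  filter_upwards [ev_WYp hQ] with N h T hT hW y1 hy1
  have key : ∀ (i : Fin (Q.k + 1)) (p : ℕ), p ∈ T.PS → p ≤ y1 → ∀ r : ℕ, ¬ p ∣ r →
    (∑ l ∈ Q.WYs N i, 1 / (l : ℝ)) / (4 * ((p : ℝ) - 1)) ≤ ∑ l ∈ (Q.WYs N i).filter (fun l => l ≡ r [MOD p]), 1 / (l : ℝ) ∧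
    ∑ l ∈ (Q.WYs N i).filter (fun l => l ≡ r [MOD p]), 1 / (l : ℝ) ≤ 4 * (∑ l ∈ Q.WYs N i, 1 / (l : ℝ)) / ((p : ℝ) - 1) := by
    intro i p hp hpy r hr
    unfold Dat.PS at hp
    rw [mem_filter] at hp
    refine h i (Nat.lt_succ_iff.1 i.2) p hp.2.1 (fun hd => ?_) ?_ r hr
    · have := hW p hp.2.1 hd
      omega
    · have : (p : ℝ) ≤ y1 := by exact_mod_cast hpy
      linarith
  refine ⟨fun i p hp hpy r hr => (key i p hp hpy r hr).1, fun i p hp hpy r hr => ?_⟩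
  refine ((key i p hp hpy r hr).2).trans (le_of_eq ?_)
  change 4 * (∑ l ∈ Q.WYs N i, 1 / (l : ℝ)) / ((p : ℝ) - 1) = 4 / ((p : ℝ) - 1) * ∑ l ∈ Q.WYs N i, 1 / (l : ℝ)
  ring

theorem sum_prX (S : MS) : ∑ μ ∈ S.MX, S.prX (fun l => 1 / (l : ℝ)) μ = rho (famX S) := by
  rw [R_rhoX, prod_univ_sum, prod_univ_sum, prod_univ_sum, sum_mul_sum]
  unfold MS.MX MS.prX
  rw [sum_product]
  have h1 : ∀ a : Fin (S.k + 1) → ℕ, ∑ b ∈ Fintype.piFinset S.FX ×ˢ Fintype.piFinset S.OX,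
      (∏ i, 1 / ((a i : ℕ) : ℝ)) * (∏ f, 1 / ((b.1 f : ℕ) : ℝ)) * ∏ e, 1 / ((b.2 e : ℕ) : ℝ) =
      ∑ u ∈ Fintype.piFinset S.FX, ∑ w ∈ Fintype.piFinset S.OX, (∏ i, 1 / ((a i : ℕ) : ℝ)) * (∏ f, 1 / ((u f : ℕ) : ℝ)) *
        ∏ e, 1 / ((w e : ℕ) : ℝ) := fun a => sum_product _ _ _
  rw [sum_congr rfl fun a _ => h1 a, sum_mul]
  refine sum_congr rfl fun a _ => ?_
  rw [sum_mul]
  refine sum_congr rfl fun u _ => ?_
  rw [mul_sum]

theorem sum_prY (S : MS) : ∑ ν ∈ S.MY, S.prY (fun l => 1 / (l : ℝ)) ν = rho (famY S) := by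
  rw [R_rhoY, prod_univ_sum, prod_univ_sum, prod_univ_sum, sum_mul_sum]
  unfold MS.MY MS.prY
  rw [sum_product]
  have h1 : ∀ a : Fin (S.k + 1) → ℕ, ∑ b ∈ Fintype.piFinset S.FY ×ˢ Fintype.piFinset S.OY,
      (∏ i, 1 / ((a i : ℕ) : ℝ)) * (∏ f, 1 / ((b.1 f : ℕ) : ℝ)) * ∏ e, 1 / ((b.2 e : ℕ) : ℝ) =
      ∑ u ∈ Fintype.piFinset S.FY, ∑ w ∈ Fintype.piFinset S.OY, (∏ i, 1 / ((a i : ℕ) : ℝ)) * (∏ f, 1 / ((u f : ℕ) : ℝ)) *
        ∏ e, 1 / ((w e : ℕ) : ℝ) := fun a => sum_product _ _ _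
  rw [sum_congr rfl fun a _ => h1 a, sum_mul]
  refine sum_congr rfl fun a _ => ?_
  rw [sum_mul]
  refine sum_congr rfl fun u _ => ?_
  rw [mul_sum]

variable {Q : MPar} {N : ℕ}

private theorem WO_la (hQ : Q.Ok) : (Q.la : ℝ) = ((Q.k : ℝ) + 1) ^ 2 / 2 := by
  obtain ⟨r, hr⟩ := hQ.ko
  have h1 : Q.la = 2 * (r + 1) ^ 2 := by
    unfold la
    rw [hr]
    have h2 : (2 * r + 1 + 1) ^ 2 = 2 * (2 * (r + 1) ^ 2) := by ring
    omega
  rw [h1, hr]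
  push_cast
  ring

private theorem WO_L (h : Q.Lg N) : 400 * ((Q.k : ℝ) + 1) ≤ Real.log (Real.log N) := by
  have h1 := h.k00
  have h2 := Real.exp_pos (4 * ((Q.k : ℝ) + 1))
  have h3 : 4 * ((Q.k : ℝ) + 1) ≤ Real.log (kp N) := by
    rw [Real.le_log_iff_exp_le (by linarith)]
    exact h1
  rw [← h.Kk, Real.log_pow]
  push_cast
  linarith

private theorem WO_n0 (h : Q.Lg N) : (Q.la : ℝ) * (Real.log (Real.log N) / 4 - 2) ≤ Q.n0 N := by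
  have hk : (0 : ℝ) ≤ Q.k := Nat.cast_nonneg _
  have hL := WO_L h
  unfold n0
  rw [Nat.cast_mul, Nat.cast_sub h.j12.le]
  refine mul_le_mul_of_nonneg_left ?_ (Nat.cast_nonneg _)
  have h1 : Real.log (Real.log N) / 2 < (j2 N : ℝ) + 1 := Nat.lt_floor_add_one _
  have h2 : (j1 N : ℝ) < Real.log (Real.log N) / 4 + 1 := Nat.ceil_lt_add_one (by linarith)
  linarith

theorem prX_lo (hQ : Q.Ok) (h : Q.Lg N) : 1 / (Real.log N) ^ Q.Cf ≤ ∑ μ ∈ (Q.sys N).MX, (Q.sys N).prX (fun l => 1 / (l : ℝ)) μ := by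
  have hK : 0 < (Real.log N) ^ Q.Cf := by
    have := h.K1
    positivity
  rw [sum_prX, div_le_iff₀ hK, mul_comm]
  exact rhoX_lo hQ h

theorem prY_lo (hQ : Q.Ok) (h : Q.Lg N) : 1 / (Real.log N) ^ Q.Cf ≤ ∑ ν ∈ (Q.sys N).MY, (Q.sys N).prY (fun l => 1 / (l : ℝ)) ν := by
  have hK : 0 < (Real.log N) ^ Q.Cf := by
    have := h.K1
    positivity
  rw [sum_prY, div_le_iff₀ hK, mul_comm]
  exact rhoY_lo hQ h

/-- the product of all marks of a pair of tuples -/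
theorem size_xy (hQ : Q.Ok) (h : Q.Lg N) {μ : (Q.sys N).TX} (hμ : μ ∈ (Q.sys N).MX) {ν : (Q.sys N).TY} (hν : ν ∈ (Q.sys N).MY) :
    (((Q.sys N).prX id μ * (Q.sys N).prY id ν : ℕ) : ℝ) ≤ (N : ℝ) ^ (8 * ((Q.k : ℝ) + 1) * Q.e1) := by
  have hN : (0 : ℝ) < N := by
    have := h.N1
    exact_mod_cast (by omega : 0 < N)
  have h1 := small_x hQ h hμ
  have h2 := small_y hQ h hν
  rw [Nat.cast_mul]
  calc (((Q.sys N).prX id μ : ℕ) : ℝ) * (((Q.sys N).prY id ν : ℕ) : ℝ) ≤ (N : ℝ) ^ (4 * ((Q.k : ℝ) + 1) * Q.e1) * (N : ℝ) ^ (4 * ((Q.k : ℝ) + 1) * Q.e1) :=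
        mul_le_mul h1 h2 (Nat.cast_nonneg _) (Real.rpow_nonneg hN.le _)
    _ = _ := by rw [← Real.rpow_add hN]; congr 1; ring

/-- the second condition on the number of the colourings -/
theorem cc3 (hQ : Q.Ok) (h : Q.Lg N) {B : ℕ} (hB : 4 * (B + 12) ≤ Q.k + 1) :
    4 ^ Q.k * ((Q.k * (Q.k + 1) : ℕ) : ℝ) ^ (2 * Q.n0 N) * (Real.log N) ^ (B + 10) ≤ ((Q.sys N).CC.card : ℝ) ^ 2 := by
  have hcc := cc_lo hQ h
  have hla := WO_la hQ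
  have hL := WO_L h
  have hn0 := WO_n0 h
  have hK1 := h.K1
  have hBr : 4 * ((B : ℝ) + 12) ≤ (Q.k : ℝ) + 1 := by exact_mod_cast hB
  have hk3 : (3 : ℝ) ≤ Q.k := by exact_mod_cast hQ.k3
  have hB0 : (0 : ℝ) ≤ B := Nat.cast_nonneg _
  set L := Real.log (Real.log N) with hLd
  set m : ℝ := (Q.k : ℝ) + 1 with hm
  set n : ℕ := 2 * Q.n0 N with hn
  have hm0 : 0 < m := by linarith
  have hK0 : 0 < Real.log N := by linarith
  have h1 : (Q.k : ℝ) * Real.exp (1 / m) ≤ m := by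
    have h2 := Real.add_one_le_exp (-(1 / m))
    have h3 : (Q.k : ℝ) = m * (-(1 / m) + 1) := by
      rw [hm]
      field_simp
      ring
    calc (Q.k : ℝ) * Real.exp (1 / m) = m * (-(1 / m) + 1) * Real.exp (1 / m) := by rw [← h3]
      _ ≤ m * Real.exp (-(1 / m)) * Real.exp (1 / m) := by gcongr
      _ = m := by rw [mul_assoc, ← Real.exp_add, neg_add_cancel, Real.exp_zero, mul_one]
  have h2 : (Q.k : ℝ) ^ n * Real.exp ((n : ℝ) * (1 / m)) ≤ m ^ n := by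
    rw [Real.exp_nat_mul, ← mul_pow]
    exact pow_le_pow_left₀ (by positivity) h1 _
  have h3 : ((B : ℝ) + 10) * L + 2 * m ≤ (n : ℝ) * (1 / m) := by
    have h4 : (n : ℝ) = 2 * Q.n0 N := by rw [hn]; push_cast; ring
    rw [h4, mul_one_div, le_div_iff₀ hm0]
    rw [hla] at hn0
    have hL0 : 0 ≤ L := by linarith
    have h5 : 4 * ((B : ℝ) + 12) * L ≤ m * L := mul_le_mul_of_nonneg_right hBr hL0
    have h6 : ((B : ℝ) + 10) * L + 2 * m ≤ m * (L / 4 - 2) := by nlinarith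
    have h7 : (((B : ℝ) + 10) * L + 2 * m) * m ≤ m * (L / 4 - 2) * m := mul_le_mul_of_nonneg_right h6 hm0.le
    nlinarith
  have h4 : (4 : ℝ) ^ (Q.k + 1) * (Real.log N) ^ (B + 10) ≤ Real.exp ((n : ℝ) * (1 / m)) := by
    refine le_trans ?_ (Real.exp_le_exp.2 h3)
    have h5 : Real.exp (((B : ℝ) + 10) * L) = (Real.log N) ^ (B + 10) := by
      have : ((B : ℝ) + 10) = ((B + 10 : ℕ) : ℝ) := by push_cast; ring
      rw [this, Real.exp_nat_mul, Real.exp_log hK0]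
    have h6 : (4 : ℝ) ^ (Q.k + 1) ≤ Real.exp (2 * m) := by
      have h7 : Real.exp (2 * m) = Real.exp 2 ^ (Q.k + 1) := by
        rw [← Real.exp_nat_mul]
        congr 1
        push_cast
        rw [hm]
        ring
      rw [h7]
      refine pow_le_pow_left₀ (by norm_num) ?_ _
      have h8 : Real.exp 2 = Real.exp 1 * Real.exp 1 := by rw [← Real.exp_add]; norm_num
      have h9 := Real.exp_one_gt_d9
      rw [h8]
      nlinarith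
    rw [Real.exp_add, h5]
    calc (4 : ℝ) ^ (Q.k + 1) * (Real.log N) ^ (B + 10) = (Real.log N) ^ (B + 10) * (4 : ℝ) ^ (Q.k + 1) := mul_comm _ _
      _ ≤ _ := mul_le_mul_of_nonneg_left h6 (by positivity)
  have h5 : (Q.k : ℝ) ^ n * ((4 : ℝ) ^ (Q.k + 1) * (Real.log N) ^ (B + 10)) ≤ m ^ n :=
    le_trans (mul_le_mul_of_nonneg_left h4 (by positivity)) h2
  have h6 : (m ^ n / 2) ^ 2 ≤ ((Q.sys N).CC.card : ℝ) ^ 2 := pow_le_pow_left₀ (by positivity) hcc _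
  refine le_trans ?_ h6
  have h7 : (((Q.k * (Q.k + 1) : ℕ) : ℝ)) ^ n = (Q.k : ℝ) ^ n * m ^ n := by
    rw [← mul_pow]; congr 1; push_cast; rw [hm]
  rw [h7]
  have h8 : m ^ n * ((Q.k : ℝ) ^ n * ((4 : ℝ) ^ (Q.k + 1) * (Real.log N) ^ (B + 10))) ≤ m ^ n * m ^ n :=
    mul_le_mul_of_nonneg_left h5 (by positivity)
  have h9 : m ^ n * ((Q.k : ℝ) ^ n * ((4 : ℝ) ^ (Q.k + 1) * (Real.log N) ^ (B + 10))) =
      4 * (4 ^ Q.k * ((Q.k : ℝ) ^ n * m ^ n) * (Real.log N) ^ (B + 10)) := by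
    rw [pow_succ]; ring
  rw [h9] at h8
  nlinarith

end MPar

end Pool.Agent.Lib.TC
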