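import Pool.Agent.Lib.MP_7b7e48_nt.BR3.W
import Pool.Agent.Lib.MP_7b7e48_nt.BR3.WO
import Pool.Agent.Lib.MP_7b7e48_nt.TC.POK

/-!
# BR3.DT: the numerical data of the concrete system, existence of the parameters, numerical facts for large `N`
-/

set_option autoImplicit false

open Finset Filter

namespace Pool.Agent.Lib.TC

open Pool.Agent.Lib.TCB (famX famY)
open Pool.Agent.Lib.TCF (rho)
open Pool.Agent.Lib.RH (Prm MM JJ)

/-- the product of the primes `< p0` -/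
def Wp (p0 : ℕ) : ℕ := ∏ p ∈ (range p0).filter Nat.Prime, p

theorem Wp_pos (p0 : ℕ) : 0 < Wp p0 := prod_pos fun p hp => (mem_filter.1 hp).2.pos

theorem Wp_pr (p0 : ℕ) {p : ℕ} (hp : p.Prime) : p ∣ Wp p0 ↔ p < p0 := by
  unfold Wp
  rw [hp.prime.dvd_finsetProd_iff]
  constructor
  · rintro ⟨q, hq, hd⟩
    rw [mem_filter, mem_range] at hq
    rw [(Nat.prime_dvd_prime_iff_eq hp hq.2).1 hd]
    exact hq.1
  · intro h
    exact ⟨p, mem_filter.2 ⟨mem_range.2 h, hp⟩, dvd_rfl⟩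

theorem Wp_sq (p0 : ℕ) : Squarefree (Wp p0) := by
  unfold Wp
  refine Finset.squarefree_prod_of_pairwise_isCoprime (fun p hp q hq hpq => ?_) fun p hp => ?_
  · rw [coe_filter, Set.mem_ofPred_eq] at hp hq
    exact Nat.coprime_iff_isRelPrime.1 ((Nat.coprime_primes hp.2 hq.2).2 hpq)
  · exact (mem_filter.1 hp).2.prime.squarefree

/-- the classes of the windows of `Y` -/
theorem Wp_cls (p0 : ℕ) : ∃ b : ℕ → ℕ, (∀ i, (b i).Coprime (Wp p0)) ∧ ∀ i, ∀ p : ℕ, p.Prime → p ∣ Wp p0 →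
    (b i : ℤ) ≡ 1 - (-1) ^ i * p [ZMOD ((p ^ 2 : ℕ) : ℤ)] := by
  have hs : ∀ p ∈ (range p0).filter Nat.Prime, (fun p : ℕ => p ^ 2) p ≠ 0 := by
    intro p hp
    exact pow_ne_zero _ (mem_filter.1 hp).2.ne_zero
  have pp : Set.Pairwise (((range p0).filter Nat.Prime : Finset ℕ) : Set ℕ) (Function.onFun Nat.Coprime (fun p : ℕ => p ^ 2)) := by
    intro p hp q hq hpq
    rw [coe_filter, Set.mem_ofPred_eq] at hp hq
    exact Nat.Coprime.pow 2 2 ((Nat.coprime_primes hp.2 hq.2).2 hpq)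
  have key : ∀ i : ℕ, ∃ b : ℕ, ∀ p : ℕ, p.Prime → p ∣ Wp p0 → (b : ℤ) ≡ 1 - (-1) ^ i * p [ZMOD ((p ^ 2 : ℕ) : ℤ)] := by
    intro i
    let a : ℕ → ℕ := fun p => if Even i then p ^ 2 + 1 - p else 1 + p
    refine ⟨Nat.chineseRemainderOfFinset a (fun p : ℕ => p ^ 2) ((range p0).filter Nat.Prime) hs pp, fun p hp hd => ?_⟩
    have h1 := (Nat.chineseRemainderOfFinset a (fun p : ℕ => p ^ 2) ((range p0).filter Nat.Prime) hs pp).2 p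
      (mem_filter.2 ⟨mem_range.2 ((Wp_pr p0 hp).1 hd), hp⟩)
    have h2 := Int.natCast_modEq_iff.2 h1
    refine h2.trans ?_
    by_cases hi : Even i
    · have ha : a p = p ^ 2 + 1 - p := if_pos hi
      have hle : p ≤ p ^ 2 + 1 := by nlinarith [hp.one_lt]
      rw [ha, hi.neg_one_pow, one_mul, Nat.cast_sub hle]
      refine (Int.modEq_iff_dvd.2 ?_)
      refine ⟨-1, ?_⟩
      push_cast
      ring
    · have ha : a p = 1 + p := if_neg hi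
      rw [ha, (Nat.not_even_iff_odd.1 hi).neg_one_pow]
      push_cast
      ring_nf
      rfl
  choose b hb using key
  refine ⟨b, fun i => ?_, fun i => hb i⟩
  rw [Nat.coprime_iff_gcd_eq_one]
  by_contra hne
  obtain ⟨p, hp, hpd⟩ := Nat.exists_prime_and_dvd hne
  have h1 : p ∣ b i := hpd.trans (Nat.gcd_dvd_left _ _)
  have h2 : p ∣ Wp p0 := hpd.trans (Nat.gcd_dvd_right _ _)
  have h3 := (hb i p hp h2).dvd
  have h4 : (p : ℤ) ∣ ((p ^ 2 : ℕ) : ℤ) := by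
    push_cast
    exact dvd_pow_self _ two_ne_zero
  have h5 := h4.trans h3
  have h6 : (p : ℤ) ∣ (b i : ℤ) := Int.natCast_dvd_natCast.2 h1
  have h7 : (p : ℤ) ∣ 1 := by
    have h8 := dvd_add (dvd_add h5 h6) (dvd_mul_left (p : ℤ) ((-1) ^ i))
    have h9 : 1 - (-1) ^ i * (p : ℤ) - (b i : ℤ) + (b i : ℤ) + (-1) ^ i * (p : ℤ) = 1 := by ring
    rwa [h9] at h8
  have h8 := Int.le_of_dvd one_pos h7
  have h9 := hp.one_lt
  omega

namespace MPar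

/-- the parameters of the mark system for given `k`, `Cp`, `p0`, `e1` -/
noncomputable def mk0 (k Cp p0 : ℕ) (e1 : ℝ) : MPar := ⟨k, Wp p0, Cp, e1, (Wp_cls p0).choose⟩

theorem mk0_ok {k Cp : ℕ} (p0 : ℕ) {e1 : ℝ} (ko : Odd k) (k3 : 3 ≤ k) (hCp : 1 ≤ Cp) (h0 : 0 < e1) (h1 : 80 * ((k : ℝ) + 1) * e1 ≤ 1) :
    (mk0 k Cp p0 e1).Ok where
  ko := ko
  k3 := k3
  W0 := Wp_pos p0
  Cp := hCp
  e0 := h0
  e1 := h1
  bc := (Wp_cls p0).choose_spec.1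
  bp := fun _ => (Wp_cls p0).choose_spec.2

/-- the numerical data; `z` and `D` are free -/
noncomputable def dat (P : Prm) (Q : MPar) (p0 N z D : ℕ) : Dat where
  N := N
  D := D
  p0 := p0
  y := MM P (Q.W ^ 2 * N)
  y0 := Q.y0 N
  z := z
  np := fun p => if N % p = 1 then 2 else 1

/-- `log R ≤ 2 log N` and so on -/
theorem ev_logR (W : ℕ) (hW : 0 < W) : ∀ᶠ N : ℕ in atTop, Real.log N ≤ Real.log ((W ^ 2 * N : ℕ) : ℝ) ∧
    Real.log ((W ^ 2 * N : ℕ) : ℝ) ≤ 2 * Real.log N := by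
  filter_upwards [Pool.Agent.Lib.RH.ev_log_ge (2 * Real.log W), eventually_ge_atTop 1] with N h1 hN
  have hW2 : 1 ≤ W ^ 2 := Nat.one_le_pow _ _ hW
  have hN0 : (0 : ℝ) < N := by exact_mod_cast hN
  constructor
  · exact Real.log_le_log hN0 (by exact_mod_cast Nat.le_mul_of_pos_left N hW2)
  · have hW' : (W : ℝ) ≠ 0 := by exact_mod_cast hW.ne'
    push_cast
    rw [Real.log_mul (pow_ne_zero _ hW') hN0.ne', Real.log_pow]
    push_cast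
    linarith

private theorem DT_pow (n : ℕ) {K : ℝ} (hK : 2 ^ (n + 1) ≤ K) : 2 * (2 * K) ^ n ≤ K ^ (n + 1) := by
  have h0 : (0 : ℝ) ≤ K := le_trans (by positivity) hK
  calc 2 * (2 * K) ^ n = 2 ^ (n + 1) * K ^ n := by rw [mul_pow]; ring
    _ ≤ K * K ^ n := by gcongr
    _ = K ^ (n + 1) := by ring

theorem ev_MM {P : Prm} (hP : P.Ok) {Q : MPar} (hQ : Q.Ok) (p0 : ℕ) : ∀ᶠ N : ℕ in atTop,
    (MM P (Q.W ^ 2 * N) : ℝ) ≤ (Real.log N) ^ (P.C1 + 1) ∧ p0 ≤ MM P (Q.W ^ 2 * N) ∧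
    (JJ (Q.W ^ 2 * N) : ℝ) ≤ (Real.log N) ^ 1001 ∧ Real.exp (18 * (Q.k + 1)) ≤ JJ (Q.W ^ 2 * N) := by
  obtain ⟨N0, hN0⟩ := Pool.Agent.Lib.RH.num P hP
  filter_upwards [ev_logR Q.W hQ.W0, eventually_ge_atTop N0, eventually_ge_atTop 1, Pool.Agent.Lib.RH.ev_log_ge 1,
    Pool.Agent.Lib.RH.ev_log_ge (2 ^ (P.C1 + 1)), Pool.Agent.Lib.RH.ev_log_ge (2 ^ (1000 + 1)),
    Pool.Agent.Lib.RH.ev_log_ge p0, Pool.Agent.Lib.RH.ev_log_ge (Real.exp (18 * (Q.k + 1)))] with N h1 h2 h3 h4 h5 h6 h7 h8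
  have hW2 : 1 ≤ Q.W ^ 2 := Nat.one_le_pow _ _ hQ.W0
  have hR : N ≤ Q.W ^ 2 * N := Nat.le_mul_of_pos_left _ hW2
  have hn := hN0 (Q.W ^ 2 * N) (h2.trans hR)
  obtain ⟨l1, l2⟩ := h1
  set R := Q.W ^ 2 * N with hRd
  set K := Real.log N with hK
  have hlR1 : (1 : ℝ) ≤ Real.log (R : ℝ) := h4.trans l1
  have hlR0 : (0 : ℝ) ≤ Real.log (R : ℝ) := zero_le_one.trans hlR1
  have hC1 : P.C1 ≠ 0 := by have := hP.C1; omega
  refine ⟨?_, ?_, ?_, ?_⟩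
  · refine hn.M2.trans ?_
    exact (mul_le_mul_of_nonneg_left (pow_le_pow_left₀ hlR0 l2 _) zero_le_two).trans (DT_pow P.C1 h5)
  · have h9 : (p0 : ℝ) ≤ MM P R := by
      refine le_trans ?_ hn.M1
      calc (p0 : ℝ) ≤ K := h7
        _ ≤ Real.log (R : ℝ) := l1
        _ ≤ _ := le_self_pow₀ hlR1 hC1
    exact_mod_cast h9
  · refine hn.J2.trans ?_
    exact (mul_le_mul_of_nonneg_left (pow_le_pow_left₀ hlR0 l2 _) zero_le_two).trans (DT_pow 1000 h6)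
  · refine le_trans ?_ hn.J1
    calc Real.exp (18 * (Q.k + 1)) ≤ K := h8
      _ ≤ Real.log (R : ℝ) := l1
      _ ≤ _ := le_self_pow₀ hlR1 (by norm_num)

private theorem DT_kp {Q : MPar} {N : ℕ} (h : Q.Lg N) : (1 : ℝ) ≤ kp N := by
  have h1 := h.k0
  have h2 : (1 : ℝ) ≤ ((Q.k : ℝ) + 1) ^ 4 := one_le_pow₀ (by
    have : (0 : ℝ) ≤ Q.k := Nat.cast_nonneg _
    linarith)
  nlinarith

/-- bounds for `y0` -/
theorem y0_bd {Q : MPar} {N : ℕ} (hQ : Q.Ok) (h : Q.Lg N) : (Q.y0 N : ℝ) ≤ (Real.log N) ^ Q.Cp ∧ (Real.log N) ^ (Q.Cp - 1) ≤ Q.y0 N ∧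
    (Q.y0 N : ℝ) < Real.exp ((kp N) ^ 80) := by
  have hK := h.K1
  have hK0 : 0 < Real.log N := by linarith
  have hK1 : 1 ≤ Real.log N := by linarith
  have h1 : (Q.y0 N : ℝ) ≤ (Real.log N) ^ Q.Cp := Nat.floor_le (by positivity)
  refine ⟨h1, ?_, ?_⟩
  · have h2 : (Real.log N) ^ Q.Cp < (Q.y0 N : ℝ) + 1 := Nat.lt_floor_add_one _
    have h3 : (Real.log N) ^ Q.Cp = Real.log N * (Real.log N) ^ (Q.Cp - 1) := by
      rw [← pow_succ', Nat.sub_add_cancel hQ.Cp]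
    have h4 : (1 : ℝ) ≤ (Real.log N) ^ (Q.Cp - 1) := one_le_pow₀ hK1
    nlinarith
  · have hk := DT_kp h
    have h2 : (Real.log N) ^ Q.Cp = Real.exp (Q.Cp * Real.log (Real.log N)) := by
      rw [Real.exp_nat_mul, Real.exp_log hK0]
    rw [h2] at h1
    refine lt_of_le_of_lt h1 (Real.exp_lt_exp.2 ?_)
    have h3 := h.lk
    have h4 : Q.l0 N = ((Q.Cp : ℝ) + 1) * Real.log (Real.log N) := rfl
    have h5 : 0 < Real.log (Real.log N) := Real.log_pos (by linarith)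
    have h6 : kp N ≤ (kp N) ^ 80 := le_self_pow₀ hk (by norm_num)
    rw [h4] at h3
    nlinarith

/-- the data are admissible -/
theorem ev_dat {P : Prm} (hP : P.Ok) {Q : MPar} (hQ : Q.Ok) (p0 : ℕ) (hC : P.C1 + 2 ≤ Q.Cp) (hW : ∀ p : ℕ, p.Prime → (p ∣ Q.W ↔ p < p0))
    (hsq : Squarefree Q.W) : ∀ᶠ N : ℕ in atTop, Q.Lg N → Even N → ∀ z D : ℕ, Real.exp ((kp N) ^ 80) ≤ z → 0 < D → Q.W ^ 2 ∣ D →
    D ≤ Q.y0 N → (dat P Q p0 N z D).OK Q.W := by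
  filter_upwards [ev_MM hP hQ p0, eventually_gt_atTop 2] with N h1 hN2 h hev z D hz hD hWD hDy
  obtain ⟨m1, m2, -, -⟩ := h1
  obtain ⟨y1, y2, y3⟩ := y0_bd hQ h
  have hK := h.K1
  have hK1 : 1 ≤ Real.log N := by linarith
  refine ⟨hev, hN2, hW, hsq, hWD, hD, hDy, m2, ?_, ?_, ?_⟩
  · change MM P (Q.W ^ 2 * N) ≤ Q.y0 N
    have h2 : (MM P (Q.W ^ 2 * N) : ℝ) ≤ Q.y0 N :=
      m1.trans ((pow_le_pow_right₀ hK1 (by omega)).trans y2)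
    exact_mod_cast h2
  · change Q.y0 N < z
    have h2 : (Q.y0 N : ℝ) < z := lt_of_lt_of_le y3 hz
    exact_mod_cast h2
  · intro p hp _
    change ¬ p ∣ (if N % p = 1 then 2 else 1) ∧ ¬ N ≡ (if N % p = 1 then 2 else 1) [MOD p]
    by_cases h2 : N % p = 1
    · rw [if_pos h2]
      have hp2 : p ≠ 2 := by
        rintro rfl
        have := Nat.even_iff.1 hev
        omega
      have hp3 : 2 < p := lt_of_le_of_ne hp.two_le (Ne.symm hp2)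
      refine ⟨fun hd => ?_, fun hm => ?_⟩
      · have := Nat.le_of_dvd (by norm_num) hd
        omega
      · unfold Nat.ModEq at hm
        rw [h2, Nat.mod_eq_of_lt hp3] at hm
        omega
    · rw [if_neg h2]
      refine ⟨fun hd => ?_, fun hm => ?_⟩
      · have := Nat.le_of_dvd (by norm_num) hd
        have := hp.two_le
        omega
      · unfold Nat.ModEq at hm
        rw [Nat.mod_eq_of_lt hp.one_lt] at hm
        exact h2 hm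

/-- all `D` which occur are small -/
theorem ev_D {P : Prm} (hP : P.Ok) {Q : MPar} (hQ : Q.Ok) (hC : Q.Cf + 2 * (Q.k + 1) + 2 * P.C1 + 7012 ≤ Q.Cp) :
    ∀ᶠ N : ℕ in atTop, Q.Lg N → Q.W ^ 2 * J1 P Q N ≤ Q.y0 N := by
  filter_upwards [ev_J1 hP hQ] with N h1 h
  obtain ⟨-, y2, -⟩ := y0_bd hQ h
  have hK := h.K1
  have hK1 : 1 ≤ Real.log N := by linarith
  have h2 : ((Q.W ^ 2 * J1 P Q N : ℕ) : ℝ) ≤ Q.y0 N :=
    h1.trans ((pow_le_pow_right₀ hK1 (by omega)).trans y2)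
  exact_mod_cast h2

/-- the number `y1 = ⌈log N⌉` -/
theorem ev_y1 {P : Prm} (hP : P.Ok) {Q : MPar} (hQ : Q.Ok) (hC : 3 ≤ Q.Cp) : ∀ᶠ N : ℕ in atTop, Q.Lg N →
    Real.log N ≤ (⌈Real.log N⌉₊ : ℝ) ∧ (⌈Real.log N⌉₊ : ℝ) ≤ 2 * Real.log N ∧ ⌈Real.log N⌉₊ ≤ Q.y0 N ∧
    (⌈Real.log N⌉₊ : ℝ) ≤ (Real.log ((Q.W ^ 2 * N : ℕ) : ℝ)) ^ 2 ∧
    ((JJ (Q.W ^ 2 * N) : ℕ) : ℝ) ^ 3 * (4 * (⌈Real.log N⌉₊ : ℝ)) ^ (2 * Q.k + 2) ≤ J0 P Q N * rho (famY (Q.sys N)) := by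
  filter_upwards [ev_J0 hP hQ, ev_MM hP hQ 0, ev_logR Q.W hQ.W0] with N h1 h2 h3 h
  obtain ⟨-, y2, -⟩ := y0_bd hQ h
  obtain ⟨-, -, -, j1⟩ := h2
  obtain ⟨l1, l2⟩ := h3
  have hK := h.K1
  have hK1 : 1 ≤ Real.log N := by linarith
  have hK0 : 0 ≤ Real.log N := by linarith
  have c1 : Real.log N ≤ (⌈Real.log N⌉₊ : ℝ) := Nat.le_ceil _
  have c2 : (⌈Real.log N⌉₊ : ℝ) ≤ 2 * Real.log N := by
    have := Nat.ceil_lt_add_one hK0
    linarith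
  have c3 : 2 * Real.log N ≤ (Real.log N) ^ 2 := by nlinarith
  refine ⟨c1, c2, ?_, ?_, ?_⟩
  · have h4 : (⌈Real.log N⌉₊ : ℝ) ≤ Q.y0 N :=
      c2.trans (c3.trans ((pow_le_pow_right₀ hK1 (by omega)).trans y2))
    exact_mod_cast h4
  · exact c2.trans (c3.trans (pow_le_pow_left₀ hK0 l1 _))
  · refine le_trans ?_ (h1 h)
    set J : ℝ := ((JJ (Q.W ^ 2 * N) : ℕ) : ℝ) with hJ
    set lR := Real.log ((Q.W ^ 2 * N : ℕ) : ℝ) with hlR
    have hJ0 : 0 ≤ J := Nat.cast_nonneg _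
    have h5 : (2 : ℝ) ^ (2 * Q.k + 2) ≤ J := by
      refine le_trans ?_ j1
      have h6 : Real.exp (18 * ((Q.k : ℝ) + 1)) = Real.exp 9 ^ (2 * Q.k + 2) := by
        rw [← Real.exp_nat_mul]
        congr 1
        push_cast
        ring
      rw [h6]
      refine pow_le_pow_left₀ (by norm_num) ?_ _
      have := Real.add_one_le_exp (9 : ℝ)
      linarith
    have h7 : (4 * (⌈Real.log N⌉₊ : ℝ)) ^ (2 * Q.k + 2) ≤ 2 ^ (2 * Q.k + 2) * (4 * lR) ^ (2 * Q.k + 2) := by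
      rw [← mul_pow]
      refine pow_le_pow_left₀ (by positivity) ?_ _
      linarith
    have h8 : (2 * (Q.k + 1)) = 2 * Q.k + 2 := by ring
    rw [h8]
    have hlR0 : 0 ≤ lR := hK0.trans l1
    calc J ^ 3 * (4 * (⌈Real.log N⌉₊ : ℝ)) ^ (2 * Q.k + 2) ≤ J ^ 3 * (2 ^ (2 * Q.k + 2) * (4 * lR) ^ (2 * Q.k + 2)) := by gcongr
      _ ≤ J ^ 3 * (J * (4 * lR) ^ (2 * Q.k + 2)) := by gcongr
      _ = J ^ 4 * (4 * lR) ^ (2 * Q.k + 2) := by ring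

/-- the number of the colourings compared with `D` -/
theorem ev_cc1 {P : Prm} (hP : P.Ok) (B : ℕ) : ∃ k0 : ℕ, ∀ Q : MPar, Q.Ok → k0 ≤ Q.k → ∀ᶠ N : ℕ in atTop, Q.Lg N → ∀ D : ℕ,
    D ≤ Q.W ^ 2 * J1 P Q N → (D : ℝ) * (Real.log N) ^ (18 * (Q.k + 1) + B) ≤ ((Q.sys N).CC.card : ℝ) := by
  obtain ⟨k0, hk0⟩ := gG (2 * P.C1 + 7012 + B)
  refine ⟨k0, fun Q hQ hk => ?_⟩
  filter_upwards [ev_J1 hP hQ] with N h1 h D hD
  have hg := hk0 Q hQ hk N h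
  have hcc := cc_lo hQ h
  have hK := h.K1
  have hK2 : 2 ≤ Real.log N := by linarith
  have hK0 : 0 < Real.log N := by linarith
  have h2 : (D : ℝ) ≤ (Real.log N) ^ (Q.Cf + 2 * (Q.k + 1) + 2 * P.C1 + 7011) := by
    refine le_trans ?_ h1
    exact_mod_cast hD
  have h3 : (D : ℝ) * (Real.log N) ^ (18 * (Q.k + 1) + B) ≤
      (Real.log N) ^ (Q.Cf + 2 * (Q.k + 1) + 2 * P.C1 + 7011) * (Real.log N) ^ (18 * (Q.k + 1) + B) := by gcongr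
  have h4 : (Real.log N) ^ (Q.Cf + 20 * (Q.k + 1) + (2 * P.C1 + 7012 + B)) =
      Real.log N * ((Real.log N) ^ (Q.Cf + 2 * (Q.k + 1) + 2 * P.C1 + 7011) * (Real.log N) ^ (18 * (Q.k + 1) + B)) := by
    rw [← pow_add, ← pow_succ']
    congr 1
    ring
  rw [h4] at hg
  have h5 : 2 * ((Real.log N) ^ (Q.Cf + 2 * (Q.k + 1) + 2 * P.C1 + 7011) * (Real.log N) ^ (18 * (Q.k + 1) + B)) ≤
      Real.log N * ((Real.log N) ^ (Q.Cf + 2 * (Q.k + 1) + 2 * P.C1 + 7011) * (Real.log N) ^ (18 * (Q.k + 1) + B)) :=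
    mul_le_mul_of_nonneg_right hK2 (by positivity)
  linarith

end MPar

end Pool.Agent.Lib.TC
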