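import Pool.Agent.Lib.MP_7b7e48_nt.BR3.J

/-!
# BR3.JY (70 minutes): the sets of `Y` are pairwise disjoint

For the family of all sets of `Y`, indexed by `(Fin (k+1)) ⊕ (Fin n0 ⊕ Fin nY)`. Windows `i < j`: `2 Z i ≤ Z j` (`Z_step`). Windows against the others: `w_ok`: `log p > κ ^ 90`, `nw_ok`: `log p ≤ κ ^ 80`. Free against free: `pc g`,
`pc g'` with `g ≠ g'` (`f ↦ (j1 + f / la) G + f % la` is injective as `f % la < la ≤ G`): `pc_disj`. Free against other: pairs: `log ≤ 7/5 l0 < κ^25`; ballast `g = j5 G + i`, `i < k < G`, against free `g < j2 G ≤ j5 G`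
(`j25`, `f / la < j2 - j1`, `f % la < G`). Other against other: the number `e` is determined by `(i, t) = (e / (np+1), e % (np+1))`; two pairs `(i, t) ≠ (i', t')`: the intervals `(a, a + 1]`, `a = l0 + 2 (k t + i)`, `i < k`;
pair against ballast: sizes; two ballasts: `g ≠ g'`.
-/

set_option autoImplicit false

open Finset

namespace Pool.Agent.Lib.TC

namespace MPar

variable {Q : MPar} {N : ℕ}

private theorem JY_kp (h : Q.Lg N) : (10 : ℝ) ^ 10 ≤ kp N := by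
  have h1 := h.k0
  have h2 : (1 : ℝ) ≤ (Q.k + 1) ^ 4 := by
    have : (1 : ℝ) ≤ (Q.k : ℝ) + 1 := by
      have : (0 : ℝ) ≤ Q.k := Nat.cast_nonneg _
      linarith
    exact one_le_pow₀ this
  have h3 : (10 : ℝ) ^ 10 * 1 ≤ (10 : ℝ) ^ 10 * (Q.k + 1) ^ 4 :=
    mul_le_mul_of_nonneg_left h2 (by norm_num)
  linarith

private theorem JY_Z (hQ : Q.Ok) {i j : ℕ} (hij : i < j) (hj : j ≤ Q.k) : 16 * Q.Z N i ≤ Q.Z N j := by
  induction j with
  | zero => omega
  | succ j ih =>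
    have h1 := Z_step (N := N) hQ (show j < Q.k by omega)
    rcases Nat.lt_succ_iff_lt_or_eq.1 hij with h2 | h2
    · have h3 := ih h2 (by omega)
      omega
    · rw [h2]
      exact h1

private theorem JY_ww (hQ : Q.Ok) {i j : ℕ} (hij : i < j) (hj : j ≤ Q.k) : Disjoint (Q.WYs N i) (Q.WYs N j) := by
  rw [Finset.disjoint_left]
  intro p hp hp'
  unfold WYs at hp hp'
  have h1 := (mem_Ioc.1 (mem_filter.1 hp).1).2
  have h2 := (mem_Ioc.1 (mem_filter.1 hp').1).1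
  have h3 := JY_Z (N := N) hQ hij hj
  omega

private theorem JY_wo (hQ : Q.Ok) (h : Q.Lg N) {i : ℕ} (hi : i ≤ Q.k) {S : Finset ℕ}
    (hS : (∃ f, S = (Q.sys N).FY f) ∨ ∃ e, S = (Q.sys N).OY e) : Disjoint (Q.WYs N i) S := by
  rw [Finset.disjoint_left]
  intro p hp hp'
  have h1 := (w_ok hQ h hi (Or.inr hp)).2.2.1
  have h2 : Real.log p ≤ (kp N) ^ 80 := by
    rcases hS with ⟨f, hf⟩ | ⟨e, he⟩
    · rw [hf] at hp'
      exact (nw_ok hQ h (Or.inr (Or.inl ⟨f, hp'⟩))).2.2.2.1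
    · rw [he] at hp'
      exact (nw_ok hQ h (Or.inr (Or.inr (Or.inr ⟨e, hp'⟩)))).2.2.2.1
  have h3 : (1 : ℝ) ≤ kp N := le_trans (by norm_num) (JY_kp h)
  have h4 : kp N ^ 80 ≤ kp N ^ 90 := pow_le_pow_right₀ h3 (by norm_num)
  linarith

private theorem JY_mod {G m s : ℕ} (hs : s < G) : (m * G + s) % G = s ∧ (m * G + s) / G = m := by
  constructor
  · rw [Nat.add_comm, Nat.add_mul_mod_self_right, Nat.mod_eq_of_lt hs]
  · rw [Nat.add_comm, Nat.add_mul_div_right _ _ (by omega), Nat.div_eq_of_lt hs, Nat.zero_add]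

private theorem JY_laG (Q : MPar) : Q.la ≤ Q.G := by
  unfold G
  omega

private theorem JY_ff (hQ : Q.Ok) {f f' : ℕ} (hf : f ≠ f') : Disjoint (Q.FXs N f) (Q.FXs N f') := by
  unfold FXs
  refine pc_disj ?_
  intro h1
  have hla := la_pos hQ
  have hlaG := JY_laG Q
  have h2 := JY_mod (m := j1 N + f / Q.la) (lt_of_lt_of_le (Nat.mod_lt f hla) hlaG)
  have h3 := JY_mod (m := j1 N + f' / Q.la) (lt_of_lt_of_le (Nat.mod_lt f' hla) hlaG)
  rw [h1] at h2
  have h4 : f % Q.la = f' % Q.la := h2.1.symm.trans h3.1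
  have h5 : j1 N + f / Q.la = j1 N + f' / Q.la := h2.2.symm.trans h3.2
  have h6 : f / Q.la = f' / Q.la := by omega
  refine hf ?_
  rw [← Nat.div_add_mod f Q.la, ← Nat.div_add_mod f' Q.la, h4, h6]

private theorem JY_bl {i : ℕ} (hi : i < Q.k) : i < Q.G := by
  unfold G
  omega

private theorem JY_fo (hQ : Q.Ok) (h : Q.Lg N) {f : ℕ} (hf : f < Q.n0 N) {i t : ℕ} (hi : i < Q.k) :
    Disjoint (Q.FXs N f) (Q.OYs N i t) := by
  by_cases ht : t < Q.np N
  · rw [Finset.disjoint_left]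
    intro p hp hp'
    unfold OYs at hp'
    rw [if_pos ht] at hp'
    have h1 := (fx_log hQ h hf hp).1
    have h2 := (py_log hQ h hi ht hp').2.2.2
    have hκ := JY_kp h
    have h3 : (1 : ℝ) ≤ kp N := le_trans (by norm_num) hκ
    have h4 : kp N ^ 2 ≤ kp N ^ 25 := pow_le_pow_right₀ h3 (by norm_num)
    have h5 : 2 * kp N ≤ kp N ^ 2 := by
      rw [pow_two]
      exact mul_le_mul_of_nonneg_right (le_trans (by norm_num) hκ) (by linarith)
    have h6 := h.lk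
    have h7 : (0 : ℝ) ≤ kp N := by linarith
    linarith
  · unfold OYs FXs
    rw [if_neg ht]
    refine pc_disj ?_
    intro h1
    have hla := la_pos hQ
    have hlaG := JY_laG Q
    have h2 := JY_mod (m := j1 N + f / Q.la) (lt_of_lt_of_le (Nat.mod_lt f hla) hlaG)
    have h3 := JY_mod (m := j5 N) (JY_bl hi)
    rw [h1] at h2
    have h4 := h2.2.symm.trans h3.2
    have h5 : f / Q.la < j2 N - j1 N := by
      unfold n0 at hf
      exact Nat.div_lt_of_lt_mul hf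
    have h6 := h.j25
    generalize f / Q.la = d at h4 h5
    omega

private theorem JY_pp {k i i' t t' : ℕ} (hi : i < k) (hi' : i' < k)
    (h : k * t + i = k * t' + i') : i = i' ∧ t = t' := by
  rcases Nat.lt_trichotomy t t' with h1 | h1 | h1
  · exfalso
    have h2 : k * (t + 1) ≤ k * t' := Nat.mul_le_mul_left _ h1
    rw [Nat.mul_add, Nat.mul_one] at h2
    omega
  · rw [h1] at h ⊢
    exact ⟨by omega, rfl⟩
  · exfalso
    have h2 : k * (t' + 1) ≤ k * t := Nat.mul_le_mul_left _ h1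
    rw [Nat.mul_add, Nat.mul_one] at h2
    omega

private theorem JY_pr (hQ : Q.Ok) (h : Q.Lg N) {i t i' : ℕ} (hi : i < Q.k) (ht : t < Q.np N) (hi' : i' < Q.k) :
    Disjoint (Q.PYs N i t) (Q.pc N (j5 N * Q.G + i')) := by
  rw [Finset.disjoint_left]
  intro p hp hp'
  have h2 := (py_log hQ h hi ht hp).2.2.2
  have h1 := (bal_log hQ h hi' hp').1
  have hκ := JY_kp h
  have h3 : (1 : ℝ) ≤ kp N := le_trans (by norm_num) hκ
  have h4 : kp N ^ 2 ≤ kp N ^ 70 := pow_le_pow_right₀ h3 (by norm_num)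
  have h5 : 2 * kp N ≤ kp N ^ 2 := by
    rw [pow_two]
    exact mul_le_mul_of_nonneg_right (le_trans (by norm_num) hκ) (by linarith)
  have h6 := h.lk
  have h7 : (0 : ℝ) ≤ kp N := by linarith
  linarith

private theorem JY_oo (hQ : Q.Ok) (h : Q.Lg N) {i t i' t' : ℕ} (hi : i < Q.k) (hi' : i' < Q.k)
    (hlt : t < Q.np N + 1) (hlt' : t' < Q.np N + 1)
    (hne : ¬ (i = i' ∧ t = t')) : Disjoint (Q.OYs N i t) (Q.OYs N i' t') := by
  unfold OYs
  by_cases ht : t < Q.np N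
  · by_cases ht' : t' < Q.np N
    · rw [if_pos ht, if_pos ht', Finset.disjoint_left]
      intro p hp hp'
      unfold PYs at hp hp'
      obtain ⟨h1, -⟩ := mem_filter.1 hp
      obtain ⟨h2, -⟩ := mem_filter.1 hp'
      have h3 : p.Prime := (Pool.Agent.Lib.OW.mem_PR.1 h1).1
      obtain ⟨a1, a2⟩ := (Pool.Agent.Lib.OW.mem_PR_log h3).1 h1
      obtain ⟨b1, b2⟩ := (Pool.Agent.Lib.OW.mem_PR_log h3).1 h2
      have c1 : ((2 * (Q.k * t + i) : ℕ) : ℝ) < ((2 * (Q.k * t' + i') : ℕ) : ℝ) + 1 := by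
        push_cast
        push_cast at a1 b2
        linarith
      have c2 : ((2 * (Q.k * t' + i') : ℕ) : ℝ) < ((2 * (Q.k * t + i) : ℕ) : ℝ) + 1 := by
        push_cast
        push_cast at a2 b1
        linarith
      have d1 : 2 * (Q.k * t + i) < 2 * (Q.k * t' + i') + 1 := by exact_mod_cast c1
      have d2 : 2 * (Q.k * t' + i') < 2 * (Q.k * t + i) + 1 := by exact_mod_cast c2
      exact hne (JY_pp hi hi' (by omega))
    · rw [if_pos ht, if_neg ht']
      exact JY_pr hQ h hi ht hi'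
  · by_cases ht' : t' < Q.np N
    · rw [if_neg ht, if_pos ht']
      exact (JY_pr hQ h hi' ht' hi).symm
    · rw [if_neg ht, if_neg ht']
      refine pc_disj ?_
      intro h1
      refine hne ?_
      omega

private theorem JY_e {k n e : ℕ} (he : e < k * n) : e / n < k := by
  refine Nat.div_lt_of_lt_mul ?_
  rwa [Nat.mul_comm]

private theorem JY_ee {n e e' : ℕ} (hne : e ≠ e') : ¬ (e / n = e' / n ∧ e % n = e' % n) := by
  rintro ⟨h1, h2⟩
  refine hne ?_
  rw [← Nat.div_add_mod e n, ← Nat.div_add_mod e' n, h1, h2]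

theorem sets_y (hQ : Q.Ok) (h : Q.Lg N) (a b : Fin ((Q.sys N).k + 1) ⊕ (Fin (Q.sys N).n0 ⊕ Fin (Q.sys N).nY)) (hab : a ≠ b) :
    Disjoint (Sum.elim (Q.sys N).WY (Sum.elim (Q.sys N).FY (Q.sys N).OY) a)
      (Sum.elim (Q.sys N).WY (Sum.elim (Q.sys N).FY (Q.sys N).OY) b) := by
  have key : ∀ (f : Fin (Q.n0 N)) (e : Fin (Q.k * (Q.np N + 1))), Disjoint ((Q.sys N).FY f) ((Q.sys N).OY e) := by
    intro f e
    exact JY_fo hQ h f.2 (JY_e e.2)
  rcases a with i | f | e <;> rcases b with i' | f' | e'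
  · have hne : (i : ℕ) ≠ (i' : ℕ) := fun h1 => hab (by rw [Fin.ext h1])
    have hi : (i : ℕ) ≤ Q.k := Nat.lt_succ_iff.1 i.2
    have hi' : (i' : ℕ) ≤ Q.k := Nat.lt_succ_iff.1 i'.2
    rcases lt_or_gt_of_ne hne with h1 | h1
    · exact JY_ww hQ h1 hi'
    · exact (JY_ww hQ h1 hi).symm
  · exact JY_wo hQ h (Nat.lt_succ_iff.1 i.2) (Or.inl ⟨f', rfl⟩)
  · exact JY_wo hQ h (Nat.lt_succ_iff.1 i.2) (Or.inr ⟨e', rfl⟩)
  · exact (JY_wo hQ h (Nat.lt_succ_iff.1 i'.2) (Or.inl ⟨f, rfl⟩)).symm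
  · exact JY_ff hQ (fun h1 => hab (by rw [Fin.ext h1]))
  · exact key f e'
  · exact (JY_wo hQ h (Nat.lt_succ_iff.1 i'.2) (Or.inr ⟨e, rfl⟩)).symm
  · exact (key f' e).symm
  · have hne : (e : ℕ) ≠ (e' : ℕ) := fun h1 => hab (by rw [Fin.ext h1])
    exact JY_oo hQ h (JY_e e.2) (JY_e e'.2) (Nat.mod_lt _ (Nat.succ_pos _)) (Nat.mod_lt _ (Nat.succ_pos _))
      (JY_ee hne)

end MPar

end Pool.Agent.Lib.TC
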