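import Pool.Agent.Lib.MP_7b7e48_nt.BR3.J
import Pool.Agent.Lib.MP_7b7e48_nt.BR.Fam

/-!
# BR3.L (60 minutes): lower bounds of the masses of the sets, families

`κ = kp N`, `K = log N = κ ^ 100`, `l0 ≤ κ`, `κ ≥ 10 ^ 10 (k+1)^4`, `1 ≤ G ≤ κ` (`G = (k+1)^2/2 + 6 k ≤ 7 (k + 1)^2`).
`mFX`: `pcm` with the `g` of `FXs f`: `exp (g / G) ≥ exp j1 ≥ κ ^ 25 ≥ 2 l0`, `exp ((g + 1)/G) ≤ exp j2 ≤ κ ^ 50` (see the proof of `fx_log`). `mRS`: `exp (g/G) ≥ exp j3 ≥ 2 l0`,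
`exp ((g+1)/G) ≤ exp j4 ≤ 3 κ ^ 75`. `mBal`: `exp (g / G) ≥ exp j5`, `exp ((g+1)/G) ≤ exp (j5 + 1) ≤ 9 κ^70`. `mPX`, `mPY`: `prm` with `s = l0 + 2 (k t + i) + t + 2 ≤ (7/5) l0`, resp.
`s = l0 + 2 (k t + i)` (`np3`, `k t + i < k np`).
`mass_lo`: `1/(1.1 G) ≥ 2 / K ^ 2`, `1/(5 l0) ≥ 2 / K ^ 2`.
`famX_mem`/`famY_mem`: every set of the family is one of the sets of `S` (`Fin.addCases`, `Fin.append_left`, `Fin.append_right`).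
-/

set_option autoImplicit false

open Finset

namespace Pool.Agent.Lib.TC

namespace MPar

variable {Q : MPar} {N : ℕ}

private theorem L_kp (h : Q.Lg N) : (10 : ℝ) ^ 10 ≤ kp N := by
  have hk0 := h.k0
  have hk4 : (1 : ℝ) ≤ ((Q.k : ℝ) + 1) ^ 4 := one_le_pow₀ (by have : (0 : ℝ) ≤ Q.k := Nat.cast_nonneg _; linarith)
  nlinarith

private theorem L_mono (h : Q.Lg N) {m n : ℕ} (hm : m ≤ n) : kp N ^ m ≤ kp N ^ n :=
  pow_le_pow_right₀ (le_trans (by norm_num) (L_kp h)) hm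

private theorem L_pow (h : Q.Lg N) {m : ℕ} (n : ℕ) (hm : m = n + 1) : (10 : ℝ) ^ 10 * kp N ^ n ≤ kp N ^ m := by
  have h1 := L_kp h
  have h2 : (0 : ℝ) ≤ kp N ^ n := pow_nonneg (le_trans (by norm_num) h1) n
  rw [hm, pow_succ (kp N) n, mul_comm (kp N ^ n)]
  exact mul_le_mul_of_nonneg_right h1 h2

private theorem L_up {i t : ℕ} (hi : i < Q.k) (ht : t < Q.np N) :
    ((Q.k * t + i : ℕ) : ℝ) + 1 ≤ (Q.k : ℝ) * Q.np N := by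
  have h1 : Q.k * t + i + 1 ≤ Q.k * Q.np N := by
    have h2 : Q.k * (t + 1) ≤ Q.k * Q.np N := Nat.mul_le_mul_left _ ht
    rw [Nat.mul_add, Nat.mul_one] at h2
    omega
  exact_mod_cast h1

private theorem L_G (h : Q.Lg N) : (Q.G : ℝ) ≤ kp N := by
  have hk0 := h.k0
  have h0 : (0 : ℝ) ≤ Q.k := Nat.cast_nonneg _
  have h1 : (Q.la : ℝ) ≤ ((Q.k : ℝ) + 1) ^ 2 := by
    have h2 : Q.la ≤ (Q.k + 1) ^ 2 := Nat.div_le_self _ _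
    exact_mod_cast h2
  have h2 : (Q.G : ℝ) = Q.la + 6 * Q.k := by
    unfold G
    push_cast
    ring
  have h3 : ((Q.k : ℝ) + 1) ^ 4 = ((Q.k : ℝ) + 1) ^ 2 * ((Q.k : ℝ) + 1) ^ 2 := by ring
  have h4 : (1 : ℝ) ≤ ((Q.k : ℝ) + 1) ^ 2 := one_le_pow₀ (by linarith)
  have h5 : ((Q.k : ℝ) + 1) ^ 2 ≤ ((Q.k : ℝ) + 1) ^ 4 := by
    rw [h3]
    nlinarith
  nlinarith

private theorem L_lo (hQ : Q.Ok) (h : Q.Lg N) :
    2 / (Real.log N) ^ 2 ≤ 1 / (1.1 * (Q.G : ℝ)) ∧ 2 / (Real.log N) ^ 2 ≤ 1 / (5 * Q.l0 N) := by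
  have hκ := L_kp h
  have hG : (0 : ℝ) < Q.G := by exact_mod_cast G_pos hQ
  have hG2 := L_G h
  have hl := h.lk
  have hlb := h.lb
  have hl0 : 0 < Q.l0 N := lt_of_lt_of_le (by positivity) hlb
  have hK := h.K1
  have hK0 : 0 < Real.log N := lt_of_lt_of_le (by norm_num) hK
  have hKκ : kp N ≤ Real.log N := by
    rw [← h.Kk]
    calc kp N = kp N ^ 1 := (pow_one _).symm
      _ ≤ kp N ^ 100 := L_mono h (by norm_num)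
  have h1 : (10 : ℝ) ^ 10 * kp N ≤ (Real.log N) ^ 2 := by
    rw [sq]
    exact mul_le_mul hK hKκ (by linarith) hK0.le
  constructor
  · rw [div_le_div_iff₀ (by positivity) (by positivity)]
    linarith
  · rw [div_le_div_iff₀ (by positivity) (by positivity)]
    linarith

theorem mFX (hQ : Q.Ok) (h : Q.Lg N) {f : ℕ} (hf : f < Q.n0 N) : 1 / (1.1 * Q.G) ≤ ∑ p ∈ Q.FXs N f, 1 / (p : ℝ) := by
  have hg := fx_g hQ h hf
  have hκ := L_kp h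
  have hl := h.lk
  have e1 := L_pow h 1 (m := 2) rfl
  rw [pow_one] at e1
  have e2 := L_mono h (show 2 ≤ 25 by norm_num)
  have e3 := L_mono h (show 50 ≤ 80 by norm_num)
  exact h.pcm _ (le_trans (by linarith) hg.1) (hg.2.trans e3)

theorem mRS (hQ : Q.Ok) (h : Q.Lg N) {i r : ℕ} (hi : i < Q.k) (hr : r < Q.nr N) : 1 / (1.1 * Q.G) ≤ ∑ p ∈ Q.rs N i r, 1 / (p : ℝ) := by
  have hg := rs_g hQ h hi r
  have hu := rs_unit hQ h hr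
  have hκ := L_kp h
  have e1 := L_pow h 75 (m := 76) rfl
  have e2 := L_mono h (show 76 ≤ 80 by norm_num)
  have e3 : (0 : ℝ) ≤ kp N ^ 75 := pow_nonneg (le_trans (by norm_num) hκ) _
  exact h.pcm _ (hu.1.trans hg.1) (hg.2.trans (by linarith [hu.2]))

theorem mBal (hQ : Q.Ok) (h : Q.Lg N) {i : ℕ} (hi : i < Q.k) : 1 / (1.1 * Q.G) ≤ ∑ p ∈ Q.pc N (j5 N * Q.G + i), 1 / (p : ℝ) := by
  have hg := bal_g hQ h hi
  have hκ := L_kp h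
  have hl := h.lk
  have e1 := L_pow h 1 (m := 2) rfl
  rw [pow_one] at e1
  have e2 := L_mono h (show 2 ≤ 70 by norm_num)
  have e3 := L_pow h 70 (m := 71) rfl
  have e4 := L_mono h (show 71 ≤ 80 by norm_num)
  have e5 : (0 : ℝ) ≤ kp N ^ 70 := pow_nonneg (le_trans (by norm_num) hκ) _
  exact h.pcm _ (le_trans (by linarith) hg.1) (hg.2.trans (by linarith))

theorem mPX (hQ : Q.Ok) (h : Q.Lg N) {i t : ℕ} (hi : i < Q.k) (ht : t < Q.np N) : 1 / (5 * Q.l0 N) ≤ ∑ p ∈ Q.PXs N i t, 1 / (p : ℝ) := by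
  have h5 : (0 : ℝ) ≤ ((Q.k * t + i : ℕ) : ℝ) := Nat.cast_nonneg _
  have h6 : (0 : ℝ) ≤ (t : ℝ) := Nat.cast_nonneg _
  have h7 := L_up hi ht
  have h8 : (t : ℝ) + 1 ≤ Q.np N := by exact_mod_cast ht
  have h9 := h.np3
  have hlb := h.lb
  have hl0 : 0 < Q.l0 N := lt_of_lt_of_le (by positivity) hlb
  have h10 := h.prm (Q.l0 N + 2 * (Q.k * t + i : ℕ) + t + 2) (by linarith) (by linarith)
  unfold PXs
  rw [show Q.l0 N + 2 * (Q.k * t + i : ℕ) + t + 3 = Q.l0 N + 2 * (Q.k * t + i : ℕ) + t + 2 + 1 by ring]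
  exact h10

theorem mPY (hQ : Q.Ok) (h : Q.Lg N) {i t : ℕ} (hi : i < Q.k) (ht : t < Q.np N) : 1 / (5 * Q.l0 N) ≤ ∑ p ∈ Q.PYs N i t, 1 / (p : ℝ) := by
  have h5 : (0 : ℝ) ≤ ((Q.k * t + i : ℕ) : ℝ) := Nat.cast_nonneg _
  have h6 : (0 : ℝ) ≤ (t : ℝ) := Nat.cast_nonneg _
  have h7 := L_up hi ht
  have h8 : (t : ℝ) + 1 ≤ Q.np N := by exact_mod_cast ht
  have h9 := h.np3
  have hlb := h.lb
  have hl0 : 0 < Q.l0 N := lt_of_lt_of_le (by positivity) hlb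
  exact h.prm (Q.l0 N + 2 * (Q.k * t + i : ℕ)) (by linarith) (by linarith)

theorem mass_lo (hQ : Q.Ok) (h : Q.Lg N) :
    (∀ i, 2 / (Real.log N) ^ 2 ≤ ∑ p ∈ (Q.sys N).WX i, 1 / (p : ℝ)) ∧ (∀ i, 2 / (Real.log N) ^ 2 ≤ ∑ p ∈ (Q.sys N).WY i, 1 / (p : ℝ)) ∧
    (∀ f, 2 / (Real.log N) ^ 2 ≤ ∑ p ∈ (Q.sys N).FX f, 1 / (p : ℝ)) ∧ (∀ f, 2 / (Real.log N) ^ 2 ≤ ∑ p ∈ (Q.sys N).FY f, 1 / (p : ℝ)) ∧
    (∀ e, 2 / (Real.log N) ^ 2 ≤ ∑ p ∈ (Q.sys N).OX e, 1 / (p : ℝ)) ∧ ∀ e, 2 / (Real.log N) ^ 2 ≤ ∑ p ∈ (Q.sys N).OY e, 1 / (p : ℝ) := by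
  obtain ⟨a1, a2⟩ := L_lo hQ h
  refine ⟨fun i => h.wxm i (Nat.lt_succ_iff.1 i.2), fun i => h.wym i (Nat.lt_succ_iff.1 i.2), fun f => a1.trans (mFX hQ h f.2),
    fun f => a1.trans (mFX hQ h f.2), fun e => ?_, fun e => ?_⟩
  · have he : (e : ℕ) < Q.k * Q.nit N := e.2
    have hn : 0 < Q.nit N := Nat.pos_of_ne_zero fun h0 => by rw [h0, Nat.mul_zero] at he; exact Nat.not_lt_zero _ he
    have hi : (e : ℕ) / Q.nit N < Q.k := Nat.div_lt_of_lt_mul (by rwa [Nat.mul_comm])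
    have ht : (e : ℕ) % Q.nit N < Q.nit N := Nat.mod_lt _ hn
    show 2 / (Real.log N) ^ 2 ≤ ∑ p ∈ Q.OXs N ((e : ℕ) / Q.nit N) ((e : ℕ) % Q.nit N), 1 / (p : ℝ)
    unfold OXs
    split_ifs with h1
    · exact a2.trans (mPX hQ h hi h1)
    · have hr : (e : ℕ) % Q.nit N - Q.np N < Q.nr N := by
        have hnit : Q.nit N = Q.np N + Q.nr N := rfl
        omega
      exact a1.trans (mRS hQ h hi hr)
  · have he : (e : ℕ) < Q.k * (Q.np N + 1) := e.2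
    have hi : (e : ℕ) / (Q.np N + 1) < Q.k := Nat.div_lt_of_lt_mul (by rwa [Nat.mul_comm])
    show 2 / (Real.log N) ^ 2 ≤ ∑ p ∈ Q.OYs N ((e : ℕ) / (Q.np N + 1)) ((e : ℕ) % (Q.np N + 1)), 1 / (p : ℝ)
    unfold OYs
    split_ifs with h1
    · exact a2.trans (mPY hQ h hi h1)
    · exact a1.trans (mBal hQ h hi)

end MPar

end Pool.Agent.Lib.TC
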