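import Pool.Agent.Lib.MP_7b7e48_nt.BR3.J2
import Pool.Agent.Lib.MP_7b7e48_nt.BR3.JX
import Pool.Agent.Lib.MP_7b7e48_nt.BR3.JY
import Pool.Agent.Lib.MP_7b7e48_nt.BR3.I2
import Pool.Agent.Lib.MP_7b7e48_nt.BR3.L
import Pool.Agent.Lib.MP_7b7e48_nt.TC.POK

/-!
# BR3.K (70 minutes): `MS.OK`, `SetsOk`

`κ = kp N`, `K = log N = κ ^ 100`. `y0 = ⌊K ^ Cp⌋`: every prime `p` with `log p > l0 = (Cp + 1) log K` is `> K ^ Cp ≥ y0`. `nw_ok`, `w_ok`: `log p ≤ κ ^ 80`, so `p ≤ z`.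
`WY_mem`: `l ≡ b i mod W^2`, `p ∣ W`, so `l ≡ b i mod p ^ 2`, and `bp`. `Z_lt`: `Z_step` (`16 Z i ≤ Z (i+1)`, induction), `Z i > 0`. `Z_lo`: `z ^ 2 ≤ Z 0 ≤ Z i`.
`num`: `cnt`, `κ ≤ K`. `AB`: `comp`. `small`: `small_x`, `small_y`: `N ^ (8 (k+1) e1) ≤ N ^ (1/10)` by `e1`. `sets_ok`: from `nw_ok`, `w_ok`, `sets_x`, `sets_y` (`famX S c` is one of the sets:
`Fin.addCases`, `Fin.append_left/right`).
-/

set_option autoImplicit false

open Finset

namespace Pool.Agent.Lib.TC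

namespace MPar

variable {Q : MPar} {N : ℕ}

/-- the small sieve limit -/
noncomputable def y0 (Q : MPar) (N : ℕ) : ℕ := ⌊(Real.log N) ^ Q.Cp⌋₊

private theorem K_kp (h : Q.Lg N) : (1 : ℝ) ≤ kp N := by
  have h1 := h.k0
  have h2 : (1 : ℝ) ≤ ((Q.k : ℝ) + 1) ^ 4 := one_le_pow₀ (by
    have : (0 : ℝ) ≤ Q.k := Nat.cast_nonneg _
    linarith)
  nlinarith

private theorem K_kK (h : Q.Lg N) : kp N ≤ Real.log N := by
  rw [← h.Kk]
  calc kp N = (kp N) ^ 1 := (pow_one _).symm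
    _ ≤ (kp N) ^ 100 := pow_le_pow_right₀ (K_kp h) (by norm_num)

private theorem K_l0 (h : Q.Lg N) : 0 < Q.l0 N := by
  have h1 := h.lb
  have h2 : (0 : ℝ) < (10 : ℝ) ^ 6 * (Q.k + 1) ^ 4 := by positivity
  linarith

theorem y0_lt (hQ : Q.Ok) (h : Q.Lg N) {p : ℕ} (hp : Q.l0 N < Real.log p) : Q.y0 N < p := by
  have _ := hQ
  have hK1 : (1 : ℝ) ≤ Real.log N := (K_kp h).trans (K_kK h)
  have hK0 : 0 < Real.log N := by linarith
  have hl := Real.log_nonneg hK1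
  have hp0 : 0 < p := by
    rcases Nat.eq_zero_or_pos p with h1 | h1
    · exfalso
      rw [h1, Nat.cast_zero, Real.log_zero] at hp
      linarith [K_l0 h]
    · exact h1
  have hp0' : (0 : ℝ) < p := by exact_mod_cast hp0
  unfold y0
  rw [Nat.floor_lt (by positivity)]
  have h1 : Real.log ((Real.log N) ^ Q.Cp) < Real.log p := by
    rw [Real.log_pow]
    refine lt_of_le_of_lt ?_ hp
    unfold l0
    have h2 : (Q.Cp : ℝ) * Real.log (Real.log N) ≤ (Q.Cp + 1) * Real.log (Real.log N) :=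
      mul_le_mul_of_nonneg_right (by linarith) hl
    exact h2
  exact (Real.log_lt_log_iff (by positivity) hp0').mp h1

/-- the place of a set in the sequence of the sets -/
private def K_ix (a b c : ℕ) (x : Fin (a + b + c)) : Fin a ⊕ (Fin b ⊕ Fin c) :=
  Fin.addCases (fun y => Fin.addCases (fun i => Sum.inl i) (fun f => Sum.inr (Sum.inl f)) y)
    (fun e => Sum.inr (Sum.inr e)) x

private theorem K_ix_inj (a b c : ℕ) : Function.Injective (K_ix a b c) := by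
  have h : Function.LeftInverse (Sum.elim (fun i => Fin.castAdd c (Fin.castAdd b i))
      (Sum.elim (fun f => Fin.castAdd c (Fin.natAdd a f)) (fun e => Fin.natAdd (a + b) e)))
      (K_ix a b c) := by
    intro x
    unfold K_ix
    refine Fin.addCases (fun y => ?_) (fun e => ?_) x
    · rw [Fin.addCases_left]
      refine Fin.addCases (fun i => ?_) (fun f => ?_) y
      · rw [Fin.addCases_left]
        rfl
      · rw [Fin.addCases_right]
        rfl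
    · rw [Fin.addCases_right]
      rfl
  exact h.injective

private theorem K_fam {a b c : ℕ} (A : Fin a → Finset ℕ) (B : Fin b → Finset ℕ)
    (C : Fin c → Finset ℕ) (x : Fin (a + b + c)) :
    Fin.append (Fin.append A B) C x = Sum.elim A (Sum.elim B C) (K_ix a b c x) := by
  unfold K_ix
  refine Fin.addCases (fun y => ?_) (fun e => ?_) x
  · rw [Fin.addCases_left, Fin.append_left]
    refine Fin.addCases (fun i => ?_) (fun f => ?_) y
    · rw [Fin.addCases_left, Fin.append_left]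
      rfl
    · rw [Fin.addCases_right, Fin.append_right]
      rfl
  · rw [Fin.addCases_right, Fin.append_right]
    rfl

private theorem K_w (hQ : Q.Ok) (h : Q.Lg N) {p : ℕ} {i : ℕ} (hi : i ≤ Q.k)
    (hp : p ∈ Q.WXs N i ∨ p ∈ Q.WYs N i) : p.Prime ∧ ¬ p ∣ N ∧ Q.y0 N < p := by
  obtain ⟨h1, h2, h3, h4⟩ := w_ok hQ h hi hp
  refine ⟨h1, h2, y0_lt hQ h ?_⟩
  refine lt_of_le_of_lt (h.lk.trans ?_) h3
  calc kp N = (kp N) ^ 1 := (pow_one _).symm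
    _ ≤ (kp N) ^ 90 := pow_le_pow_right₀ (K_kp h) (by norm_num)

private theorem K_nw (hQ : Q.Ok) (h : Q.Lg N) {p : ℕ}
    (hp : (∃ f, p ∈ (Q.sys N).FX f) ∨ (∃ f, p ∈ (Q.sys N).FY f) ∨ (∃ e, p ∈ (Q.sys N).OX e) ∨
      ∃ e, p ∈ (Q.sys N).OY e) :
    p.Prime ∧ ¬ p ∣ N ∧ Q.y0 N < p ∧ (p : ℝ) ≤ Real.exp ((kp N) ^ 80) := by
  obtain ⟨h1, h2, h3, h4, h5⟩ := nw_ok hQ h hp
  refine ⟨h1, h2, y0_lt hQ h h3, ?_⟩
  have h6 : (0 : ℝ) < p := by exact_mod_cast h1.pos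
  rw [← Real.exp_log h6]
  exact Real.exp_le_exp.mpr h4

theorem sets_ok (hQ : Q.Ok) (h : Q.Lg N) (W' : ℕ) (hW : ∀ p : ℕ, p.Prime → Q.y0 N < p → ¬ p ∣ W') :
    TCB.SetsOk (Q.sys N) (W' * N) (Q.y0 N) := by
  have key : ∀ p : ℕ, (p.Prime ∧ ¬ p ∣ N ∧ Q.y0 N < p) → p.Prime ∧ ¬ p ∣ W' * N ∧ Q.y0 N < p := by
    rintro p ⟨h1, h2, h3⟩
    refine ⟨h1, fun h4 => ?_, h3⟩
    rcases h1.dvd_mul.mp h4 with h5 | h5
    · exact hW p h1 h3 h5
    · exact h2 h5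
  constructor
  · intro c p hp
    apply key
    unfold TCB.famX at hp
    rw [K_fam] at hp
    revert hp
    rcases K_ix _ _ _ c with i | f | e
    · intro hp
      exact K_w hQ h (Nat.lt_succ_iff.mp i.isLt) (Or.inl hp)
    · intro hp
      obtain ⟨h1, h2, h3, -⟩ := K_nw hQ h (Or.inl ⟨f, hp⟩)
      exact ⟨h1, h2, h3⟩
    · intro hp
      obtain ⟨h1, h2, h3, -⟩ := K_nw hQ h (Or.inr (Or.inr (Or.inl ⟨e, hp⟩)))
      exact ⟨h1, h2, h3⟩
  · intro c p hp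
    apply key
    unfold TCB.famY at hp
    rw [K_fam] at hp
    revert hp
    rcases K_ix _ _ _ c with i | f | e
    · intro hp
      exact K_w hQ h (Nat.lt_succ_iff.mp i.isLt) (Or.inr hp)
    · intro hp
      obtain ⟨h1, h2, h3, -⟩ := K_nw hQ h (Or.inr (Or.inl ⟨f, hp⟩))
      exact ⟨h1, h2, h3⟩
    · intro hp
      obtain ⟨h1, h2, h3, -⟩ := K_nw hQ h (Or.inr (Or.inr (Or.inr ⟨e, hp⟩)))
      exact ⟨h1, h2, h3⟩
  · intro c c' hc
    unfold TCB.famX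
    rw [K_fam, K_fam]
    exact sets_x hQ h _ _ fun h1 => hc (K_ix_inj _ _ _ h1)
  · intro c c' hc
    unfold TCB.famY
    rw [K_fam, K_fam]
    exact sets_y hQ h _ _ fun h1 => hc (K_ix_inj _ _ _ h1)

private theorem K_Zmono (hQ : Q.Ok) (i : ℕ) : ∀ d : ℕ, i + d + 1 ≤ Q.k →
    16 * Q.Z N i ≤ Q.Z N (i + d + 1) := by
  intro d
  induction d with
  | zero => intro h; exact Z_step hQ (by omega)
  | succ d ih =>
    intro h
    have h1 := ih (by omega)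
    have h2 := Z_step (N := N) hQ (i := i + d + 1) (by omega)
    have h3 : i + (d + 1) + 1 = i + d + 1 + 1 := by ring
    rw [h3]
    omega

theorem ms_ok (hQ : Q.Ok) (hsq : Squarefree Q.W) (h : Q.Lg N) (T : Dat) (hT : T.N = N) (hy : T.y0 = Q.y0 N) (hz1 : Real.exp ((kp N) ^ 80) ≤ T.z)
    (hz2 : T.z ^ 2 ≤ Q.Z N 0) (hp0 : 64 * (Q.k + 1) ^ 2 ≤ T.p0) : (Q.sys N).OK T Q.W (fun i => Q.Z N i) := by
  subst hT
  have hZlt : ∀ i j : ℕ, i < j → j ≤ Q.k → 16 * Q.Z T.N i ≤ Q.Z T.N j := by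
    intro i j hij hj
    have h1 := K_Zmono (N := T.N) hQ i (j - i - 1) (by omega)
    have h2 : i + (j - i - 1) + 1 = j := by omega
    rwa [h2] at h1
  have hZpos : ∀ i : ℕ, i ≤ Q.k → 0 < Q.Z T.N i := by
    intro i hi
    have h1 := (Z_le hQ h hi).1
    have h2 : (0 : ℝ) < Q.Z T.N i := (Real.exp_pos _).trans_le h1
    exact_mod_cast h2
  have hnw : ∀ l : ℕ, ((∃ f, l ∈ (Q.sys T.N).FX f) ∨ (∃ f, l ∈ (Q.sys T.N).FY f) ∨
      (∃ e, l ∈ (Q.sys T.N).OX e) ∨ ∃ e, l ∈ (Q.sys T.N).OY e) →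
      l.Prime ∧ ¬ l ∣ T.N ∧ T.y0 < l ∧ l ≤ T.z := by
    intro l hl
    obtain ⟨h1, h2, h3, h4⟩ := K_nw hQ h hl
    refine ⟨h1, h2, by rw [hy]; exact h3, ?_⟩
    exact_mod_cast h4.trans hz1
  have hN0 : (0 : ℝ) < T.N := by
    have h1 : T.N ≠ 0 := by
      intro h2
      have h3 := (K_kp h).trans (K_kK h)
      rw [h2, Nat.cast_zero, Real.log_zero] at h3
      linarith
    exact_mod_cast Nat.pos_of_ne_zero h1
  have hN1 : (1 : ℝ) ≤ T.N := by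
    exact_mod_cast Nat.one_le_iff_ne_zero.mpr (by
      intro h2
      rw [h2] at hN0
      simp at hN0)
  refine
    { k_odd := hQ.ko
      k_lo := hQ.k3
      p0_lo := hp0
      WX_mem := ?_
      WY_mem := ?_
      Z_lt := ?_
      Z_lo := ?_
      FX_mem := fun f l hl => hnw l (Or.inl ⟨f, hl⟩)
      FY_mem := fun f l hl => hnw l (Or.inr (Or.inl ⟨f, hl⟩))
      OX_mem := fun e l hl => hnw l (Or.inr (Or.inr (Or.inl ⟨e, hl⟩)))
      OY_mem := fun e l hl => hnw l (Or.inr (Or.inr (Or.inr ⟨e, hl⟩)))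
      FX_dis := fun f f' hf => sets_x hQ h (Sum.inr (Sum.inl f)) (Sum.inr (Sum.inl f'))
        (fun h1 => hf (Sum.inl_injective (Sum.inr_injective h1)))
      FY_dis := fun f f' hf => sets_y hQ h (Sum.inr (Sum.inl f)) (Sum.inr (Sum.inl f'))
        (fun h1 => hf (Sum.inl_injective (Sum.inr_injective h1)))
      OX_dis := fun e e' he => sets_x hQ h (Sum.inr (Sum.inr e)) (Sum.inr (Sum.inr e'))
        (fun h1 => he (Sum.inr_injective (Sum.inr_injective h1)))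
      OY_dis := fun e e' he => sets_y hQ h (Sum.inr (Sum.inr e)) (Sum.inr (Sum.inr e'))
        (fun h1 => he (Sum.inr_injective (Sum.inr_injective h1)))
      FOX_dis := fun f e => sets_x hQ h (Sum.inr (Sum.inl f)) (Sum.inr (Sum.inr e))
        (fun h1 => Sum.inl_ne_inr (Sum.inr_injective h1))
      FOY_dis := fun f e => sets_y hQ h (Sum.inr (Sum.inl f)) (Sum.inr (Sum.inr e))
        (fun h1 => Sum.inl_ne_inr (Sum.inr_injective h1))
      num := ?_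
      AB := fun c _ μ hμ ν hν X Y i hi => comp hQ h c hμ hν X Y hi
      small := ?_ }
  · intro i l hl
    have hl' : l ∈ Q.WXs T.N i := hl
    unfold WXs at hl'
    rw [mem_filter, mem_Ioc] at hl'
    exact ⟨hl'.2.1, hl'.2.2.1, hl'.1.1, hl'.1.2, hl'.2.2.2⟩
  · intro i l hl
    have hl' : l ∈ Q.WYs T.N i := hl
    unfold WYs at hl'
    rw [mem_filter, mem_Ioc] at hl'
    refine ⟨hl'.2.1, hl'.2.2.1, hl'.1.1, hl'.1.2, ?_⟩
    intro p hp hpW
    have h1 : l ≡ Q.b i [MOD p ^ 2] := hl'.2.2.2.of_dvd (pow_dvd_pow_of_dvd hpW 2)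
    have h2 : (l : ℤ) ≡ (Q.b i : ℤ) [ZMOD ((p ^ 2 : ℕ) : ℤ)] := (Int.natCast_modEq_iff).mpr h1
    exact h2.trans (hQ.bp hsq i p hp hpW)
  · intro i j hij
    have h1 := hZlt i j hij (Nat.lt_succ_iff.mp j.isLt)
    have h2 := hZpos i (Nat.lt_succ_iff.mp i.isLt)
    show 4 * Q.Z T.N i < Q.Z T.N j
    omega
  · intro i
    show T.z ^ 2 ≤ Q.Z T.N i
    refine hz2.trans ?_
    rcases Nat.eq_zero_or_pos (i : ℕ) with h1 | h1
    · rw [h1]
    · have h2 := hZlt 0 i h1 (Nat.lt_succ_iff.mp i.isLt)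
      omega
  · have h1 := h.cnt.trans (K_kK h)
    have h0 : ((2 * ((Q.sys T.N).k + 1) + 2 * (Q.sys T.N).n0 + (Q.sys T.N).nX + (Q.sys T.N).nY : ℕ) : ℝ) =
        2 * ((Q.k : ℝ) + 1) + 2 * Q.n0 T.N + Q.k * (Q.nit T.N : ℝ) + Q.k * ((Q.np T.N : ℝ) + 1) := by
      show ((2 * (Q.k + 1) + 2 * Q.n0 T.N + Q.k * Q.nit T.N + Q.k * (Q.np T.N + 1) : ℕ) : ℝ) =
        2 * ((Q.k : ℝ) + 1) + 2 * Q.n0 T.N + Q.k * (Q.nit T.N : ℝ) + Q.k * ((Q.np T.N : ℝ) + 1)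
      push_cast
      ring
    rw [h0]
    have h2 : (0 : ℝ) ≤ Q.k * (Q.nit T.N : ℝ) := by positivity
    have h3 : (0 : ℝ) ≤ Q.k * ((Q.np T.N : ℝ) + 1) := by positivity
    linarith
  · intro μ hμ ν hν
    have h1 := small_x hQ h hμ
    have h2 := small_y hQ h hν
    push_cast
    calc (((Q.sys T.N).prX id μ : ℕ) : ℝ) * (((Q.sys T.N).prY id ν : ℕ) : ℝ) ≤
          (T.N : ℝ) ^ (4 * ((Q.k : ℝ) + 1) * Q.e1) * (T.N : ℝ) ^ (4 * ((Q.k : ℝ) + 1) * Q.e1) :=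
          mul_le_mul h1 h2 (Nat.cast_nonneg _) (by positivity)
      _ = (T.N : ℝ) ^ (4 * ((Q.k : ℝ) + 1) * Q.e1 + 4 * ((Q.k : ℝ) + 1) * Q.e1) :=
          (Real.rpow_add hN0 _ _).symm
      _ ≤ (T.N : ℝ) ^ (1 / 10 : ℝ) := by
          apply Real.rpow_le_rpow_of_exponent_le hN1
          have h3 := hQ.e1
          have h4 : 80 * ((Q.k : ℝ) + 1) * Q.e1 ≤ 1 := by exact_mod_cast h3
          linarith

end MPar

end Pool.Agent.Lib.TC
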