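import Pool.Agent.Lib.MP_7b7e48_nt.BR3.WO
import Pool.Agent.Lib.MP_7b7e48_nt.BR3.K
import Pool.Agent.Lib.MP_7b7e48_nt.BR.Fam

/-!
# BR3.WC: the number of the tuples
-/

set_option autoImplicit false

open Finset Filter

namespace Pool.Agent.Lib.TC

namespace MPar

variable {Q : MPar} {N : ℕ}

private theorem WC_card {α : Type*} {s : Finset α} {F : α → ℕ} (hF : Set.InjOn F s) (hpos : ∀ a ∈ s, 0 < F a) {x : ℝ} (hx : 0 ≤ x)
    (h : ∀ a ∈ s, (F a : ℝ) ≤ x) : (s.card : ℝ) ≤ x := by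
  classical
  have h1 : s.image F ⊆ Ioc 0 ⌊x⌋₊ := by
    intro n hn
    obtain ⟨a, ha, rfl⟩ := mem_image.1 hn
    rw [mem_Ioc]
    exact ⟨hpos a ha, Nat.le_floor (h a ha)⟩
  have h2 := card_le_card h1
  rw [card_image_of_injOn hF, Nat.card_Ioc, Nat.sub_zero] at h2
  calc (s.card : ℝ) ≤ (⌊x⌋₊ : ℝ) := by exact_mod_cast h2
    _ ≤ x := Nat.floor_le hx

/-- the number of the pairs of tuples -/
theorem card_xy (hQ : Q.Ok) (h : Q.Lg N) : ((Q.sys N).MX.card : ℝ) * (Q.sys N).MY.card ≤ (N : ℝ) ^ (8 * ((Q.k : ℝ) + 1) * Q.e1) := by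
  have hN : (0 : ℝ) < N := by
    have := h.N1
    exact_mod_cast (by omega : 0 < N)
  have hs := sets_ok hQ h 1 (fun p hp _ hd => by
    have := Nat.le_of_dvd one_pos hd
    have := hp.one_lt
    omega)
  have h1 : ((Q.sys N).MX.card : ℝ) ≤ (N : ℝ) ^ (4 * ((Q.k : ℝ) + 1) * Q.e1) :=
    WC_card (F := fun μ => (Q.sys N).prX id μ) (fun μ hμ μ' hμ' he => hs.injX hμ hμ' he)
      (fun μ hμ => (hs.sqX hμ).ne_zero.bot_lt) (Real.rpow_nonneg hN.le _) (fun μ hμ => small_x hQ h hμ)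
  have h2 : ((Q.sys N).MY.card : ℝ) ≤ (N : ℝ) ^ (4 * ((Q.k : ℝ) + 1) * Q.e1) :=
    WC_card (F := fun ν => (Q.sys N).prY id ν) (fun ν hν ν' hν' he => hs.injY hν hν' he)
      (fun ν hν => (hs.sqY hν).ne_zero.bot_lt) (Real.rpow_nonneg hN.le _) (fun ν hν => small_y hQ h hν)
  calc ((Q.sys N).MX.card : ℝ) * (Q.sys N).MY.card ≤ (N : ℝ) ^ (4 * ((Q.k : ℝ) + 1) * Q.e1) * (N : ℝ) ^ (4 * ((Q.k : ℝ) + 1) * Q.e1) :=
        mul_le_mul h1 h2 (Nat.cast_nonneg _) (Real.rpow_nonneg hN.le _)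
    _ = _ := by rw [← Real.rpow_add hN]; congr 1; ring

end MPar

end Pool.Agent.Lib.TC
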