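import Pool.Agent.Lib.MP_7b7e48_nt.BR3.N

/-!
# BR3.A (60 minutes): cells and pieces

PROOFS. `cell N l = ⌊log N * log l⌋₊`. `K1`: `K := log N = kp ^ 100 ≥ kp ≥ 10 ^ 10` (`Kk`, `k0`). `N1`: `log N > 0`.
`mem_pc`: definition (`mem_filter`, `mem_range`). `pc_log`: `thr g < cell p` gives `thr g + 1 ≤ cell p`, and `K exp (g/G) < thr g + 1`
(`Nat.lt_floor_add_one`), `cell p ≤ K log p` (`Nat.floor_le`), so `K exp (g/G) < K log p`; `K log p < cell p + 1 ≤ thr (g+1) + 1 ≤ K exp ((g+1)/G) + 1`.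
`pc_disj`: for `g < g'`: `cell p ≤ thr (g+1) ≤ thr g'` (`thr` is monotone for `N ≥ 1`, and for `N = 0` the piece is empty: `log 0 = 0`, `thr = 0`, `cell = 0`), contradiction to `thr g' < cell p`.
`fx_g`: `f < n0 = la (j2 - j1)`: `f / la < j2 - j1`, `f % la < la ≤ G`, so `j1 ≤ g / G` and `(g + 1) / G ≤ j2`; `exp (j1) ≥ kp ^ 25`, `exp j2 ≤ kp ^ 50`.
`rs_g`: `g = (j3 + r / 6) G + la + 6 i + r % 6`, `i < k`: `la + 6 i + r % 6 + 1 ≤ la + 6 k = G`: `j3 + r/6 ≤ g/G`, `(g+1)/G ≤ j3 + r/6 + 1`. `rs_unit`: `r < nr = 6 (j4 - j3)`.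
`bal_g`: `g = j5 G + i`, `i < k < G`: `j5 ≤ g / G`, `(g + 1)/G ≤ j5 + 1`, `exp 1 ≤ 3`.
-/

set_option autoImplicit false

open Finset

namespace Pool.Agent.Lib.TC

theorem cell_le {N l : ℕ} (hN : 1 ≤ N) (hl : 1 ≤ l) : (cell N l : ℝ) ≤ Real.log N * Real.log l := by
  unfold cell
  exact Nat.floor_le (mul_nonneg (Real.log_nonneg (by exact_mod_cast hN)) (Real.log_nonneg (by exact_mod_cast hl)))

theorem lt_cell (N l : ℕ) : Real.log N * Real.log l < cell N l + 1 := Nat.lt_floor_add_one _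

private theorem A_lo {G m s : ℕ} (hG : 0 < G) : ((m : ℕ) : ℝ) ≤ ((m * G + s : ℕ) : ℝ) / G := by
  have h : (0 : ℝ) < G := by exact_mod_cast hG
  rw [le_div_iff₀ h]
  have h1 : m * G ≤ m * G + s := Nat.le_add_right _ _
  exact_mod_cast h1

private theorem A_hi {G m s : ℕ} (hG : 0 < G) (hs : s + 1 ≤ G) :
    (((m * G + s : ℕ) : ℝ) + 1) / G ≤ ((m + 1 : ℕ) : ℝ) := by
  have h : (0 : ℝ) < G := by exact_mod_cast hG
  rw [div_le_iff₀ h]
  have h1 : m * G + s + 1 ≤ (m + 1) * G := by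
    have : (m + 1) * G = m * G + G := by ring
    omega
  exact_mod_cast h1

namespace MPar

variable {Q : MPar} {N : ℕ}

theorem la_pos (hQ : Q.Ok) : 0 < Q.la := by
  have := hQ.k1
  unfold la
  have h : 4 ≤ (Q.k + 1) ^ 2 := by nlinarith
  omega

theorem G_pos (hQ : Q.Ok) : 0 < Q.G := by
  have := la_pos hQ
  unfold G
  omega

private theorem A_kp (h : Q.Lg N) : (10 : ℝ) ^ 10 ≤ kp N := by
  have h1 := h.k0
  have h2 : (1 : ℝ) ≤ (Q.k + 1) ^ 4 := by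
    have : (1 : ℝ) ≤ (Q.k : ℝ) + 1 := by
      have : (0 : ℝ) ≤ Q.k := Nat.cast_nonneg _
      linarith
    exact one_le_pow₀ this
  have h3 : (10 : ℝ) ^ 10 * 1 ≤ (10 : ℝ) ^ 10 * (Q.k + 1) ^ 4 :=
    mul_le_mul_of_nonneg_left h2 (by norm_num)
  linarith

theorem Lg.K1 (h : Q.Lg N) : (10 : ℝ) ^ 10 ≤ Real.log N := by
  have h1 := A_kp h
  rw [← h.Kk]
  have h2 : (1 : ℝ) ≤ kp N := le_trans (by norm_num) h1
  calc (10 : ℝ) ^ 10 ≤ kp N := h1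
    _ = kp N ^ 1 := (pow_one _).symm
    _ ≤ kp N ^ 100 := pow_le_pow_right₀ h2 (by norm_num)

theorem Lg.N1 (h : Q.Lg N) : 1 < N := by
  have h1 := h.K1
  by_contra h2
  have h3 : (N : ℝ) ≤ 1 := by exact_mod_cast Nat.not_lt.1 h2
  have h4 := Real.log_nonpos (Nat.cast_nonneg N) h3
  have h5 : (0 : ℝ) < 10 ^ 10 := by norm_num
  linarith

theorem mem_pc {g p : ℕ} : p ∈ Q.pc N g ↔ p.Prime ∧ ¬ p ∣ N ∧ Q.thr N g < cell N p ∧ cell N p ≤ Q.thr N (g + 1) ∧ p ≤ N := by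
  unfold pc
  rw [mem_filter, mem_range]
  constructor
  · rintro ⟨h1, h2, h3, h4, h5⟩
    exact ⟨h2, h3, h4, h5, by omega⟩
  · rintro ⟨h2, h3, h4, h5, h1⟩
    exact ⟨by omega, h2, h3, h4, h5⟩

/-- the cells -/
theorem pc_cell (h : Q.Lg N) {g p : ℕ} (hp : p ∈ Q.pc N g) :
    Real.log N * Real.exp ((g : ℝ) / Q.G) < cell N p ∧ (cell N p : ℝ) ≤ Real.log N * Real.exp (((g : ℝ) + 1) / Q.G) := by
  obtain ⟨h1, h2, h3, h4, h5⟩ := mem_pc.1 hp
  have hK := h.K1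
  have hK0 : 0 ≤ Real.log N := le_trans (by norm_num) hK
  constructor
  · have h6 : Real.log N * Real.exp ((g : ℝ) / Q.G) < (Q.thr N g : ℝ) + 1 := Nat.lt_floor_add_one _
    have h7 : (Q.thr N g : ℝ) + 1 ≤ cell N p := by exact_mod_cast h3
    linarith
  · have h6 : (Q.thr N (g + 1) : ℝ) ≤ Real.log N * Real.exp (((g + 1 : ℕ) : ℝ) / Q.G) :=
      Nat.floor_le (by positivity)
    have h7 : (cell N p : ℝ) ≤ Q.thr N (g + 1) := by exact_mod_cast h4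
    rw [Nat.cast_add, Nat.cast_one] at h6
    linarith

theorem pc_log (h : Q.Lg N) {g p : ℕ} (hp : p ∈ Q.pc N g) :
    Real.exp ((g : ℝ) / Q.G) < Real.log p ∧ Real.log p ≤ Real.exp (((g : ℝ) + 1) / Q.G) + 1 / Real.log N := by
  obtain ⟨c1, c2⟩ := pc_cell h hp
  obtain ⟨h1, -⟩ := mem_pc.1 hp
  have hK := h.K1
  have hK0 : 0 < Real.log N := lt_of_lt_of_le (by norm_num) hK
  constructor
  · have h2 := cell_le h.N1.le h1.one_lt.le
    exact lt_of_mul_lt_mul_left (c1.trans_le h2) hK0.le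
  · have h2 := lt_cell N p
    have h3 : Real.log N * Real.log p ≤
        Real.log N * (Real.exp (((g : ℝ) + 1) / Q.G) + 1 / Real.log N) := by
      rw [mul_add, mul_one_div_cancel hK0.ne']
      linarith
    exact le_of_mul_le_mul_left h3 hK0

private theorem A_thr {g g' : ℕ} (h : g ≤ g') : Q.thr N g ≤ Q.thr N g' := by
  unfold thr
  refine Nat.floor_le_floor ?_
  refine mul_le_mul_of_nonneg_left (Real.exp_le_exp.2 ?_) (Real.log_natCast_nonneg N)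
  exact div_le_div_of_nonneg_right (by exact_mod_cast h) (Nat.cast_nonneg _)

private theorem A_disj {g g' : ℕ} (hg : g < g') : Disjoint (Q.pc N g) (Q.pc N g') := by
  rw [Finset.disjoint_left]
  intro p hp hp'
  obtain ⟨-, -, -, h4, -⟩ := mem_pc.1 hp
  obtain ⟨-, -, h3, -, -⟩ := mem_pc.1 hp'
  have h5 : Q.thr N (g + 1) ≤ Q.thr N g' := A_thr hg
  omega

theorem pc_disj {g g' : ℕ} (hg : g ≠ g') : Disjoint (Q.pc N g) (Q.pc N g') := by
  rcases lt_or_gt_of_ne hg with h | h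
  · exact A_disj h
  · exact (A_disj h).symm

theorem fx_g (hQ : Q.Ok) (h : Q.Lg N) {f : ℕ} (hf : f < Q.n0 N) :
    (kp N) ^ 25 ≤ Real.exp ((((j1 N + f / Q.la) * Q.G + f % Q.la : ℕ) : ℝ) / Q.G) ∧
      Real.exp (((((j1 N + f / Q.la) * Q.G + f % Q.la : ℕ) : ℝ) + 1) / Q.G) ≤ (kp N) ^ 50 := by
  have hla := la_pos hQ
  have hG := G_pos hQ
  have hlaG : Q.la ≤ Q.G := by
    unfold G
    omega
  have h1 : f / Q.la < j2 N - j1 N := by
    unfold n0 at hf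
    exact Nat.div_lt_of_lt_mul hf
  have h2 := Nat.mod_lt f hla
  constructor
  · refine h.e1.1.trans (Real.exp_le_exp.2 (le_trans ?_ (A_lo hG)))
    exact_mod_cast Nat.le_add_right _ _
  · refine le_trans (Real.exp_le_exp.2 ((A_hi hG (by omega)).trans ?_)) h.e2.2
    have h3 : j1 N + f / Q.la + 1 ≤ j2 N := by
      generalize f / Q.la = d at h1 ⊢
      omega
    exact_mod_cast h3

theorem rs_g (hQ : Q.Ok) (h : Q.Lg N) {i : ℕ} (hi : i < Q.k) (r : ℕ) :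
    Real.exp (Q.j3 N + r / 6 : ℕ) ≤ Real.exp ((((Q.j3 N + r / 6) * Q.G + Q.la + 6 * i + r % 6 : ℕ) : ℝ) / Q.G) ∧
      Real.exp (((((Q.j3 N + r / 6) * Q.G + Q.la + 6 * i + r % 6 : ℕ) : ℝ) + 1) / Q.G) ≤ Real.exp (Q.j3 N + r / 6 + 1 : ℕ) := by
  have hG := G_pos hQ
  have e1 : (Q.j3 N + r / 6) * Q.G + Q.la + 6 * i + r % 6 =
      (Q.j3 N + r / 6) * Q.G + (Q.la + 6 * i + r % 6) := by ring
  rw [e1]
  refine ⟨Real.exp_le_exp.2 (A_lo hG), Real.exp_le_exp.2 (A_hi hG ?_)⟩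
  unfold G
  have h2 := Nat.mod_lt r (show 0 < 6 by norm_num)
  omega

theorem rs_unit (hQ : Q.Ok) (h : Q.Lg N) {r : ℕ} (hr : r < Q.nr N) :
    2 * Q.l0 N ≤ Real.exp (Q.j3 N + r / 6 : ℕ) ∧ Real.exp (Q.j3 N + r / 6 + 1 : ℕ) ≤ 3 * (kp N) ^ 75 := by
  have h1 : r / 6 < j4 N - Q.j3 N := by
    unfold nr at hr
    exact Nat.div_lt_of_lt_mul hr
  constructor
  · refine h.e3.1.trans (Real.exp_le_exp.2 ?_)
    exact_mod_cast Nat.le_add_right _ _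
  · refine le_trans (Real.exp_le_exp.2 ?_) h.e4.2
    have h3 : Q.j3 N + r / 6 + 1 ≤ j4 N := by omega
    exact_mod_cast h3

theorem bal_g (hQ : Q.Ok) (h : Q.Lg N) {i : ℕ} (hi : i < Q.k) :
    (kp N) ^ 70 ≤ Real.exp (((j5 N * Q.G + i : ℕ) : ℝ) / Q.G) ∧ Real.exp ((((j5 N * Q.G + i : ℕ) : ℝ) + 1) / Q.G) ≤ 9 * (kp N) ^ 70 := by
  have hG := G_pos hQ
  have hiG : i + 1 ≤ Q.G := by
    unfold G
    omega
  constructor
  · exact h.e5.1.trans (Real.exp_le_exp.2 (A_lo hG))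
  · refine le_trans (Real.exp_le_exp.2 (A_hi hG hiG)) ?_
    rw [Nat.cast_add, Nat.cast_one, Real.exp_add]
    have h1 := h.e5.2
    have h2 : Real.exp 1 ≤ 3 := by
      have := Real.exp_one_lt_d9
      linarith
    have h3 : 0 < Real.exp (j5 N : ℝ) := Real.exp_pos _
    calc Real.exp (j5 N : ℝ) * Real.exp 1 ≤ 3 * kp N ^ 70 * 3 :=
          mul_le_mul h1 h2 (Real.exp_pos _).le (h3.le.trans h1)
      _ = 9 * kp N ^ 70 := by ring

end MPar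

end Pool.Agent.Lib.TC
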