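import Pool.Agent.Lib.MP_7b7e48_nt.BR3.H1

/-!
# BR3.J (60 minutes): the sets of the marks: primes and sizes

`κ = kp N`, `K = log N = κ ^ 100`, `l0 ≤ κ`, `κ ≥ 10 ^ 10`. `nw_ok`: all marks except the windows have `l0 < log p ≤ κ ^ 80` (`fx_log`; OX: `px_log`, `rs_log` with `rs_unit`; OY:
`py_log`, `bal_log`), and no logarithm in `(7/5 l0, 2 l0]` (pairs below, all the pieces above: `exp j3 ≥ 2 l0`, `κ^25 > 2 l0`, `κ^70 > 2 l0`). (`(e : ℕ) / nit < k`, `e % nit < nit = np + nr` for `e < k nit`.)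
`Z_step`: `16 Z i ≤ Z (i+1)` for `i < k` (`⌊N^e1⌋ ≤ ⌊N^(2(k+1) e1)⌋`, `N = 0` separately). `Z_le`: `Z i ≤ 16 ^ k N ^ (2 (k+1) e1) ≤ N ^ e1 * N ^ (1/4) ≤ N ^ (1/2)` (`win2`, `80 (k+1) e1 ≤ 1`).
`w_ok`: windows: `p > Z i ≥ ⌊N^e1⌋ ≥ exp (κ^90)` (`win`, for `i = k`: `N ^ e1 ≤ N ^ (2 (k+1) e1)`), `p ≤ 4 Z i`.
-/

set_option autoImplicit false

open Finset

namespace Pool.Agent.Lib.TC

namespace MPar

variable {Q : MPar} {N : ℕ}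

private theorem J_kp (h : Q.Lg N) : (10 : ℝ) ^ 10 ≤ kp N := by
  have hk0 := h.k0
  have hk4 : (1 : ℝ) ≤ ((Q.k : ℝ) + 1) ^ 4 := one_le_pow₀ (by have : (0 : ℝ) ≤ Q.k := Nat.cast_nonneg _; linarith)
  nlinarith

private theorem J_pow (h : Q.Lg N) {m : ℕ} (n : ℕ) (hm : m = n + 1) : (10 : ℝ) ^ 10 * kp N ^ n ≤ kp N ^ m := by
  have h1 := J_kp h
  have h2 : (0 : ℝ) ≤ kp N ^ n := pow_nonneg (le_trans (by norm_num) h1) n
  rw [hm, pow_succ (kp N) n, mul_comm (kp N ^ n)]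
  exact mul_le_mul_of_nonneg_right h1 h2

private theorem J_mono (h : Q.Lg N) {m n : ℕ} (hm : m ≤ n) : kp N ^ m ≤ kp N ^ n :=
  pow_le_pow_right₀ (le_trans (by norm_num) (J_kp h)) hm

private theorem J_K (h : Q.Lg N) : 1 / Real.log N ≤ 1 := by
  have h1 := h.K1
  have h2 : (1 : ℝ) ≤ Real.log N := le_trans (by norm_num) h1
  rw [div_le_one (by linarith)]
  exact h2

private theorem J_fx (hQ : Q.Ok) (h : Q.Lg N) {p f : ℕ} (hf : f < Q.n0 N) (hp : p ∈ Q.FXs N f) :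
    p.Prime ∧ ¬ p ∣ N ∧ Q.l0 N < Real.log p ∧ Real.log p ≤ (kp N) ^ 80 ∧
      (Real.log p ≤ 7 / 5 * Q.l0 N ∨ 2 * Q.l0 N < Real.log p) := by
  obtain ⟨h1, h2, -⟩ := mem_pc.1 hp
  obtain ⟨a1, a2, -⟩ := fx_log hQ h hf hp
  have hκ := J_kp h
  have hl := h.lk
  have hK := J_K h
  have e1 := J_pow h 1 (m := 2) rfl
  have e2 := J_mono h (show 2 ≤ 25 by norm_num)
  have e3 := J_pow h 50 (m := 51) rfl
  have e4 := J_mono h (show 51 ≤ 80 by norm_num)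
  have e5 : (1 : ℝ) ≤ kp N ^ 50 := one_le_pow₀ (le_trans (by norm_num) hκ)
  rw [pow_one] at e1
  refine ⟨h1, h2, by linarith, by linarith, Or.inr (by linarith)⟩

theorem nw_ok (hQ : Q.Ok) (h : Q.Lg N) {p : ℕ}
    (hp : (∃ f, p ∈ (Q.sys N).FX f) ∨ (∃ f, p ∈ (Q.sys N).FY f) ∨ (∃ e, p ∈ (Q.sys N).OX e) ∨ ∃ e, p ∈ (Q.sys N).OY e) :
    p.Prime ∧ ¬ p ∣ N ∧ Q.l0 N < Real.log p ∧ Real.log p ≤ (kp N) ^ 80 ∧
      (Real.log p ≤ 7 / 5 * Q.l0 N ∨ 2 * Q.l0 N < Real.log p) := by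
  have hκ := J_kp h
  have hl := h.lk
  have hlb := h.lb
  have hl0 : 0 ≤ Q.l0 N := le_trans (by positivity) hlb
  have hK := J_K h
  have e1 := J_pow h 1 (m := 2) rfl
  rw [pow_one] at e1
  have e2 := J_mono h (show 2 ≤ 70 by norm_num)
  have e3 := J_mono h (show 2 ≤ 80 by norm_num)
  have e4 := J_pow h 75 (m := 76) rfl
  have e5 := J_mono h (show 76 ≤ 80 by norm_num)
  have e6 := J_mono h (show 70 ≤ 75 by norm_num)
  have e7 : (1 : ℝ) ≤ kp N ^ 70 := one_le_pow₀ (le_trans (by norm_num) hκ)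
  rcases hp with ⟨f, hp⟩ | ⟨f, hp⟩ | ⟨e, hp⟩ | ⟨e, hp⟩
  · exact J_fx hQ h f.2 hp
  · exact J_fx hQ h f.2 hp
  · have he : (e : ℕ) < Q.k * Q.nit N := e.2
    have hn : 0 < Q.nit N := Nat.pos_of_ne_zero fun h0 => by rw [h0, Nat.mul_zero] at he; exact Nat.not_lt_zero _ he
    have hi : (e : ℕ) / Q.nit N < Q.k := Nat.div_lt_of_lt_mul (by rwa [Nat.mul_comm])
    have ht : (e : ℕ) % Q.nit N < Q.nit N := Nat.mod_lt _ hn
    have hp' : p ∈ Q.OXs N ((e : ℕ) / Q.nit N) ((e : ℕ) % Q.nit N) := hp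
    unfold OXs at hp'
    split_ifs at hp' with h1
    · obtain ⟨a1, a2, a3, a4⟩ := px_log hQ h hi h1 hp'
      exact ⟨a1, a2, a3, by linarith, Or.inl a4⟩
    · obtain ⟨a1, a2, -⟩ := mem_pc.1 hp'
      obtain ⟨b1, b2, -⟩ := rs_log hQ h hi hp'
      have hr : (e : ℕ) % Q.nit N - Q.np N < Q.nr N := by
        have hnit : Q.nit N = Q.np N + Q.nr N := rfl
        omega
      obtain ⟨c1, c2⟩ := rs_unit hQ h hr
      exact ⟨a1, a2, by linarith, by linarith, Or.inr (by linarith)⟩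
  · have he : (e : ℕ) < Q.k * (Q.np N + 1) := e.2
    have hi : (e : ℕ) / (Q.np N + 1) < Q.k := Nat.div_lt_of_lt_mul (by rwa [Nat.mul_comm])
    have hp' : p ∈ Q.OYs N ((e : ℕ) / (Q.np N + 1)) ((e : ℕ) % (Q.np N + 1)) := hp
    unfold OYs at hp'
    split_ifs at hp' with h1
    · obtain ⟨a1, a2, a3, a4⟩ := py_log hQ h hi h1 hp'
      exact ⟨a1, a2, a3, by linarith, Or.inl a4⟩
    · obtain ⟨a1, a2, -⟩ := mem_pc.1 hp'
      obtain ⟨b1, b2, -⟩ := bal_log hQ h hi hp'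
      exact ⟨a1, a2, by linarith, by linarith, Or.inr (by linarith)⟩

theorem Z_step (hQ : Q.Ok) {i : ℕ} (hi : i < Q.k) : 16 * Q.Z N i ≤ Q.Z N (i + 1) := by
  have he0 := hQ.e0
  have hk0 : (0 : ℝ) ≤ Q.k := Nat.cast_nonneg _
  unfold Z
  rw [if_pos hi]
  have h1 : ⌊(N : ℝ) ^ Q.e1⌋₊ ≤ ⌊(N : ℝ) ^ (if i + 1 < Q.k then Q.e1 else 2 * ((Q.k : ℝ) + 1) * Q.e1)⌋₊ := by
    rcases Nat.eq_zero_or_pos N with h0 | h0
    · rw [h0, Nat.cast_zero, Real.zero_rpow he0.ne', Nat.floor_zero]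
      exact Nat.zero_le _
    · refine Nat.floor_le_floor (Real.rpow_le_rpow_of_exponent_le (by exact_mod_cast h0) ?_)
      split_ifs
      · exact le_rfl
      · nlinarith
  calc 16 * (16 ^ i * ⌊(N : ℝ) ^ Q.e1⌋₊) = 16 ^ (i + 1) * ⌊(N : ℝ) ^ Q.e1⌋₊ := by ring
    _ ≤ _ := Nat.mul_le_mul_left _ h1

theorem Z_le (hQ : Q.Ok) (h : Q.Lg N) {i : ℕ} (hi : i ≤ Q.k) :
    Real.exp ((kp N) ^ 90) ≤ Q.Z N i ∧ (Q.Z N i : ℝ) ≤ (N : ℝ) ^ ((1 : ℝ) / 2) := by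
  have he0 := hQ.e0
  have hk0 : (0 : ℝ) ≤ Q.k := Nat.cast_nonneg _
  have hN1 : (1 : ℝ) ≤ N := by exact_mod_cast h.N1.le
  have hw1 := h.win
  have hw2 := h.win2
  have hexp : Q.e1 ≤ (if i < Q.k then Q.e1 else 2 * ((Q.k : ℝ) + 1) * Q.e1) ∧
      (if i < Q.k then Q.e1 else 2 * ((Q.k : ℝ) + 1) * Q.e1) ≤ 2 * ((Q.k : ℝ) + 1) * Q.e1 := by
    have h1 : Q.e1 ≤ 2 * ((Q.k : ℝ) + 1) * Q.e1 := by nlinarith
    split_ifs
    · exact ⟨le_rfl, h1⟩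
    · exact ⟨h1, le_rfl⟩
  constructor
  · refine hw1.trans ?_
    unfold Z
    have h1 : ⌊(N : ℝ) ^ Q.e1⌋₊ ≤ ⌊(N : ℝ) ^ (if i < Q.k then Q.e1 else 2 * ((Q.k : ℝ) + 1) * Q.e1)⌋₊ :=
      Nat.floor_le_floor (Real.rpow_le_rpow_of_exponent_le hN1 hexp.1)
    have h2 : 1 ≤ 16 ^ i := Nat.one_le_pow _ _ (by norm_num)
    exact_mod_cast h1.trans (Nat.le_mul_of_pos_left _ h2)
  · have h1 : (Q.Z N i : ℝ) ≤ 16 ^ Q.k * (N : ℝ) ^ (2 * ((Q.k : ℝ) + 1) * Q.e1) := by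
      unfold Z
      push_cast
      refine mul_le_mul (pow_le_pow_right₀ (by norm_num) hi) ((Nat.floor_le (by positivity)).trans
        (Real.rpow_le_rpow_of_exponent_le hN1 hexp.2)) (Nat.cast_nonneg _) (by positivity)
    have h2 : (16 : ℝ) ^ Q.k ≤ (N : ℝ) ^ Q.e1 := by
      refine le_trans ?_ hw2
      have h3 : (1 : ℝ) ≤ Real.exp (kp N ^ 90) := Real.one_le_exp (pow_nonneg (le_trans (by norm_num) (J_kp h)) _)
      have h4 : (0 : ℝ) ≤ 16 ^ Q.k := by positivity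
      rw [pow_add]
      nlinarith
    calc (Q.Z N i : ℝ) ≤ _ := h1
      _ ≤ (N : ℝ) ^ Q.e1 * (N : ℝ) ^ (2 * ((Q.k : ℝ) + 1) * Q.e1) := mul_le_mul_of_nonneg_right h2 (by positivity)
      _ = (N : ℝ) ^ (Q.e1 + 2 * ((Q.k : ℝ) + 1) * Q.e1) := (Real.rpow_add (by linarith) _ _).symm
      _ ≤ (N : ℝ) ^ ((1 : ℝ) / 2) := by
          refine Real.rpow_le_rpow_of_exponent_le hN1 ?_
          have := hQ.e1
          nlinarith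

theorem w_ok (hQ : Q.Ok) (h : Q.Lg N) {p : ℕ} {i : ℕ} (hi : i ≤ Q.k) (hp : p ∈ Q.WXs N i ∨ p ∈ Q.WYs N i) :
    p.Prime ∧ ¬ p ∣ N ∧ (kp N) ^ 90 < Real.log p ∧ p ≤ 4 * Q.Z N i := by
  have h1 := (Z_le hQ h hi).1
  have h2 : p.Prime ∧ ¬ p ∣ N ∧ Q.Z N i < p ∧ p ≤ 4 * Q.Z N i := by
    rcases hp with hp | hp
    · unfold WXs at hp
      obtain ⟨h3, h4, h5, -⟩ := mem_filter.1 hp
      obtain ⟨h6, h7⟩ := mem_Ioc.1 h3
      exact ⟨h4, h5, by omega, h7⟩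
    · unfold WYs at hp
      obtain ⟨h3, h4, h5, -⟩ := mem_filter.1 hp
      obtain ⟨h6, h7⟩ := mem_Ioc.1 h3
      exact ⟨h4, h5, h6, by omega⟩
  obtain ⟨h3, h4, h5, h6⟩ := h2
  refine ⟨h3, h4, ?_, h6⟩
  have hp0 : (0 : ℝ) < p := by exact_mod_cast h3.pos
  rw [Real.lt_log_iff_exp_lt hp0]
  exact lt_of_le_of_lt h1 (by exact_mod_cast h5)

end MPar

end Pool.Agent.Lib.TC
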