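import Pool.Agent.Lib.MP_7b7e48_nt.BR3.P2
import Pool.Agent.Lib.MP_7b7e48_nt.BR3.J

/-!
# BR3.P4 (80 minutes): the primes of the windows in residue classes

`K = log N = κ ^ 100`. `WCL N x Z q a = ∑ 1/l` over the primes `l ∈ (x Z, (x+1) Z]`, `¬ l ∣ N`, `l ≡ a mod q`.
`V := ∑_{PR s t} 1/p`, `s = log (x Z)`, `t = log ((x+1) Z)` (`x ∈ {1, 3}`: `t - s ≤ log 2 ≤ 1`, `t - s ≥ log (4/3) ≥ 1/4`), `s ≥ κ ^ 90` (`Z_le`, `ev_Lg`). `ap_err k` with `k = 4 A + 4`: error `≤ C q / s ^ k`; `ap_lo 1`: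
`V ≥ 1 / (80 s)`; primes dividing `N`: `≤ K exp (-s)` (`div_loss`). Relative error `≤ q (C q / s ^ k + K exp (-s)) 80 s ≤ 1/10` for large `N` (`q ≤ K ^ A`, `s ≥ K ^ (9/10)`, `s ≤ K`).
(The sets agree: `⌊exp (log (x Z))⌋₊ = x Z`.)
-/

set_option autoImplicit false

open Finset Filter

namespace Pool.Agent.Lib.TC

/-- the mass of the primes of a window in a residue class -/
noncomputable def WCL (N x Z q a : ℕ) : ℝ := ∑ l ∈ (Ioc (x * Z) ((x + 1) * Z)).filter (fun l => l.Prime ∧ ¬ l ∣ N ∧ l ≡ a [MOD q]), 1 / (l : ℝ)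

namespace MPar

private theorem P4_kp : Tendsto kp atTop atTop := by
  unfold kp
  exact (tendsto_rpow_atTop (by norm_num : (0 : ℝ) < 1 / 100)).comp
    (Real.tendsto_log_atTop.comp tendsto_natCast_atTop_atTop)

private theorem P4_exp (n : ℕ) : ∀ᶠ y : ℝ in atTop, y ^ n ≤ Real.exp y := by
  filter_upwards [(Real.tendsto_pow_mul_exp_neg_atTop_nhds_zero n).eventually
    (gt_mem_nhds one_pos)] with y hy
  have h1 := Real.exp_pos y
  rw [Real.exp_neg, ← div_eq_mul_inv, div_lt_one h1] at hy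
  exact hy.le

/-- the window as a set of primes given by logarithms -/
private theorem P4_set {N x Z q a : ℕ} (hx : 1 ≤ x) (hZ : 1 ≤ Z) :
    (Ioc (x * Z) ((x + 1) * Z)).filter (fun l => l.Prime ∧ ¬ l ∣ N ∧ l ≡ a [MOD q]) =
      ((Pool.Agent.Lib.OW.PR (Real.log ((x * Z : ℕ) : ℝ)) (Real.log (((x + 1) * Z : ℕ) : ℝ))).filter
        (fun l => l ≡ a [MOD q])).filter (fun l => ¬ l ∣ N) := by
  ext l
  have h1 : (0 : ℝ) < ((x * Z : ℕ) : ℝ) := by exact_mod_cast Nat.mul_pos hx hZ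
  have h2 : (0 : ℝ) < (((x + 1) * Z : ℕ) : ℝ) := by exact_mod_cast Nat.mul_pos (Nat.succ_pos x) hZ
  rw [mem_filter, mem_filter, mem_filter, mem_Ioc, Pool.Agent.Lib.OW.mem_PR, Real.exp_log h1, Real.exp_log h2,
    Nat.cast_lt, Nat.cast_le]
  tauto

private theorem P4_main {N x Z q a A : ℕ} {C κ s0 : ℝ} (hx : x = 1 ∨ x = 3) (hN : 1 < N) (hC1 : 1 ≤ C)
    (hκK : κ ^ 100 = Real.log N) (hκ1 : 3200 ≤ κ) (hκ2 : 1600 * C ≤ κ) (hκ3 : s0 ≤ κ)
    (hκ4 : κ ^ (100 * (A + 1) + 1) ≤ Real.exp κ) (hZ : Real.exp (κ ^ 90) ≤ Z) (hq : 1 ≤ q)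
    (hqA : (q : ℝ) ≤ (Real.log N) ^ A)
    (hC : ∀ s t : ℝ, 1 ≤ s → s ≤ t → t ≤ s + 1 →
      |∑ p ∈ (Pool.Agent.Lib.OW.PR s t).filter (fun p => p ≡ a [MOD q]), 1 / (p : ℝ) -
        (∑ p ∈ Pool.Agent.Lib.OW.PR s t, 1 / (p : ℝ)) / (q.totient : ℝ)| ≤ C * q / s ^ (4 * A + 4))
    (hs0 : ∀ s t : ℝ, s0 ≤ s → s + 1 / s ^ 1 ≤ t → t ≤ s + 1 →
      (t - s) / (20 * s) ≤ ∑ p ∈ Pool.Agent.Lib.OW.PR s t, 1 / (p : ℝ)) :
    0 < ∑ p ∈ Pool.Agent.Lib.OW.PR (Real.log ((x * Z : ℕ) : ℝ)) (Real.log (((x + 1) * Z : ℕ) : ℝ)), 1 / (p : ℝ) ∧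
    |WCL N x Z q a - (∑ p ∈ Pool.Agent.Lib.OW.PR (Real.log ((x * Z : ℕ) : ℝ)) (Real.log (((x + 1) * Z : ℕ) : ℝ)),
      1 / (p : ℝ)) / (q.totient : ℝ)| ≤ 0.1 * ((∑ p ∈ Pool.Agent.Lib.OW.PR (Real.log ((x * Z : ℕ) : ℝ))
      (Real.log (((x + 1) * Z : ℕ) : ℝ)), 1 / (p : ℝ)) / (q.totient : ℝ)) := by
  have hκ0 : (1 : ℝ) ≤ κ := by linarith
  have hκ90 : κ ≤ κ ^ 90 := by
    calc κ = κ ^ 1 := (pow_one κ).symm
      _ ≤ κ ^ 90 := pow_le_pow_right₀ hκ0 (by norm_num)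
  have hZ0 : (0 : ℝ) < Z := lt_of_lt_of_le (Real.exp_pos _) hZ
  have hZ1 : 1 ≤ Z := by
    have : 0 < Z := by exact_mod_cast hZ0
    omega
  have hx1 : 1 ≤ x := by omega
  have hxr : (0 : ℝ) < x := by exact_mod_cast hx1
  obtain ⟨K, hK⟩ : ∃ K : ℝ, K = Real.log N := ⟨_, rfl⟩
  obtain ⟨s, hs⟩ : ∃ s : ℝ, s = Real.log ((x * Z : ℕ) : ℝ) := ⟨_, rfl⟩
  obtain ⟨t, ht⟩ : ∃ t : ℝ, t = Real.log (((x + 1) * Z : ℕ) : ℝ) := ⟨_, rfl⟩
  have hs' : s = Real.log x + Real.log Z := by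
    rw [hs, Nat.cast_mul, Real.log_mul hxr.ne' hZ0.ne']
  have ht' : t = Real.log ((x : ℝ) + 1) + Real.log Z := by
    rw [ht, Nat.cast_mul, Nat.cast_add, Nat.cast_one, Real.log_mul (by positivity) hZ0.ne']
  have hlZ : κ ^ 90 ≤ Real.log Z := (Real.le_log_iff_exp_le hZ0).2 hZ
  have hlx : 0 ≤ Real.log (x : ℝ) := Real.log_nonneg (by exact_mod_cast hx1)
  have hsκ : κ ^ 90 ≤ s := by
    rw [hs']
    linarith
  have hκs : κ ≤ s := hκ90.trans hsκ
  have hs1 : 1 ≤ s := hκ0.trans hκs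
  have hts : 1 / 4 ≤ t - s ∧ t - s ≤ 1 := by
    have h1 : t - s = Real.log (((x : ℝ) + 1) / x) := by
      rw [hs', ht', Real.log_div (by positivity) hxr.ne']
      ring
    rw [h1]
    have h3 : (1 : ℝ) / 4 ≤ Real.log (4 / 3) := by
      rw [Real.le_log_iff_exp_le (by norm_num)]
      have h4 : Real.exp (1 / 4 : ℝ) ^ 4 < (4 / 3 : ℝ) ^ 4 := by
        rw [← Real.exp_nat_mul]
        have h5 := Real.exp_one_lt_d9
        norm_num
        linarith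
      exact (lt_of_pow_lt_pow_left₀ 4 (by norm_num) h4).le
    rcases hx with rfl | rfl
    · norm_num
      have h4 := Real.log_two_gt_d9
      have h5 := Real.log_two_lt_d9
      constructor <;> linarith
    · norm_num
      have h6 : Real.log (4 / 3) ≤ 4 / 3 - 1 := Real.log_le_sub_one_of_pos (by norm_num)
      constructor <;> linarith
  have hst : s ≤ t := by linarith
  have hst1 : t ≤ s + 1 := by linarith
  have hlo : s + 1 / s ^ 1 ≤ t := by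
    have h1 : 1 / s ^ 1 ≤ 1 / 4 := by
      rw [pow_one]
      exact one_div_le_one_div_of_le (by norm_num) (by linarith)
    linarith
  rw [← hs, ← ht]
  obtain ⟨V, hV⟩ : ∃ V : ℝ, V = ∑ p ∈ Pool.Agent.Lib.OW.PR s t, 1 / (p : ℝ) := ⟨_, rfl⟩
  rw [← hV]
  have hVlo : 1 / (80 * s) ≤ V := by
    rw [hV]
    refine le_trans ?_ (hs0 s t (hκ3.trans hκs) hlo hst1)
    rw [div_le_div_iff₀ (by positivity) (by positivity)]
    nlinarith [hts.1]
  have hV0 : 0 < V := lt_of_lt_of_le (by positivity) hVlo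
  refine ⟨hV0, ?_⟩
  have h1 := hC s t hs1 hst hst1
  rw [← hV] at h1
  have h2 : WCL N x Z q a = ∑ p ∈ (Pool.Agent.Lib.OW.PR s t).filter (fun p => p ≡ a [MOD q]), 1 / (p : ℝ) -
      ∑ p ∈ ((Pool.Agent.Lib.OW.PR s t).filter (fun p => p ≡ a [MOD q])).filter (fun p => p ∣ N), 1 / (p : ℝ) := by
    have h3 := sum_filter_add_sum_filter_not ((Pool.Agent.Lib.OW.PR s t).filter (fun p => p ≡ a [MOD q]))
      (fun p => p ∣ N) (fun p => 1 / (p : ℝ))
    rw [WCL, P4_set hx1 hZ1, ← hs, ← ht]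
    linarith
  have h3 : ∑ p ∈ ((Pool.Agent.Lib.OW.PR s t).filter (fun p => p ≡ a [MOD q])).filter (fun p => p ∣ N), 1 / (p : ℝ) ≤
      K * Real.exp (-s) := by
    have h4 := div_loss (N := N) (by omega) (by linarith : 0 < s) t
    rw [← hK] at h4
    have hK0 : 0 ≤ K := by
      rw [hK]
      exact Real.log_natCast_nonneg N
    refine le_trans ?_ (h4.trans (mul_le_mul_of_nonneg_right (div_le_self hK0 hs1) (Real.exp_pos _).le))
    refine sum_le_sum_of_subset_of_nonneg ?_ fun _ _ _ => by positivity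
    intro p hp
    rw [mem_filter, mem_filter] at hp
    rw [mem_filter]
    exact ⟨hp.1.1, hp.2⟩
  have h3' : 0 ≤ ∑ p ∈ ((Pool.Agent.Lib.OW.PR s t).filter (fun p => p ≡ a [MOD q])).filter (fun p => p ∣ N),
      1 / (p : ℝ) := sum_nonneg fun _ _ => by positivity
  obtain ⟨f, hf⟩ : ∃ f : ℝ, f = (q.totient : ℝ) := ⟨_, rfl⟩
  rw [← hf] at h1 ⊢
  rw [← hK] at hqA hκK
  have hf1 : 1 ≤ f := by
    rw [hf]
    exact_mod_cast Nat.totient_pos.mpr hq
  have hf0 : 0 < f := by linarith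
  have hfK : f ≤ K ^ A := by
    rw [hf]
    refine le_trans ?_ hqA
    exact_mod_cast Nat.totient_le q
  have hK1 : 1 ≤ K := by
    rw [← hκK]
    exact one_le_pow₀ hκ0
  -- errors
  have hexp : K * Real.exp (-s) * (800 * s * f) ≤ 1 / 2 := by
    have h4 : s ≤ 2 * Real.exp (s / 2) := by
      have := Real.add_one_le_exp (s / 2)
      linarith
    have h5 : Real.exp (-s) * s ≤ 2 * Real.exp (-(s / 2)) := by
      calc Real.exp (-s) * s ≤ Real.exp (-s) * (2 * Real.exp (s / 2)) :=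
            mul_le_mul_of_nonneg_left h4 (Real.exp_pos _).le
        _ = 2 * (Real.exp (-s) * Real.exp (s / 2)) := by ring
        _ = 2 * Real.exp (-(s / 2)) := by
            rw [← Real.exp_add]
            congr 2
            ring
    have h6 : Real.exp (-(s / 2)) ≤ Real.exp (-κ) := by
      apply Real.exp_le_exp.mpr
      have h7 : 2 * κ ≤ κ ^ 90 := by
        calc 2 * κ ≤ κ * κ := mul_le_mul_of_nonneg_right (by linarith) (by linarith)
          _ = κ ^ 2 := by ring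
          _ ≤ κ ^ 90 := pow_le_pow_right₀ hκ0 (by norm_num)
      linarith
    have h7 : 3200 * K ^ (A + 1) ≤ Real.exp κ := by
      refine le_trans ?_ hκ4
      rw [pow_succ κ, pow_mul, hκK, mul_comm]
      exact mul_le_mul_of_nonneg_left hκ1 (by positivity)
    calc K * Real.exp (-s) * (800 * s * f) = 800 * K * f * (Real.exp (-s) * s) := by ring
      _ ≤ 800 * K * K ^ A * (2 * Real.exp (-κ)) := by
          apply mul_le_mul _ (h5.trans (by linarith)) (by positivity) (by positivity)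
          exact mul_le_mul_of_nonneg_left hfK (by positivity)
      _ = (3200 * K ^ (A + 1)) * Real.exp (-κ) / 2 := by ring
      _ ≤ Real.exp κ * Real.exp (-κ) / 2 := by
          apply div_le_div_of_nonneg_right _ (by norm_num : (0 : ℝ) ≤ 2)
          exact mul_le_mul_of_nonneg_right h7 (Real.exp_pos _).le
      _ = 1 / 2 := by rw [← Real.exp_add, add_neg_cancel, Real.exp_zero]
  have hpow : C * q / s ^ (4 * A + 4) * (800 * s * f) ≤ 1 / 2 := by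
    have h4 : C * q / s ^ (4 * A + 4) * (800 * s * f) = 800 * C * (q * f) / s ^ (4 * A + 3) := by
      have h5 : s ^ (4 * A + 4) = s ^ (4 * A + 3) * s := by ring
      rw [h5]
      have hs0' : s ≠ 0 := by linarith
      field_simp
    rw [h4, div_le_iff₀ (by positivity)]
    have h5 : (q : ℝ) * f ≤ K ^ A * K ^ A := mul_le_mul hqA hfK hf0.le (by positivity)
    have h6 : κ * (K ^ A * K ^ A) ≤ s ^ (4 * A + 3) := by
      have h7 : κ * (K ^ A * K ^ A) = κ ^ (200 * A + 1) := by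
        rw [← hκK]
        ring
      rw [h7]
      calc κ ^ (200 * A + 1) ≤ κ ^ (90 * (4 * A + 3)) := pow_le_pow_right₀ hκ0 (by omega)
        _ = (κ ^ 90) ^ (4 * A + 3) := pow_mul _ _ _
        _ ≤ s ^ (4 * A + 3) := pow_le_pow_left₀ (by positivity) hsκ _
    calc 800 * C * (q * f) ≤ 800 * C * (K ^ A * K ^ A) := mul_le_mul_of_nonneg_left h5 (by positivity)
      _ = 1 / 2 * ((1600 * C) * (K ^ A * K ^ A)) := by ring
      _ ≤ 1 / 2 * (κ * (K ^ A * K ^ A)) :=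
          mul_le_mul_of_nonneg_left (mul_le_mul_of_nonneg_right hκ2 (by positivity)) (by norm_num)
      _ ≤ 1 / 2 * s ^ (4 * A + 3) := mul_le_mul_of_nonneg_left h6 (by norm_num)
  have herr : C * q / s ^ (4 * A + 4) + K * Real.exp (-s) ≤ 0.1 * (V / f) := by
    have h4 : (C * q / s ^ (4 * A + 4) + K * Real.exp (-s)) * (800 * s * f) ≤ 1 := by linarith
    have h5 : 1 / (800 * s * f) ≤ 0.1 * (V / f) := by
      calc 1 / (800 * s * f) = 0.1 * (1 / (80 * s) / f) := by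
            have hs0' : s ≠ 0 := by linarith
            field_simp
            norm_num
        _ ≤ 0.1 * (V / f) := mul_le_mul_of_nonneg_left (div_le_div_of_nonneg_right hVlo hf0.le) (by norm_num)
    refine le_trans ?_ h5
    rw [le_div_iff₀ (by positivity)]
    exact h4
  rw [h2]
  rw [abs_le] at h1 ⊢
  constructor
  · linarith [h1.1]
  · linarith [h1.2]

theorem ev_wcl {Q : MPar} (hQ : Q.Ok) (A : ℕ) : ∀ᶠ N : ℕ in atTop, ∀ x : ℕ, (x = 1 ∨ x = 3) → ∀ i ≤ Q.k, ∃ V : ℝ, 0 < V ∧ ∀ q a : ℕ, 1 ≤ q →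
    (q : ℝ) ≤ (Real.log N) ^ A → a.Coprime q → 0.9 * V / q.totient ≤ WCL N x (Q.Z N i) q a ∧ WCL N x (Q.Z N i) q a ≤ 1.1 * V / q.totient := by
  obtain ⟨C, hC1, hC⟩ := ap_err (4 * A + 4)
  obtain ⟨s0, hs01, hs0⟩ := ap_lo 1
  filter_upwards [P4_kp.eventually_ge_atTop 3200, P4_kp.eventually_ge_atTop (1600 * C),
    P4_kp.eventually_ge_atTop s0, P4_kp.eventually (P4_exp (100 * (A + 1) + 1)),
    eventually_gt_atTop 1, ev_Lg hQ] with N hk1 hk2 hk3 hk4 hN hL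
  intro x hx i hi
  have hZ := (Z_le hQ hL hi).1
  have hmain := fun (q a : ℕ) (hq : 1 ≤ q) (hqA : (q : ℝ) ≤ (Real.log N) ^ A) (hqa : a.Coprime q) =>
    P4_main (N := N) (x := x) (Z := Q.Z N i) (q := q) (a := a) (A := A) hx hN hC1 hL.Kk hk1 hk2 hk3 hk4 hZ hq hqA
      (hC q a hq hqa) hs0
  obtain ⟨V, hV⟩ : ∃ V : ℝ, V = ∑ p ∈ Pool.Agent.Lib.OW.PR (Real.log ((x * Q.Z N i : ℕ) : ℝ))
    (Real.log (((x + 1) * Q.Z N i : ℕ) : ℝ)), 1 / (p : ℝ) := ⟨_, rfl⟩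
  simp only [← hV] at hmain
  refine ⟨V, ?_, ?_⟩
  · have h1 : ((1 : ℕ) : ℝ) ≤ (Real.log N) ^ A := by
      rw [Nat.cast_one, ← hL.Kk]
      exact one_le_pow₀ (one_le_pow₀ (by linarith))
    exact (hmain 1 1 le_rfl h1 (Nat.coprime_one_right 1)).1
  · intro q a hq hqA hqa
    have h1 := (hmain q a hq hqA hqa).2
    rw [abs_le] at h1
    have h2 : 0.9 * V / (q.totient : ℝ) = 0.9 * (V / q.totient) := by ring
    have h3 : 1.1 * V / (q.totient : ℝ) = 1.1 * (V / q.totient) := by ring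
    rw [h2, h3]
    constructor
    · linarith [h1.1]
    · linarith [h1.2]

end MPar

end Pool.Agent.Lib.TC
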