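import Pool.Agent.Lib.MP_7b7e48_nt.BR3.P0
import Pool.Agent.Lib.MP_7b7e48_nt.BR3.P4

/-!
# BR3.P5 (70 minutes): the windows of `X` in residue classes

`WXs N i` is `WCL` with `x = 3`, modulus `W ^ 2`, class `1`. For a set `P` of primes, `q = ∏ p ^ ex p ≤ K ^ A`, class `a` (`crt_cls`; the primes of the window are `> exp (κ ^ 90) > K ^ A`, so coprime to `q`): the sum is over
`l ≡ a mod q`, `l ≡ 1 mod W^2`: empty, or one class modulo `lcm q (W^2) ≤ K ^ (A+1)` (`Nat.chineseRemainder'`; coprime to it), and `φ(q) ≤ φ(lcm)` (`Nat.totient_dvd_of_dvd`). So the sum is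
`≤ 1.1 V / φ(q)` (`ev_wcl (A + 1)`), and `∑_{WXs} ≥ 0.9 V / φ(W^2) ≥ 0.9 V / W^2`: ratio `≤ 2 W^2`.
-/

set_option autoImplicit false

open Finset Filter

namespace Pool.Agent.Lib.TC

namespace MPar

private theorem p5_set (Q : MPar) (N i : ℕ) :
    ∑ l ∈ Q.WXs N i, 1 / (l : ℝ) = WCL N 3 (Q.Z N i) (Q.W ^ 2) 1 := rfl

/-- the primes of the windows are larger than every power of `log N` -/
private theorem p5_large (A : ℕ) : ∀ᶠ N : ℕ in atTop, (Real.log N) ^ A < Real.exp ((kp N) ^ 90) ∧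
    (kp N) ^ 100 = Real.log N := by
  have hlog : Tendsto (fun N : ℕ => Real.log (N : ℝ)) atTop atTop :=
    Real.tendsto_log_atTop.comp tendsto_natCast_atTop_atTop
  have hkp : Tendsto (fun N : ℕ => kp N) atTop atTop :=
    (tendsto_rpow_atTop (by norm_num : (0 : ℝ) < 1 / 100)).comp hlog
  have h1 : Tendsto (fun x : ℝ => x ^ (100 * A) * Real.exp (-x)) atTop (nhds 0) :=
    Real.tendsto_pow_mul_exp_neg_atTop_nhds_zero (100 * A)
  have h2 := (h1.comp hkp).eventually (gt_mem_nhds one_pos)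
  filter_upwards [h2, hkp.eventually_ge_atTop 1, hlog.eventually_ge_atTop 0] with N h3 h4 h5
  have h6 : (kp N) ^ 100 = Real.log N := by
    unfold kp
    rw [← Real.rpow_natCast, ← Real.rpow_mul h5]
    norm_num
  refine ⟨?_, h6⟩
  simp only [Function.comp] at h3
  rw [← h6, ← pow_mul]
  have h7 : kp N ≤ (kp N) ^ 90 := le_self_pow₀ h4 (by norm_num)
  have h8 : Real.exp (kp N) ≤ Real.exp ((kp N) ^ 90) := Real.exp_le_exp.mpr h7
  refine lt_of_lt_of_le ?_ h8
  rw [Real.exp_neg, ← div_eq_mul_inv, div_lt_one (Real.exp_pos _)] at h3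
  exact h3

theorem ev_BTc {Q : MPar} (hQ : Q.Ok) (A : ℕ) : ∀ᶠ N : ℕ in atTop, ∀ D i : ℕ, i ≤ Q.k →
    BTc D (fun l => 1 / (l : ℝ)) (2 * (Q.W : ℝ) ^ 2) ⌊(Real.log N) ^ A⌋₊ (Q.WXs N i) := by
  have hlog : Tendsto (fun N : ℕ => Real.log (N : ℝ)) atTop atTop :=
    Real.tendsto_log_atTop.comp tendsto_natCast_atTop_atTop
  filter_upwards [ev_wcl hQ (A + 1), ev_Lg hQ, p5_large A, p5_large 1, hlog.eventually_ge_atTop ((Q.W : ℝ) ^ 2),
    hlog.eventually_ge_atTop 1] with N hN hL hbig hbig1 hW hK1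
  intro D i hi P hP hq u
  obtain ⟨V, hV, h⟩ := hN 3 (Or.inr rfl) i hi
  have hK0 : (0 : ℝ) < Real.log N := by linarith
  have hW1 : 1 ≤ Q.W ^ 2 := Nat.one_le_pow _ _ hQ.W0
  have hWr : (1 : ℝ) ≤ (Q.W : ℝ) ^ 2 := by exact_mod_cast hW1
  set q := ∏ p ∈ P, p ^ (padicValNat p D + 1) with hqdef
  have hq0 : 0 < q := prod_pos fun p hp => pow_pos (hP p hp).pos _
  have hqK : (q : ℝ) ≤ (Real.log N) ^ A := by
    have h1 : (q : ℝ) ≤ (⌊(Real.log N) ^ A⌋₊ : ℝ) := by exact_mod_cast hq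
    exact h1.trans (Nat.floor_le (by positivity))
  obtain ⟨⟨a, hac, ha⟩, hcard⟩ := crt_cls P hP (fun p => padicValNat p D + 1) (fun p _ => by omega) u
  have hcop : ∀ l ∈ Q.WXs N i, l.Coprime q ∧ l.Coprime (Q.W ^ 2) := by
    intro l hl
    obtain ⟨hlp, -, hl1, -⟩ := w_ok hQ hL hi (Or.inl hl)
    have hl0 : (0 : ℝ) < l := by exact_mod_cast hlp.pos
    have hl2 : Real.exp ((kp N) ^ 90) < l := by
      rw [← Real.lt_log_iff_exp_lt hl0]
      exact hl1
    have key : ∀ m : ℕ, 0 < m → (m : ℝ) < l → l.Coprime m := by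
      intro m hm hml
      rw [Nat.Prime.coprime_iff_not_dvd hlp]
      intro hd
      have h4 := Nat.le_of_dvd hm hd
      have h5 : (l : ℝ) ≤ m := by exact_mod_cast h4
      linarith
    constructor
    · exact key q hq0 (by linarith [hbig.1])
    · refine key (Q.W ^ 2) hW1 ?_
      have h6 := hbig1.1
      rw [pow_one] at h6
      push_cast
      linarith
  have hφq : (0 : ℝ) < q.totient := by exact_mod_cast Nat.totient_pos.mpr hq0
  have hφW : (0 : ℝ) < (Q.W ^ 2).totient := by exact_mod_cast Nat.totient_pos.mpr hW1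
  have hS0 : 0.9 * V / (Q.W ^ 2).totient ≤ ∑ l ∈ Q.WXs N i, 1 / (l : ℝ) := by
    rw [p5_set]
    refine (h (Q.W ^ 2) 1 hW1 ?_ (Nat.coprime_one_left _)).1
    push_cast
    refine hW.trans ?_
    exact le_self_pow₀ hK1 (by omega)
  have hS1 : 0.9 * V / (Q.W : ℝ) ^ 2 ≤ ∑ l ∈ Q.WXs N i, 1 / (l : ℝ) := by
    refine le_trans ?_ hS0
    refine div_le_div_of_nonneg_left (by positivity) hφW ?_
    have := Nat.totient_le (Q.W ^ 2)
    exact_mod_cast this
  have hgoal : ∑ l ∈ (Q.WXs N i).filter (fun l => l ≡ a [MOD q]), 1 / (l : ℝ) ≤ 1.1 * V / q.totient := by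
    rcases Finset.eq_empty_or_nonempty ((Q.WXs N i).filter (fun l => l ≡ a [MOD q])) with he | ⟨l0, hl0⟩
    · rw [he, sum_empty]
      positivity
    · rw [mem_filter] at hl0
      have hl0' := hl0.1
      unfold WXs at hl0'
      rw [mem_filter] at hl0'
      obtain ⟨hc1, hc2⟩ := hcop l0 hl0.1
      have hlcm0 : 0 < Nat.lcm q (Q.W ^ 2) := Nat.lcm_pos hq0 hW1
      have hl0c : l0.Coprime (Nat.lcm q (Q.W ^ 2)) := by
        refine Nat.Coprime.coprime_dvd_right (Nat.lcm_dvd_mul q (Q.W ^ 2)) ?_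
        exact Nat.Coprime.mul_right hc1 hc2
      have hlcmK : ((Nat.lcm q (Q.W ^ 2) : ℕ) : ℝ) ≤ (Real.log N) ^ (A + 1) := by
        have h1 : Nat.lcm q (Q.W ^ 2) ≤ q * Q.W ^ 2 := Nat.le_of_dvd (Nat.mul_pos hq0 hW1) (Nat.lcm_dvd_mul q (Q.W ^ 2))
        have h2 : ((Nat.lcm q (Q.W ^ 2) : ℕ) : ℝ) ≤ (q : ℝ) * (Q.W : ℝ) ^ 2 := by exact_mod_cast h1
        refine h2.trans ?_
        rw [pow_succ]
        exact mul_le_mul hqK hW (by positivity) (pow_nonneg hK0.le A)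
      have h3 := (h _ l0 hlcm0 hlcmK hl0c).2
      have h4 : ∑ l ∈ (Q.WXs N i).filter (fun l => l ≡ a [MOD q]), 1 / (l : ℝ) ≤
          WCL N 3 (Q.Z N i) (Nat.lcm q (Q.W ^ 2)) l0 := by
        unfold WCL
        refine sum_le_sum_of_subset_of_nonneg ?_ fun l _ _ => by positivity
        intro l hl
        rw [mem_filter] at hl
        have hl' := hl.1
        unfold WXs at hl'
        rw [mem_filter] at hl'
        rw [mem_filter]
        refine ⟨hl'.1, hl'.2.1, hl'.2.2.1, ?_⟩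
        have e1 : l ≡ l0 [MOD q] := hl.2.trans hl0.2.symm
        have e2 : l ≡ l0 [MOD Q.W ^ 2] := hl'.2.2.2.trans hl0'.2.2.2.symm
        rw [Nat.modEq_iff_dvd] at e1 e2 ⊢
        have e3 := lcm_dvd e1 e2
        rw [← Int.coe_lcm] at e3
        exact e3
      refine (h4.trans h3).trans ?_
      refine div_le_div_of_nonneg_left (by positivity) hφq ?_
      have h5 : q.totient ∣ (Nat.lcm q (Q.W ^ 2)).totient := Nat.totient_dvd_of_dvd (Nat.dvd_lcm_left _ _)
      have h6 := Nat.le_of_dvd (Nat.totient_pos.mpr hlcm0) h5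
      exact_mod_cast h6
  classical
  have hset : ∑ l ∈ (Q.WXs N i).filter (fun l => ∀ p : P, toU _ l = u p), 1 / (l : ℝ) =
      ∑ l ∈ (Q.WXs N i).filter (fun l => l ≡ a [MOD q]), 1 / (l : ℝ) := by
    refine sum_congr ?_ fun _ _ => rfl
    refine filter_congr fun l hl => ?_
    exact ha l (hcop l hl).1
  have hcard' : ((Nat.card (∀ p : P, HP D p) : ℕ) : ℝ) = (q.totient : ℝ) := by
    exact_mod_cast hcard
  have hfin : ∑ l ∈ (Q.WXs N i).filter (fun l => ∀ p : P, toU _ l = u p), 1 / (l : ℝ) ≤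
      (2 * (Q.W : ℝ) ^ 2) * ((∑ l ∈ Q.WXs N i, 1 / (l : ℝ)) / (Nat.card (∀ p : P, HP D p) : ℝ)) := by
    rw [hset, hcard']
    refine hgoal.trans ?_
    have h7 : 1.1 * V / (q.totient : ℝ) ≤ (2 * (Q.W : ℝ) ^ 2) * ((0.9 * V / (Q.W : ℝ) ^ 2) / (q.totient : ℝ)) := by
      have h8 : (2 * (Q.W : ℝ) ^ 2) * ((0.9 * V / (Q.W : ℝ) ^ 2) / (q.totient : ℝ)) = 1.8 * V / (q.totient : ℝ) := by
        have hW0 : (Q.W : ℝ) ≠ 0 := by
          have := hQ.W0
          positivity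
        field_simp
        ring
      rw [h8]
      refine div_le_div_of_nonneg_right ?_ hφq.le
      linarith
    refine h7.trans ?_
    refine mul_le_mul_of_nonneg_left ?_ (by positivity)
    exact div_le_div_of_nonneg_right hS1 hφq.le
  convert hfin using 1

end MPar

end Pool.Agent.Lib.TC
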