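import Pool.Agent.Lib.MP_7b7e48_nt.BR3.N

/-!
# BR3.B (60 minutes): sizes of `kp`, `l0`, `np`

PROOFS. `K = log N → ∞`, `L = log K → ∞`, `l0 = (Cp + 1) L`, `kp = K ^ (1/100)`.
`Kk`: `Real.rpow_natCast`, `Real.rpow_mul`. `k0`: `kp → ∞`. `lb`: `l0 → ∞`. `lk`: `L = o(K ^ (1/100))` (`isLittleO_log_rpow_atTop`).
`np = ⌈10 sqrt l0⌉`: `np1`: `np ≤ 10 sqrt l0 + 1 ≤ 11 sqrt l0` as `l0 ≥ 1`; `np2`: `np ^ 2 ≥ 100 l0`;
`np3`: `(2k+1) np + 3 ≤ (2k+1) 11 sqrt l0 + 3 ≤ 40 k' sqrt l0 ≤ (2/5) l0`, `k' = k + 1`, because `sqrt l0 ≥ 10 ^ 3 k' ^ 2 ≥ 100 k'`.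
-/

set_option autoImplicit false

open Finset Filter

namespace Pool.Agent.Lib.TC

namespace MPar

theorem ev_base (Q : MPar) : ∀ᶠ N : ℕ in atTop, (kp N) ^ 100 = Real.log N ∧ (10 : ℝ) ^ 10 * (Q.k + 1) ^ 4 ≤ kp N ∧
    (10 : ℝ) ^ 6 * (Q.k + 1) ^ 4 ≤ Q.l0 N ∧ Q.l0 N ≤ kp N ∧ Real.exp (4 * (Q.k + 1)) ≤ kp N := by
  have hlog : Tendsto (fun N : ℕ => Real.log N) atTop atTop := Real.tendsto_log_atTop.comp tendsto_natCast_atTop_atTop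
  have hlog2 : Tendsto (fun N : ℕ => Real.log (Real.log N)) atTop atTop := Real.tendsto_log_atTop.comp hlog
  have hkp : Tendsto (fun N : ℕ => kp N) atTop atTop := (tendsto_rpow_atTop (by norm_num : (0 : ℝ) < 1 / 100)).comp hlog
  have hc : (0 : ℝ) < (Q.Cp : ℝ) + 1 := by positivity
  have hl0 : Tendsto (fun N : ℕ => Q.l0 N) atTop atTop := by
    unfold l0
    exact Tendsto.const_mul_atTop hc hlog2
  have hO := (isLittleO_log_rpow_atTop (by norm_num : (0 : ℝ) < 1 / 100)).bound (show (0 : ℝ) < 1 / ((Q.Cp : ℝ) + 1) by positivity)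
  have hO2 := hlog.eventually hO
  filter_upwards [hkp.eventually_ge_atTop ((10 : ℝ) ^ 10 * (Q.k + 1) ^ 4), hl0.eventually_ge_atTop ((10 : ℝ) ^ 6 * (Q.k + 1) ^ 4),
    hkp.eventually_ge_atTop (Real.exp (4 * (Q.k + 1))), hO2, hlog2.eventually_ge_atTop 0] with N h1 h2 h3 h4 h5
  refine ⟨?_, h1, h2, ?_, h3⟩
  · unfold kp
    rw [← Real.rpow_natCast, ← Real.rpow_mul (Real.log_natCast_nonneg N)]
    norm_num
  · rw [Real.norm_eq_abs, Real.norm_eq_abs, abs_of_nonneg h5, abs_of_nonneg (Real.rpow_nonneg (Real.log_natCast_nonneg N) _)] at h4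
    unfold l0 kp
    have h6 : ((Q.Cp : ℝ) + 1) * Real.log (Real.log N) ≤ ((Q.Cp : ℝ) + 1) * (1 / ((Q.Cp : ℝ) + 1) * Real.log N ^ ((1 : ℝ) / 100)) :=
      mul_le_mul_of_nonneg_left h4 hc.le
    rwa [← mul_assoc, mul_one_div_cancel hc.ne', one_mul] at h6

theorem np_bounds {Q : MPar} {N : ℕ} (hl : (10 : ℝ) ^ 6 * (Q.k + 1) ^ 4 ≤ Q.l0 N) : (Q.np N : ℝ) ≤ 11 * Real.sqrt (Q.l0 N) ∧
    100 * Q.l0 N ≤ (Q.np N : ℝ) ^ 2 ∧ (2 * Q.k + 1) * (Q.np N : ℝ) + 3 ≤ 2 / 5 * Q.l0 N := by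
  have hk : (1 : ℝ) ≤ (Q.k : ℝ) + 1 := by
    have : (0 : ℝ) ≤ Q.k := Nat.cast_nonneg _
    linarith
  have hl0 : 0 ≤ Q.l0 N := le_trans (by positivity) hl
  have hs2 : Real.sqrt (Q.l0 N) ^ 2 = Q.l0 N := Real.sq_sqrt hl0
  have hs : (10 : ℝ) ^ 3 * ((Q.k : ℝ) + 1) ^ 2 ≤ Real.sqrt (Q.l0 N) := by
    refine Real.le_sqrt_of_sq_le (le_trans (le_of_eq ?_) hl)
    ring
  set s := Real.sqrt (Q.l0 N) with hsd
  set K : ℝ := (Q.k : ℝ) + 1 with hKd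
  have hK2 : K ≤ K ^ 2 := by nlinarith
  have hs1 : (1000 : ℝ) * K ≤ s := by nlinarith
  have hs0 : (1 : ℝ) ≤ s := by linarith
  have hn1 : (Q.np N : ℝ) < 10 * s + 1 := by
    unfold np
    exact Nat.ceil_lt_add_one (by positivity)
  have hn2 : 10 * s ≤ (Q.np N : ℝ) := by
    unfold np
    exact Nat.le_ceil _
  refine ⟨by linarith, ?_, ?_⟩
  · have h1 : (10 * s) ^ 2 ≤ (Q.np N : ℝ) ^ 2 := pow_le_pow_left₀ (by linarith) hn2 2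
    calc 100 * Q.l0 N = (10 * s) ^ 2 := by rw [mul_pow, hs2]; norm_num
      _ ≤ _ := h1
  · have hk1 : (Q.k : ℝ) = K - 1 := by rw [hKd]; ring
    rw [hk1, ← hs2]
    have h1 : (Q.np N : ℝ) ≤ 11 * s := by linarith
    have h2 : (2 * (K - 1) + 1) * (Q.np N : ℝ) ≤ (2 * (K - 1) + 1) * (11 * s) :=
      mul_le_mul_of_nonneg_left h1 (by linarith)
    have h3 : (1000 : ℝ) * K * s ≤ s * s := mul_le_mul_of_nonneg_right hs1 (by linarith)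
    have h4 : (1 : ℝ) ≤ K * s := by nlinarith
    nlinarith

end MPar

end Pool.Agent.Lib.TC
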