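import Pool.Agent.Lib.MP_7b7e48_nt.BR3.B

/-!
# BR3.C (80 minutes): sizes of the units `j1, …, j5` and of the number of the marks

PROOFS. Write `K = kp ^ 100`, `L = log K = 100 log kp`, `κ = kp ≥ 10 ^ 10`. `exp 1 ≤ 3`.
`e1`: `j1 = ⌈L / 4⌉`: `exp (L/4) = κ ^ 25`, `j1 ≤ L/4 + 1`. `e2`: `j2 = ⌊L/2⌋`, `L/2 - 1 ≤ j2 ≤ L/2`. `e3`: `j3 = ⌈log (2 l0)⌉`. `e4`, `e5`: as `e1`
(`3 L / 4`, `7 L / 10`). `j12`: `L/4 + 1 < L/2 - 1` (`L ≥ 10`; e.g. from `κ ≥ 10 ^ 10`: `exp (j1) ≤ 3 κ ^ 25 < κ ^ 50 / 3 ≤ exp j2`, so `j1 < j2`);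
`j25`, `j34` in the same way (`exp j3 ≤ 6 l0 ≤ 6 κ < κ ^ 75 ≤ exp j4`).
`cnt`: every number is `≤ C (L + sqrt l0)`: `n0 ≤ la j2 ≤ la L`, `nit ≤ np + 6 j4 ≤ 11 sqrt l0 + 6 (L + 1)`, `np ≤ 11 sqrt l0`, `l0 = (Cp+1) L`
and `κ = exp (L / 100)` is larger than every fixed multiple of `L + 1` for large `N` (`C (L + 1) ≤ κ` eventually,
`isLittleO_log_rpow_atTop`).
`ev_ppd`: take logarithms: `k np log (5 l0) ≤ 11 k sqrt l0 log (5 l0) ≤ l0 / (Cp + 1) = log K` for large `l0` (`log x ≤ 4 x ^ (1/4)`), and `l0 → ∞`.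
-/

set_option autoImplicit false

open Finset Filter

namespace Pool.Agent.Lib.TC

namespace MPar

private theorem C_ceil {x : ℝ} (hx : 0 ≤ x) :
    Real.exp x ≤ Real.exp (⌈x⌉₊ : ℕ) ∧ Real.exp (⌈x⌉₊ : ℕ) ≤ 3 * Real.exp x := by
  constructor
  · exact Real.exp_le_exp.2 (Nat.le_ceil x)
  · have h1 : ((⌈x⌉₊ : ℕ) : ℝ) ≤ x + 1 := (Nat.ceil_lt_add_one hx).le
    have h2 : Real.exp 1 ≤ 3 := by
      have := Real.exp_one_lt_d9
      linarith
    calc Real.exp (⌈x⌉₊ : ℕ) ≤ Real.exp (x + 1) := Real.exp_le_exp.2 h1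
      _ = Real.exp 1 * Real.exp x := by rw [Real.exp_add, mul_comm]
      _ ≤ 3 * Real.exp x := mul_le_mul_of_nonneg_right h2 (Real.exp_pos _).le

private theorem C_floor {x : ℝ} (hx : 0 ≤ x) :
    Real.exp x ≤ 3 * Real.exp (⌊x⌋₊ : ℕ) ∧ Real.exp (⌊x⌋₊ : ℕ) ≤ Real.exp x := by
  constructor
  · have h1 : x ≤ ((⌊x⌋₊ : ℕ) : ℝ) + 1 := (Nat.lt_floor_add_one x).le
    have h2 : Real.exp 1 ≤ 3 := by
      have := Real.exp_one_lt_d9
      linarith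
    calc Real.exp x ≤ Real.exp (((⌊x⌋₊ : ℕ) : ℝ) + 1) := Real.exp_le_exp.2 h1
      _ = Real.exp 1 * Real.exp (⌊x⌋₊ : ℕ) := by rw [Real.exp_add, mul_comm]
      _ ≤ 3 * Real.exp (⌊x⌋₊ : ℕ) := mul_le_mul_of_nonneg_right h2 (Real.exp_pos _).le
  · exact Real.exp_le_exp.2 (Nat.floor_le hx)

private theorem C_lt {a b : ℕ} (h : Real.exp (a : ℝ) < Real.exp (b : ℝ)) : a < b := by
  have h1 := Real.exp_lt_exp.1 h
  exact_mod_cast h1

/-- sizes of the units -/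
theorem units {Q : MPar} {N : ℕ} (hK : (kp N) ^ 100 = Real.log N) (h0 : (10 : ℝ) ^ 10 ≤ kp N) (hl : 1 ≤ Q.l0 N) (hlk : Q.l0 N ≤ kp N) :
    ((kp N) ^ 25 ≤ Real.exp (j1 N) ∧ Real.exp (j1 N) ≤ 3 * (kp N) ^ 25) ∧
    ((kp N) ^ 50 ≤ 3 * Real.exp (j2 N) ∧ Real.exp (j2 N) ≤ (kp N) ^ 50) ∧
    (2 * Q.l0 N ≤ Real.exp (Q.j3 N) ∧ Real.exp (Q.j3 N) ≤ 6 * Q.l0 N) ∧
    ((kp N) ^ 75 ≤ Real.exp (j4 N) ∧ Real.exp (j4 N) ≤ 3 * (kp N) ^ 75) ∧
    ((kp N) ^ 70 ≤ Real.exp (j5 N) ∧ Real.exp (j5 N) ≤ 3 * (kp N) ^ 70) ∧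
    j1 N < j2 N ∧ j2 N < j5 N ∧ Q.j3 N < j4 N := by
  set κ : ℝ := kp N with hκ
  have hκ0 : 0 < κ := lt_of_lt_of_le (by norm_num) h0
  have hκ1 : 1 ≤ κ := le_trans (by norm_num) h0
  have hlκ : 0 ≤ Real.log κ := Real.log_nonneg hκ1
  have hL : Real.log (Real.log N) = 100 * Real.log κ := by
    rw [← hK, Real.log_pow]
    norm_num
  have hexp : ∀ n : ℕ, Real.exp ((n : ℝ) * Real.log κ) = κ ^ n := by
    intro n
    rw [mul_comm, Real.exp_mul, Real.exp_log hκ0, Real.rpow_natCast]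
  have g1 : κ ^ 25 ≤ Real.exp (j1 N) ∧ Real.exp (j1 N) ≤ 3 * κ ^ 25 := by
    have h1 : Real.log (Real.log N) / 4 = ((25 : ℕ) : ℝ) * Real.log κ := by
      rw [hL]
      push_cast
      ring
    have h2 := C_ceil (show 0 ≤ Real.log (Real.log N) / 4 by rw [h1]; positivity)
    unfold j1
    rw [h1, hexp] at h2
    rw [h1]
    exact h2
  have g2 : κ ^ 50 ≤ 3 * Real.exp (j2 N) ∧ Real.exp (j2 N) ≤ κ ^ 50 := by
    have h1 : Real.log (Real.log N) / 2 = ((50 : ℕ) : ℝ) * Real.log κ := by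
      rw [hL]
      push_cast
      ring
    have h2 := C_floor (show 0 ≤ Real.log (Real.log N) / 2 by rw [h1]; positivity)
    unfold j2
    rw [h1, hexp] at h2
    rw [h1]
    exact h2
  have g3 : 2 * Q.l0 N ≤ Real.exp (Q.j3 N) ∧ Real.exp (Q.j3 N) ≤ 6 * Q.l0 N := by
    have h2 := C_ceil (show 0 ≤ Real.log (2 * Q.l0 N) from Real.log_nonneg (by linarith))
    rw [Real.exp_log (by linarith)] at h2
    unfold j3
    refine ⟨h2.1, h2.2.trans (by linarith)⟩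
  have g4 : κ ^ 75 ≤ Real.exp (j4 N) ∧ Real.exp (j4 N) ≤ 3 * κ ^ 75 := by
    have h1 : 3 * Real.log (Real.log N) / 4 = ((75 : ℕ) : ℝ) * Real.log κ := by
      rw [hL]
      push_cast
      ring
    have h2 := C_ceil (show 0 ≤ 3 * Real.log (Real.log N) / 4 by rw [h1]; positivity)
    unfold j4
    rw [h1, hexp] at h2
    rw [h1]
    exact h2
  have g5 : κ ^ 70 ≤ Real.exp (j5 N) ∧ Real.exp (j5 N) ≤ 3 * κ ^ 70 := by
    have h1 : 7 * Real.log (Real.log N) / 10 = ((70 : ℕ) : ℝ) * Real.log κ := by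
      rw [hL]
      push_cast
      ring
    have h2 := C_ceil (show 0 ≤ 7 * Real.log (Real.log N) / 10 by rw [h1]; positivity)
    unfold j5
    rw [h1, hexp] at h2
    rw [h1]
    exact h2
  refine ⟨g1, g2, g3, g4, g5, ?_, ?_, ?_⟩
  · refine C_lt ?_
    have h1 : 9 * κ ^ 25 < κ ^ 50 := by
      have h2 : (9 : ℝ) < κ ^ 25 := by
        calc (9 : ℝ) < κ := lt_of_lt_of_le (by norm_num) h0
          _ = κ ^ 1 := (pow_one _).symm
          _ ≤ κ ^ 25 := pow_le_pow_right₀ hκ1 (by norm_num)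
      have h3 : κ ^ 50 = κ ^ 25 * κ ^ 25 := by ring
      rw [h3]
      exact mul_lt_mul_of_pos_right h2 (by positivity)
    have h4 := g1.2
    have h5 := g2.1
    linarith
  · refine C_lt (lt_of_le_of_lt g2.2 (lt_of_lt_of_le ?_ g5.1))
    exact pow_lt_pow_right₀ (lt_of_lt_of_le (by norm_num) h0) (by norm_num)
  · refine C_lt (lt_of_le_of_lt g3.2 (lt_of_lt_of_le ?_ g4.1))
    have h1 : κ ^ 2 ≤ κ ^ 75 := pow_le_pow_right₀ hκ1 (by norm_num)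
    have h2 : 6 * κ < κ ^ 2 := by
      rw [pow_two]
      exact mul_lt_mul_of_pos_right (lt_of_lt_of_le (by norm_num) h0) hκ0
    linarith

private theorem C_kp_tendsto : Tendsto (fun N : ℕ => kp N) atTop atTop := by
  unfold kp
  exact (tendsto_rpow_atTop (by norm_num : (0 : ℝ) < 1 / 100)).comp
    (Real.tendsto_log_atTop.comp tendsto_natCast_atTop_atTop)

private theorem C_l0_tendsto (Q : MPar) : Tendsto (fun N : ℕ => Q.l0 N) atTop atTop := by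
  unfold l0
  refine Tendsto.const_mul_atTop (by positivity) ?_
  exact Real.tendsto_log_atTop.comp (Real.tendsto_log_atTop.comp tendsto_natCast_atTop_atTop)

private theorem C_log_lin (C : ℝ) (hC : 0 < C) : ∀ᶠ x : ℝ in atTop, C * (100 * Real.log x + 1) ≤ x := by
  have h1 := Real.isLittleO_log_id_atTop.bound (show (0 : ℝ) < 1 / (200 * C) by positivity)
  filter_upwards [h1, eventually_ge_atTop (1 : ℝ), eventually_ge_atTop (2 * C)] with x h2 h3 h4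
  rw [Real.norm_of_nonneg (Real.log_nonneg h3), id, Real.norm_of_nonneg (by linarith)] at h2
  have h5 : 100 * C * Real.log x ≤ 100 * C * (1 / (200 * C) * x) :=
    mul_le_mul_of_nonneg_left h2 (by positivity)
  have h6 : 100 * C * (1 / (200 * C) * x) = x / 2 := by
    field_simp
    ring
  nlinarith

private theorem C_sqrt_log (C : ℝ) (hC : 0 < C) : ∀ᶠ x : ℝ in atTop,
    C * (Real.sqrt x * Real.log (5 * x)) ≤ x := by
  have h0 := isLittleO_log_rpow_atTop (show (0 : ℝ) < 1 / 2 by norm_num)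
  have h1 := h0.bound (show (0 : ℝ) < 1 / (3 * C) by positivity)
  have h2 : Tendsto (fun x : ℝ => 5 * x) atTop atTop := Tendsto.const_mul_atTop (by norm_num) tendsto_id
  have h3 := h2.eventually h1
  filter_upwards [h3, eventually_ge_atTop (1 : ℝ)] with x h4 h5
  rw [Real.norm_of_nonneg (Real.log_nonneg (by linarith)), Real.norm_of_nonneg (by positivity),
    ← Real.sqrt_eq_rpow] at h4
  have h6 : Real.sqrt (5 * x) ≤ 3 * Real.sqrt x := by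
    have h7 : Real.sqrt (5 * x) ≤ Real.sqrt (9 * x) := Real.sqrt_le_sqrt (by linarith)
    have h8 : Real.sqrt (9 * x) = 3 * Real.sqrt x := by
      rw [Real.sqrt_mul (by norm_num), show (9 : ℝ) = 3 ^ 2 by norm_num, Real.sqrt_sq (by norm_num)]
    linarith
  have h9 : Real.log (5 * x) ≤ 1 / C * Real.sqrt x := by
    calc Real.log (5 * x) ≤ 1 / (3 * C) * Real.sqrt (5 * x) := h4
      _ ≤ 1 / (3 * C) * (3 * Real.sqrt x) := mul_le_mul_of_nonneg_left h6 (by positivity)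
      _ = 1 / C * Real.sqrt x := by
          field_simp
  calc C * (Real.sqrt x * Real.log (5 * x)) ≤ C * (Real.sqrt x * (1 / C * Real.sqrt x)) := by
        refine mul_le_mul_of_nonneg_left ?_ hC.le
        exact mul_le_mul_of_nonneg_left h9 (Real.sqrt_nonneg x)
    _ = Real.sqrt x * Real.sqrt x := by
        field_simp
    _ = x := Real.mul_self_sqrt (by linarith)

theorem ev_cnt (Q : MPar) : ∀ᶠ N : ℕ in atTop,
    2 * ((Q.k : ℝ) + 1) + 2 * Q.n0 N + 2 * (Q.k * (Q.nit N : ℝ)) + 2 * (Q.k * ((Q.np N : ℝ) + 1)) ≤ kp N := by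
  set C : ℝ := 2 * ((Q.k : ℝ) + 1) + 2 * Q.la + 2 * (Q.k * (11 * (Q.Cp + 1) + 6)) +
    2 * (Q.k * (11 * (Q.Cp + 1) + 1)) with hC
  have hC0 : 0 < C := by
    rw [hC]
    positivity
  have e1 := C_kp_tendsto.eventually (C_log_lin C hC0)
  filter_upwards [e1, ev_base Q] with N h1 h2
  obtain ⟨hK, hk0, hl, hlk, -⟩ := h2
  have hk1 : (1 : ℝ) ≤ ((Q.k : ℝ) + 1) ^ 4 := by
    refine one_le_pow₀ ?_
    have : (0 : ℝ) ≤ Q.k := Nat.cast_nonneg _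
    linarith
  have hκ : (10 : ℝ) ^ 10 ≤ kp N := by
    have : (10 : ℝ) ^ 10 * 1 ≤ (10 : ℝ) ^ 10 * (Q.k + 1) ^ 4 := mul_le_mul_of_nonneg_left hk1 (by norm_num)
    linarith
  have hκ0 : 0 < kp N := lt_of_lt_of_le (by norm_num) hκ
  have hκ1 : 1 ≤ kp N := le_trans (by norm_num) hκ
  have hlκ : 0 ≤ Real.log (kp N) := Real.log_nonneg hκ1
  have hL : Real.log (Real.log N) = 100 * Real.log (kp N) := by
    rw [← hK, Real.log_pow]
    norm_num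
  set L : ℝ := 100 * Real.log (kp N) with hLdef
  have hL0 : 0 ≤ L := by positivity
  have hl1 : 1 ≤ Q.l0 N := by
    have : (10 : ℝ) ^ 6 * 1 ≤ (10 : ℝ) ^ 6 * (Q.k + 1) ^ 4 := mul_le_mul_of_nonneg_left hk1 (by norm_num)
    linarith
  have hl0 : Q.l0 N = (Q.Cp + 1) * L := by
    unfold l0
    rw [hL]
  obtain ⟨hnp, -, -⟩ := np_bounds hl
  have hnp1 : (Q.np N : ℝ) ≤ 11 * ((Q.Cp + 1) * L) := by
    refine hnp.trans ?_
    rw [← hl0]
    refine mul_le_mul_of_nonneg_left ?_ (by norm_num)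
    exact Real.sqrt_le_iff.2 ⟨by linarith, by nlinarith⟩
  have hj2 : (j2 N : ℝ) ≤ L := by
    unfold j2
    rw [hL]
    refine (Nat.floor_le (by positivity)).trans (by linarith)
  have hj4 : (j4 N : ℝ) ≤ L + 1 := by
    unfold j4
    rw [hL]
    refine (Nat.ceil_lt_add_one (by positivity)).le.trans (by linarith)
  have hn0 : (Q.n0 N : ℝ) ≤ Q.la * L := by
    unfold n0
    have h3 : ((j2 N - j1 N : ℕ) : ℝ) ≤ (j2 N : ℝ) := by exact_mod_cast Nat.sub_le _ _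
    rw [Nat.cast_mul]
    exact mul_le_mul_of_nonneg_left (h3.trans hj2) (Nat.cast_nonneg _)
  have hnr : (Q.nr N : ℝ) ≤ 6 * (L + 1) := by
    unfold nr
    have h3 : ((j4 N - Q.j3 N : ℕ) : ℝ) ≤ (j4 N : ℝ) := by exact_mod_cast Nat.sub_le _ _
    rw [Nat.cast_mul]
    refine mul_le_mul_of_nonneg_left (h3.trans hj4) (by norm_num) |>.trans ?_
    norm_num
  have hnit : (Q.nit N : ℝ) ≤ 11 * ((Q.Cp + 1) * L) + 6 * (L + 1) := by
    unfold nit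
    rw [Nat.cast_add]
    exact add_le_add hnp1 hnr
  have hk00 : (0 : ℝ) ≤ Q.k := Nat.cast_nonneg _
  have hla0 : (0 : ℝ) ≤ Q.la := Nat.cast_nonneg _
  have hCp0 : (0 : ℝ) ≤ Q.Cp := Nat.cast_nonneg _
  have a1 : (Q.k : ℝ) * (Q.nit N : ℝ) ≤ Q.k * ((11 * (Q.Cp + 1) + 6) * (L + 1)) := by
    refine mul_le_mul_of_nonneg_left (hnit.trans ?_) hk00
    nlinarith
  have a2 : (Q.k : ℝ) * ((Q.np N : ℝ) + 1) ≤ Q.k * ((11 * (Q.Cp + 1) + 1) * (L + 1)) := by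
    refine mul_le_mul_of_nonneg_left ?_ hk00
    nlinarith
  have a3 : (Q.n0 N : ℝ) ≤ Q.la * (L + 1) := hn0.trans (mul_le_mul_of_nonneg_left (by linarith) hla0)
  have a4 : ((Q.k : ℝ) + 1) ≤ (Q.k + 1) * (L + 1) := by nlinarith
  calc 2 * ((Q.k : ℝ) + 1) + 2 * Q.n0 N + 2 * (Q.k * (Q.nit N : ℝ)) + 2 * (Q.k * ((Q.np N : ℝ) + 1))
      ≤ 2 * ((Q.k + 1) * (L + 1)) + 2 * (Q.la * (L + 1)) + 2 * (Q.k * ((11 * (Q.Cp + 1) + 6) * (L + 1))) +
        2 * (Q.k * ((11 * (Q.Cp + 1) + 1) * (L + 1))) := by linarith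
    _ = C * (L + 1) := by
        rw [hC]
        ring
    _ ≤ kp N := h1

theorem ev_ppd (Q : MPar) : ∀ᶠ N : ℕ in atTop, (5 * Q.l0 N) ^ (Q.k * Q.np N) ≤ Real.log N := by
  set C : ℝ := 11 * ((Q.k : ℝ) + 1) * (Q.Cp + 1) with hC
  have hC0 : 0 < C := by
    rw [hC]
    positivity
  have e1 := (C_l0_tendsto Q).eventually (C_sqrt_log C hC0)
  have e2 := (Real.tendsto_log_atTop.comp tendsto_natCast_atTop_atTop).eventually_ge_atTop (1 : ℝ)
  filter_upwards [e1, e2, ev_base Q] with N h1 h2 h3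
  obtain ⟨hK, hk0, hl, hlk, -⟩ := h3
  have hk1 : (1 : ℝ) ≤ ((Q.k : ℝ) + 1) ^ 4 := by
    refine one_le_pow₀ ?_
    have : (0 : ℝ) ≤ Q.k := Nat.cast_nonneg _
    linarith
  have hl1 : 1 ≤ Q.l0 N := by
    have : (10 : ℝ) ^ 6 * 1 ≤ (10 : ℝ) ^ 6 * (Q.k + 1) ^ 4 := mul_le_mul_of_nonneg_left hk1 (by norm_num)
    linarith
  obtain ⟨hnp, -, -⟩ := np_bounds hl
  have hlog : 0 ≤ Real.log (5 * Q.l0 N) := Real.log_nonneg (by linarith)
  have hN0 : (0 : ℝ) < Real.log N := lt_of_lt_of_le one_pos h2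
  rw [← Real.log_le_log_iff (by positivity) hN0, Real.log_pow]
  have hk00 : (0 : ℝ) ≤ Q.k := Nat.cast_nonneg _
  have hCp0 : (0 : ℝ) < (Q.Cp : ℝ) + 1 := by positivity
  have h4 : ((Q.k * Q.np N : ℕ) : ℝ) * Real.log (5 * Q.l0 N) ≤
      11 * ((Q.k : ℝ) + 1) * (Real.sqrt (Q.l0 N) * Real.log (5 * Q.l0 N)) := by
    rw [Nat.cast_mul]
    have h5 : (Q.k : ℝ) * (Q.np N : ℝ) ≤ (Q.k + 1) * (11 * Real.sqrt (Q.l0 N)) :=
      mul_le_mul (by linarith) hnp (Nat.cast_nonneg _) (by linarith)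
    calc (Q.k : ℝ) * (Q.np N : ℝ) * Real.log (5 * Q.l0 N)
        ≤ (Q.k + 1) * (11 * Real.sqrt (Q.l0 N)) * Real.log (5 * Q.l0 N) := mul_le_mul_of_nonneg_right h5 hlog
      _ = _ := by ring
  have h6 : ((Q.Cp : ℝ) + 1) * (11 * ((Q.k : ℝ) + 1) * (Real.sqrt (Q.l0 N) * Real.log (5 * Q.l0 N))) ≤
      (Q.Cp + 1) * Real.log (Real.log N) := by
    have h7 : Q.l0 N = (Q.Cp + 1) * Real.log (Real.log N) := rfl
    rw [← h7]
    refine le_trans (le_of_eq ?_) h1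
    rw [hC]
    ring
  exact h4.trans (le_of_mul_le_mul_left h6 hCp0)

end MPar

end Pool.Agent.Lib.TC
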