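import Pool.Agent.Lib.MP_7b7e48_nt.TC.PDefs
import Pool.Agent.Lib.MP_7b7e48_nt.OW.MTP

/-!
# BR3.D: the concrete mark system (TC_PAIR.md, section 2), definitions

`K = log N`, `m = k + 1` slots `0, …, k`, ground slot `k`; `G = la + 6 k`, `la = m ^ 2 / 2`; `l0 = (Cp + 1) log K`.

Thresholds `thr g = ⌊K exp (g / G)⌋`; the piece `pc g` = primes `p ∤ N` with `thr g < cell N p ≤ thr (g + 1)`
(about `exp (g / G) < log p ≤ exp ((g + 1) / G)`).

* free pieces (`X` and `Y`): `f < n0`, `g = (j1 + f / la) G + f % la`, units `j1 ≤ j < j2`, `exp j1 ≈ K ^ (1/4)`, `exp j2 ≈ K ^ (1/2)`;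
* other marks of `X`, slot `i < k`, `t < nit`: for `t < np` the pair prime `u`, `t + 2 < log u - (l0 + 2 (k t + i)) ≤ t + 3`,
  for `t ≥ np` a reserved prime in `pc ((j3 + r / 6) G + la + 6 i + r % 6)`, `r = t - np`, units `j3 ≤ j < j4`,
  `exp j3 ≈ 2 l0`, `exp j4 ≈ K ^ (3/4)`;
* other marks of `Y`, slot `i < k`, `t ≤ np`: for `t < np` the pair prime `w`, `0 < log w - (l0 + 2 (k t + i)) ≤ 1`,
  for `t = np` the ballast prime in `pc (j5 G + i)`, `exp j5 ≈ K ^ (7/10)`;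
* windows: `WX i` = primes in `(3 Z i, 4 Z i]`, `≡ 1 mod W ^ 2`, `WY i` = primes in `(Z i, 2 Z i]`, `≡ b i mod W ^ 2`,
  `Z i = 16 ^ i ⌊N ^ e1⌋` (`i < k`), `Z k = 16 ^ k ⌊N ^ (2 m e1)⌋`.

The mark `(i, t)` of `X` has the number `i * nit + t`, the mark `(i, t)` of `Y` the number `i * (np + 1) + t`.
Completion: the item `t` of the slot `i` has the value `cell u - cell w` (`t < np`), resp. `cell r`; `sel` is a set of items with sum
in `[T, T + 13 K]`, `T = cell (ballast) + ∑ cell (free Y of colour i) - ∑ cell (free X of colour i) + 2 K`; the selected marks of the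
slot `i` get the colour `i`, the ballast too, all others the colour `k`.
-/

set_option autoImplicit false

open Finset

namespace Pool.Agent.Lib.TC

/-- parameters of the mark system -/
structure MPar where
  k : ℕ
  W : ℕ
  Cp : ℕ
  e1 : ℝ
  b : ℕ → ℕ

namespace MPar

variable (Q : MPar) (N : ℕ)

/-- number of free pieces in a unit -/
def la : ℕ := (Q.k + 1) ^ 2 / 2

/-- number of pieces in a unit -/
def G : ℕ := Q.la + 6 * Q.k

/-- all marks have logarithm `> l0` -/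
noncomputable def l0 : ℝ := (Q.Cp + 1) * Real.log (Real.log N)

/-- thresholds of the pieces -/
noncomputable def thr (g : ℕ) : ℕ := ⌊Real.log N * Real.exp ((g : ℝ) / Q.G)⌋₊

/-- the pieces -/
noncomputable def pc (g : ℕ) : Finset ℕ :=
  (range (N + 1)).filter fun p => p.Prime ∧ ¬ p ∣ N ∧ Q.thr N g < cell N p ∧ cell N p ≤ Q.thr N (g + 1)

noncomputable def j1 : ℕ := ⌈Real.log (Real.log N) / 4⌉₊

noncomputable def j2 : ℕ := ⌊Real.log (Real.log N) / 2⌋₊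

noncomputable def j3 : ℕ := ⌈Real.log (2 * Q.l0 N)⌉₊

noncomputable def j4 : ℕ := ⌈3 * Real.log (Real.log N) / 4⌉₊

noncomputable def j5 : ℕ := ⌈7 * Real.log (Real.log N) / 10⌉₊

/-- number of pairs of a slot -/
noncomputable def np : ℕ := ⌈10 * Real.sqrt (Q.l0 N)⌉₊

/-- number of free pieces -/
noncomputable def n0 : ℕ := Q.la * (j2 N - j1 N)

/-- number of reserved primes of a slot -/
noncomputable def nr : ℕ := 6 * (j4 N - Q.j3 N)

/-- number of items of a slot -/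
noncomputable def nit : ℕ := Q.np N + Q.nr N

/-- the windows start at `Z i` -/
noncomputable def Z (i : ℕ) : ℕ := 16 ^ i * ⌊(N : ℝ) ^ (if i < Q.k then Q.e1 else 2 * (Q.k + 1) * Q.e1)⌋₊

noncomputable def WXs (i : ℕ) : Finset ℕ :=
  (Ioc (3 * Q.Z N i) (4 * Q.Z N i)).filter fun p => p.Prime ∧ ¬ p ∣ N ∧ p ≡ 1 [MOD Q.W ^ 2]

noncomputable def WYs (i : ℕ) : Finset ℕ :=
  (Ioc (Q.Z N i) (2 * Q.Z N i)).filter fun p => p.Prime ∧ ¬ p ∣ N ∧ p ≡ Q.b i [MOD Q.W ^ 2]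

noncomputable def FXs (f : ℕ) : Finset ℕ := Q.pc N ((j1 N + f / Q.la) * Q.G + f % Q.la)

/-- the reserved pieces of the slot `i` -/
noncomputable def rs (i r : ℕ) : Finset ℕ := Q.pc N ((Q.j3 N + r / 6) * Q.G + Q.la + 6 * i + r % 6)

noncomputable def PXs (i t : ℕ) : Finset ℕ :=
  (Pool.Agent.Lib.OW.PR (Q.l0 N + 2 * (Q.k * t + i : ℕ) + t + 2) (Q.l0 N + 2 * (Q.k * t + i : ℕ) + t + 3)).filter fun p => ¬ p ∣ N

noncomputable def PYs (i t : ℕ) : Finset ℕ :=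
  (Pool.Agent.Lib.OW.PR (Q.l0 N + 2 * (Q.k * t + i : ℕ)) (Q.l0 N + 2 * (Q.k * t + i : ℕ) + 1)).filter fun p => ¬ p ∣ N

noncomputable def OXs (i t : ℕ) : Finset ℕ := if t < Q.np N then Q.PXs N i t else Q.rs N i (t - Q.np N)

noncomputable def OYs (i t : ℕ) : Finset ℕ := if t < Q.np N then Q.PYs N i t else Q.pc N (j5 N * Q.G + i)

/-- the mark `(i, t)` of `X` -/
noncomputable def gx (x : Fin (Q.k * Q.nit N) → ℕ) (i t : ℕ) : ℕ := ext1 x (i * Q.nit N + t)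

/-- the mark `(i, t)` of `Y` -/
noncomputable def gy (y : Fin (Q.k * (Q.np N + 1)) → ℕ) (i t : ℕ) : ℕ := ext1 y (i * (Q.np N + 1) + t)

/-- the value of the item `t` of the slot `i` -/
noncomputable def sv (x : Fin (Q.k * Q.nit N) → ℕ) (y : Fin (Q.k * (Q.np N + 1)) → ℕ) (i t : ℕ) : ℝ :=
  (cell N (Q.gx N x i t) : ℝ) - if t < Q.np N then (cell N (Q.gy N y i t) : ℝ) else 0

/-- the target of the slot `i`; `xs`, `ys` are the cells of the free primes -/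
noncomputable def tgt (c : FE (Q.n0 N) → Fin (Q.k + 1)) (xs ys : Fin (Q.n0 N) → ℕ) (y : Fin (Q.k * (Q.np N + 1)) → ℕ) (i : ℕ) : ℝ :=
  (cell N (Q.gy N y i (Q.np N)) : ℝ) + ∑ f ∈ univ.filter (fun f => (c (Sum.inr f) : ℕ) = i), (ys f : ℝ) -
    ∑ f ∈ univ.filter (fun f => (c (Sum.inl f) : ℕ) = i), (xs f : ℝ) + 2 * Real.log N

open Classical in
/-- the selected items of the slot `i` -/
noncomputable def sel (c : FE (Q.n0 N) → Fin (Q.k + 1)) (xs ys : Fin (Q.n0 N) → ℕ) (x : Fin (Q.k * Q.nit N) → ℕ)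
    (y : Fin (Q.k * (Q.np N + 1)) → ℕ) (i : ℕ) : Finset ℕ :=
  if h : ∃ S ⊆ range (Q.nit N), Q.tgt N c xs ys y i ≤ ∑ t ∈ S, Q.sv N x y i t ∧
      ∑ t ∈ S, Q.sv N x y i t ≤ Q.tgt N c xs ys y i + 13 * Real.log N then h.choose else ∅

/-- a colour -/
def col (i : ℕ) : Fin (Q.k + 1) := ⟨min i Q.k, by omega⟩

/-- **the mark system** -/
noncomputable def sys : MS where
  k := Q.k
  n0 := Q.n0 N
  nX := Q.k * Q.nit N
  nY := Q.k * (Q.np N + 1)
  WX i := Q.WXs N i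
  WY i := Q.WYs N i
  FX f := Q.FXs N f
  FY f := Q.FXs N f
  OX e := Q.OXs N ((e : ℕ) / Q.nit N) ((e : ℕ) % Q.nit N)
  OY e := Q.OYs N ((e : ℕ) / (Q.np N + 1)) ((e : ℕ) % (Q.np N + 1))
  cX c xs ys x y e :=
    if (e : ℕ) % Q.nit N ∈ Q.sel N c xs ys x y ((e : ℕ) / Q.nit N) then Q.col ((e : ℕ) / Q.nit N) else Q.col Q.k
  cY c xs ys x y e :=
    if (e : ℕ) % (Q.np N + 1) = Q.np N ∨ (e : ℕ) % (Q.np N + 1) ∈ Q.sel N c xs ys x y ((e : ℕ) / (Q.np N + 1)) then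
      Q.col ((e : ℕ) / (Q.np N + 1)) else Q.col Q.k

end MPar

end Pool.Agent.Lib.TC
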