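import Pool.Agent.Lib.MP_7b7e48_nt.BR3.B

/-!
# BR3.E (30 minutes): the windows are large

`N ^ e1 = exp (e1 K)`, `K = kp ^ 100` (`ev_base`). For large `N`: `kp ^ 90 + (k + 2) log 16 + 2 ≤ e1 K` (as `K / kp ^ 90 = kp ^ 10 → ∞`), which gives `win2`; `⌊x⌋₊ ≥ x - 1 ≥ x / 16` for `x ≥ 2` gives `win`.
-/

set_option autoImplicit false

open Finset Filter

namespace Pool.Agent.Lib.TC

namespace MPar

private theorem E_kp : Tendsto (fun N : ℕ => kp N) atTop atTop :=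
  (tendsto_rpow_atTop (by norm_num : (0 : ℝ) < 1 / 100)).comp
    (Real.tendsto_log_atTop.comp tendsto_natCast_atTop_atTop)

theorem ev_win {Q : MPar} (hQ : Q.Ok) : ∀ᶠ N : ℕ in atTop, Real.exp ((kp N) ^ 90) ≤ ⌊(N : ℝ) ^ Q.e1⌋₊ ∧
    (16 : ℝ) ^ (Q.k + 2) * Real.exp ((kp N) ^ 90) ≤ (N : ℝ) ^ Q.e1 := by
  obtain ⟨C, hC⟩ : ∃ C : ℝ, C = ((Q.k : ℝ) + 2) * Real.log 16 + 1 := ⟨_, rfl⟩
  have hlog : 0 ≤ Real.log 16 := Real.log_nonneg (by norm_num)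
  have hC1 : 1 ≤ C := by
    rw [hC]
    have : (0 : ℝ) ≤ Q.k := Nat.cast_nonneg _
    nlinarith
  filter_upwards [ev_base Q, E_kp.eventually_ge_atTop 1, E_kp.eventually_ge_atTop (C / Q.e1),
    eventually_ge_atTop 1] with N hb h1 h2 hN
  have hN0 : (0 : ℝ) < N := by exact_mod_cast hN
  have hK := hb.1
  have he := hQ.e0
  rw [div_le_iff₀ he] at h2
  have hx : (N : ℝ) ^ Q.e1 = Real.exp (Q.e1 * kp N ^ 100) := by
    rw [Real.rpow_def_of_pos hN0, hK, mul_comm]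
  have h3 : kp N ^ 90 + ((Q.k : ℝ) + 2) * Real.log 16 ≤ Q.e1 * kp N ^ 100 := by
    have h4 : Q.e1 * kp N ^ 100 = (kp N * Q.e1) * kp N ^ 99 := by ring
    have h5 : kp N ^ 90 ≤ kp N ^ 99 := pow_le_pow_right₀ h1 (by norm_num)
    have h6 : 1 ≤ kp N ^ 99 := one_le_pow₀ h1
    have h7 : C * kp N ^ 99 ≤ (kp N * Q.e1) * kp N ^ 99 :=
      mul_le_mul_of_nonneg_right h2 (by linarith)
    have h8 : C * kp N ^ 99 = ((Q.k : ℝ) + 2) * Real.log 16 * kp N ^ 99 + kp N ^ 99 := by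
      rw [hC]
      ring
    have h9 : 0 ≤ ((Q.k : ℝ) + 2) * Real.log 16 := by positivity
    have h10 : ((Q.k : ℝ) + 2) * Real.log 16 * 1 ≤ ((Q.k : ℝ) + 2) * Real.log 16 * kp N ^ 99 :=
      mul_le_mul_of_nonneg_left h6 h9
    linarith
  have h4 : (16 : ℝ) ^ (Q.k + 2) * Real.exp ((kp N) ^ 90) ≤ (N : ℝ) ^ Q.e1 := by
    have h5 : (16 : ℝ) ^ (Q.k + 2) = Real.exp (((Q.k : ℝ) + 2) * Real.log 16) := by
      rw [← Real.rpow_natCast, Real.rpow_def_of_pos (by norm_num), mul_comm]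
      push_cast
      rfl
    rw [h5, ← Real.exp_add, hx]
    refine Real.exp_le_exp.2 ?_
    linarith
  refine ⟨?_, h4⟩
  obtain ⟨E, hE⟩ : ∃ E : ℝ, E = Real.exp ((kp N) ^ 90) := ⟨_, rfl⟩
  have hE1 : 1 ≤ E := by
    rw [hE]
    exact Real.one_le_exp (by positivity)
  rw [← hE] at h4 ⊢
  have h5 : (16 : ℝ) ≤ 16 ^ (Q.k + 2) := by
    calc (16 : ℝ) = 16 ^ 1 := (pow_one _).symm
      _ ≤ 16 ^ (Q.k + 2) := pow_le_pow_right₀ (by norm_num) (by omega)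
  have h6 : 16 * E ≤ (N : ℝ) ^ Q.e1 :=
    (mul_le_mul_of_nonneg_right h5 (by linarith)).trans h4
  have h7 := Nat.lt_floor_add_one ((N : ℝ) ^ Q.e1)
  linarith

end MPar

end Pool.Agent.Lib.TC
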