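import Pool.Agent.Lib.MP_7b7e48_nt.BR3.E
import Pool.Agent.Lib.MP_7b7e48_nt.BR3.F

/-!
# BR3.E2 (80 minutes): the masses of the windows

`ev_windows`: `OW.theta_int 1` with `Q := W ^ 2`, `a := 1` (resp. `b i`), `s = log (3 Z)`, `t = log (4 Z)` (resp. `log Z`, `log (2 Z)`), `Z = Q.Z N i ≥ ⌊N ^ e1⌋ ≥ exp (kp ^ 90)` (`ev_win`; for `i = k` the exponent is larger):
`∑ log p ≥ Z / φ(W^2) - C W^2 4 Z / s ≥ Z / (2 W^2)` for `s ≥ 8 C W^4`; every `p` in the window has `log p ≤ log (4 Z) ≤ K` (`Z i ≤ 16 ^ k N ^ (1/4)` as `80 (k+1) e1 ≤ 1`) and `p ≤ 4 Z`, so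
`∑ 1/p ≥ ∑ log p / (4 Z log (4Z)) ≥ 1 / (8 W^2 K)`. The primes dividing `N`: `div_loss`: `≤ K exp (- kp ^ 90)`. Altogether `≥ 2 / K ^ 2` for large `N`. `PR s t` and the `Finset` of the
window agree: `⌊exp (log (4 Z))⌋₊ = 4 Z`. `b i` is coprime to `W ^ 2` (`bc`).
-/

set_option autoImplicit false

open Finset Filter

namespace Pool.Agent.Lib.TC

namespace MPar

open Pool.Agent.Lib.OW (PR)

private theorem E2_PR {c z : ℕ} (hc : 1 ≤ c) (hz : 1 ≤ z) :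
    PR (Real.log (c * z)) (Real.log ((c + 1) * z)) = (Ioc (c * z) ((c + 1) * z)).filter Nat.Prime := by
  have hc0 : (0 : ℝ) < c := by exact_mod_cast hc
  have hz0 : (0 : ℝ) < z := by exact_mod_cast hz
  unfold Pool.Agent.Lib.OW.PR
  rw [Real.exp_log (by positivity), Real.exp_log (by positivity)]
  have h1 : ⌊(c : ℝ) * z⌋₊ = c * z := by
    rw [← Nat.cast_mul, Nat.floor_natCast]
  have h2 : ⌊((c : ℝ) + 1) * z⌋₊ = (c + 1) * z := by
    rw [show ((c : ℝ) + 1) * z = (((c + 1) * z : ℕ) : ℝ) by push_cast; ring, Nat.floor_natCast]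
  rw [h1, h2]

private theorem E2_core : ∃ C : ℝ, 1 ≤ C ∧ ∀ (N Q0 a z c : ℕ), 1 ≤ N → 1 ≤ Q0 → a.Coprime Q0 → 1 ≤ c → c ≤ 3 → 1 ≤ z →
    8 * C * (Q0 : ℝ) ^ 2 ≤ Real.log z → 32 * (Q0 : ℝ) ≤ Real.log N → (c + 1) * z ≤ N → (Real.log N) ^ 3 ≤ z →
    2 / (Real.log N) ^ 2 ≤ ∑ p ∈ (Ioc (c * z) ((c + 1) * z)).filter (fun p => p.Prime ∧ ¬ p ∣ N ∧ p ≡ a [MOD Q0]), 1 / (p : ℝ) := by
  obtain ⟨C, hC, hT⟩ := Pool.Agent.Lib.OW.theta_int 1
  refine ⟨C, hC, ?_⟩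
  intro N Q0 a z c hN hQ ha hc hc3 hz hlz hK hzN hK3
  have hc0 : (1 : ℝ) ≤ c := by exact_mod_cast hc
  have hc4 : (c : ℝ) + 1 ≤ 4 := by
    have : (c : ℝ) ≤ 3 := by exact_mod_cast hc3
    linarith
  have hz1 : (1 : ℝ) ≤ z := by exact_mod_cast hz
  have hz0 : (0 : ℝ) < z := by linarith
  have hQ1 : (1 : ℝ) ≤ Q0 := by exact_mod_cast hQ
  have hQ2 : (1 : ℝ) ≤ (Q0 : ℝ) ^ 2 := one_le_pow₀ hQ1
  have hCQ : 8 ≤ 8 * C * (Q0 : ℝ) ^ 2 := by nlinarith
  have hK0 : 0 < Real.log N := by linarith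
  have hcz : (z : ℝ) ≤ c * z := by nlinarith
  have hs : Real.log z ≤ Real.log (c * z) := Real.log_le_log hz0 hcz
  have hs1 : 1 ≤ Real.log (c * z) := by linarith
  have hst : Real.log (c * z) ≤ Real.log ((c + 1) * z) :=
    Real.log_le_log (by positivity) (mul_le_mul_of_nonneg_right (by linarith) hz0.le)
  have h1 := hT Q0 a hQ ha _ _ hs1 hst
  have hp := E2_PR hc hz
  rw [hp] at h1
  rw [Real.exp_log (by positivity), Real.exp_log (by positivity), pow_one] at h1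
  have hphi : (Q0.totient : ℝ) ≤ Q0 := by exact_mod_cast Nat.totient_le Q0
  have hphi0 : (0 : ℝ) < Q0.totient := by exact_mod_cast Nat.totient_pos.2 hQ
  have h2 : (z : ℝ) / Q0 ≤ (((c : ℝ) + 1) * z - c * z) / Q0.totient := by
    rw [show ((c : ℝ) + 1) * z - c * z = z by ring]
    exact div_le_div_of_nonneg_left hz0.le hphi0 hphi
  have h3 : C * Q0 * (((c : ℝ) + 1) * z) / Real.log (c * z) ≤ z / (2 * Q0) := by
    rw [div_le_div_iff₀ (by linarith) (by positivity)]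
    have h4 : C * Q0 * (((c : ℝ) + 1) * z) * (2 * Q0) ≤ C * Q0 * (4 * z) * (2 * Q0) := by
      have : ((c : ℝ) + 1) * z ≤ 4 * z := mul_le_mul_of_nonneg_right hc4 hz0.le
      have h5 : 0 ≤ C * Q0 := by positivity
      exact mul_le_mul_of_nonneg_right (mul_le_mul_of_nonneg_left this h5) (by positivity)
    have h6 : (z : ℝ) * (8 * C * (Q0 : ℝ) ^ 2) ≤ z * Real.log (c * z) := mul_le_mul_of_nonneg_left (hlz.trans hs) hz0.le
    calc _ ≤ _ := h4
      _ = z * (8 * C * (Q0 : ℝ) ^ 2) := by ring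
      _ ≤ _ := h6
  have h4 : (z : ℝ) / (2 * Q0) ≤ ∑ p ∈ ((Ioc (c * z) ((c + 1) * z)).filter Nat.Prime).filter (fun p => p ≡ a [MOD Q0]), Real.log p := by
    have h5 := (abs_le.1 h1).1
    have h6 : (z : ℝ) / Q0 = z / (2 * Q0) + z / (2 * Q0) := by
      field_simp
      ring
    linarith
  have h5 : 1 / (8 * Q0 * Real.log N) ≤ ∑ p ∈ ((Ioc (c * z) ((c + 1) * z)).filter Nat.Prime).filter (fun p => p ≡ a [MOD Q0]), 1 / (p : ℝ) := by
    have h6 : ∀ p ∈ ((Ioc (c * z) ((c + 1) * z)).filter Nat.Prime).filter (fun p => p ≡ a [MOD Q0]),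
        Real.log p / (4 * z * Real.log N) ≤ 1 / (p : ℝ) := by
      intro p hp
      obtain ⟨h7, -⟩ := mem_filter.1 hp
      obtain ⟨h8, h9⟩ := mem_filter.1 h7
      obtain ⟨-, h10⟩ := mem_Ioc.1 h8
      have hp0 : (0 : ℝ) < p := by exact_mod_cast h9.pos
      have hpz : (p : ℝ) ≤ 4 * z := by
        have : (p : ℝ) ≤ ((c : ℝ) + 1) * z := by exact_mod_cast h10
        exact this.trans (mul_le_mul_of_nonneg_right hc4 hz0.le)
      have hpN : Real.log p ≤ Real.log N := Real.log_le_log hp0 (by exact_mod_cast h10.trans hzN)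
      rw [div_le_div_iff₀ (by positivity) hp0]
      calc Real.log p * p ≤ Real.log N * (4 * z) := mul_le_mul hpN hpz hp0.le hK0.le
        _ = 1 * (4 * z * Real.log N) := by ring
    have h7 := sum_le_sum h6
    rw [← sum_div] at h7
    refine le_trans ?_ h7
    rw [div_le_div_iff₀ (by positivity) (by positivity)]
    have h8 : (z : ℝ) / (2 * Q0) * (8 * Q0 * Real.log N) = 1 * (4 * z * Real.log N) := by
      field_simp
      ring
    rw [← h8]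
    exact mul_le_mul_of_nonneg_right h4 (by positivity)
  have h6 : ∑ p ∈ ((Ioc (c * z) ((c + 1) * z)).filter Nat.Prime).filter (fun p => p ≡ a [MOD Q0]), 1 / (p : ℝ) ≤
      ∑ p ∈ (Ioc (c * z) ((c + 1) * z)).filter (fun p => p.Prime ∧ ¬ p ∣ N ∧ p ≡ a [MOD Q0]), 1 / (p : ℝ) +
      ∑ p ∈ (PR (Real.log (c * z)) (Real.log ((c + 1) * z))).filter (fun p => p ∣ N), 1 / (p : ℝ) := by
    rw [hp, ← sum_filter_add_sum_filter_not (((Ioc (c * z) ((c + 1) * z)).filter Nat.Prime).filter (fun p => p ≡ a [MOD Q0])) (fun p => ¬ p ∣ N)]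
    refine add_le_add (sum_le_sum_of_subset_of_nonneg ?_ fun p _ _ => by positivity) (sum_le_sum_of_subset_of_nonneg ?_ fun p _ _ => by positivity)
    · intro p hp
      rw [mem_filter, mem_filter, mem_filter] at hp
      rw [mem_filter]
      exact ⟨hp.1.1.1, hp.1.1.2, hp.2, hp.1.2⟩
    · intro p hp
      rw [mem_filter, mem_filter, mem_filter] at hp
      rw [mem_filter, mem_filter]
      exact ⟨hp.1.1, not_not.1 hp.2⟩
  have h7 := div_loss hN (show 0 < Real.log (c * z) by linarith) (Real.log ((c + 1) * z))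
  have h8 : Real.log N / Real.log (c * z) * Real.exp (-Real.log (c * z)) ≤ 1 / (Real.log N) ^ 2 := by
    rw [Real.exp_neg, Real.exp_log (by positivity)]
    have h9 : Real.log N / Real.log (c * z) ≤ Real.log N := div_le_self hK0.le hs1
    have h10 : ((c : ℝ) * z)⁻¹ ≤ 1 / (Real.log N) ^ 3 := by
      rw [← one_div]
      exact one_div_le_one_div_of_le (by positivity) (hK3.trans hcz)
    calc Real.log N / Real.log (c * z) * ((c : ℝ) * z)⁻¹ ≤ Real.log N * (1 / (Real.log N) ^ 3) :=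
          mul_le_mul h9 h10 (by positivity) hK0.le
      _ = 1 / (Real.log N) ^ 2 := by
          field_simp
  have h9 : 4 / (Real.log N) ^ 2 ≤ 1 / (8 * Q0 * Real.log N) := by
    rw [div_le_div_iff₀ (by positivity) (by positivity)]
    nlinarith
  have h10 : 2 / (Real.log N) ^ 2 = 4 / (Real.log N) ^ 2 - 2 * (1 / (Real.log N) ^ 2) := by ring
  have h11 : 0 ≤ 1 / (Real.log N) ^ 2 := by positivity
  linarith

theorem ev_windows {Q : MPar} (hQ : Q.Ok) : ∀ᶠ N : ℕ in atTop, (∀ i ≤ Q.k, 2 / (Real.log N) ^ 2 ≤ ∑ p ∈ Q.WXs N i, 1 / (p : ℝ)) ∧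
    ∀ i ≤ Q.k, 2 / (Real.log N) ^ 2 ≤ ∑ p ∈ Q.WYs N i, 1 / (p : ℝ) := by
  obtain ⟨C, hC, hcore⟩ := E2_core
  have hlog : Tendsto (fun N : ℕ => Real.log N) atTop atTop := Real.tendsto_log_atTop.comp tendsto_natCast_atTop_atTop
  have hkp : Tendsto (fun N : ℕ => kp N) atTop atTop := (tendsto_rpow_atTop (by norm_num : (0 : ℝ) < 1 / 100)).comp hlog
  have hpow : ∀ᶠ x : ℝ in atTop, x ^ 300 ≤ Real.exp x := by
    have h1 := (Real.isLittleO_pow_exp_atTop (n := 300)).bound one_pos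
    filter_upwards [h1, eventually_ge_atTop 0] with x h2 h3
    rw [Real.norm_eq_abs, Real.norm_eq_abs, abs_of_nonneg (pow_nonneg h3 _), abs_of_nonneg (Real.exp_pos x).le, one_mul] at h2
    exact h2
  filter_upwards [ev_base Q, ev_win hQ, hkp.eventually_ge_atTop (8 * C * (((Q.W ^ 2 : ℕ) : ℝ)) ^ 2), hkp.eventually_ge_atTop (32 * (((Q.W ^ 2 : ℕ) : ℝ))),
    hkp.eventually hpow, hkp.eventually_ge_atTop 1, eventually_ge_atTop 1] with N hb hw hk1 hk2 hk3 hk4 hN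
  obtain ⟨hb1, -⟩ := hb
  obtain ⟨hw1, hw2⟩ := hw
  have hN1 : (1 : ℝ) ≤ N := by exact_mod_cast hN
  have hW2 : 1 ≤ Q.W ^ 2 := Nat.one_le_iff_ne_zero.2 (pow_ne_zero 2 hQ.W0.ne')
  have hk90 : kp N ≤ kp N ^ 90 := by
    calc kp N = kp N ^ 1 := (pow_one _).symm
      _ ≤ kp N ^ 90 := pow_le_pow_right₀ hk4 (by norm_num)
  have hK1 : kp N ≤ Real.log N := by
    rw [← hb1]
    calc kp N = kp N ^ 1 := (pow_one _).symm
      _ ≤ kp N ^ 100 := pow_le_pow_right₀ hk4 (by norm_num)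
  have hK3 : (Real.log N) ^ 3 ≤ Real.exp (kp N ^ 90) := by
    rw [← hb1, ← pow_mul]
    exact hk3.trans (Real.exp_le_exp.2 hk90)
  have he0 := hQ.e0
  have hk0 : (0 : ℝ) ≤ Q.k := Nat.cast_nonneg _
  have hexp : ∀ i : ℕ, Q.e1 ≤ (if i < Q.k then Q.e1 else 2 * ((Q.k : ℝ) + 1) * Q.e1) ∧
      (if i < Q.k then Q.e1 else 2 * ((Q.k : ℝ) + 1) * Q.e1) ≤ 2 * ((Q.k : ℝ) + 1) * Q.e1 := by
    intro i
    have h1 : Q.e1 ≤ 2 * ((Q.k : ℝ) + 1) * Q.e1 := by nlinarith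
    split_ifs
    · exact ⟨le_rfl, h1⟩
    · exact ⟨h1, le_rfl⟩
  have hZ1 : ∀ i : ℕ, Real.exp (kp N ^ 90) ≤ (Q.Z N i : ℝ) := by
    intro i
    refine hw1.trans ?_
    unfold Z
    have h1 : ⌊(N : ℝ) ^ Q.e1⌋₊ ≤ ⌊(N : ℝ) ^ (if i < Q.k then Q.e1 else 2 * ((Q.k : ℝ) + 1) * Q.e1)⌋₊ :=
      Nat.floor_le_floor (Real.rpow_le_rpow_of_exponent_le hN1 (hexp i).1)
    have h2 : 1 ≤ 16 ^ i := Nat.one_le_pow _ _ (by norm_num)
    exact_mod_cast h1.trans (Nat.le_mul_of_pos_left _ h2)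
  have hZ2 : ∀ i ≤ Q.k, 4 * Q.Z N i ≤ N := by
    intro i hi
    have h1 : (Q.Z N i : ℝ) ≤ 16 ^ Q.k * (N : ℝ) ^ (2 * ((Q.k : ℝ) + 1) * Q.e1) := by
      unfold Z
      push_cast
      refine mul_le_mul (pow_le_pow_right₀ (by norm_num) hi) ((Nat.floor_le (by positivity)).trans
        (Real.rpow_le_rpow_of_exponent_le hN1 (hexp i).2)) (Nat.cast_nonneg _) (by positivity)
    have h2 : (16 : ℝ) ^ (Q.k + 2) ≤ (N : ℝ) ^ Q.e1 := by
      refine le_trans ?_ hw2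
      have h3 : (1 : ℝ) ≤ Real.exp (kp N ^ 90) := Real.one_le_exp (by positivity)
      have h4 : (0 : ℝ) ≤ 16 ^ (Q.k + 2) := by positivity
      nlinarith
    have h5 : (4 : ℝ) * Q.Z N i ≤ N := by
      calc (4 : ℝ) * Q.Z N i ≤ 4 * (16 ^ Q.k * (N : ℝ) ^ (2 * ((Q.k : ℝ) + 1) * Q.e1)) := by linarith
        _ ≤ 16 ^ (Q.k + 2) * (N : ℝ) ^ (2 * ((Q.k : ℝ) + 1) * Q.e1) := by
            rw [pow_add, ← mul_assoc]
            refine mul_le_mul_of_nonneg_right ?_ (by positivity)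
            have : (0 : ℝ) < 16 ^ Q.k := by positivity
            nlinarith
        _ ≤ (N : ℝ) ^ Q.e1 * (N : ℝ) ^ (2 * ((Q.k : ℝ) + 1) * Q.e1) := mul_le_mul_of_nonneg_right h2 (by positivity)
        _ = (N : ℝ) ^ (Q.e1 + 2 * ((Q.k : ℝ) + 1) * Q.e1) := (Real.rpow_add (by linarith) _ _).symm
        _ ≤ (N : ℝ) ^ (1 : ℝ) := by
            refine Real.rpow_le_rpow_of_exponent_le hN1 ?_
            have := hQ.e1
            nlinarith
        _ = N := Real.rpow_one _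
    exact_mod_cast h5
  have hz : ∀ i : ℕ, 1 ≤ Q.Z N i := by
    intro i
    have h1 := hZ1 i
    have h2 : (0 : ℝ) < Q.Z N i := lt_of_lt_of_le (Real.exp_pos _) h1
    exact_mod_cast h2
  have hlz : ∀ i : ℕ, 8 * C * (((Q.W ^ 2 : ℕ) : ℝ)) ^ 2 ≤ Real.log (Q.Z N i) := by
    intro i
    refine hk1.trans (hk90.trans ?_)
    rw [Real.le_log_iff_exp_le (by exact_mod_cast hz i)]
    exact hZ1 i
  constructor
  · intro i hi
    have h1 := hcore N (Q.W ^ 2) 1 (Q.Z N i) 3 hN hW2 (Nat.coprime_one_left _) (by norm_num) le_rfl (hz i) (hlz i) (hk2.trans hK1)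
      (hZ2 i hi) (hK3.trans (hZ1 i))
    exact h1
  · intro i hi
    have h1 := hcore N (Q.W ^ 2) (Q.b i) (Q.Z N i) 1 hN hW2 ((hQ.bc i).pow_right 2) le_rfl (by norm_num) (hz i) (hlz i) (hk2.trans hK1)
      ((Nat.mul_le_mul_right _ (by norm_num)).trans (hZ2 i hi)) (hK3.trans (hZ1 i))
    rw [one_mul] at h1
    exact h1

end MPar

end Pool.Agent.Lib.TC
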