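import Pool.Agent.Lib.MP_7b7e48_nt.OW.MTM

/-!
# BR3.F1 (80 minutes): Mertens theorem for the primes `s < log p ≤ t`

`mer_diff`: let `f t = t ∏_{p ≤ exp t} (1 - 1/p)`; `OW.mertens_real`: `f → c > 0`, so for `s, t` large `|log f t - log f s| ≤ ε / 2`.
`log f t - log f s = log (t / s) + ∑_{p ∈ PR s t} log (1 - 1/p)` (the product over `PR s t` is the quotient; see the proof of `OW.dyadic_mass`), and
`|log (1 - x) + x| ≤ 2 x ^ 2` for `0 ≤ x ≤ 1/2`, `∑_{n > exp s} 2 / n ^ 2 ≤ 4 exp (-s) ≤ ε / 2`.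
`mer_up`: from `mer_diff` with `ε = 1`, fixed `s = s0`: `∑_{PR 0 t} 1/p ≤ ∑_{PR 0 s0} 1/p + log (t / s0) + 1` (for `t ≤ s0` the first sum suffices).
-/

set_option autoImplicit false

open Finset Filter

namespace Pool.Agent.Lib.TC

open Pool.Agent.Lib.OW (PR)

private theorem f1_log {x : ℝ} (h0 : 0 ≤ x) (h1 : x ≤ 1 / 2) : |x + Real.log (1 - x)| ≤ 2 * x ^ 2 := by
  have hp : 0 < 1 - x := by linarith
  have h2 := Real.log_le_sub_one_of_pos hp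
  have h3 := Real.one_sub_inv_le_log_of_pos hp
  have h4 : (1 - x)⁻¹ ≤ 1 + x + 2 * x ^ 2 := by
    rw [inv_le_iff_one_le_mul₀ hp]
    nlinarith [mul_nonneg h0 h0, mul_nonneg (mul_nonneg h0 h0) (show 0 ≤ 1 - 2 * x by linarith)]
  rw [abs_le]
  constructor
  · linarith
  · nlinarith

private theorem f1_split {s t : ℝ} (hst : s ≤ t) :
    ∏ p ∈ (range (⌊Real.exp t⌋₊ + 1)).filter Nat.Prime, (1 - 1 / (p : ℝ)) =
        (∏ p ∈ (range (⌊Real.exp s⌋₊ + 1)).filter Nat.Prime, (1 - 1 / (p : ℝ))) *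
        ∏ p ∈ PR s t, (1 - 1 / (p : ℝ)) := by
  have hfl : ⌊Real.exp s⌋₊ ≤ ⌊Real.exp t⌋₊ := Nat.floor_le_floor (Real.exp_le_exp.mpr hst)
  rw [← prod_union]
  · refine prod_congr ?_ fun _ _ => rfl
    ext p
    unfold PR
    simp only [mem_union, mem_filter, mem_range, mem_Ioc]
    constructor
    · rintro ⟨h6, h7⟩
      rcases Nat.lt_or_ge ⌊Real.exp s⌋₊ p with h8 | h8
      · exact Or.inr ⟨⟨h8, by omega⟩, h7⟩
      · exact Or.inl ⟨by omega, h7⟩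
    · rintro (⟨h6, h7⟩ | ⟨⟨h6, h7⟩, h8⟩)
      · exact ⟨by omega, h7⟩
      · exact ⟨by omega, h8⟩
  · rw [disjoint_left]
    intro p h6 h7
    unfold PR at h7
    simp only [mem_filter, mem_range, mem_Ioc] at h6 h7
    omega

private theorem f1_sq {s : ℝ} (hs : 1 ≤ s) (t : ℝ) : ∑ p ∈ PR s t, 2 * (1 / (p : ℝ)) ^ 2 ≤ 4 * Real.exp (-s) := by
  have hes : (2 : ℝ) ≤ Real.exp s := by
    have := Real.add_one_le_exp s
    linarith
  have hfl : Real.exp s / 2 ≤ (⌊Real.exp s⌋₊ : ℝ) := by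
    have := Nat.lt_floor_add_one (Real.exp s)
    linarith
  have hk : ⌊Real.exp s⌋₊ ≠ 0 := by
    intro h
    rw [h] at hfl
    push_cast at hfl
    linarith
  rcases Nat.lt_or_ge ⌊Real.exp t⌋₊ ⌊Real.exp s⌋₊ with h | h
  · have h1 : PR s t = ∅ := by
      unfold PR
      rw [Finset.Ioc_eq_empty (by omega), filter_empty]
    rw [h1, sum_empty]
    positivity
  · have h1 : ∑ p ∈ PR s t, 2 * (1 / (p : ℝ)) ^ 2 ≤
        ∑ p ∈ Finset.Ioc ⌊Real.exp s⌋₊ ⌊Real.exp t⌋₊, 2 * (1 / (p : ℝ)) ^ 2 := by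
      refine sum_le_sum_of_subset_of_nonneg (filter_subset _ _) fun p _ _ => by positivity
    have h2 : ∑ i ∈ Finset.Ioc ⌊Real.exp s⌋₊ ⌊Real.exp t⌋₊, ((i : ℝ) ^ 2)⁻¹ ≤
        ((⌊Real.exp s⌋₊ : ℕ) : ℝ)⁻¹ - ((⌊Real.exp t⌋₊ : ℕ) : ℝ)⁻¹ := sum_Ioc_inv_sq_le_sub hk h
    have h3 : ∑ p ∈ Finset.Ioc ⌊Real.exp s⌋₊ ⌊Real.exp t⌋₊, 2 * (1 / (p : ℝ)) ^ 2 =
        2 * ∑ i ∈ Finset.Ioc ⌊Real.exp s⌋₊ ⌊Real.exp t⌋₊, ((i : ℝ) ^ 2)⁻¹ := by
      rw [mul_sum]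
      refine sum_congr rfl fun i _ => ?_
      rw [one_div, inv_pow]
    have h4 : (0 : ℝ) ≤ ((⌊Real.exp t⌋₊ : ℕ) : ℝ)⁻¹ := by positivity
    have h5 : ((⌊Real.exp s⌋₊ : ℕ) : ℝ)⁻¹ ≤ (Real.exp s / 2)⁻¹ :=
      inv_anti₀ (by positivity) hfl
    have h6 : (Real.exp s / 2)⁻¹ = 2 * Real.exp (-s) := by
      rw [Real.exp_neg, inv_div]
      ring
    linarith

theorem mer_diff {ε : ℝ} (hε : 0 < ε) : ∃ s0 : ℝ, 1 ≤ s0 ∧ ∀ s t : ℝ, s0 ≤ s → s ≤ t →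
    |∑ p ∈ PR s t, 1 / (p : ℝ) - Real.log (t / s)| ≤ ε := by
  have h1 := Pool.Agent.Lib.OW.mertens_real
  have hne : Real.exp (-Real.eulerMascheroniConstant) ≠ 0 := (Real.exp_pos _).ne'
  have h2 := (Real.continuousAt_log hne).tendsto.comp h1
  rw [Metric.tendsto_atTop] at h2
  obtain ⟨s1, hs1⟩ := h2 (ε / 4) (by linarith)
  refine ⟨max s1 (max 1 (Real.log (8 / ε))), le_max_of_le_right (le_max_left _ _), ?_⟩
  intro s t hs hst
  have hs1' : s1 ≤ s := (le_max_left _ _).trans hs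
  have hs2 : 1 ≤ s := ((le_max_left _ _).trans (le_max_right _ _)).trans hs
  have hs3 : Real.log (8 / ε) ≤ s := ((le_max_right _ _).trans (le_max_right _ _)).trans hs
  have h3 := hs1 s hs1'
  have h4 := hs1 t (hs1'.trans hst)
  simp only [Function.comp, Real.dist_eq] at h3 h4
  have hs0 : 0 < s := by linarith
  have ht0 : 0 < t := by linarith
  have hposS : (0 : ℝ) < ∏ p ∈ (range (⌊Real.exp s⌋₊ + 1)).filter Nat.Prime, (1 - 1 / (p : ℝ)) := by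
    refine prod_pos fun p hp => ?_
    have h6 := (mem_filter.mp hp).2
    have h7 : (1 : ℝ) < p := by exact_mod_cast h6.one_lt
    rw [sub_pos, div_lt_one (by linarith)]
    exact h7
  have hterm : ∀ p ∈ PR s t, (1 : ℝ) - 1 / (p : ℝ) ≠ 0 := by
    intro p hp
    have h6 := (Pool.Agent.Lib.OW.mem_PR.mp hp).1
    have h7 : (1 : ℝ) < p := by exact_mod_cast h6.one_lt
    have h8 : 0 < (1 : ℝ) - 1 / (p : ℝ) := by
      rw [sub_pos, div_lt_one (by linarith)]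
      exact h7
    exact h8.ne'
  have hprod : ∏ p ∈ PR s t, (1 - 1 / (p : ℝ)) ≠ 0 := prod_ne_zero_iff.mpr hterm
  have h5 : Real.log (t * ∏ p ∈ (range (⌊Real.exp t⌋₊ + 1)).filter Nat.Prime, (1 - 1 / (p : ℝ))) -
      Real.log (s * ∏ p ∈ (range (⌊Real.exp s⌋₊ + 1)).filter Nat.Prime, (1 - 1 / (p : ℝ))) =
      Real.log (t / s) + ∑ p ∈ PR s t, Real.log (1 - 1 / (p : ℝ)) := by
    rw [f1_split hst, Real.log_mul ht0.ne' (mul_ne_zero hposS.ne' hprod), Real.log_mul hposS.ne' hprod,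
      Real.log_mul hs0.ne' hposS.ne', Real.log_div ht0.ne' hs0.ne', Real.log_prod hterm]
    ring
  have h6 : |∑ p ∈ PR s t, (1 / (p : ℝ) + Real.log (1 - 1 / (p : ℝ)))| ≤ 4 * Real.exp (-s) := by
    refine (abs_sum_le_sum_abs _ _).trans ((sum_le_sum fun p hp => ?_).trans (f1_sq hs2 t))
    have h6 := (Pool.Agent.Lib.OW.mem_PR.mp hp).1
    have h7 : (2 : ℝ) ≤ p := by exact_mod_cast h6.two_le
    refine f1_log (by positivity) ?_
    exact one_div_le_one_div_of_le (by norm_num) h7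
  rw [sum_add_distrib] at h6
  have h7 : 4 * Real.exp (-s) ≤ ε / 2 := by
    have h8 : 8 / ε ≤ Real.exp s := by
      rw [← Real.log_le_iff_le_exp (by positivity)]
      exact hs3
    rw [Real.exp_neg]
    have h9 : (Real.exp s)⁻¹ ≤ (8 / ε)⁻¹ := inv_anti₀ (by positivity) h8
    rw [inv_div] at h9
    linarith
  have h8 := abs_le.mp h6
  have h9 := abs_lt.mp h3
  have h10 := abs_lt.mp h4
  rw [abs_le]
  constructor
  · linarith [h8.1, h8.2, h9.1, h9.2, h10.1, h10.2]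
  · linarith [h8.1, h8.2, h9.1, h9.2, h10.1, h10.2]

theorem mer_up : ∃ C : ℝ, 0 ≤ C ∧ ∀ t : ℝ, 1 ≤ t → ∑ p ∈ PR 0 t, 1 / (p : ℝ) ≤ Real.log t + C := by
  obtain ⟨s0, hs0, h⟩ := mer_diff one_pos
  have hS : 0 ≤ ∑ p ∈ PR 0 s0, 1 / (p : ℝ) := sum_nonneg fun p _ => by positivity
  refine ⟨∑ p ∈ PR 0 s0, 1 / (p : ℝ) + 1, by linarith, ?_⟩
  intro t ht
  have hlt : 0 ≤ Real.log t := Real.log_nonneg ht
  rcases le_total t s0 with h1 | h1
  · have h2 : ∑ p ∈ PR 0 t, 1 / (p : ℝ) ≤ ∑ p ∈ PR 0 s0, 1 / (p : ℝ) := by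
      refine sum_le_sum_of_subset_of_nonneg ?_ fun p _ _ => by positivity
      intro p hp
      rw [Pool.Agent.Lib.OW.mem_PR] at hp ⊢
      exact ⟨hp.1, hp.2.1, hp.2.2.trans (Real.exp_le_exp.mpr h1)⟩
    linarith
  · have h2 : ∑ p ∈ PR 0 t, 1 / (p : ℝ) ≤ ∑ p ∈ PR 0 s0, 1 / (p : ℝ) + ∑ p ∈ PR s0 t, 1 / (p : ℝ) := by
      rw [← sum_union]
      · refine sum_le_sum_of_subset_of_nonneg ?_ fun p _ _ => by positivity
        intro p hp
        rw [mem_union, Pool.Agent.Lib.OW.mem_PR, Pool.Agent.Lib.OW.mem_PR]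
        rw [Pool.Agent.Lib.OW.mem_PR] at hp
        rcases le_or_gt (p : ℝ) (Real.exp s0) with h3 | h3
        · exact Or.inl ⟨hp.1, hp.2.1, h3⟩
        · exact Or.inr ⟨hp.1, h3, hp.2.2⟩
      · rw [disjoint_left]
        intro p h3 h4
        rw [Pool.Agent.Lib.OW.mem_PR] at h3 h4
        linarith [h3.2.2, h4.2.1]
    have h3 := (abs_le.mp (h s0 t le_rfl h1)).2
    have h4 : Real.log (t / s0) ≤ Real.log t := by
      rw [Real.log_div (by linarith) (by linarith)]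
      have := Real.log_nonneg hs0
      linarith
    linarith

end Pool.Agent.Lib.TC
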