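import Pool.Agent.Lib.MP_7b7e48_nt.BR3.A2
import Pool.Agent.Lib.MP_7b7e48_nt.BR3.C
import Pool.Agent.Lib.MP_7b7e48_nt.BR3.E2
import Pool.Agent.Lib.MP_7b7e48_nt.BR3.F

/-!
# BR3.G1 (80 minutes): the masses of the pieces for large `N`

Let `s = exp (g/G) + 1/K`, `t = exp ((g+1)/G)` (`K = log N`). Every `p ∈ PR s t` with `p ∤ N` is in `pc g`: `K log p > K exp (g/G) + 1`, so
`cell p ≥ thr g + 1`; `K log p ≤ K exp ((g+1)/G)`, so `cell p ≤ thr (g+1)`; `log p ≤ t ≤ kp ^ 80 ≤ K`, so `p ≤ N`. `mer_diff` with `ε = 1/(50 G)` (fixed; `s ≥ 2 l0 → ∞`, `ev_base`):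
`∑_{PR s t} 1/p ≥ log (t/s) - ε`, `log (t / s) = (g+1)/G - log (exp (g/G) + 1/K) ≥ 1/G - 1/K` (if `s ≤ t`; otherwise impossible for large `N`:
`exp ((g+1)/G) - exp (g/G) ≥ 1/G > 1/K`). `div_loss`: the primes dividing `N` cost at most `K exp (-2 l0) ≤ K ^ (-3)` (`l0 = (Cp+1) log K ≥ 2 log K`, `s ≥ 1`).
So the sum is `≥ 1/G - 1/(50 G) - 1/K - 1/K^3 ≥ 1/(1.1 G)` for large `N` (`1 - 1/1.1 = 1/11`).
-/

set_option autoImplicit false

open Finset Filter

namespace Pool.Agent.Lib.TC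

namespace MPar

private theorem G1_one {Q : MPar} (hQ : Q.Ok) {N : ℕ} {ε s0 : ℝ} (hε : ε = 1 / (50 * Q.G)) (hs0 : 1 ≤ s0)
    (hm : ∀ s t : ℝ, s0 ≤ s → s ≤ t → |∑ p ∈ Pool.Agent.Lib.OW.PR s t, 1 / (p : ℝ) - Real.log (t / s)| ≤ ε)
    (hKk : (kp N) ^ 100 = Real.log N) (hk0 : 1 ≤ kp N) (hl : s0 ≤ Q.l0 N)
    (hK : 100 * (Q.G : ℝ) ≤ Real.log N) (hK1 : 1 ≤ Real.log N)
    (g : ℕ) (h1 : 2 * Q.l0 N ≤ Real.exp ((g : ℝ) / Q.G)) (h2 : Real.exp (((g : ℝ) + 1) / Q.G) ≤ (kp N) ^ 80) :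
    1 / (1.1 * Q.G) ≤ ∑ p ∈ Q.pc N g, 1 / (p : ℝ) := by
  have hG : (0 : ℝ) < Q.G := by exact_mod_cast G_pos hQ
  have hG1 : (1 : ℝ) ≤ Q.G := by exact_mod_cast G_pos hQ
  obtain ⟨K, hKd⟩ : ∃ K : ℝ, K = Real.log N := ⟨_, rfl⟩
  obtain ⟨x, hx⟩ : ∃ x : ℝ, x = Real.exp ((g : ℝ) / Q.G) := ⟨_, rfl⟩
  obtain ⟨y, hy⟩ : ∃ y : ℝ, y = Real.exp (((g : ℝ) + 1) / Q.G) := ⟨_, rfl⟩
  have hK0 : 0 < K := by rw [hKd]; linarith
  rw [← hKd] at hK hK1 hKk
  have hN : 1 < N := by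
    by_contra h3
    have h4 : (N : ℝ) ≤ 1 := by exact_mod_cast Nat.not_lt.1 h3
    have h5 := Real.log_nonpos (Nat.cast_nonneg N) h4
    rw [← hKd] at h5
    linarith
  have hN0 : (0 : ℝ) < N := by exact_mod_cast (by omega : 0 < N)
  have hx1 : 1 ≤ x := by
    rw [hx]
    exact Real.one_le_exp (by positivity)
  rw [← hx] at h1
  rw [← hy] at h2
  have hxy : x + 1 / K ≤ y := by
    have e1 : y = x * Real.exp (1 / Q.G) := by
      rw [hx, hy, ← Real.exp_add]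
      congr 1
      field_simp
    have e2 : 1 / (Q.G : ℝ) + 1 ≤ Real.exp (1 / Q.G) := Real.add_one_le_exp _
    have e3 : 1 / K ≤ 1 / (Q.G : ℝ) := one_div_le_one_div_of_le hG (by linarith)
    have e4 : 0 < 1 / (Q.G : ℝ) := by positivity
    rw [e1]
    nlinarith
  have hKpos : 0 < 1 / K := by positivity
  -- the inclusion
  have hsub : (Pool.Agent.Lib.OW.PR (x + 1 / K) y).filter (fun p => ¬ p ∣ N) ⊆ Q.pc N g := by
    intro p hp
    obtain ⟨hp1, hp2⟩ := mem_filter.1 hp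
    have hp3 : p.Prime := (Pool.Agent.Lib.OW.mem_PR.1 hp1).1
    obtain ⟨a1, a2⟩ := (Pool.Agent.Lib.OW.mem_PR_log hp3).1 hp1
    have hp0 : (0 : ℝ) < p := by exact_mod_cast hp3.pos
    have hyK : y ≤ K := by
      refine h2.trans ?_
      rw [← hKk]
      exact pow_le_pow_right₀ hk0 (by norm_num)
    unfold pc
    rw [mem_filter, mem_range]
    refine ⟨?_, hp3, hp2, ?_, ?_⟩
    · have e1 : Real.log p ≤ Real.log N := by rw [← hKd]; linarith
      have e2 : (p : ℝ) ≤ N := (Real.log_le_log_iff hp0 hN0).mp e1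
      have e3 : p ≤ N := by exact_mod_cast e2
      omega
    · unfold thr cell
      rw [← hKd, ← hx]
      have e1 : K * x + 1 ≤ K * Real.log p := by
        have e2 : K * (x + 1 / K) ≤ K * Real.log p := mul_le_mul_of_nonneg_left a1.le hK0.le
        have e3 : K * (x + 1 / K) = K * x + 1 := by field_simp
        linarith
      have e2 : ⌊K * x⌋₊ + 1 ≤ ⌊K * Real.log p⌋₊ := by
        refine Nat.le_floor ?_
        push_cast
        have e3 : ((⌊K * x⌋₊ : ℕ) : ℝ) ≤ K * x := Nat.floor_le (by positivity)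
        linarith
      omega
    · unfold thr cell
      rw [← hKd]
      push_cast
      rw [← hy]
      exact Nat.floor_le_floor (mul_le_mul_of_nonneg_left a2 hK0.le)
  have hsum : ∑ p ∈ (Pool.Agent.Lib.OW.PR (x + 1 / K) y).filter (fun p => ¬ p ∣ N), 1 / (p : ℝ) ≤
      ∑ p ∈ Q.pc N g, 1 / (p : ℝ) :=
    sum_le_sum_of_subset_of_nonneg hsub fun _ _ _ => by positivity
  refine le_trans ?_ hsum
  have hsplit := sum_filter_add_sum_filter_not (Pool.Agent.Lib.OW.PR (x + 1 / K) y) (fun p => p ∣ N)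
    (fun p : ℕ => 1 / (p : ℝ))
  have hl0 : 1 ≤ Q.l0 N := hs0.trans hl
  have hs : s0 ≤ x + 1 / K := by linarith
  have hspos : 0 < x + 1 / K := by linarith
  have hdiff := (abs_le.mp (hm (x + 1 / K) y hs hxy)).1
  have hdl := div_loss (N := N) (by omega) hspos y
  rw [← hKd] at hdl
  -- the logarithm
  have hlog : 1 / (Q.G : ℝ) - 1 / K ≤ Real.log (y / (x + 1 / K)) := by
    rw [Real.log_div (by linarith) hspos.ne']
    have e1 : Real.log y = ((g : ℝ) + 1) / Q.G := by rw [hy, Real.log_exp]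
    have e2 : Real.log x = (g : ℝ) / Q.G := by rw [hx, Real.log_exp]
    have e3 : Real.log (x + 1 / K) ≤ Real.log x + 1 / K := by
      have e4 : x + 1 / K = x * (1 + 1 / (K * x)) := by field_simp
      rw [e4, Real.log_mul (by linarith) (by positivity)]
      have e5 : Real.log (1 + 1 / (K * x)) ≤ 1 / (K * x) := by
        have e6 := Real.log_le_sub_one_of_pos (show (0 : ℝ) < 1 + 1 / (K * x) by positivity)
        linarith
      have e6 : 1 / (K * x) ≤ 1 / K := one_div_le_one_div_of_le hK0 (by nlinarith)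
      linarith
    rw [e1]
    rw [e2] at e3
    have e7 : ((g : ℝ) + 1) / Q.G = (g : ℝ) / Q.G + 1 / Q.G := by ring
    rw [e7]
    linarith
  -- the divisors of `N`
  have hdiv : K / (x + 1 / K) * Real.exp (-(x + 1 / K)) ≤ 1 / K := by
    have e1 : K / (x + 1 / K) ≤ K := div_le_self hK0.le (by linarith)
    have e2 : Real.exp (-(x + 1 / K)) ≤ Real.exp (-(2 * Real.log K)) := by
      refine Real.exp_le_exp.mpr ?_
      have e3 : Real.log K ≤ Q.l0 N := by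
        unfold l0
        rw [← hKd]
        have e4 : 0 ≤ Real.log K := Real.log_nonneg hK1
        have e5 : (0 : ℝ) ≤ Q.Cp := Nat.cast_nonneg _
        nlinarith
      linarith
    have e3 : Real.exp (-(2 * Real.log K)) = 1 / K ^ 2 := by
      rw [Real.exp_neg, one_div]
      congr 1
      rw [two_mul, Real.exp_add, Real.exp_log hK0]
      ring
    calc K / (x + 1 / K) * Real.exp (-(x + 1 / K)) ≤ K * (1 / K ^ 2) :=
          mul_le_mul e1 (by rw [← e3]; exact e2) (Real.exp_pos _).le hK0.le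
      _ = 1 / K := by field_simp
  have hK2 : 1 / K ≤ 1 / (100 * Q.G) := one_div_le_one_div_of_le (by positivity) hK
  have hfin : 1 / (1.1 * (Q.G : ℝ)) + 3 * (1 / (100 * Q.G)) + 1 / (50 * Q.G) ≤ 1 / Q.G := by
    have e1 : 1 / (1.1 * (Q.G : ℝ)) = (1 / 1.1) * (1 / Q.G) := by field_simp
    have e2 : 1 / (100 * (Q.G : ℝ)) = (1 / 100) * (1 / Q.G) := by field_simp
    have e3 : 1 / (50 * (Q.G : ℝ)) = (1 / 50) * (1 / Q.G) := by field_simp
    rw [e1, e2, e3]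
    have e4 : 0 < 1 / (Q.G : ℝ) := by positivity
    have e5 : (1 : ℝ) / 1.1 ≤ 92 / 100 := by norm_num
    nlinarith
  rw [hε] at hdiff
  linarith

theorem ev_pcm {Q : MPar} (hQ : Q.Ok) : ∀ᶠ N : ℕ in atTop, ∀ g : ℕ, 2 * Q.l0 N ≤ Real.exp ((g : ℝ) / Q.G) →
    Real.exp (((g : ℝ) + 1) / Q.G) ≤ (kp N) ^ 80 → 1 / (1.1 * Q.G) ≤ ∑ p ∈ Q.pc N g, 1 / (p : ℝ) := by
  have hG : (0 : ℝ) < Q.G := by exact_mod_cast G_pos hQ
  obtain ⟨s0, hs0, hm⟩ := mer_diff (ε := 1 / (50 * (Q.G : ℝ))) (by positivity)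
  have hlog : Tendsto (fun N : ℕ => Real.log (N : ℝ)) atTop atTop :=
    Real.tendsto_log_atTop.comp tendsto_natCast_atTop_atTop
  have hll : Tendsto (fun N : ℕ => Real.log (Real.log (N : ℝ))) atTop atTop :=
    Real.tendsto_log_atTop.comp hlog
  filter_upwards [ev_base Q, hlog.eventually_ge_atTop (100 * (Q.G : ℝ)), hlog.eventually_ge_atTop 1,
    hll.eventually_ge_atTop s0] with N hb h1 h2 h3
  intro g hg1 hg2
  refine G1_one hQ rfl hs0 hm hb.1 ?_ ?_ h1 h2 g hg1 hg2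
  · refine le_trans ?_ hb.2.1
    have : (1 : ℝ) ≤ ((Q.k : ℝ) + 1) ^ 4 := one_le_pow₀ (by linarith [Nat.cast_nonneg (α := ℝ) Q.k])
    nlinarith
  · unfold l0
    have e5 : (0 : ℝ) ≤ Q.Cp := Nat.cast_nonneg _
    nlinarith

end MPar

end Pool.Agent.Lib.TC
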