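import Pool.Agent.Lib.MP_7b7e48_nt.BR3.H1

/-!
# BR3.H3 (60 minutes): the target is in the range of the subset sums

`K = log N`, `κ = kp N`, `K = κ ^ 100`, `T := tgt ..`. `gy y i np ∈ pc (j5 G + i)` (`gy_mem`, `OYs`): `K κ^70 < cell ≤ 9 K κ^70` (`bal_log`); each free cell is in
`[0, K κ^50]` (`fx_log`, `Fintype.mem_piFinset`), and there are at most `n0 ≤ κ` of them on each side (`cnt`).
So `0 ≤ K κ^70 - κ K κ^50 ≤ T ≤ 9 K κ^70 + κ K κ^50 + 2 K ≤ 2 K κ^75`. All values of items are `≥ 0`, and the last unit `j4 - 1 ≥ j3` (`j34`) has six items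
(`r = 6 (j4 - j3) - 6, …`, `r / 6 = j4 - 1 - j3`) with value `≥ K exp (j4 - 1) ≥ K κ^75 / 3` each (`e4`, `exp 1 ≤ 3`): `∑ ≥ 2 K κ^75`.
-/

set_option autoImplicit false

open Finset

namespace Pool.Agent.Lib.TC

namespace MPar

variable {Q : MPar} {N : ℕ}

theorem target (hQ : Q.Ok) (h : Q.Lg N) {x : Fin (Q.k * Q.nit N) → ℕ} (hx : x ∈ Fintype.piFinset (Q.sys N).OX)
    {y : Fin (Q.k * (Q.np N + 1)) → ℕ} (hy : y ∈ Fintype.piFinset (Q.sys N).OY) (c : FE (Q.n0 N) → Fin (Q.k + 1))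
    {u w : Fin (Q.n0 N) → ℕ} (hu : u ∈ Fintype.piFinset (Q.sys N).FX) (hw : w ∈ Fintype.piFinset (Q.sys N).FY) {i : ℕ} (hi : i < Q.k) :
    0 ≤ Q.tgt N c (fun f => cell N (u f)) (fun f => cell N (w f)) y i ∧
      Q.tgt N c (fun f => cell N (u f)) (fun f => cell N (w f)) y i ≤ ∑ t ∈ range (Q.nit N), Q.sv N x y i t := by
  have hk0 := h.k0
  have hk4 : (1 : ℝ) ≤ ((Q.k : ℝ) + 1) ^ 4 := one_le_pow₀ (by have : (0 : ℝ) ≤ Q.k := Nat.cast_nonneg _; linarith)
  have hκ : (10 : ℝ) ^ 10 ≤ kp N := by nlinarith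
  have hκ1 : (1 : ℝ) ≤ kp N := le_trans (by norm_num) hκ
  have hK := h.K1
  have hK0 : 0 ≤ Real.log N := le_trans (by norm_num) hK
  have hn0 : (Q.n0 N : ℝ) ≤ kp N := by
    have h1 := h.cnt
    have h2 : (0 : ℝ) ≤ Q.k := Nat.cast_nonneg _
    have h3 : (0 : ℝ) ≤ Q.nit N := Nat.cast_nonneg _
    have h4 : (0 : ℝ) ≤ Q.np N := Nat.cast_nonneg _
    have h5 : (0 : ℝ) ≤ Q.n0 N := Nat.cast_nonneg _
    have h6 : (0 : ℝ) ≤ Q.k * (Q.nit N : ℝ) := mul_nonneg h2 h3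
    have h7 : (0 : ℝ) ≤ Q.k * ((Q.np N : ℝ) + 1) := mul_nonneg h2 (by linarith)
    linarith
  have hb : Q.gy N y i (Q.np N) ∈ Q.pc N (j5 N * Q.G + i) := by
    have h1 := gy_mem hy hi (le_refl (Q.np N))
    unfold OYs at h1
    rwa [if_neg (lt_irrefl _)] at h1
  obtain ⟨-, -, b1, b2⟩ := bal_log hQ h hi hb
  have hfr : ∀ (F : Fin (Q.n0 N) → ℕ), (∀ f : Fin (Q.n0 N), F f ∈ Q.FXs N f) → ∀ S : Finset (Fin (Q.n0 N)),
      0 ≤ ∑ f ∈ S, (cell N (F f) : ℝ) ∧ ∑ f ∈ S, (cell N (F f) : ℝ) ≤ Real.log N * kp N ^ 51 := by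
    intro F hF S
    refine ⟨sum_nonneg fun f _ => Nat.cast_nonneg _, ?_⟩
    have h1 : ∑ f ∈ S, (cell N (F f) : ℝ) ≤ ∑ f ∈ S, Real.log N * kp N ^ 50 :=
      sum_le_sum fun f _ => (fx_log hQ h f.2 (hF f)).2.2
    have h2 : (S.card : ℝ) ≤ kp N := by
      refine le_trans ?_ hn0
      have := card_le_univ S
      rw [Fintype.card_fin] at this
      exact_mod_cast this
    rw [sum_const, nsmul_eq_mul] at h1
    have h3 : (0 : ℝ) ≤ Real.log N * kp N ^ 50 := by positivity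
    calc _ ≤ _ := h1
      _ ≤ kp N * (Real.log N * kp N ^ 50) := mul_le_mul_of_nonneg_right h2 h3
      _ = Real.log N * kp N ^ 51 := by ring
  have hu' : ∀ f : Fin (Q.n0 N), u f ∈ Q.FXs N f := fun f => Fintype.mem_piFinset.1 hu f
  have hw' : ∀ f : Fin (Q.n0 N), w f ∈ Q.FXs N f := fun f => Fintype.mem_piFinset.1 hw f
  obtain ⟨u1, u2⟩ := hfr u hu' (univ.filter (fun f => (c (Sum.inl f) : ℕ) = i))
  obtain ⟨w1, w2⟩ := hfr w hw' (univ.filter (fun f => (c (Sum.inr f) : ℕ) = i))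
  have e1 : kp N ^ 51 ≤ kp N ^ 70 := pow_le_pow_right₀ hκ1 (by norm_num)
  have e2 : Real.log N * kp N ^ 51 ≤ Real.log N * kp N ^ 70 := mul_le_mul_of_nonneg_left e1 hK0
  have e3 : (1 : ℝ) ≤ kp N ^ 70 := one_le_pow₀ hκ1
  have e4 : Real.log N ≤ Real.log N * kp N ^ 70 := by nlinarith
  have e5 : 12 * (Real.log N * kp N ^ 70) ≤ 2 * (Real.log N * kp N ^ 75) := by
    have h1 : (6 : ℝ) ≤ kp N ^ 5 := by
      have h2 : kp N ≤ kp N ^ 5 := by
        calc kp N = kp N ^ 1 := (pow_one _).symm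
          _ ≤ kp N ^ 5 := pow_le_pow_right₀ hκ1 (by norm_num)
      linarith [show (6 : ℝ) ≤ 10 ^ 10 by norm_num]
    have h3 : (0 : ℝ) ≤ Real.log N * kp N ^ 70 := by positivity
    calc 12 * (Real.log N * kp N ^ 70) = 2 * ((Real.log N * kp N ^ 70) * 6) := by ring
      _ ≤ 2 * ((Real.log N * kp N ^ 70) * kp N ^ 5) := by
          have := mul_le_mul_of_nonneg_left h1 h3
          linarith
      _ = 2 * (Real.log N * kp N ^ 75) := by ring
  unfold tgt
  constructor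
  · linarith
  · have hj := h.j34
    have hnit : Q.nit N = (Q.np N + (Q.nr N - 6)) + 6 := by
      unfold nit nr
      omega
    have h1 : ∀ s ∈ range 6, Real.log N * (kp N ^ 75 / 3) ≤ Q.sv N x y i (Q.np N + (Q.nr N - 6) + s) := by
      intro s hs
      rw [mem_range] at hs
      have h2 : Q.nr N - 6 + s < Q.nr N := by
        unfold nr
        omega
      have h3 := (sv_res hQ h hx hy hi h2).1
      have h4 : Q.j3 N + (Q.nr N - 6 + s) / 6 = j4 N - 1 := by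
        unfold nr
        omega
      rw [h4] at h3
      rw [add_assoc]
      refine le_trans (mul_le_mul_of_nonneg_left ?_ hK0) h3
      have h5 := h.e4.1
      have h6 : Real.exp (j4 N : ℝ) = Real.exp ((j4 N - 1 : ℕ) : ℝ) * Real.exp 1 := by
        rw [← Real.exp_add]
        congr 1
        rw [Nat.cast_sub (by omega)]
        push_cast
        ring
      have h7 : Real.exp 1 ≤ 3 := by
        have := Real.exp_one_lt_d9
        linarith
      have h8 : 0 < Real.exp ((j4 N - 1 : ℕ) : ℝ) := Real.exp_pos _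
      rw [h6] at h5
      nlinarith
    rw [hnit, sum_range_add]
    have h2 := sum_le_sum h1
    rw [sum_const, card_range, nsmul_eq_mul] at h2
    have h3 : 0 ≤ ∑ t ∈ range (Q.np N + (Q.nr N - 6)), Q.sv N x y i t := by
      refine sum_nonneg fun t ht => sv_nonneg hQ h hx hy hi ?_
      rw [mem_range] at ht
      omega
    have h4 : ((6 : ℕ) : ℝ) * (Real.log N * (kp N ^ 75 / 3)) = 2 * (Real.log N * kp N ^ 75) := by
      push_cast
      ring
    rw [h4] at h2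
    linarith

end MPar

end Pool.Agent.Lib.TC
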