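import Pool.Agent.Lib.MP_7b7e48_nt.BR3.H2
import Pool.Agent.Lib.MP_7b7e48_nt.BR3.H3
import Pool.Agent.Lib.MP_7b7e48_nt.TC.T07

/-!
# BR3.H: the completion exists
-/

set_option autoImplicit false

open Finset

namespace Pool.Agent.Lib.TC

namespace MPar

variable {Q : MPar} {N : ℕ}

/-- **the completion** -/
theorem sel_spec (hQ : Q.Ok) (h : Q.Lg N) {x : Fin (Q.k * Q.nit N) → ℕ} (hx : x ∈ Fintype.piFinset (Q.sys N).OX)
    {y : Fin (Q.k * (Q.np N + 1)) → ℕ} (hy : y ∈ Fintype.piFinset (Q.sys N).OY) (c : FE (Q.n0 N) → Fin (Q.k + 1))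
    {u w : Fin (Q.n0 N) → ℕ} (hu : u ∈ Fintype.piFinset (Q.sys N).FX) (hw : w ∈ Fintype.piFinset (Q.sys N).FY) {i : ℕ} (hi : i < Q.k) :
    Q.sel N c (fun f => cell N (u f)) (fun f => cell N (w f)) x y i ⊆ range (Q.nit N) ∧
    Q.tgt N c (fun f => cell N (u f)) (fun f => cell N (w f)) y i ≤
      ∑ t ∈ Q.sel N c (fun f => cell N (u f)) (fun f => cell N (w f)) x y i, Q.sv N x y i t ∧
    ∑ t ∈ Q.sel N c (fun f => cell N (u f)) (fun f => cell N (w f)) x y i, Q.sv N x y i t ≤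
      Q.tgt N c (fun f => cell N (u f)) (fun f => cell N (w f)) y i + 13 * Real.log N := by
  obtain ⟨t1, t2⟩ := target hQ h hx hy c hu hw hi
  have hK : (0 : ℝ) ≤ 13 * Real.log N := by have := h.K1; linarith
  have ex := T07 (s := fun t => Q.sv N x y i t) hK (Q.nit N) (fun t ht => sv_nonneg hQ h hx hy hi ht)
    (fun t ht => growth hQ h hx hy hi ht) t1 t2
  unfold sel
  rw [dif_pos ex]
  exact ex.choose_spec

end MPar

end Pool.Agent.Lib.TC
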