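import Pool.Agent.Lib.MP_7b7e48_nt.BR3.A2

/-!
# BR3.H1 (70 minutes): the items of a slot

`K = log N`, `x ∈ piFinset OX`, `y ∈ piFinset OY` for `Q.sys N`.
`gx_mem`: the mark with the number `e = i * nit + t` (`t < nit`, `i < k`, so `e < k * nit`), `e / nit = i`, `e % nit = t`;
`gx x i t = x ⟨e, _⟩ ∈ OXs N i t` (`Fintype.mem_piFinset`, `ext1`). `gy_mem`: the same with `np + 1`.
`sv_pair`: `gx ∈ PXs N i t`, `gy ∈ PYs N i t`, `pair_cell`. `sv_res`: `t = np + r` is not `< np`, `gx ∈ rs N i r`: `rs_log` (`nit = np + nr`).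
`sv_nonneg`: `K (t + 1) - 1 ≥ 0`, resp. `sv_res`.
-/

set_option autoImplicit false

open Finset

namespace Pool.Agent.Lib.TC

namespace MPar

variable {Q : MPar} {N : ℕ}

private theorem H1_idx {k m i t : ℕ} (hi : i < k) (ht : t < m) :
    i * m + t < k * m ∧ (i * m + t) / m = i ∧ (i * m + t) % m = t := by
  have hm : 0 < m := by omega
  refine ⟨?_, ?_, ?_⟩
  · calc i * m + t < i * m + m := by omega
      _ = (i + 1) * m := by ring
      _ ≤ k * m := Nat.mul_le_mul_right m hi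
  · rw [mul_comm, Nat.mul_add_div hm, Nat.div_eq_of_lt ht, add_zero]
  · rw [mul_comm, Nat.mul_add_mod, Nat.mod_eq_of_lt ht]

theorem gx_mem {x : Fin (Q.k * Q.nit N) → ℕ} (hx : x ∈ Fintype.piFinset (Q.sys N).OX) {i t : ℕ} (hi : i < Q.k) (ht : t < Q.nit N) :
    Q.gx N x i t ∈ Q.OXs N i t := by
  obtain ⟨h1, h2, h3⟩ := H1_idx hi ht
  have h4 := Fintype.mem_piFinset.1 hx ⟨i * Q.nit N + t, h1⟩
  have h5 : x ⟨i * Q.nit N + t, h1⟩ ∈ Q.OXs N ((i * Q.nit N + t) / Q.nit N)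
    ((i * Q.nit N + t) % Q.nit N) := h4
  rw [h2, h3] at h5
  unfold gx ext1
  rw [dif_pos h1]
  exact h5

theorem gy_mem {y : Fin (Q.k * (Q.np N + 1)) → ℕ} (hy : y ∈ Fintype.piFinset (Q.sys N).OY) {i t : ℕ} (hi : i < Q.k) (ht : t ≤ Q.np N) :
    Q.gy N y i t ∈ Q.OYs N i t := by
  obtain ⟨h1, h2, h3⟩ := H1_idx hi (Nat.lt_succ_of_le ht)
  have h4 := Fintype.mem_piFinset.1 hy ⟨i * (Q.np N + 1) + t, h1⟩
  have h5 : y ⟨i * (Q.np N + 1) + t, h1⟩ ∈ Q.OYs N ((i * (Q.np N + 1) + t) / (Q.np N + 1))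
    ((i * (Q.np N + 1) + t) % (Q.np N + 1)) := h4
  rw [h2, h3] at h5
  unfold gy ext1
  rw [dif_pos h1]
  exact h5

theorem sv_pair (h : Q.Lg N) {x : Fin (Q.k * Q.nit N) → ℕ} (hx : x ∈ Fintype.piFinset (Q.sys N).OX)
    {y : Fin (Q.k * (Q.np N + 1)) → ℕ} (hy : y ∈ Fintype.piFinset (Q.sys N).OY) {i t : ℕ} (hi : i < Q.k) (ht : t < Q.np N) :
    Real.log N * (t + 1) - 1 ≤ Q.sv N x y i t ∧ Q.sv N x y i t ≤ Real.log N * (t + 3) + 1 := by
  have ht' : t < Q.nit N := by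
    unfold nit
    omega
  have h1 := gx_mem hx hi ht'
  have h2 := gy_mem hy hi ht.le
  unfold OXs at h1
  unfold OYs at h2
  rw [if_pos ht] at h1 h2
  unfold sv
  rw [if_pos ht]
  exact pair_cell h h1 h2

theorem sv_res (hQ : Q.Ok) (h : Q.Lg N) {x : Fin (Q.k * Q.nit N) → ℕ} (hx : x ∈ Fintype.piFinset (Q.sys N).OX)
    {y : Fin (Q.k * (Q.np N + 1)) → ℕ} (hy : y ∈ Fintype.piFinset (Q.sys N).OY) {i r : ℕ} (hi : i < Q.k) (hr : r < Q.nr N) :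
    Real.log N * Real.exp (Q.j3 N + r / 6 : ℕ) ≤ Q.sv N x y i (Q.np N + r) ∧
      Q.sv N x y i (Q.np N + r) ≤ Real.log N * Real.exp (Q.j3 N + r / 6 + 1 : ℕ) := by
  have ht' : Q.np N + r < Q.nit N := by
    unfold nit
    omega
  have h1 := gx_mem hx hi ht'
  have h0 : ¬ Q.np N + r < Q.np N := by omega
  unfold OXs at h1
  rw [if_neg h0, Nat.add_sub_cancel_left] at h1
  obtain ⟨-, -, h2, h3⟩ := rs_log hQ h hi h1
  unfold sv
  rw [if_neg h0, sub_zero]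
  exact ⟨h2.le, h3⟩

theorem sv_nonneg (hQ : Q.Ok) (h : Q.Lg N) {x : Fin (Q.k * Q.nit N) → ℕ} (hx : x ∈ Fintype.piFinset (Q.sys N).OX)
    {y : Fin (Q.k * (Q.np N + 1)) → ℕ} (hy : y ∈ Fintype.piFinset (Q.sys N).OY) {i t : ℕ} (hi : i < Q.k) (ht : t < Q.nit N) :
    0 ≤ Q.sv N x y i t := by
  have hK := h.K1
  have hK1 : (1 : ℝ) ≤ Real.log N := le_trans (by norm_num) hK
  rcases Nat.lt_or_ge t (Q.np N) with h1 | h1
  · have h2 := (sv_pair h hx hy hi h1).1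
    have h3 : (0 : ℝ) ≤ t := Nat.cast_nonneg t
    nlinarith
  · obtain ⟨r, rfl⟩ : ∃ r, t = Q.np N + r := ⟨t - Q.np N, by omega⟩
    have hr : r < Q.nr N := by
      unfold nit at ht
      omega
    have h2 := (sv_res hQ h hx hy hi hr).1
    exact le_trans (by positivity) h2

end MPar

end Pool.Agent.Lib.TC
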