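import Pool.Agent.Lib.MP_7b7e48_nt.BR3.H1

/-!
# BR3.H2 (80 minutes): the growth condition

`K = log N`, `s t := sv x y i t`. Claim: `s t ≤ 13 K + ∑_{j<t} s j`.
(a) `t < np`: `∑_{j<t} s j ≥ ∑_{j<t} (K (j+1) - 1) = K t (t+1)/2 - t` (`sv_pair`), and `s t ≤ K (t+3) + 1 ≤ 13 K + K t (t+1) / 2 - t` because
`t (t+1)/2 ≥ t` for `t ≥ 1` and `t ≤ np ≤ κ ≤ K` (`cnt`, `k ≥ 1`; `κ = kp N ≥ 1`, `K = κ ^ 100`).
(b) `t = np + r`, `r < nr`, `j := j3 + r / 6`: `s t ≤ K exp (j+1)` (`sv_res`). `∑_{j<np} s j ≥ K np (np+1)/2 - np ≥ K np^2 / 2 ≥ 50 K l0` (`K ≥ 2`, `np2`); the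
reserved items `np + r'` with `r' < 6 (r / 6)`: six for each unit `j3 ≤ j' < j`, each `≥ K exp j'`; the others are `≥ 0`. So it is enough that
`exp (j+1) ≤ 50 l0 + 6 ∑_{j3 ≤ j' < j} exp j'`: induction on `j ≥ j3`: `exp (j3+1) ≤ 2.72 * 6 l0 ≤ 50 l0` (`e3`); step:
`exp (j+2) = exp (j+1) + (e - 1) exp (j + 1) = exp (j+1) + (e - 1) e exp j` and `(e-1) e ≤ 6` (`Real.exp_one_lt_d9`).
-/

set_option autoImplicit false

open Finset

namespace Pool.Agent.Lib.TC

namespace MPar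

variable {Q : MPar} {N : ℕ}

private theorem H2_pair (h : Q.Lg N) {x : Fin (Q.k * Q.nit N) → ℕ} (hx : x ∈ Fintype.piFinset (Q.sys N).OX)
    {y : Fin (Q.k * (Q.np N + 1)) → ℕ} (hy : y ∈ Fintype.piFinset (Q.sys N).OY) {i : ℕ} (hi : i < Q.k) :
    ∀ t : ℕ, t ≤ Q.np N → Real.log N * (t * (t + 1)) / 2 - t ≤ ∑ j ∈ range t, Q.sv N x y i j := by
  intro t
  induction t with
  | zero => intro _; simp
  | succ n ih =>
    intro hn
    have h1 := ih (by omega)
    have h2 := (sv_pair h hx hy hi (t := n) (by omega)).1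
    rw [sum_range_succ]
    push_cast
    nlinarith

private theorem H2_res (hQ : Q.Ok) (h : Q.Lg N) {x : Fin (Q.k * Q.nit N) → ℕ} (hx : x ∈ Fintype.piFinset (Q.sys N).OX)
    {y : Fin (Q.k * (Q.np N + 1)) → ℕ} (hy : y ∈ Fintype.piFinset (Q.sys N).OY) {i : ℕ} (hi : i < Q.k)
    (hK : 2 ≤ Real.log N) :
    ∀ q : ℕ, 6 * q ≤ Q.nr N → Real.log N * Real.exp ((Q.j3 N + q + 1 : ℕ) : ℝ) ≤
      ∑ j ∈ range (Q.np N + 6 * q), Q.sv N x y i j := by
  have he := Real.exp_one_lt_d9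
  have he0 : 0 < Real.exp 1 := Real.exp_pos 1
  have hl : 0 < Q.l0 N := lt_of_lt_of_le (by positivity) h.lb
  intro q
  induction q with
  | zero =>
    intro _
    rw [Nat.mul_zero, Nat.add_zero, Nat.add_zero]
    have h1 := H2_pair h hx hy hi (Q.np N) le_rfl
    refine le_trans ?_ h1
    have h2 := h.np2
    have h3 : Real.exp ((Q.j3 N + 1 : ℕ) : ℝ) ≤ 50 * Q.l0 N := by
      push_cast
      rw [Real.exp_add]
      have h4 := h.e3.2
      have h5 : Real.exp (Q.j3 N) * Real.exp 1 ≤ (6 * Q.l0 N) * 3 :=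
        mul_le_mul h4 (by linarith) he0.le (by linarith)
      linarith
    have h4 : Real.log N * Real.exp ((Q.j3 N + 1 : ℕ) : ℝ) ≤ Real.log N * (50 * Q.l0 N) :=
      mul_le_mul_of_nonneg_left h3 (by linarith)
    have h5 : (0 : ℝ) ≤ Q.np N := Nat.cast_nonneg _
    have h6 : Real.log N * (100 * Q.l0 N) ≤ Real.log N * (Q.np N : ℝ) ^ 2 :=
      mul_le_mul_of_nonneg_left h2 (by linarith)
    have h7 : 2 * (Q.np N : ℝ) ≤ Real.log N * Q.np N := mul_le_mul_of_nonneg_right hK h5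
    nlinarith
  | succ q ih =>
    intro hq
    have h1 := ih (by omega)
    have hterm : ∀ s : ℕ, s < 6 → Real.log N * Real.exp ((Q.j3 N + q : ℕ) : ℝ) ≤
        Q.sv N x y i (Q.np N + 6 * q + s) := by
      intro s hs
      have h2 := (sv_res hQ h hx hy hi (r := 6 * q + s) (by omega)).1
      rw [show (6 * q + s) / 6 = q by omega, ← Nat.add_assoc] at h2
      exact h2
    have e0 := hterm 0 (by norm_num)
    have e1 := hterm 1 (by norm_num)
    have e2 := hterm 2 (by norm_num)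
    have e3 := hterm 3 (by norm_num)
    have e4 := hterm 4 (by norm_num)
    have e5 := hterm 5 (by norm_num)
    rw [Nat.add_zero] at e0
    rw [show Q.np N + 6 * (q + 1) = Q.np N + 6 * q + 5 + 1 by ring, sum_range_succ,
      show Q.np N + 6 * q + 5 = Q.np N + 6 * q + 4 + 1 by ring, sum_range_succ,
      show Q.np N + 6 * q + 4 = Q.np N + 6 * q + 3 + 1 by ring, sum_range_succ,
      show Q.np N + 6 * q + 3 = Q.np N + 6 * q + 2 + 1 by ring, sum_range_succ,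
      show Q.np N + 6 * q + 2 = Q.np N + 6 * q + 1 + 1 by ring, sum_range_succ, sum_range_succ]
    have hx0 : 0 < Real.exp ((Q.j3 N + q : ℕ) : ℝ) := Real.exp_pos _
    have g1 : Real.exp ((Q.j3 N + q + 1 : ℕ) : ℝ) = Real.exp ((Q.j3 N + q : ℕ) : ℝ) * Real.exp 1 := by
      rw [← Real.exp_add]; push_cast; rfl
    have g2 : Real.exp ((Q.j3 N + (q + 1) + 1 : ℕ) : ℝ) =
        Real.exp ((Q.j3 N + q : ℕ) : ℝ) * (Real.exp 1 * Real.exp 1) := by
      rw [← Real.exp_add, ← Real.exp_add]; push_cast; ring_nf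
    rw [g1] at h1
    rw [g2]
    have g3 : Real.exp 1 * Real.exp 1 ≤ Real.exp 1 + 6 := by nlinarith
    have g4 : 0 ≤ Real.log N * Real.exp ((Q.j3 N + q : ℕ) : ℝ) := mul_nonneg (by linarith) hx0.le
    have g5 := mul_le_mul_of_nonneg_left g3 g4
    have g6 : Real.log N * (Real.exp ((Q.j3 N + q : ℕ) : ℝ) * (Real.exp 1 * Real.exp 1)) =
        Real.log N * Real.exp ((Q.j3 N + q : ℕ) : ℝ) * (Real.exp 1 * Real.exp 1) := by ring
    rw [g6]
    have g7 : Real.log N * Real.exp ((Q.j3 N + q : ℕ) : ℝ) * (Real.exp 1 + 6) =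
        Real.log N * (Real.exp ((Q.j3 N + q : ℕ) : ℝ) * Real.exp 1) +
          6 * (Real.log N * Real.exp ((Q.j3 N + q : ℕ) : ℝ)) := by ring
    rw [g7] at g5
    linarith

theorem growth (hQ : Q.Ok) (h : Q.Lg N) {x : Fin (Q.k * Q.nit N) → ℕ} (hx : x ∈ Fintype.piFinset (Q.sys N).OX)
    {y : Fin (Q.k * (Q.np N + 1)) → ℕ} (hy : y ∈ Fintype.piFinset (Q.sys N).OY) {i t : ℕ} (hi : i < Q.k) (ht : t < Q.nit N) :
    Q.sv N x y i t ≤ 13 * Real.log N + ∑ j ∈ range t, Q.sv N x y i j := by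
  have hkp : (1 : ℝ) ≤ kp N := by
    refine le_trans ?_ h.k0
    have : (1 : ℝ) ≤ ((Q.k : ℝ) + 1) ^ 4 := one_le_pow₀ (by linarith [Nat.cast_nonneg (α := ℝ) Q.k])
    nlinarith
  have hkp10 : (10 : ℝ) ^ 10 ≤ kp N := by
    refine le_trans ?_ h.k0
    have : (1 : ℝ) ≤ ((Q.k : ℝ) + 1) ^ 4 := one_le_pow₀ (by linarith [Nat.cast_nonneg (α := ℝ) Q.k])
    nlinarith
  have hK : kp N ≤ Real.log N := by
    rw [← h.Kk]
    calc kp N = (kp N) ^ 1 := (pow_one _).symm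
      _ ≤ (kp N) ^ 100 := pow_le_pow_right₀ hkp (by norm_num)
  have hK2 : 2 ≤ Real.log N := le_trans (by norm_num) (hkp10.trans hK)
  by_cases htn : t < Q.np N
  · have h1 := H2_pair h hx hy hi t htn.le
    have h2 := (sv_pair h hx hy hi htn).2
    have h3 : (t : ℝ) ≤ kp N := by
      have h4 := h.cnt
      have h5 : (t : ℝ) ≤ Q.np N := by exact_mod_cast htn.le
      have h6 : (1 : ℝ) ≤ Q.k := by exact_mod_cast hQ.k1
      have h7 : (0 : ℝ) ≤ Q.n0 N := Nat.cast_nonneg _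
      have h8 : (0 : ℝ) ≤ Q.nit N := Nat.cast_nonneg _
      have h9 : (0 : ℝ) ≤ Q.np N := Nat.cast_nonneg _
      have h10 : (Q.np N : ℝ) ≤ Q.k * ((Q.np N : ℝ) + 1) := by nlinarith
      have h11 : 0 ≤ (Q.k : ℝ) * Q.nit N := by positivity
      linarith
    have h4 : (t : ℝ) * 2 ≤ t * (t + 1) := by
      rcases Nat.eq_zero_or_pos t with h0 | h0
      · rw [h0]; norm_num
      · have : (1 : ℝ) ≤ t := by exact_mod_cast h0
        nlinarith
    have h5 : Real.log N * (t * 2) ≤ Real.log N * (t * (t + 1)) := mul_le_mul_of_nonneg_left h4 (by linarith)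
    nlinarith
  · obtain ⟨r, hr⟩ : ∃ r, t = Q.np N + r := ⟨t - Q.np N, by omega⟩
    have hrn : r < Q.nr N := by
      unfold nit at ht
      omega
    have h1 := H2_res hQ h hx hy hi hK2 (r / 6) (by omega)
    have h2 := (sv_res hQ h hx hy hi hrn).2
    have h3 : ∑ j ∈ range (Q.np N + 6 * (r / 6)), Q.sv N x y i j ≤ ∑ j ∈ range t, Q.sv N x y i j := by
      refine sum_le_sum_of_subset_of_nonneg (range_subset_range.mpr (by omega)) fun j hj _ => ?_
      exact sv_nonneg hQ h hx hy hi (lt_trans (mem_range.mp hj) ht)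
    rw [hr] at h3 ⊢
    linarith

end MPar

end Pool.Agent.Lib.TC
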