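import Pool.Agent.Lib.MP_7b7e48_nt.BR3.H

/-!
# BR3.I1 (60 minutes): the products of the selected marks

`S = Q.sys N`, `μ ∈ MX`, `ν ∈ MY`, `i < k`. `SEL c μ ν i` = the selected items.
`oX_eq`: `S.oX N f c μ ν i = ∏_{e, kX e = i} f (μ.2.2 e)`, and `kX e = col (e / nit)` if `e % nit ∈ sel (e / nit)` and `col k` otherwise; for `i < k` and
`e < k * nit`: `kX e = i` iff `e / nit = i` and `e % nit ∈ sel i` (`col j = min j k`, `e / nit < k`). The map `t ↦ i * nit + t` is a bijection from `sel i ⊆ range nit` onto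
this set (`Finset.prod_bij` or `prod_nbij'`), and `gx μ.2.2 i t = μ.2.2 ⟨i * nit + t, _⟩`.
`oY_eq`: the same with `np + 1`: `kY e = i` iff `e / (np + 1) = i` and (`e % (np+1) = np` or `e % (np + 1) ∈ sel i`); here `e % (np+1) < np + 1`, so the second case means
`t ∈ sel i`, `t ≤ np`; as `t = np` is in both descriptions the index set is `{np} ∪ {t ∈ sel i, t < np}` (disjoint union).
-/

set_option autoImplicit false

open Finset

namespace Pool.Agent.Lib.TC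

namespace MPar

variable {Q : MPar} {N : ℕ}

/-- the selected items of the slot `i` -/
noncomputable def SEL (Q : MPar) (N : ℕ) (c : (Q.sys N).Col) (μ : (Q.sys N).TX) (ν : (Q.sys N).TY) (i : ℕ) : Finset ℕ :=
  Q.sel N c (fun f => cell N (μ.2.1 f)) (fun f => cell N (ν.2.1 f)) μ.2.2 ν.2.2 i

private theorem I1_dm {n : ℕ} (i : ℕ) {t : ℕ} (ht : t < n) : (i * n + t) / n = i ∧ (i * n + t) % n = t := by
  have hn : 0 < n := by omega
  constructor
  · rw [Nat.add_comm, Nat.add_mul_div_right _ _ hn, Nat.div_eq_of_lt ht, zero_add]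
  · rw [Nat.add_comm, Nat.add_mul_mod_self_right, Nat.mod_eq_of_lt ht]

private theorem I1_lt {k n i : ℕ} (hi : i < k) {t : ℕ} (ht : t < n) : i * n + t < k * n := by
  calc i * n + t < i * n + n := by omega
    _ = (i + 1) * n := by ring
    _ ≤ k * n := Nat.mul_le_mul_right _ hi

private theorem I1_sub (hQ : Q.Ok) (h : Q.Lg N) (c : (Q.sys N).Col) {μ : (Q.sys N).TX}
    (hμ : μ ∈ (Q.sys N).MX) {ν : (Q.sys N).TY} (hν : ν ∈ (Q.sys N).MY) {i : ℕ} (hi : i < Q.k) :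
    SEL Q N c μ ν i ⊆ range (Q.nit N) := by
  unfold MS.MX at hμ
  unfold MS.MY at hν
  rw [mem_product, mem_product] at hμ hν
  exact (sel_spec hQ h hμ.2.2 hν.2.2 c hμ.2.1 hν.2.1 hi).1

theorem kX_iff (c : (Q.sys N).Col) (μ : (Q.sys N).TX) (ν : (Q.sys N).TY) {i : ℕ} (hi : i < Q.k) (e : Fin (Q.sys N).nX) :
    ((Q.sys N).kX N c μ ν e : ℕ) = i ↔ (e : ℕ) / Q.nit N = i ∧ (e : ℕ) % Q.nit N ∈ SEL Q N c μ ν i := by
  have he : (e : ℕ) / Q.nit N < Q.k := by
    have h1 : (e : ℕ) < Q.k * Q.nit N := e.2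
    exact Nat.div_lt_of_lt_mul (by rwa [Nat.mul_comm] at h1)
  have hk : (Q.sys N).kX N c μ ν e = if (e : ℕ) % Q.nit N ∈ SEL Q N c μ ν ((e : ℕ) / Q.nit N) then Q.col ((e : ℕ) / Q.nit N) else Q.col Q.k := rfl
  rw [hk]
  constructor
  · intro h1
    by_cases h2 : (e : ℕ) % Q.nit N ∈ SEL Q N c μ ν ((e : ℕ) / Q.nit N)
    · rw [if_pos h2] at h1
      have h3 : (e : ℕ) / Q.nit N = i := by
        unfold col at h1
        simp only at h1
        omega
      rw [h3] at h2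
      exact ⟨h3, h2⟩
    · rw [if_neg h2] at h1
      unfold col at h1
      simp only at h1
      omega
  · rintro ⟨h1, h2⟩
    rw [h1, if_pos h2]
    unfold col
    simp only
    omega

theorem kY_iff (c : (Q.sys N).Col) (μ : (Q.sys N).TX) (ν : (Q.sys N).TY) {i : ℕ} (hi : i < Q.k) (e : Fin (Q.sys N).nY) :
    ((Q.sys N).kY N c μ ν e : ℕ) = i ↔ (e : ℕ) / (Q.np N + 1) = i ∧
      ((e : ℕ) % (Q.np N + 1) = Q.np N ∨ (e : ℕ) % (Q.np N + 1) ∈ SEL Q N c μ ν i) := by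
  have he : (e : ℕ) / (Q.np N + 1) < Q.k := by
    have h1 : (e : ℕ) < Q.k * (Q.np N + 1) := e.2
    exact Nat.div_lt_of_lt_mul (by rwa [Nat.mul_comm] at h1)
  have hk : (Q.sys N).kY N c μ ν e = if (e : ℕ) % (Q.np N + 1) = Q.np N ∨ (e : ℕ) % (Q.np N + 1) ∈ SEL Q N c μ ν ((e : ℕ) / (Q.np N + 1)) then
    Q.col ((e : ℕ) / (Q.np N + 1)) else Q.col Q.k := rfl
  rw [hk]
  constructor
  · intro h1
    by_cases h2 : (e : ℕ) % (Q.np N + 1) = Q.np N ∨ (e : ℕ) % (Q.np N + 1) ∈ SEL Q N c μ ν ((e : ℕ) / (Q.np N + 1))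
    · rw [if_pos h2] at h1
      have h3 : (e : ℕ) / (Q.np N + 1) = i := by
        unfold col at h1
        simp only at h1
        omega
      rw [h3] at h2
      exact ⟨h3, h2⟩
    · rw [if_neg h2] at h1
      unfold col at h1
      simp only at h1
      omega
  · rintro ⟨h1, h2⟩
    rw [h1, if_pos h2]
    unfold col
    simp only
    omega

theorem oX_eq (hQ : Q.Ok) (h : Q.Lg N) {M : Type*} [CommMonoid M] (F : ℕ → M) (c : (Q.sys N).Col) {μ : (Q.sys N).TX}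
    (hμ : μ ∈ (Q.sys N).MX) {ν : (Q.sys N).TY} (hν : ν ∈ (Q.sys N).MY) {i : ℕ} (hi : i < Q.k) :
    (Q.sys N).oX N F c μ ν i = ∏ t ∈ SEL Q N c μ ν i, F (Q.gx N μ.2.2 i t) := by
  have hs := I1_sub hQ h c hμ hν hi
  have hlt : ∀ t ∈ SEL Q N c μ ν i, t < Q.nit N := fun t ht => mem_range.1 (hs ht)
  unfold MS.oX
  symm
  refine prod_bij (fun t ht => (⟨i * Q.nit N + t, I1_lt hi (hlt t ht)⟩ : Fin (Q.sys N).nX)) ?_ ?_ ?_ ?_
  · intro t ht
    rw [mem_filter]
    refine ⟨mem_univ _, ?_⟩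
    rw [kX_iff c μ ν hi]
    obtain ⟨d1, d2⟩ := I1_dm i (hlt t ht)
    refine ⟨d1, ?_⟩
    change (i * Q.nit N + t) % Q.nit N ∈ _
    rw [d2]
    exact ht
  · intro a _ b _ hab
    have := congrArg Fin.val hab
    simp only at this
    omega
  · intro e he
    rw [mem_filter, kX_iff c μ ν hi] at he
    refine ⟨(e : ℕ) % Q.nit N, he.2.2, ?_⟩
    ext
    change i * Q.nit N + (e : ℕ) % Q.nit N = (e : ℕ)
    rw [← he.2.1, Nat.mul_comm]
    exact Nat.div_add_mod _ _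
  · intro t ht
    unfold gx ext1
    have h1 : i * Q.nit N + t < Q.k * Q.nit N := I1_lt hi (hlt t ht)
    rw [dif_pos h1]
    rfl

theorem oY_eq (hQ : Q.Ok) (h : Q.Lg N) {M : Type*} [CommMonoid M] (F : ℕ → M) (c : (Q.sys N).Col) {μ : (Q.sys N).TX}
    (hμ : μ ∈ (Q.sys N).MX) {ν : (Q.sys N).TY} (hν : ν ∈ (Q.sys N).MY) {i : ℕ} (hi : i < Q.k) :
    (Q.sys N).oY N F c μ ν i =
      F (Q.gy N ν.2.2 i (Q.np N)) * ∏ t ∈ (SEL Q N c μ ν i).filter (fun t => t < Q.np N), F (Q.gy N ν.2.2 i t) := by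
  have hni : Q.np N ∉ (SEL Q N c μ ν i).filter (fun t => t < Q.np N) := by
    rw [mem_filter]
    rintro ⟨_, h1⟩
    exact lt_irrefl _ h1
  rw [← prod_insert (f := fun t => F (Q.gy N ν.2.2 i t)) hni]
  have hlt : ∀ t ∈ insert (Q.np N) ((SEL Q N c μ ν i).filter (fun t => t < Q.np N)), t < Q.np N + 1 := by
    intro t ht
    rw [mem_insert, mem_filter] at ht
    rcases ht with h1 | h1 <;> omega
  have hin : ∀ t < Q.np N + 1, (t ∈ insert (Q.np N) ((SEL Q N c μ ν i).filter (fun t => t < Q.np N)) ↔ t = Q.np N ∨ t ∈ SEL Q N c μ ν i) := by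
    intro t ht
    rw [mem_insert, mem_filter]
    constructor
    · rintro (h1 | h1)
      · exact Or.inl h1
      · exact Or.inr h1.1
    · rintro (h1 | h1)
      · exact Or.inl h1
      · by_cases h2 : t = Q.np N
        · exact Or.inl h2
        · exact Or.inr ⟨h1, by omega⟩
  unfold MS.oY
  symm
  refine prod_bij (fun t ht => (⟨i * (Q.np N + 1) + t, I1_lt hi (hlt t ht)⟩ : Fin (Q.sys N).nY)) ?_ ?_ ?_ ?_
  · intro t ht
    rw [mem_filter]
    refine ⟨mem_univ _, ?_⟩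
    rw [kY_iff c μ ν hi]
    obtain ⟨d1, d2⟩ := I1_dm i (hlt t ht)
    refine ⟨d1, ?_⟩
    change (i * (Q.np N + 1) + t) % (Q.np N + 1) = _ ∨ (i * (Q.np N + 1) + t) % (Q.np N + 1) ∈ _
    rw [d2]
    exact (hin t (hlt t ht)).1 ht
  · intro a _ b _ hab
    have := congrArg Fin.val hab
    simp only at this
    omega
  · intro e he
    rw [mem_filter, kY_iff c μ ν hi] at he
    refine ⟨(e : ℕ) % (Q.np N + 1), (hin _ (Nat.mod_lt _ (Nat.succ_pos _))).2 he.2.2, ?_⟩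
    ext
    change i * (Q.np N + 1) + (e : ℕ) % (Q.np N + 1) = (e : ℕ)
    rw [← he.2.1, Nat.mul_comm]
    exact Nat.div_add_mod _ _
  · intro t ht
    unfold gy ext1
    have h1 : i * (Q.np N + 1) + t < Q.k * (Q.np N + 1) := I1_lt hi (hlt t ht)
    rw [dif_pos h1]
    rfl

end MPar

end Pool.Agent.Lib.TC
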