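import Pool.Agent.Lib.MP_7b7e48_nt.BR3.D

/-!
# BR3.N: conditions on the parameters, the facts which hold for large `N` (definitions only)

`kp N = K ^ (1/100)`, so that `K = kp ^ 100`, `K ^ (1/4) = kp ^ 25` and so on.
-/

set_option autoImplicit false

open Finset

namespace Pool.Agent.Lib.TC

namespace MPar

/-- `(log N) ^ (1/100)` -/
noncomputable def kp (N : ℕ) : ℝ := (Real.log N) ^ ((1 : ℝ) / 100)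

/-- admissible parameters; `W` is the product of the primes `< p0` (or a power of it), `b i` the classes of the `β i` -/
structure Ok (Q : MPar) : Prop where
  ko : Odd Q.k
  k3 : 3 ≤ Q.k
  W0 : 0 < Q.W
  Cp : 1 ≤ Q.Cp
  e0 : 0 < Q.e1
  e1 : 80 * (Q.k + 1) * Q.e1 ≤ 1
  bc : ∀ i, (Q.b i).Coprime Q.W
  bp : Squarefree Q.W → ∀ i, ∀ p : ℕ, p.Prime → p ∣ Q.W → (Q.b i : ℤ) ≡ 1 - (-1) ^ i * p [ZMOD ((p ^ 2 : ℕ) : ℤ)]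

theorem Ok.k1 {Q : MPar} (h : Q.Ok) : 1 ≤ Q.k := by
  have := h.k3
  omega

/-- everything which holds for large `N` -/
structure Lg (Q : MPar) (N : ℕ) : Prop where
  Kk : (kp N) ^ 100 = Real.log N
  k0 : (10 : ℝ) ^ 10 * (Q.k + 1) ^ 4 ≤ kp N
  k00 : Real.exp (4 * (Q.k + 1)) ≤ kp N
  lb : (10 : ℝ) ^ 6 * (Q.k + 1) ^ 4 ≤ Q.l0 N
  lk : Q.l0 N ≤ kp N
  np1 : (Q.np N : ℝ) ≤ 11 * Real.sqrt (Q.l0 N)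
  np2 : 100 * Q.l0 N ≤ (Q.np N : ℝ) ^ 2
  np3 : (2 * Q.k + 1) * (Q.np N : ℝ) + 3 ≤ 2 / 5 * Q.l0 N
  e1 : (kp N) ^ 25 ≤ Real.exp (j1 N) ∧ Real.exp (j1 N) ≤ 3 * (kp N) ^ 25
  e2 : (kp N) ^ 50 ≤ 3 * Real.exp (j2 N) ∧ Real.exp (j2 N) ≤ (kp N) ^ 50
  e3 : 2 * Q.l0 N ≤ Real.exp (Q.j3 N) ∧ Real.exp (Q.j3 N) ≤ 6 * Q.l0 N
  e4 : (kp N) ^ 75 ≤ Real.exp (j4 N) ∧ Real.exp (j4 N) ≤ 3 * (kp N) ^ 75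
  e5 : (kp N) ^ 70 ≤ Real.exp (j5 N) ∧ Real.exp (j5 N) ≤ 3 * (kp N) ^ 70
  j12 : j1 N < j2 N
  j25 : j2 N < j5 N
  j34 : Q.j3 N < j4 N
  cnt : 2 * ((Q.k : ℝ) + 1) + 2 * Q.n0 N + 2 * (Q.k * (Q.nit N : ℝ)) + 2 * (Q.k * ((Q.np N : ℝ) + 1)) ≤ kp N
  ppd : (5 * Q.l0 N) ^ (Q.k * Q.np N) ≤ Real.log N
  win : Real.exp ((kp N) ^ 90) ≤ ⌊(N : ℝ) ^ Q.e1⌋₊
  win2 : (16 : ℝ) ^ (Q.k + 2) * Real.exp ((kp N) ^ 90) ≤ (N : ℝ) ^ Q.e1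
  pcm : ∀ g : ℕ, 2 * Q.l0 N ≤ Real.exp ((g : ℝ) / Q.G) → Real.exp (((g : ℝ) + 1) / Q.G) ≤ (kp N) ^ 80 →
    1 / (1.1 * Q.G) ≤ ∑ p ∈ Q.pc N g, 1 / (p : ℝ)
  prm : ∀ s : ℝ, Q.l0 N ≤ s → s ≤ 2 * Q.l0 N →
    1 / (5 * Q.l0 N) ≤ ∑ p ∈ (Pool.Agent.Lib.OW.PR s (s + 1)).filter (fun p => ¬ p ∣ N), 1 / (p : ℝ)
  wxm : ∀ i ≤ Q.k, 2 / (Real.log N) ^ 2 ≤ ∑ p ∈ Q.WXs N i, 1 / (p : ℝ)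
  wym : ∀ i ≤ Q.k, 2 / (Real.log N) ^ 2 ≤ ∑ p ∈ Q.WYs N i, 1 / (p : ℝ)
  mup : ∀ s t : ℝ, Q.l0 N ≤ s → s ≤ t → ∑ p ∈ Pool.Agent.Lib.OW.PR s t, 1 / (p : ℝ) ≤ Real.log (t / s) + 1 / 10
  mer : ∑ p ∈ Pool.Agent.Lib.OW.PR 0 ((kp N) ^ 80), 1 / (p : ℝ) ≤ 90 * Real.log (kp N)

end MPar

end Pool.Agent.Lib.TC
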