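import Pool.Agent.Lib.MP_7b7e48_nt.TC.POK

/-!
# BR3.P0 (60 minutes): classes modulo a product of prime powers

For a finite set `P` of primes and exponents `ex p ≥ 1`, `q = ∏_{p ∈ P} p ^ ex p`, and units `u p` modulo `p ^ ex p` there is `a` coprime to `q` such that for every `l` coprime to `q`:
`(∀ p ∈ P, toU (p ^ ex p) l = u p) ↔ l ≡ a [MOD q]` (`Nat.chineseRemainderOfFinset`, `ZMod.unitOfCoprime`, `Units.ext`, `ZMod.natCast_eq_natCast_iff`), and `φ(q) = Nat.card (∀ p : P, (ZMod (p ^ ex p))ˣ)`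
(`Nat.totient` multiplicative over coprime factors, `ZMod.card_units_eq_totient`, `Nat.card_pi`; `Finset.prod_coe_sort`).
-/

set_option autoImplicit false

open Finset Filter

namespace Pool.Agent.Lib.TC

private theorem P0_pw (P : Finset ℕ) (hP : ∀ p ∈ P, p.Prime) (ex : ℕ → ℕ) {p r : ℕ} (hp : p ∈ P) (hr : r ∈ P) (h : p ≠ r) :
    (p ^ ex p).Coprime (r ^ ex r) :=
  Nat.Coprime.pow _ _ ((Nat.coprime_primes (hP p hp) (hP r hr)).2 h)

private theorem P0_tot (P : Finset ℕ) (hP : ∀ p ∈ P, p.Prime) (ex : ℕ → ℕ) :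
    ∏ p ∈ P, (p ^ ex p).totient = (∏ p ∈ P, p ^ ex p).totient := by
  classical
  induction P using Finset.induction_on with
  | empty => simp
  | insert a s ha ih =>
    rw [prod_insert ha, prod_insert ha, ih fun p hp => hP p (mem_insert_of_mem hp), Nat.totient_mul]
    refine Nat.Coprime.prod_right fun r hr => ?_
    exact P0_pw (insert a s) hP ex (mem_insert_self a s) (mem_insert_of_mem hr) fun h => ha (h ▸ hr)

theorem crt_cls (P : Finset ℕ) (hP : ∀ p ∈ P, p.Prime) (ex : ℕ → ℕ) (hex : ∀ p ∈ P, 1 ≤ ex p) (u : ∀ p : P, (ZMod ((p : ℕ) ^ ex p))ˣ) :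
    (∃ a : ℕ, a.Coprime (∏ p ∈ P, p ^ ex p) ∧ ∀ l : ℕ, l.Coprime (∏ p ∈ P, p ^ ex p) →
      ((∀ p : P, toU ((p : ℕ) ^ ex p) l = u p) ↔ l ≡ a [MOD ∏ p ∈ P, p ^ ex p])) ∧
    (Nat.card (∀ p : P, (ZMod ((p : ℕ) ^ ex p))ˣ) : ℕ) = (∏ p ∈ P, p ^ ex p).totient := by
  classical
  have hne : ∀ p ∈ P, p ^ ex p ≠ 0 := fun p hp => pow_ne_zero _ (hP p hp).ne_zero
  have hpw : Set.Pairwise (P : Set ℕ) (Function.onFun Nat.Coprime fun p => p ^ ex p) := by
    intro p hp r hr h
    exact P0_pw P hP ex hp hr h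
  have hz : ∀ p : P, NeZero ((p : ℕ) ^ ex p) := fun p => ⟨hne p p.2⟩
  constructor
  · obtain ⟨k, hk⟩ := Nat.chineseRemainderOfFinset
      (fun p : ℕ => if h : p ∈ P then ((u ⟨p, h⟩ : (ZMod (p ^ ex p))ˣ) : ZMod (p ^ ex p)).val else 0)
      (fun p => p ^ ex p) P hne hpw
    have hku : ∀ p : P, ((k : ℕ) : ZMod ((p : ℕ) ^ ex p)) = (u p : ZMod ((p : ℕ) ^ ex p)) := by
      intro p
      haveI := hz p
      have h1 := hk p p.2
      rw [dif_pos p.2] at h1
      have h2 := (ZMod.natCast_eq_natCast_iff _ _ _).2 h1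
      rw [h2]
      exact ZMod.natCast_zmod_val _
    refine ⟨k, ?_, ?_⟩
    · refine Nat.Coprime.prod_right fun p hp => ?_
      rw [← ZMod.isUnit_iff_coprime, hku ⟨p, hp⟩]
      exact Units.isUnit _
    · intro l hl
      have hlp : ∀ p : P, l.Coprime ((p : ℕ) ^ ex p) := fun p =>
        Nat.Coprime.coprime_dvd_right (dvd_prod_of_mem (fun p => p ^ ex p) p.2) hl
      have h1 : ∀ p : P, toU ((p : ℕ) ^ ex p) l = u p ↔ l ≡ k [MOD (p : ℕ) ^ ex p] := by
        intro p
        have h2 : toU ((p : ℕ) ^ ex p) l = ZMod.unitOfCoprime l (hlp p) := by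
          unfold toU
          rw [dif_pos (hlp p)]
        rw [h2, ← ZMod.natCast_eq_natCast_iff, hku p]
        constructor
        · intro h
          rw [← h, ZMod.coe_unitOfCoprime]
        · intro h
          apply Units.ext
          rw [ZMod.coe_unitOfCoprime, h]
      rw [forall_congr' h1]
      constructor
      · intro h
        rw [Nat.modEq_iff_dvd]
        push_cast
        refine Finset.prod_dvd_of_coprime ?_ ?_
        · intro p hp r hr hpr
          have h3 := P0_pw P hP ex hp hr hpr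
          have h4 := Nat.isCoprime_iff_coprime.2 h3
          push_cast at h4
          exact h4
        · intro p hp
          have h3 := (Nat.modEq_iff_dvd).1 (h ⟨p, hp⟩)
          push_cast at h3
          exact h3
      · intro h p
        exact h.of_dvd (dvd_prod_of_mem (fun p => p ^ ex p) p.2)
  · rw [Nat.card_pi, ← P0_tot P hP ex, ← Finset.prod_coe_sort P (fun p => (p ^ ex p).totient)]
    refine Finset.prod_congr rfl fun p _ => ?_
    haveI := hz p
    rw [Nat.card_eq_fintype_card, ZMod.card_units_eq_totient]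

end Pool.Agent.Lib.TC
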