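import Pool.Agent.Lib.MP_7b7e48_nt.OW.MTP

/-!
# BR3.P1 (90 minutes): the primes of short intervals in residue classes, weights `1/p`

PROOF of `ap_err`. Let `c_n = log n ([n ≡ a mod q] - 1/φ(q))` for primes `n`, `0` otherwise, and `f x = 1 / (x log x)`, positive and decreasing for `x > 1`. By
`OW.theta_int (k + 1)` for `(q, a)` and for `(1, 0)`: for all `s ≤ u ≤ t`: `|∑_{n ∈ PR s u} c_n| ≤ 2 C q exp u / s ^ (k+1)`. Abel's inequality (`f` decreasing, `≥ 0`, all partial sums bounded
by `E`: `|∑ f c| ≤ f (first) E`; by parts: `∑ f_n c_n = f_last S_last + ∑ (f_n - f_(n+1)) S_n`) gives `|∑ f(p) c_p| ≤ f (exp s) 2 C q exp t / s ^ (k+1) ≤ 2 e C q / s ^ (k+2)`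
(`t ≤ s + 1`, `f (exp s) = 1 / (s exp s)`), and `f(p) c_p = ([p ≡ a] - 1/φ(q)) / p`.
PROOF of `ap_lo`. `theta_int (k + 1)` for `(1, 0)`: `∑ log p ≥ exp t - exp s - C exp t / s ^ (k+1) ≥ (t - s) exp s - 3 C exp s / s ^ (k + 1) ≥ (t - s) exp s / 2` for `s ≥ s0 ≥ 6 C`, as
`t - s ≥ 1 / s ^ k`; and `1/p ≥ log p / (t exp t) ≥ log p / (2 s 3 exp s)`; `1/12 ≥ 1/20`.
-/

set_option autoImplicit false

open Finset

namespace Pool.Agent.Lib.TC

open Pool.Agent.Lib.OW (PR)

/-- Abel's inequality -/
private theorem P1_abel (A : ℕ) (f c : ℕ → ℝ) (E : ℝ) (B : ℕ) (hAB : A + 1 ≤ B)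
    (hf : ∀ n, A + 1 ≤ n → f (n + 1) ≤ f n)
    (hS : ∀ n, A + 1 ≤ n → n ≤ B → |∑ i ∈ Ioc A n, c i| ≤ E) :
    |∑ i ∈ Ioc A B, f i * c i - f B * ∑ i ∈ Ioc A B, c i| ≤ (f (A + 1) - f B) * E := by
  induction B, hAB using Nat.le_induction with
  | base =>
    have h1 : Ioc A (A + 1) = {A + 1} := by
      ext n
      rw [mem_Ioc, mem_singleton]
      omega
    rw [h1, sum_singleton, sum_singleton, sub_self, sub_self, abs_zero, zero_mul]
  | succ B hB ih =>
    have h1 : Ioc A (B + 1) = insert (B + 1) (Ioc A B) := by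
      ext n
      rw [mem_insert, mem_Ioc, mem_Ioc]
      omega
    have h2 : B + 1 ∉ Ioc A B := by
      rw [mem_Ioc]
      omega
    have ih' := ih fun n hn hn2 => hS n hn (hn2.trans (Nat.le_succ B))
    rw [h1, sum_insert h2, sum_insert h2]
    have e1 : f (B + 1) * c (B + 1) + ∑ i ∈ Ioc A B, f i * c i -
        f (B + 1) * (c (B + 1) + ∑ i ∈ Ioc A B, c i) =
        (∑ i ∈ Ioc A B, f i * c i - f B * ∑ i ∈ Ioc A B, c i) +
          (f B - f (B + 1)) * ∑ i ∈ Ioc A B, c i := by ring
    rw [e1]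
    refine (abs_add_le _ _).trans ?_
    have h3 : 0 ≤ f B - f (B + 1) := by linarith [hf B hB]
    rw [abs_mul, abs_of_nonneg h3]
    have h4 := mul_le_mul_of_nonneg_left (hS B hB (Nat.le_succ B)) h3
    linarith

theorem ap_err (k : ℕ) : ∃ C : ℝ, 1 ≤ C ∧ ∀ q a : ℕ, 1 ≤ q → a.Coprime q → ∀ s t : ℝ, 1 ≤ s → s ≤ t → t ≤ s + 1 →
    |∑ p ∈ (PR s t).filter (fun p => p ≡ a [MOD q]), 1 / (p : ℝ) - (∑ p ∈ PR s t, 1 / (p : ℝ)) / (q.totient : ℝ)| ≤ C * q / s ^ k := by
  classical
  obtain ⟨C, hC, h⟩ := Pool.Agent.Lib.OW.theta_int (k + 1)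
  refine ⟨6 * C, by linarith, ?_⟩
  intro q a hq ha s t hs hst ht
  have hq1 : (1 : ℝ) ≤ q := by exact_mod_cast hq
  have hφ : (0 : ℝ) < q.totient := by exact_mod_cast Nat.totient_pos.mpr hq
  have hφ1 : (1 : ℝ) ≤ q.totient := by exact_mod_cast Nat.totient_pos.mpr hq
  have hs0 : 0 < s := by linarith
  have hes := Real.exp_pos s
  have het := Real.exp_pos t
  have hest : Real.exp s ≤ Real.exp t := Real.exp_le_exp.mpr hst
  have he2 : (2 : ℝ) ≤ Real.exp s := by
    have := Real.add_one_le_exp s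
    linarith
  have he3 : Real.exp t ≤ 3 * Real.exp s := by
    have h1 : Real.exp t ≤ Real.exp (1 + s) := Real.exp_le_exp.mpr (by linarith)
    rw [Real.exp_add] at h1
    have h2 := Real.exp_one_lt_d9
    have h3 := mul_le_mul_of_nonneg_right h2.le hes.le
    linarith
  set A : ℕ := ⌊Real.exp s⌋₊ with hA
  set B : ℕ := ⌊Real.exp t⌋₊ with hB
  have hA2 : 2 ≤ A := Nat.le_floor (by exact_mod_cast he2)
  have hAr : Real.exp s < (A : ℝ) + 1 := Nat.lt_floor_add_one _
  have hRHS : 0 ≤ 6 * C * q / s ^ k := by positivity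
  set f : ℕ → ℝ := fun n => 1 / ((n : ℝ) * Real.log n) with hf
  set c : ℕ → ℝ := fun n => if n.Prime then
    Real.log n * ((if n ≡ a [MOD q] then (1 : ℝ) else 0) - 1 / q.totient) else 0 with hc
  -- the sum
  have hsum : ∑ p ∈ (PR s t).filter (fun p => p ≡ a [MOD q]), 1 / (p : ℝ) -
      (∑ p ∈ PR s t, 1 / (p : ℝ)) / (q.totient : ℝ) = ∑ n ∈ Ioc A B, f n * c n := by
    have h1 : ∑ n ∈ Ioc A B, f n * c n = ∑ p ∈ PR s t, (1 / (p : ℝ)) *
        ((if p ≡ a [MOD q] then (1 : ℝ) else 0) - 1 / q.totient) := by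
      unfold Pool.Agent.Lib.OW.PR
      rw [sum_filter]
      refine sum_congr rfl fun n hn => ?_
      simp only [hf, hc]
      by_cases hp : n.Prime
      · rw [if_pos hp, if_pos hp]
        have hn1 : (1 : ℝ) < n := by exact_mod_cast hp.one_lt
        have hlog : Real.log n ≠ 0 := (Real.log_pos hn1).ne'
        have hn0 : (n : ℝ) ≠ 0 := by positivity
        field_simp
      · rw [if_neg hp, if_neg hp, mul_zero]
    rw [h1, sum_filter, sum_div, ← sum_sub_distrib]
    refine sum_congr rfl fun p _ => ?_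
    split_ifs <;> ring
  rw [hsum]
  rcases Nat.lt_or_ge A B with hAB | hAB
  · -- partial sums
    set E : ℝ := 2 * C * q * Real.exp t / s ^ (k + 1) with hE
    have hE0 : 0 ≤ E := by positivity
    have hS : ∀ n, A + 1 ≤ n → n ≤ B → |∑ i ∈ Ioc A n, c i| ≤ E := by
      intro n hn1 hn2
      have hnr : Real.exp s < n := hAr.trans_le (by exact_mod_cast hn1)
      have hn0 : (0 : ℝ) < n := hes.trans hnr
      have hnt : (n : ℝ) ≤ Real.exp t := (Nat.le_floor_iff het.le).1 hn2
      have hu1 : s ≤ Real.log n := (Real.le_log_iff_exp_le hn0).2 hnr.le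
      have h1 := h q a hq ha s (Real.log n) hs hu1
      have h2 := h 1 0 le_rfl (Nat.coprime_one_right 0) s (Real.log n) hs hu1
      rw [Real.exp_log hn0] at h1 h2
      have hPR : PR s (Real.log n) = (Ioc A n).filter Nat.Prime := by
        unfold Pool.Agent.Lib.OW.PR
        rw [Real.exp_log hn0, Nat.floor_natCast]
      have h3 : (PR s (Real.log n)).filter (fun p => p ≡ 0 [MOD 1]) = PR s (Real.log n) :=
        filter_true_of_mem fun p _ => Nat.modEq_one
      rw [h3, Nat.totient_one, Nat.cast_one, div_one, mul_one] at h2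
      have e1 : ∑ i ∈ Ioc A n, c i =
          ∑ p ∈ (PR s (Real.log n)).filter (fun p => p ≡ a [MOD q]), Real.log p -
            (∑ p ∈ PR s (Real.log n), Real.log p) / q.totient := by
        rw [hPR]
        have e2 : ∑ i ∈ Ioc A n, c i = ∑ p ∈ (Ioc A n).filter Nat.Prime,
            Real.log p * ((if p ≡ a [MOD q] then (1 : ℝ) else 0) - 1 / q.totient) := by
          rw [sum_filter]
        rw [e2, sum_filter (fun x : ℕ => x ≡ a [MOD q]) _, sum_div, ← sum_sub_distrib]
        refine sum_congr rfl fun p _ => ?_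
        split_ifs <;> ring
      rw [e1]
      set θa := ∑ p ∈ (PR s (Real.log n)).filter (fun p => p ≡ a [MOD q]), Real.log p
      set θ := ∑ p ∈ PR s (Real.log n), Real.log p
      have hd0 : 0 ≤ C * (n : ℝ) / s ^ (k + 1) := by positivity
      have h4 : |(θ - ((n : ℝ) - Real.exp s)) / q.totient| ≤ C * n / s ^ (k + 1) := by
        rw [abs_div, abs_of_pos hφ]
        exact (div_le_self (abs_nonneg _) hφ1).trans h2
      have e3 : θa - θ / q.totient = (θa - ((n : ℝ) - Real.exp s) / q.totient) -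
          (θ - ((n : ℝ) - Real.exp s)) / q.totient := by ring
      rw [e3]
      refine (abs_sub _ _).trans ?_
      have h5 : C * q * n / s ^ (k + 1) + C * n / s ^ (k + 1) ≤ E := by
        rw [hE, ← add_div]
        apply div_le_div_of_nonneg_right _ (by positivity)
        have h6 : C * n ≤ C * q * Real.exp t := by
          calc C * (n : ℝ) ≤ C * (q * Real.exp t) := by
                apply mul_le_mul_of_nonneg_left _ (by linarith)
                calc (n : ℝ) ≤ Real.exp t := hnt
                  _ ≤ q * Real.exp t := le_mul_of_one_le_left het.le hq1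
            _ = _ := by ring
        have h7 : C * q * n ≤ C * q * Real.exp t := mul_le_mul_of_nonneg_left hnt (by positivity)
        linarith
      linarith
    have hfanti : ∀ n, A + 1 ≤ n → f (n + 1) ≤ f n := by
      intro n hn
      simp only [hf]
      have hn3 : (3 : ℝ) ≤ n := by
        have : 3 ≤ n := by omega
        exact_mod_cast this
      have hln : 0 < Real.log n := Real.log_pos (by linarith)
      apply one_div_le_one_div_of_le (by positivity)
      push_cast
      exact mul_le_mul (by linarith) (Real.log_le_log (by linarith) (by linarith)) hln.le (by linarith)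
    have hab := P1_abel A f c E B hAB hfanti hS
    have hSB := hS B hAB le_rfl
    have hfB : 0 ≤ f B := by
      simp only [hf]
      have : 0 ≤ Real.log B := Real.log_natCast_nonneg B
      positivity
    have h1 : |∑ n ∈ Ioc A B, f n * c n| ≤ f (A + 1) * E := by
      have e1 : ∑ n ∈ Ioc A B, f n * c n = (∑ i ∈ Ioc A B, f i * c i - f B * ∑ i ∈ Ioc A B, c i) +
          f B * ∑ i ∈ Ioc A B, c i := by ring
      rw [e1]
      refine (abs_add_le _ _).trans ?_
      rw [abs_mul, abs_of_nonneg hfB]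
      have := mul_le_mul_of_nonneg_left hSB hfB
      linarith
    refine h1.trans ?_
    have hlogA : s ≤ Real.log ((A : ℝ) + 1) := (Real.le_log_iff_exp_le (by linarith)).2 hAr.le
    have hfA : f (A + 1) ≤ 1 / (Real.exp s * s) := by
      simp only [hf]
      push_cast
      apply one_div_le_one_div_of_le (by positivity)
      exact mul_le_mul hAr.le hlogA hs0.le (by linarith)
    calc f (A + 1) * E ≤ 1 / (Real.exp s * s) * E := mul_le_mul_of_nonneg_right hfA hE0
      _ ≤ 1 / (Real.exp s * s) * (2 * C * q * (3 * Real.exp s) / s ^ (k + 1)) := by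
          apply mul_le_mul_of_nonneg_left _ (by positivity)
          rw [hE]
          apply div_le_div_of_nonneg_right _ (by positivity)
          exact mul_le_mul_of_nonneg_left he3 (by positivity)
      _ = 6 * C * q / s ^ k / (s * s) := by
          field_simp
          ring
      _ ≤ 6 * C * q / s ^ k := div_le_self hRHS (by nlinarith)
  · rw [Ioc_eq_empty (by omega), sum_empty, abs_zero]
    exact hRHS

theorem ap_lo (k : ℕ) : ∃ s0 : ℝ, 1 ≤ s0 ∧ ∀ s t : ℝ, s0 ≤ s → s + 1 / s ^ k ≤ t → t ≤ s + 1 →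
    (t - s) / (20 * s) ≤ ∑ p ∈ PR s t, 1 / (p : ℝ) := by
  classical
  obtain ⟨C, hC, h⟩ := Pool.Agent.Lib.OW.theta_int (k + 1)
  refine ⟨6 * C, by linarith, ?_⟩
  intro s t hs hst ht
  have hs1 : 1 ≤ s := by linarith
  have hs0 : 0 < s := by linarith
  have hik : 0 < 1 / s ^ k := by positivity
  have hst' : s ≤ t := by linarith
  have ht0 : 0 < t := by linarith
  have hes := Real.exp_pos s
  have het := Real.exp_pos t
  have he3 : Real.exp t ≤ 3 * Real.exp s := by
    have h1 : Real.exp t ≤ Real.exp (1 + s) := Real.exp_le_exp.mpr (by linarith)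
    rw [Real.exp_add] at h1
    have h2 := Real.exp_one_lt_d9
    have h3 := mul_le_mul_of_nonneg_right h2.le hes.le
    linarith
  have h2 := h 1 0 le_rfl (Nat.coprime_one_right 0) s t hs1 hst'
  have h3 : (PR s t).filter (fun p => p ≡ 0 [MOD 1]) = PR s t :=
    filter_true_of_mem fun p _ => Nat.modEq_one
  rw [h3, Nat.totient_one, Nat.cast_one, div_one, mul_one] at h2
  set θ := ∑ p ∈ PR s t, Real.log p with hθ
  have h4 := (abs_le.1 h2).1
  have h5 : (t - s) * Real.exp s ≤ Real.exp t - Real.exp s := by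
    have h6 := Real.add_one_le_exp (t - s)
    have h7 : Real.exp t = Real.exp s * Real.exp (t - s) := by
      rw [← Real.exp_add]
      congr 1
      ring
    rw [h7]
    have := mul_le_mul_of_nonneg_left h6 hes.le
    linarith
  have h6 : C * Real.exp t / s ^ (k + 1) ≤ (t - s) * Real.exp s / 2 := by
    have e1 : C * (3 * Real.exp s) / s ^ (k + 1) = (3 * C / s) * (1 / s ^ k) * Real.exp s := by
      rw [pow_succ]
      field_simp
    calc C * Real.exp t / s ^ (k + 1) ≤ C * (3 * Real.exp s) / s ^ (k + 1) := by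
          apply div_le_div_of_nonneg_right _ (by positivity)
          exact mul_le_mul_of_nonneg_left he3 (by linarith)
      _ = (3 * C / s) * (1 / s ^ k) * Real.exp s := e1
      _ ≤ (1 / 2) * (t - s) * Real.exp s := by
          apply mul_le_mul_of_nonneg_right _ hes.le
          apply mul_le_mul _ (by linarith) hik.le (by norm_num)
          rw [div_le_iff₀ hs0]
          linarith
      _ = _ := by ring
  have h7 : (t - s) * Real.exp s / 2 ≤ θ := by linarith
  have h8 : θ / (t * Real.exp t) ≤ ∑ p ∈ PR s t, 1 / (p : ℝ) := by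
    rw [hθ, sum_div]
    refine sum_le_sum fun p hp => ?_
    obtain ⟨hpp, hp1, hp2⟩ := Pool.Agent.Lib.OW.mem_PR.1 hp
    have hp0 : (0 : ℝ) < p := by exact_mod_cast hpp.pos
    have hlogt : Real.log p ≤ t := (Real.log_le_iff_le_exp hp0).2 hp2
    rw [div_le_div_iff₀ (by positivity) hp0, one_mul]
    exact mul_le_mul hlogt hp2 hp0.le ht0.le
  refine le_trans ?_ h8
  have h9 : t * Real.exp t ≤ 6 * s * Real.exp s := by
    calc t * Real.exp t ≤ (2 * s) * (3 * Real.exp s) :=
          mul_le_mul (by linarith) he3 het.le (by linarith)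
      _ = _ := by ring
  rw [div_le_div_iff₀ (by positivity) (by positivity)]
  have hts : 0 ≤ t - s := by linarith
  calc (t - s) * (t * Real.exp t) ≤ (t - s) * (6 * s * Real.exp s) :=
        mul_le_mul_of_nonneg_left h9 hts
    _ ≤ ((t - s) * Real.exp s / 2) * (20 * s) := by
        have : 0 ≤ (t - s) * s * Real.exp s := by positivity
        linarith
    _ ≤ θ * (20 * s) := mul_le_mul_of_nonneg_right h7 (by positivity)

end Pool.Agent.Lib.TC
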