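import Pool.Agent.Lib.MP_7b7e48_nt.BR3.DT
import Pool.Agent.Lib.MP_7b7e48_nt.BR3.WC
import Pool.Agent.Lib.MP_7b7e48_nt.BR3.AN
import Pool.Agent.Lib.MP_7b7e48_nt.TC.QF

/-!
# BR3.PD: the hypotheses of the pair lemma for the concrete system
-/

set_option autoImplicit false

open Finset Filter

namespace Pool.Agent.Lib.TC

open Pool.Agent.Lib.RH (Prm MM JJ)

namespace MPar

private theorem PD_exp : ∀ᶠ N : ℕ in atTop, Real.exp ((kp N) ^ 80) ≤ Real.exp (Real.log N / (Real.log (Real.log N)) ^ 2) := by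
  have h1 : Tendsto (fun N : ℕ => kp N) atTop atTop :=
    (tendsto_rpow_atTop (by norm_num : (0 : ℝ) < 1 / 100)).comp (Real.tendsto_log_atTop.comp tendsto_natCast_atTop_atTop)
  have h2 : ∀ᶠ x : ℝ in atTop, (100 * Real.log x) ^ 2 ≤ x := by
    have h3 := (isLittleO_log_rpow_rpow_atTop 2 (by norm_num : (0 : ℝ) < 1)).bound (show (0 : ℝ) < 1 / 10000 by norm_num)
    filter_upwards [h3, eventually_ge_atTop 1] with x h4 hx
    have h5 : 0 ≤ Real.log x := Real.log_nonneg hx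
    rw [Real.norm_of_nonneg (Real.rpow_nonneg h5 _), Real.norm_of_nonneg (Real.rpow_nonneg (by linarith) _), Real.rpow_one] at h4
    have h6 : Real.log x ^ (2 : ℝ) = Real.log x ^ 2 := by
      rw [← Real.rpow_natCast]; norm_num
    rw [h6] at h4
    nlinarith
  filter_upwards [h1.eventually h2, h1.eventually_ge_atTop 1, h1.eventually_gt_atTop 1, eventually_ge_atTop 1] with N h3 h4 h5 hN
  apply Real.exp_le_exp.2
  have hN1 : (1 : ℝ) ≤ N := by exact_mod_cast hN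
  have hK : (kp N) ^ 100 = Real.log N := by
    unfold kp
    rw [← Real.rpow_natCast, ← Real.rpow_mul (Real.log_nonneg hN1)]
    norm_num
  rw [← hK, Real.log_pow]
  push_cast
  have h6 : 0 < 100 * Real.log (kp N) := by
    have := Real.log_pos h5
    positivity
  rw [le_div_iff₀ (by positivity)]
  have h7 : (kp N) ^ 80 * (100 * Real.log (kp N)) ^ 2 ≤ (kp N) ^ 80 * kp N := mul_le_mul_of_nonneg_left h3 (by positivity)
  refine h7.trans ?_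
  rw [← pow_succ]
  exact pow_le_pow_right₀ h4 (by norm_num)

/-- **the hypotheses of the pair lemma** -/
theorem ev_PD {P : Prm} (hP : P.Ok) (B : ℕ) : ∃ k0 : ℕ, ∀ (Q : MPar) (p0 : ℕ), Q.Ok → k0 ≤ Q.k → 4 * (B + 12) ≤ Q.k + 1 →
    Q.Cf + 2 * (Q.k + 1) + 2 * P.C1 + 7012 ≤ Q.Cp → (∀ p : ℕ, p.Prime → (p ∣ Q.W ↔ p < p0)) → Squarefree Q.W →
    64 * (Q.k + 1) ^ 2 ≤ p0 → ∀ (A B' : ℕ) (δ1 δz : ℝ), 8 * ((Q.k : ℝ) + 1) * Q.e1 ≤ δ1 / 8 → ∀ᶠ N : ℕ in atTop, Q.Lg N → Even N →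
    ∀ z D : ℕ, Real.exp (Real.log N / (Real.log (Real.log N)) ^ 2) ≤ z → (z : ℝ) ≤ (N : ℝ) ^ δz → z ^ 2 ≤ Q.Z N 0 →
    0 < D → Q.W ^ 2 ∣ D → D ≤ Q.W ^ 2 * J1 P Q N →
    ∃ p1 : ℕ, PD Q.k B (Q.Cf + 2 * (Q.k + 1) + 2 * P.C1 + 7011) Q.Cp Q.Cf A B' Q.W (2 * (Q.W : ℝ) ^ 2) δ1 δz (Q.sys N) (dat P Q p0 N z D) Q.W
      (fun i => Q.Z N i) p1 ⌊(Real.log N) ^ (A + 1)⌋₊ ⌈Real.log N⌉₊ (1 / (Real.log N) ^ B') := by
  obtain ⟨k0, hk0⟩ := ev_cc1 hP (B + 10)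
  refine ⟨k0, fun Q p0 hQ hk hkB hCp hW hsq hp0 A B' δ1 δz hδ => ?_⟩
  have hC1 := hP.C1
  filter_upwards [hk0 Q hQ hk, PD_exp, ev_dat hP hQ p0 (by omega) hW hsq, ev_D hP hQ hCp, ev_an hQ (A + 1) B', ev_J1 hP hQ]
    with N h1 h2 h3 h4 h5 h6 h hev z D hz1 hz2 hz3 hD hWD hDJ
  have hK := h.K1
  have hK1 : 1 ≤ Real.log N := by linarith
  have hN1 : (1 : ℝ) ≤ N := by
    have := h.N1
    exact_mod_cast (by omega : 1 ≤ N)
  obtain ⟨y1, y2, y3⟩ := y0_bd hQ h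
  have hDy : D ≤ Q.y0 N := hDJ.trans (h4 h)
  have hz0 : Real.exp ((kp N) ^ 80) ≤ z := h2.trans hz1
  obtain ⟨p1, hp1, hA⟩ := h5 h (dat P Q p0 N z D) rfl rfl
  have hcc := cc_lo hQ h
  refine ⟨p1, ?_⟩
  refine ⟨h3 h hev z D hz0 hD hWD hDy, ms_ok hQ hsq h _ rfl rfl hz0 hz3 hp0, hA, rfl, le_rfl, ?_, y2, y1, hz1, hz2, hp1, ?_, le_rfl, ?_, ?_, ?_, ?_,
    prX_lo hQ h, prY_lo hQ h, Nat.le_ceil _⟩
  · refine le_trans ?_ h6
    exact_mod_cast hDJ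
  · change (Real.log N) ^ A ≤ (⌊(Real.log N) ^ (A + 1)⌋₊ : ℝ)
    have h7 := Nat.lt_floor_add_one ((Real.log N) ^ (A + 1))
    have h8 : (1 : ℝ) ≤ (Real.log N) ^ A := one_le_pow₀ hK1
    rw [pow_succ] at h7 ⊢
    nlinarith
  · refine le_trans ?_ (h1 h D hDJ)
    change (D : ℝ) * (Real.log N) ^ (5 * (Q.k + 1) + B + 10) ≤ D * (Real.log N) ^ (18 * (Q.k + 1) + (B + 10))
    refine mul_le_mul_of_nonneg_left ?_ (Nat.cast_nonneg _)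
    exact pow_le_pow_right₀ hK1 (by omega)
  · change ((Q.k + 1 : ℕ) : ℝ) ^ (2 * Q.n0 N) ≤ 2 * ((Q.sys N).CC.card : ℝ)
    push_cast
    linarith
  · exact cc3 hQ h hkB
  · refine (card_xy hQ h).trans ?_
    exact Real.rpow_le_rpow_of_exponent_le hN1 hδ

end MPar

end Pool.Agent.Lib.TC
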