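import Pool.Agent.Lib.MP_7b7e48_nt.BR3.L

/-!
# BR3.R (90 minutes): the density of the family of `X`

`L = log K`, `K = log N`. `Cf = ⌈(la/4 + 5 k) log (1.1 G)⌉ + 2 (k + 1) + 2`.
`rho (famX S) = ∏ over all sets of ∑ 1/p = (∏_{i ≤ k} WX) (∏_f FX) (∏_e OX)` (`famX`, `Fin.prod_univ_add`, `Fin.append_left`, `Fin.append_right`).
`∏_i ≥ (2 / K^2) ^ (k+1) ≥ K ^ (- 2 (k+1))` (`wxm`). `∏_f ≥ (1.1 G) ^ (- n0)` (`mFX`), `n0 = la (j2 - j1) ≤ la L / 4` (`j2 ≤ L/2`, `j1 ≥ L/4`). `∏_e`: every factor (number `e`, `i = e / nit`, `t = e % nit`) is `≥ 1/(5 l0)` if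
`t < np` (`mPX`) and `≥ 1/(1.1 G)` otherwise (`mRS`); the number of the `e < k nit` with `e % nit < np` is `k np`, of the others `k nr`. `(5 l0) ^ (k np) ≤ K` (`ppd`);
`k nr = 6 k (j4 - j3) ≤ 6 k (3 L / 4)` (`j4 ≤ 3L/4 + 1`, `j3 ≥ log (2 l0) ≥ 1`). Altogether
`rho ≥ K ^ (-2 (k+1) - 1) (1.1 G) ^ (- (la/4 + 4.5 k) L)` and `(1.1 G) ^ (x L) = exp (x L log (1.1 G)) = K ^ (x log (1.1 G))`.
-/

set_option autoImplicit false

open Finset

namespace Pool.Agent.Lib.TC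

open Pool.Agent.Lib.TCB (famX famY)
open Pool.Agent.Lib.TCF (rho)

namespace MPar

variable {Q : MPar} {N : ℕ}

/-- exponent of the density of the families -/
noncomputable def Cf (Q : MPar) : ℕ := ⌈((Q.la : ℝ) / 4 + 5 * Q.k) * Real.log (1.1 * Q.G)⌉₊ + 2 * (Q.k + 1) + 2

theorem R_rhoX (S : MS) : rho (famX S) = (∏ i, ∑ p ∈ S.WX i, 1 / (p : ℝ)) * (∏ f, ∑ p ∈ S.FX f, 1 / (p : ℝ)) *
    ∏ e, ∑ p ∈ S.OX e, 1 / (p : ℝ) := by
  unfold rho famX
  rw [Fin.prod_univ_add (fun c => ∑ p ∈ Fin.append (Fin.append S.WX S.FX) S.OX c, 1 / (p : ℝ))]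
  congr 1
  · rw [Fin.prod_univ_add (fun c => ∑ p ∈ Fin.append (Fin.append S.WX S.FX) S.OX (Fin.castAdd _ c), 1 / (p : ℝ))]
    congr 1
    · refine prod_congr rfl fun c _ => ?_
      rw [Fin.append_left, Fin.append_left]
    · refine prod_congr rfl fun c _ => ?_
      rw [Fin.append_left, Fin.append_right]
  · refine prod_congr rfl fun c _ => ?_
    rw [Fin.append_right]

theorem R_rhoY (S : MS) : rho (famY S) = (∏ i, ∑ p ∈ S.WY i, 1 / (p : ℝ)) * (∏ f, ∑ p ∈ S.FY f, 1 / (p : ℝ)) *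
    ∏ e, ∑ p ∈ S.OY e, 1 / (p : ℝ) := by
  unfold rho famY
  rw [Fin.prod_univ_add (fun c => ∑ p ∈ Fin.append (Fin.append S.WY S.FY) S.OY c, 1 / (p : ℝ))]
  congr 1
  · rw [Fin.prod_univ_add (fun c => ∑ p ∈ Fin.append (Fin.append S.WY S.FY) S.OY (Fin.castAdd _ c), 1 / (p : ℝ))]
    congr 1
    · refine prod_congr rfl fun c _ => ?_
      rw [Fin.append_left, Fin.append_left]
    · refine prod_congr rfl fun c _ => ?_
      rw [Fin.append_left, Fin.append_right]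
  · refine prod_congr rfl fun c _ => ?_
    rw [Fin.append_right]

theorem R_prod (k m : ℕ) (F : ℕ → ℕ → ℝ) :
    ∏ e : Fin (k * m), F ((e : ℕ) / m) ((e : ℕ) % m) = ∏ i ∈ range k, ∏ t ∈ range m, F i t := by
  rw [← Finset.prod_range (fun e => F (e / m) (e % m))]
  induction k with
  | zero => simp
  | succ k ih =>
    rw [Nat.succ_mul, Finset.prod_range_add, ih, Finset.prod_range_succ]
    congr 1
    refine prod_congr rfl fun t ht => ?_
    rw [mem_range] at ht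
    have h1 : (k * m + t) / m = k := by
      rw [mul_comm, Nat.mul_add_div (by omega), Nat.div_eq_of_lt ht, add_zero]
    have h2 : (k * m + t) % m = t := by
      rw [mul_comm, Nat.mul_add_mod, Nat.mod_eq_of_lt ht]
    rw [h1, h2]

theorem R_base (hQ : Q.Ok) (h : Q.Lg N) : (1 : ℝ) ≤ Real.log (Real.log N) ∧ (10 : ℝ) ^ 10 ≤ Real.log N ∧
    (1 : ℝ) ≤ 1.1 * Q.G ∧ (Q.n0 N : ℝ) ≤ Q.la * (Real.log (Real.log N) / 4) ∧
    (Q.nr N : ℝ) ≤ 9 / 2 * Real.log (Real.log N) ∧ (1 : ℝ) ≤ 5 * Q.l0 N := by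
  have hk : (0 : ℝ) ≤ Q.k := Nat.cast_nonneg _
  have hk1 : (1 : ℝ) ≤ ((Q.k : ℝ) + 1) ^ 4 := one_le_pow₀ (by linarith)
  have hkp : (10 : ℝ) ^ 10 ≤ kp N := by have := h.k0; nlinarith
  have hK : (10 : ℝ) ^ 10 ≤ Real.log N := by
    rw [← h.Kk]
    exact hkp.trans (le_self_pow₀ (by linarith) (by norm_num))
  have he : Real.exp 1 ≤ 3 := by
    have := Real.exp_one_lt_d9
    linarith
  have hL : (1 : ℝ) ≤ Real.log (Real.log N) := by
    rw [Real.le_log_iff_exp_le (by linarith)]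
    linarith
  have hl0 : (10 : ℝ) ^ 6 ≤ Q.l0 N := by have := h.lb; nlinarith
  have hG : (1 : ℝ) ≤ Q.G := by
    have h1 : 1 ≤ Q.G := by
      unfold G
      have := hQ.k3
      omega
    exact_mod_cast h1
  refine ⟨hL, hK, by linarith, ?_, ?_, by linarith⟩
  · unfold n0
    rw [Nat.cast_mul, Nat.cast_sub h.j12.le]
    refine mul_le_mul_of_nonneg_left ?_ (Nat.cast_nonneg _)
    have h1 : (j2 N : ℝ) ≤ Real.log (Real.log N) / 2 := Nat.floor_le (by linarith)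
    have h2 : Real.log (Real.log N) / 4 ≤ (j1 N : ℝ) := Nat.le_ceil _
    linarith
  · unfold nr
    rw [Nat.cast_mul, Nat.cast_sub h.j34.le]
    have h1 : (j4 N : ℝ) < 3 * Real.log (Real.log N) / 4 + 1 := Nat.ceil_lt_add_one (by linarith)
    have h2 : Real.log (2 * Q.l0 N) ≤ (Q.j3 N : ℝ) := Nat.le_ceil _
    have h3 : (1 : ℝ) ≤ Real.log (2 * Q.l0 N) := by
      rw [Real.le_log_iff_exp_le (by linarith)]
      linarith
    push_cast
    linarith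

/-- powers of `a` -/
theorem R_pow {a K y : ℝ} {n : ℕ} (ha : 1 ≤ a) (hK : 1 ≤ K) (hn : (n : ℝ) ≤ y * Real.log K) :
    a ^ n ≤ K ^ ⌈y * Real.log a⌉₊ := by
  have ha0 : 0 < a := by linarith
  have hK0 : 0 < K := by linarith
  have h1 : 0 ≤ Real.log a := Real.log_nonneg ha
  have h2 : 0 ≤ Real.log K := Real.log_nonneg hK
  have h3 : a ^ n = Real.exp (n * Real.log a) := by
    rw [mul_comm, Real.exp_mul, Real.exp_log ha0, Real.rpow_natCast]
  have h4 : K ^ ⌈y * Real.log a⌉₊ = Real.exp ((⌈y * Real.log a⌉₊ : ℕ) * Real.log K) := by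
    rw [mul_comm ((⌈y * Real.log a⌉₊ : ℕ) : ℝ) (Real.log K), Real.exp_mul, Real.exp_log hK0, Real.rpow_natCast]
  rw [h3, h4, Real.exp_le_exp]
  calc (n : ℝ) * Real.log a ≤ (y * Real.log K) * Real.log a := mul_le_mul_of_nonneg_right hn h1
    _ = (y * Real.log a) * Real.log K := by ring
    _ ≤ _ := mul_le_mul_of_nonneg_right (Nat.le_ceil _) h2

/-- the final computation -/
theorem R_fin {K a b : ℝ} {m n1 n2 s c : ℕ} (hK : 1 ≤ K) (ha : 1 ≤ a) (hb : 1 ≤ b)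
    (hA : a ^ (n1 + n2) ≤ K ^ c) (hB : b ^ s ≤ K) {x y z : ℝ} (hx : (1 / K ^ 2) ^ m ≤ x) (hy : (1 / a) ^ n1 ≤ y)
    (hz : (1 / b) ^ s * (1 / a) ^ n2 ≤ z) : 1 ≤ K ^ (c + 2 * m + 2) * (x * y * z) := by
  have ha0 : 0 < a := by linarith
  have hb0 : 0 < b := by linarith
  have hK0 : 0 < K := by linarith
  have h1 : (1 / K ^ 2) ^ m * (1 / a) ^ n1 * ((1 / b) ^ s * (1 / a) ^ n2) ≤ x * y * z := by
    have p1 : 0 ≤ (1 / K ^ 2) ^ m := by positivity
    have p2 : 0 ≤ (1 / a) ^ n1 := by positivity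
    have p3 : 0 ≤ (1 / b) ^ s * (1 / a) ^ n2 := by positivity
    exact mul_le_mul (mul_le_mul hx hy p2 (p1.trans hx)) hz p3 (mul_nonneg (p1.trans hx) (p2.trans hy))
  have h2 : (1 / K ^ 2) ^ m * (1 / a) ^ n1 * ((1 / b) ^ s * (1 / a) ^ n2) =
      1 / (K ^ (2 * m) * (a ^ (n1 + n2) * b ^ s)) := by
    rw [one_div_pow, one_div_pow, one_div_pow, one_div_pow, pow_add, pow_mul]
    field_simp
  have h3 : K ^ (2 * m) * (a ^ (n1 + n2) * b ^ s) ≤ K ^ (c + 2 * m + 2) := by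
    calc K ^ (2 * m) * (a ^ (n1 + n2) * b ^ s) ≤ K ^ (2 * m) * (K ^ c * K) := by gcongr
      _ = K ^ (c + 2 * m + 1) := by ring
      _ ≤ K ^ (c + 2 * m + 2) := pow_le_pow_right₀ hK (by omega)
  have h4 : 0 < K ^ (2 * m) * (a ^ (n1 + n2) * b ^ s) := by positivity
  calc (1 : ℝ) ≤ K ^ (c + 2 * m + 2) / (K ^ (2 * m) * (a ^ (n1 + n2) * b ^ s)) := by
        rw [le_div_iff₀ h4, one_mul]
        exact h3
    _ = K ^ (c + 2 * m + 2) * ((1 / K ^ 2) ^ m * (1 / a) ^ n1 * ((1 / b) ^ s * (1 / a) ^ n2)) := by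
        rw [h2]
        ring
    _ ≤ _ := mul_le_mul_of_nonneg_left h1 (by positivity)

theorem R_const {m : ℕ} (x : ℝ) (hx : 0 ≤ x) (f : Fin m → ℝ) (hf : ∀ i, x ≤ f i) : x ^ m ≤ ∏ i, f i := by
  calc x ^ m = ∏ _i : Fin m, x := by rw [prod_const, card_univ, Fintype.card_fin]
    _ ≤ _ := prod_le_prod (fun _ _ => hx) fun i _ => hf i

theorem rhoX_lo (hQ : Q.Ok) (h : Q.Lg N) : 1 ≤ (Real.log N) ^ Q.Cf * rho (famX (Q.sys N)) := by
  obtain ⟨hL, hK, ha, hn0, hnr, hl⟩ := R_base hQ h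
  have hK1 : (1 : ℝ) ≤ Real.log N := by linarith
  have hk : (0 : ℝ) ≤ Q.k := Nat.cast_nonneg _
  rw [R_rhoX]
  unfold Cf
  have hcf : ⌈((Q.la : ℝ) / 4 + 5 * Q.k) * Real.log (1.1 * Q.G)⌉₊ + 2 * (Q.k + 1) + 2 =
      ⌈((Q.la : ℝ) / 4 + 5 * Q.k) * Real.log (1.1 * Q.G)⌉₊ + 2 * (Q.k + 1) + 2 := rfl
  refine R_fin (K := Real.log N) (a := 1.1 * Q.G) (b := 5 * Q.l0 N) (m := Q.k + 1) (n1 := Q.n0 N) (n2 := Q.k * Q.nr N)
    (s := Q.k * Q.np N) hK1 ha hl (R_pow ha hK1 ?_) h.ppd ?_ ?_ ?_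
  · push_cast
    have h1 : (Q.k : ℝ) * Q.nr N ≤ Q.k * (9 / 2 * Real.log (Real.log N)) := mul_le_mul_of_nonneg_left hnr hk
    have h2 : (0 : ℝ) ≤ Q.k * Real.log (Real.log N) := mul_nonneg hk (by linarith)
    nlinarith
  · refine R_const (m := Q.k + 1) _ (by positivity) (fun i : Fin (Q.k + 1) => ∑ p ∈ Q.WXs N i, 1 / (p : ℝ)) fun i => ?_
    refine le_trans ?_ (h.wxm i (by omega))
    gcongr
    norm_num
  · exact R_const (m := Q.n0 N) _ (by positivity) (fun f : Fin (Q.n0 N) => ∑ p ∈ Q.FXs N f, 1 / (p : ℝ))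
      fun f => mFX hQ h f.2
  · have h1 : ∏ e : Fin (Q.k * Q.nit N), ∑ p ∈ Q.OXs N ((e : ℕ) / Q.nit N) ((e : ℕ) % Q.nit N), 1 / (p : ℝ) =
        ∏ i ∈ range Q.k, ∏ t ∈ range (Q.nit N), ∑ p ∈ Q.OXs N i t, 1 / (p : ℝ) :=
      R_prod Q.k (Q.nit N) (fun i t => ∑ p ∈ Q.OXs N i t, 1 / (p : ℝ))
    have h2 : (1 / (5 * Q.l0 N)) ^ (Q.k * Q.np N) * (1 / (1.1 * (Q.G : ℝ))) ^ (Q.k * Q.nr N) ≤
        ∏ i ∈ range Q.k, ∏ t ∈ range (Q.nit N), ∑ p ∈ Q.OXs N i t, 1 / (p : ℝ) := by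
      calc (1 / (5 * Q.l0 N)) ^ (Q.k * Q.np N) * (1 / (1.1 * (Q.G : ℝ))) ^ (Q.k * Q.nr N)
          = ∏ _i ∈ range Q.k, ((1 / (5 * Q.l0 N)) ^ (Q.np N) * (1 / (1.1 * (Q.G : ℝ))) ^ (Q.nr N)) := by
            rw [prod_const, card_range, mul_pow, ← pow_mul, ← pow_mul, mul_comm (Q.np N), mul_comm (Q.nr N)]
        _ ≤ _ := by
            refine prod_le_prod (fun i _ => by positivity) fun i hi => ?_
            rw [mem_range] at hi
            unfold nit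
            rw [Finset.prod_range_add]
            have h3 : (1 / (5 * Q.l0 N)) ^ (Q.np N) ≤ ∏ t ∈ range (Q.np N), ∑ p ∈ Q.OXs N i t, 1 / (p : ℝ) := by
              calc (1 / (5 * Q.l0 N)) ^ (Q.np N) = ∏ _t ∈ range (Q.np N), (1 / (5 * Q.l0 N)) := by
                    rw [prod_const, card_range]
                _ ≤ _ := prod_le_prod (fun _ _ => by positivity) fun t ht => by
                    rw [mem_range] at ht
                    unfold OXs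
                    rw [if_pos ht]
                    exact mPX hQ h hi ht
            have h4 : (1 / (1.1 * (Q.G : ℝ))) ^ (Q.nr N) ≤
                ∏ t ∈ range (Q.nr N), ∑ p ∈ Q.OXs N i (Q.np N + t), 1 / (p : ℝ) := by
              calc (1 / (1.1 * (Q.G : ℝ))) ^ (Q.nr N) = ∏ _t ∈ range (Q.nr N), (1 / (1.1 * (Q.G : ℝ))) := by
                    rw [prod_const, card_range]
                _ ≤ _ := prod_le_prod (fun _ _ => by positivity) fun t ht => by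
                    rw [mem_range] at ht
                    unfold OXs
                    rw [if_neg (by omega), Nat.add_sub_cancel_left]
                    exact mRS hQ h hi ht
            exact mul_le_mul h3 h4 (by positivity) ((by positivity : (0 : ℝ) ≤ (1 / (5 * Q.l0 N)) ^ (Q.np N)).trans h3)
    exact h2.trans (le_of_eq h1.symm)

end MPar

end Pool.Agent.Lib.TC
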