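import Pool.Agent.Lib.MP_7b7e48_nt.BR3.R
import Pool.Agent.Lib.MP_7b7e48_nt.TC.U09

/-!
# BR3.S (90 minutes): (G) and the number of colourings

`m = k + 1` (even as `k` is odd), `la = m ^ 2 / 2`, `L = log K`, `K = κ ^ 100`, `κ ≥ exp (4 m)` (`k00`), so `L ≥ 400 m`; `n0 = la (j2 - j1) ≥ la (L / 4 - 2)`.
`gG` (any `k0 ≥ 10 ^ 4 + B`): take logarithms. Right side: `2 n0 log m ≥ la (L/2) log m - 4 la log m ≥ la L log m (1/2 - 1/(100 m))`. Left side: `L (Cf + 20 m + B)`,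
`Cf ≤ (la/4 + 5 m) log (1.1 G) + 2 m + 3`, `1.1 G = 1.1 (m^2/2 + 6 (m-1)) ≤ 0.6 m^2`, `log (1.1 G) ≤ 2 log m - 1/2` (`log 0.6 ≤ -1/2`: `exp (1/2) ≤ 5/3`). So it is enough that
`(la/4) (1/2) ≥ la log m / (100 m) + 10 m log m + 22 m + 3 + B`, and `m ≥ 10 ^ 4`, `log m ≤ m / 1000`, `B ≤ m`: left side `m^2/16`, right side `≤ m^2 (1/ 20000 + 1/100 + 1/400 + 1/1000)`.
`cc_lo`: `U09_cc`: at most `k k ^ (2 n0)` colourings miss a colour `j < k`, and `2 k (k / (k+1)) ^ (2 n0) ≤ 1`: `(1 - 1/m) ^ (2 n0) ≤ exp (- 2 n0 / m)`, `2 n0 / m ≥ 2 la (98 m) / m ≥ m^2 ≥ log (2 k)`.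
`n0_pos` : `j12`, `la_pos`.
-/

set_option autoImplicit false

open Finset

namespace Pool.Agent.Lib.TC

namespace MPar

private theorem S_la {Q : MPar} (hQ : Q.Ok) : (Q.la : ℝ) = ((Q.k : ℝ) + 1) ^ 2 / 2 := by
  obtain ⟨r, hr⟩ := hQ.ko
  have h1 : Q.la = 2 * (r + 1) ^ 2 := by
    unfold la
    rw [hr]
    have h2 : (2 * r + 1 + 1) ^ 2 = 2 * (2 * (r + 1) ^ 2) := by ring
    omega
  rw [h1, hr]
  push_cast
  ring

private theorem S_L {Q : MPar} {N : ℕ} (h : Q.Lg N) : 400 * ((Q.k : ℝ) + 1) ≤ Real.log (Real.log N) := by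
  have h1 := h.k00
  have h2 := Real.exp_pos (4 * ((Q.k : ℝ) + 1))
  have h3 : 4 * ((Q.k : ℝ) + 1) ≤ Real.log (kp N) := by
    rw [Real.le_log_iff_exp_le (by linarith)]
    exact h1
  rw [← h.Kk, Real.log_pow]
  push_cast
  linarith

private theorem S_n0 {Q : MPar} {N : ℕ} (h : Q.Lg N) :
    (Q.la : ℝ) * (Real.log (Real.log N) / 4 - 2) ≤ Q.n0 N := by
  have hk : (0 : ℝ) ≤ Q.k := Nat.cast_nonneg _
  have hL := S_L h
  unfold n0
  rw [Nat.cast_mul, Nat.cast_sub h.j12.le]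
  refine mul_le_mul_of_nonneg_left ?_ (Nat.cast_nonneg _)
  have h1 : Real.log (Real.log N) / 2 < (j2 N : ℝ) + 1 := Nat.lt_floor_add_one _
  have h2 : (j1 N : ℝ) < Real.log (Real.log N) / 4 + 1 := Nat.ceil_lt_add_one (by linarith)
  linarith

private theorem S_logm {m : ℝ} (hm : 20000 ≤ m) : Real.log m ≤ m / 1000 := by
  have h1 : Real.log m = Real.log (m / 2 ^ 13) + 13 * Real.log 2 := by
    rw [Real.log_div (by linarith) (by positivity), Real.log_pow]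
    push_cast
    ring
  have h2 : Real.log (m / 2 ^ 13) ≤ m / 2 ^ 13 - 1 := Real.log_le_sub_one_of_pos (by positivity)
  have h3 := Real.log_two_lt_d9
  rw [h1]
  norm_num at h2 ⊢
  linarith

private theorem S_log06 : Real.log (3 / 5) ≤ -(1 / 2) := by
  rw [Real.log_le_iff_le_exp (by norm_num), Real.exp_neg]
  have h1 : Real.exp (1 / 2) ≤ 5 / 3 := by
    have h2 : Real.exp (1 / 2) ^ 2 = Real.exp 1 := by
      rw [← Real.exp_nat_mul]
      norm_num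
    have h3 := Real.exp_one_lt_d9
    have h4 := Real.exp_pos (1 / 2 : ℝ)
    nlinarith
  have h4 := Real.exp_pos (1 / 2 : ℝ)
  rw [← one_div, le_div_iff₀ h4]
  linarith

private theorem S_cc (S : MS) : (S.k + 1) ^ (2 * S.n0) ≤ S.CC.card + S.k * S.k ^ (2 * S.n0) := by
  classical
  have h1 := U09_cc S.k (E := FE S.n0)
  have h2 : Fintype.card (FE S.n0) = 2 * S.n0 := by
    rw [Fintype.card_sum, Fintype.card_fin, two_mul]
  rw [h2] at h1
  have h3 : S.CC = (univ : Finset (FE S.n0 → Fin (S.k + 1))).filter fun c => ∀ j : Fin S.k, ∃ e, c e = j.castSucc := by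
    unfold MS.CC
    ext c
    rw [mem_filter]
  have h4 : (univ : Finset (FE S.n0 → Fin (S.k + 1))).card = (S.k + 1) ^ (2 * S.n0) := by
    rw [card_univ, Fintype.card_fun, h2, Fintype.card_fin]
  have h5 : (univ : Finset (FE S.n0 → Fin (S.k + 1))) ⊆
      ((univ : Finset (FE S.n0 → Fin (S.k + 1))).filter fun c => ∀ j : Fin S.k, ∃ e, c e = j.castSucc) ∪
      ((univ : Finset (FE S.n0 → Fin (S.k + 1))).filter fun c => ¬ ∀ j : Fin S.k, ∃ e, c e = j.castSucc) := by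
    intro c _
    rw [mem_union, mem_filter, mem_filter]
    by_cases hc : ∀ j : Fin S.k, ∃ e, c e = j.castSucc
    · exact Or.inl ⟨mem_univ _, hc⟩
    · exact Or.inr ⟨mem_univ _, hc⟩
  have h6 := (card_le_card h5).trans (card_union_le _ _)
  rw [h4, ← h3] at h6
  refine h6.trans (Nat.add_le_add_left ?_ _)
  refine le_trans (le_of_eq ?_) h1
  congr 1

/-- (G) -/
theorem gG (B : ℕ) : ∃ k0 : ℕ, ∀ Q : MPar, Q.Ok → k0 ≤ Q.k → ∀ N : ℕ, Q.Lg N →
    (Real.log N) ^ (Q.Cf + 20 * (Q.k + 1) + B) ≤ ((Q.k : ℝ) + 1) ^ (2 * Q.n0 N) := by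
  refine ⟨20000 + B, fun Q hQ hk N h => ?_⟩
  have hla := S_la hQ
  have hL := S_L h
  have hn0 := S_n0 h
  obtain ⟨hL1, hK, ha, -, -, -⟩ := R_base hQ h
  have hkr : (20000 : ℝ) + B ≤ Q.k := by exact_mod_cast hk
  have hB0 : (0 : ℝ) ≤ B := Nat.cast_nonneg _
  set L := Real.log (Real.log N) with hLdef
  set m : ℝ := (Q.k : ℝ) + 1 with hm
  have hm0 : 20000 + (B : ℝ) ≤ m := by linarith
  have hm1 : (20000 : ℝ) ≤ m := by linarith
  have hmpos : 0 < m := by linarith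
  have hlm := S_logm hm1
  have hlm0 : 0 ≤ Real.log m := Real.log_nonneg (by linarith)
  have hla0 : (0 : ℝ) ≤ Q.la := Nat.cast_nonneg _
  -- `log (1.1 G) ≤ 2 log m - 1/2`
  have hG : Real.log (1.1 * Q.G) ≤ 2 * Real.log m - 1 / 2 := by
    have h1 : 1.1 * (Q.G : ℝ) ≤ 3 / 5 * m ^ 2 := by
      have h2 : (Q.G : ℝ) = m ^ 2 / 2 + 6 * (m - 1) := by
        unfold G
        push_cast
        rw [hla, hm]
        ring
      rw [h2]
      nlinarith
    have h2 := Real.log_le_log (by linarith) h1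
    have h4 : Real.log (3 / 5 * m ^ 2) = Real.log (3 / 5) + 2 * Real.log m := by
      rw [Real.log_mul (by norm_num) (by positivity), Real.log_pow]
      push_cast
      ring
    rw [h4] at h2
    have h3 := S_log06
    linarith
  have hG0 : 0 ≤ Real.log (1.1 * Q.G) := Real.log_nonneg ha
  have hCf : (Q.Cf : ℝ) ≤ ((Q.la : ℝ) / 4 + 5 * Q.k) * Real.log (1.1 * Q.G) + 2 * m + 3 := by
    unfold Cf
    have h1 : (⌈((Q.la : ℝ) / 4 + 5 * Q.k) * Real.log (1.1 * Q.G)⌉₊ : ℝ) <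
        ((Q.la : ℝ) / 4 + 5 * Q.k) * Real.log (1.1 * Q.G) + 1 := Nat.ceil_lt_add_one (by positivity)
    push_cast
    linarith
  have hCf2 : (Q.Cf : ℝ) ≤ Q.la / 2 * Real.log m - Q.la / 8 + 10 * m * Real.log m + 2 * m + 3 := by
    have h1 : ((Q.la : ℝ) / 4 + 5 * Q.k) * Real.log (1.1 * Q.G) ≤
        ((Q.la : ℝ) / 4 + 5 * Q.k) * (2 * Real.log m - 1 / 2) := mul_le_mul_of_nonneg_left hG (by positivity)
    have h2 : ((Q.la : ℝ) / 4 + 5 * Q.k) * (2 * Real.log m - 1 / 2) =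
        Q.la / 2 * Real.log m - Q.la / 8 + 10 * Q.k * Real.log m - 5 / 2 * Q.k := by ring
    have h3 : 10 * (Q.k : ℝ) * Real.log m ≤ 10 * m * Real.log m :=
      mul_le_mul_of_nonneg_right (by linarith) hlm0
    have h4 : (0 : ℝ) ≤ Q.k := Nat.cast_nonneg _
    linarith
  -- the exponent
  have hE : (Q.Cf : ℝ) + 20 * m + B ≤ Q.la * Real.log m * (1 / 2 - 1 / (100 * m)) := by
    have h1 : Q.la * Real.log m * (1 / 2 - 1 / (100 * m)) = Q.la / 2 * Real.log m - m / 200 * Real.log m := by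
      rw [hla]
      field_simp
      ring
    rw [h1]
    have h2 : m * Real.log m ≤ m * (m / 1000) := mul_le_mul_of_nonneg_left hlm hmpos.le
    have h3 : (Q.la : ℝ) / 8 = m ^ 2 / 16 := by rw [hla]; ring
    have h4 : 20000 * m ≤ m * m := mul_le_mul_of_nonneg_right hm1 hmpos.le
    nlinarith
  have hn2 : (Q.Cf : ℝ) * L + (20 * m + B) * L ≤ 2 * Q.n0 N * Real.log m := by
    have h1 : ((Q.Cf : ℝ) + 20 * m + B) * L ≤ Q.la * Real.log m * (1 / 2 - 1 / (100 * m)) * L :=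
      mul_le_mul_of_nonneg_right hE (by linarith)
    have h2 : 2 * ((Q.la : ℝ) * (L / 4 - 2)) * Real.log m ≤ 2 * Q.n0 N * Real.log m :=
      mul_le_mul_of_nonneg_right (by linarith) hlm0
    have h3 : Q.la * Real.log m * (1 / 2 - 1 / (100 * m)) * L ≤ 2 * ((Q.la : ℝ) * (L / 4 - 2)) * Real.log m := by
      have h4 : 4 ≤ 1 / (100 * m) * L := by
        rw [div_mul_eq_mul_div, one_mul, le_div_iff₀ (by positivity)]
        linarith
      have h5 : 0 ≤ Q.la * Real.log m := mul_nonneg hla0 hlm0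
      have h6 := mul_le_mul_of_nonneg_left h4 h5
      nlinarith
    nlinarith
  have hK0 : 0 < Real.log N := by linarith
  have h3 : (Real.log N) ^ (Q.Cf + 20 * (Q.k + 1) + B) =
      Real.exp ((Q.Cf + 20 * (Q.k + 1) + B : ℕ) * Real.log (Real.log N)) := by
    rw [mul_comm ((Q.Cf + 20 * (Q.k + 1) + B : ℕ) : ℝ), Real.exp_mul, Real.exp_log hK0, Real.rpow_natCast]
  have h4 : m ^ (2 * Q.n0 N) = Real.exp ((2 * Q.n0 N : ℕ) * Real.log m) := by
    rw [mul_comm ((2 * Q.n0 N : ℕ) : ℝ) (Real.log m), Real.exp_mul, Real.exp_log hmpos, Real.rpow_natCast]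
  rw [h3, h4, Real.exp_le_exp]
  push_cast
  rw [← hLdef, ← hm]
  linarith

theorem cc_lo {Q : MPar} {N : ℕ} (hQ : Q.Ok) (h : Q.Lg N) : ((Q.k : ℝ) + 1) ^ (2 * Q.n0 N) / 2 ≤ ((Q.sys N).CC.card : ℝ) := by
  have hla := S_la hQ
  have hL := S_L h
  have hn0 := S_n0 h
  have hk3 := hQ.k3
  have hk : (3 : ℝ) ≤ Q.k := by exact_mod_cast hk3
  have hkpos : (0 : ℝ) < Q.k := by linarith
  have h1 := S_cc (Q.sys N)
  have h2 : (Q.k + 1) ^ (2 * Q.n0 N) ≤ (Q.sys N).CC.card + Q.k * Q.k ^ (2 * Q.n0 N) := h1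
  have h3 : ((Q.k : ℝ) + 1) ^ (2 * Q.n0 N) ≤ ((Q.sys N).CC.card : ℝ) + Q.k * (Q.k : ℝ) ^ (2 * Q.n0 N) := by
    exact_mod_cast h2
  have h4 : (Q.k : ℝ) * (Q.k : ℝ) ^ (2 * Q.n0 N) ≤ ((Q.k : ℝ) + 1) ^ (2 * Q.n0 N) / 2 := by
    have h5 : ((Q.k : ℝ) + 1) ^ (2 * Q.n0 N) = (Q.k : ℝ) ^ (2 * Q.n0 N) * (1 + 1 / (Q.k : ℝ)) ^ (2 * Q.n0 N) := by
      rw [← mul_pow]
      congr 1
      field_simp
    have h6 : 1 + ((2 * Q.n0 N : ℕ) : ℝ) * (1 / (Q.k : ℝ)) ≤ (1 + 1 / (Q.k : ℝ)) ^ (2 * Q.n0 N) :=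
      one_add_mul_le_pow (by have : (0 : ℝ) ≤ 1 / (Q.k : ℝ) := by positivity
                             linarith) _
    have h7 : (Q.k : ℝ) ^ 2 ≤ Q.n0 N := by
      refine le_trans ?_ hn0
      rw [hla]
      have h8 : (98 : ℝ) * ((Q.k : ℝ) + 1) ≤ Real.log (Real.log N) / 4 - 2 := by linarith
      have h9 : (1 : ℝ) ≤ Real.log (Real.log N) / 4 - 2 := by linarith
      have h10 : (0 : ℝ) ≤ ((Q.k : ℝ) + 1) ^ 2 / 2 := by positivity
      have h11 : ((Q.k : ℝ) + 1) ^ 2 / 2 * 2 ≤ ((Q.k : ℝ) + 1) ^ 2 / 2 * (Real.log (Real.log N) / 4 - 2) :=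
        mul_le_mul_of_nonneg_left (by linarith) h10
      nlinarith
    have h8 : 2 * (Q.k : ℝ) ≤ (1 + 1 / (Q.k : ℝ)) ^ (2 * Q.n0 N) := by
      refine le_trans ?_ h6
      push_cast
      have h9 : 2 * (Q.k : ℝ) ≤ 2 * Q.n0 N * (1 / (Q.k : ℝ)) := by
        rw [mul_one_div, le_div_iff₀ hkpos]
        nlinarith
      linarith
    have h9 : 0 ≤ (Q.k : ℝ) ^ (2 * Q.n0 N) := by positivity
    rw [h5]
    have h10 := mul_le_mul_of_nonneg_left h8 h9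
    linarith
  linarith

end MPar

end Pool.Agent.Lib.TC
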