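import Pool.Agent.Lib.MP_7b7e48_nt.BR3.L

/-!
# BR3.T (60 minutes): upper bounds of the masses

Windows: `∑ 1/p ≤ ∑_{Z < n ≤ 2 Z} 1/n ≤ 1` (at most `Z` numbers, each `≤ 1/Z`), `∑_{3 Z < n ≤ 4 Z} 1/n ≤ 1/3`. Pieces `pc g`: every
`p ∈ pc g` is in `PR s t`, `s = exp (g/G)`, `t = exp ((g+1)/G) + 1/K` (`pc_log`), `s ≥ l0` (`fx_g`, `rs_g`, `rs_unit`, `bal_g`): `mup`: `≤ log (t / s) + 1/10 ≤ 1/G + 1/K + 1/10 ≤ 1`
(`log (exp (1/G) + 1/(K s)) ≤ 1/G + 1/(K s)`, `G ≥ 2`). Pairs: `PR s (s + 1)`, `s ≥ l0`: `log ((s+1)/s) + 1/10 ≤ 1/s + 1/10 ≤ 1`.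
-/

set_option autoImplicit false

open Finset

namespace Pool.Agent.Lib.TC

open Pool.Agent.Lib.TCB (famX famY)

namespace MPar

variable {Q : MPar} {N : ℕ}

private theorem T_win (a Z : ℕ) (hZ : Z ≤ a) (P : ℕ → Prop) [DecidablePred P] :
    ∑ p ∈ (Ioc a (a + Z)).filter P, 1 / (p : ℝ) ≤ 1 := by
  rcases Nat.eq_zero_or_pos Z with h0 | h0
  · rw [h0, Nat.add_zero, Finset.Ioc_self, Finset.filter_empty, Finset.sum_empty]
    norm_num
  · have hZ0 : (0 : ℝ) < Z := by exact_mod_cast h0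
    have h1 : ∀ p ∈ (Ioc a (a + Z)).filter P, 1 / (p : ℝ) ≤ 1 / Z := by
      intro p hp
      have h2 := (mem_Ioc.mp (mem_filter.mp hp).1).1
      exact one_div_le_one_div_of_le hZ0 (by exact_mod_cast (by omega : Z ≤ p))
    have h3 : (((Ioc a (a + Z)).filter P).card : ℝ) ≤ Z := by
      have h4 := Finset.card_filter_le (Ioc a (a + Z)) P
      rw [Nat.card_Ioc, Nat.add_sub_cancel_left] at h4
      exact_mod_cast h4
    calc ∑ p ∈ (Ioc a (a + Z)).filter P, 1 / (p : ℝ) ≤ ∑ _p ∈ (Ioc a (a + Z)).filter P, 1 / (Z : ℝ) := Finset.sum_le_sum h1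
      _ = (((Ioc a (a + Z)).filter P).card : ℝ) * (1 / Z) := by rw [Finset.sum_const, nsmul_eq_mul]
      _ ≤ Z * (1 / Z) := mul_le_mul_of_nonneg_right h3 (by positivity)
      _ = 1 := mul_one_div_cancel hZ0.ne'

private theorem T_l0 (h : Q.Lg N) : (10 : ℝ) ^ 6 ≤ Q.l0 N ∧ (10 : ℝ) ^ 10 ≤ kp N := by
  have h2 : (1 : ℝ) ≤ (Q.k + 1) ^ 4 := by
    have h3 : (1 : ℝ) ≤ (Q.k : ℝ) + 1 := by
      have : (0 : ℝ) ≤ Q.k := Nat.cast_nonneg _
      linarith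
    exact one_le_pow₀ h3
  constructor
  · refine le_trans ?_ h.lb
    have h3 : (10 : ℝ) ^ 6 * 1 ≤ (10 : ℝ) ^ 6 * (Q.k + 1) ^ 4 := mul_le_mul_of_nonneg_left h2 (by norm_num)
    linarith
  · refine le_trans ?_ h.k0
    have h3 : (10 : ℝ) ^ 10 * 1 ≤ (10 : ℝ) ^ 10 * (Q.k + 1) ^ 4 := mul_le_mul_of_nonneg_left h2 (by norm_num)
    linarith

private theorem T_pr (h : Q.Lg N) {s t : ℝ} (hs : Q.l0 N ≤ s) (hst : s ≤ t) (ht : t ≤ 2 * s) {I : Finset ℕ} (hI : I ⊆ Pool.Agent.Lib.OW.PR s t) :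
    ∑ p ∈ I, 1 / (p : ℝ) ≤ 1 := by
  have hl := (T_l0 h).1
  have hs0 : 0 < s := by linarith
  refine (Finset.sum_le_sum_of_subset_of_nonneg hI fun _ _ _ => by positivity).trans ((h.mup s t hs hst).trans ?_)
  have h1 : Real.log (t / s) ≤ Real.log 2 := by
    refine Real.log_le_log (div_pos (by linarith) hs0) ?_
    rw [div_le_iff₀ hs0]
    exact ht
  have h2 := Real.log_two_lt_d9
  linarith

private theorem T_pc (hQ : Q.Ok) (h : Q.Lg N) {g : ℕ} (hg : Q.l0 N ≤ Real.exp ((g : ℝ) / Q.G)) : ∑ p ∈ Q.pc N g, 1 / (p : ℝ) ≤ 1 := by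
  have hG := G_pos hQ
  have hG2 : (2 : ℝ) ≤ Q.G := by
    have h1 : 2 ≤ Q.G := by
      have h2 := hQ.k3
      unfold G
      omega
    exact_mod_cast h1
  have hl := (T_l0 h).1
  have hK := h.K1
  have hK0 : 0 < Real.log N := lt_of_lt_of_le (by norm_num) hK
  have hK1 : 1 / Real.log N ≤ 1 / 10 := one_div_le_one_div_of_le (by norm_num) (by linarith)
  have hK2 : 0 < 1 / Real.log N := by positivity
  have e1 : Real.exp (((g : ℝ) + 1) / Q.G) = Real.exp ((g : ℝ) / Q.G) * Real.exp (1 / Q.G) := by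
    rw [← Real.exp_add]
    congr 1
    ring
  have h3 : Real.exp (1 / (Q.G : ℝ)) ≤ 17 / 10 := by
    have h4 : Real.exp (1 / (Q.G : ℝ)) ≤ Real.exp (1 / 2) := Real.exp_le_exp.2 (one_div_le_one_div_of_le (by norm_num) hG2)
    have h5 : Real.exp (1 / 2) * Real.exp (1 / 2) = Real.exp 1 := by
      rw [← Real.exp_add]
      norm_num
    have h6 := Real.exp_one_lt_d9
    have h7 : Real.exp (1 / 2) ≤ 17 / 10 := by
      by_contra hc
      push Not at hc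
      have h8 : (17 / 10 : ℝ) * (17 / 10) < Real.exp (1 / 2) * Real.exp (1 / 2) :=
        mul_lt_mul'' hc hc (by norm_num) (by norm_num)
      rw [h5] at h8
      norm_num at h8 h6
      linarith
    exact h4.trans h7
  have h1' : (1 : ℝ) ≤ Real.exp (1 / (Q.G : ℝ)) := Real.one_le_exp (by positivity)
  have hs1 : (1 : ℝ) ≤ Real.exp ((g : ℝ) / Q.G) := by linarith
  refine T_pr h (s := Real.exp ((g : ℝ) / Q.G)) (t := Real.exp (((g : ℝ) + 1) / Q.G) + 1 / Real.log N) hg ?_ ?_ ?_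
  · rw [e1]
    nlinarith
  · rw [e1]
    nlinarith
  · intro p hp
    obtain ⟨a1, a2⟩ := pc_log h hp
    exact (Pool.Agent.Lib.OW.mem_PR_log (mem_pc.1 hp).1).2 ⟨a1, a2⟩

private theorem T_fx (hQ : Q.Ok) (h : Q.Lg N) {f : ℕ} (hf : f < Q.n0 N) : ∑ p ∈ Q.FXs N f, 1 / (p : ℝ) ≤ 1 := by
  unfold FXs
  refine T_pc hQ h (le_trans ?_ (fx_g hQ h hf).1)
  have h1 := (T_l0 h).2
  have h2 : kp N ≤ kp N ^ 25 := le_self_pow₀ (le_trans (by norm_num) h1) (by norm_num)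
  exact h.lk.trans h2

private theorem T_idx {k n e : ℕ} (he : e < k * n) : e / n < k := by
  refine Nat.div_lt_of_lt_mul ?_
  rwa [Nat.mul_comm]

private theorem T_ox (hQ : Q.Ok) (h : Q.Lg N) {i t : ℕ} (hi : i < Q.k) : ∑ p ∈ Q.OXs N i t, 1 / (p : ℝ) ≤ 1 := by
  have hl := (T_l0 h).1
  unfold OXs
  split_ifs with ht
  · unfold PXs
    have e1 : (0 : ℝ) ≤ 2 * ((Q.k * t + i : ℕ) : ℝ) + t := by positivity
    refine T_pr h (s := Q.l0 N + 2 * (Q.k * t + i : ℕ) + t + 2) (t := Q.l0 N + 2 * (Q.k * t + i : ℕ) + t + 3) ?_ ?_ ?_ (Finset.filter_subset _ _)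
    · linarith
    · linarith
    · linarith
  · unfold rs
    refine T_pc hQ h (le_trans ?_ (rs_g hQ h hi (t - Q.np N)).1)
    have h1 := h.e3.1
    have h2 : Real.exp (Q.j3 N) ≤ Real.exp (Q.j3 N + (t - Q.np N) / 6 : ℕ) := Real.exp_le_exp.2 (by exact_mod_cast Nat.le_add_right _ _)
    linarith

private theorem T_oy (hQ : Q.Ok) (h : Q.Lg N) {i t : ℕ} (hi : i < Q.k) : ∑ p ∈ Q.OYs N i t, 1 / (p : ℝ) ≤ 1 := by
  have hl := (T_l0 h).1
  unfold OYs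
  split_ifs with ht
  · unfold PYs
    have e1 : (0 : ℝ) ≤ 2 * ((Q.k * t + i : ℕ) : ℝ) := by positivity
    refine T_pr h (s := Q.l0 N + 2 * (Q.k * t + i : ℕ)) (t := Q.l0 N + 2 * (Q.k * t + i : ℕ) + 1) ?_ ?_ ?_ (Finset.filter_subset _ _)
    · linarith
    · linarith
    · linarith
  · refine T_pc hQ h (le_trans ?_ (bal_g hQ h hi).1)
    have h1 := (T_l0 h).2
    have h2 : kp N ≤ kp N ^ 70 := le_self_pow₀ (le_trans (by norm_num) h1) (by norm_num)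
    exact h.lk.trans h2

theorem fam_upX (hQ : Q.Ok) (h : Q.Lg N) (c) : ∑ p ∈ famX (Q.sys N) c, 1 / (p : ℝ) ≤ 1 := by
  unfold famX
  refine Fin.addCases (fun c => ?_) (fun c => ?_) c
  · rw [Fin.append_left]
    refine Fin.addCases (fun c => ?_) (fun c => ?_) c
    · rw [Fin.append_left]
      have e : (Q.sys N).WX c = (Ioc (3 * Q.Z N c) (3 * Q.Z N c + Q.Z N c)).filter fun p => p.Prime ∧ ¬ p ∣ N ∧ p ≡ 1 [MOD Q.W ^ 2] := by
        have e2 : 3 * Q.Z N c + Q.Z N c = 4 * Q.Z N c := by ring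
        rw [e2]
        rfl
      rw [e]
      exact T_win _ _ (by omega) _
    · rw [Fin.append_right]
      exact T_fx hQ h c.2
  · rw [Fin.append_right]
    exact T_ox hQ h (T_idx c.2)

theorem fam_upY (hQ : Q.Ok) (h : Q.Lg N) (c) : ∑ p ∈ famY (Q.sys N) c, 1 / (p : ℝ) ≤ 1 := by
  unfold famY
  refine Fin.addCases (fun c => ?_) (fun c => ?_) c
  · rw [Fin.append_left]
    refine Fin.addCases (fun c => ?_) (fun c => ?_) c
    · rw [Fin.append_left]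
      have e : (Q.sys N).WY c = (Ioc (Q.Z N c) (Q.Z N c + Q.Z N c)).filter fun p => p.Prime ∧ ¬ p ∣ N ∧ p ≡ Q.b c [MOD Q.W ^ 2] := by
        have e2 : Q.Z N c + Q.Z N c = 2 * Q.Z N c := by ring
        rw [e2]
        rfl
      rw [e]
      exact T_win _ _ (le_refl _) _
    · rw [Fin.append_right]
      exact T_fx hQ h c.2
  · rw [Fin.append_right]
    exact T_oy hQ h (T_idx c.2)

end MPar

end Pool.Agent.Lib.TC
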