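import Pool.Agent.Lib.MP_7b7e48_nt.BR3.V2

/-!
# BR3.V (60 minutes): `rel` and `ac` (BR4)

`br4_rel` is the definition of `AFC`. `br4_ac`: in `af_card` every factor is `≤ N ^ ..`: `4 MM^2 + 2 ≤ N ^ (e1)`, `(N ^ (3 (k+1) e1) + 1) ^ (2 (k+1)) ≤ (2 N ^ (3 (k+1) e1)) ^ (2 (k+1)) ≤ N ^ (6 (k+1)^2 e1 + e1)`,
`(exp (κ ^ 80) + 1) ^ (2 k) ≤ N ^ e1`, `N ^ (4 (k+1) e1) + 1 ≤ N ^ (4 (k+1) e1 + e1)`, `2 (k + 1) ≤ N ^ e1` for large `N` (for the second: `exp (κ^80) + 1 ≤ exp (2 κ ^ 80)`, `4 k κ ^ 80 ≤ e1 κ ^ 100`): the product is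
`≤ N ^ (1 - ε + (6 (k+1)^2 + 4 (k+1) + 5) e1) ≤ N ^ (1 - ε/2) ≤ R ^ (1 - ε/2)` by `he` (`N ≤ R`, `1 - ε/2 ≥ 0`).
-/

set_option autoImplicit false

open Finset Filter

namespace Pool.Agent.Lib.TC

open Pool.Agent.Lib.TCB (famX famY LkS)
open Pool.Agent.Lib.TCF (Mul Rgh1 TUP)
open Pool.Agent.Lib.RH (Prm MM)
open Pool.Agent.Lib.MP_45349e_nt.LS (lam)

namespace MPar

/-- the relation outside the exceptional classes -/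
theorem br4_rel (P : Prm) (Q : MPar) (N : ℕ) [NeZero (Q.W ^ 2 * N)] (T : Dat) :
    ∀ l X Y t t' : ℕ, Mul P (Q.W ^ 2 * N) l → ((X : ℕ) : ZMod (Q.W ^ 2 * N)) = (l : ZMod (Q.W ^ 2 * N)) * ((Y : ℕ) : ZMod (Q.W ^ 2 * N)) →
    ((Y : ℕ) : ZMod (Q.W ^ 2 * N)) ∉ AFC P Q N T (fdat P Q N).J1 → Rgh1 P (Q.W ^ 2 * N) X → Rgh1 P (Q.W ^ 2 * N) Y → l * Y < X →
    X ≤ (fdat P Q N).J1 * (Q.W ^ 2 * N) → t ∈ TUP (fdat P Q N).BX → t' ∈ TUP (fdat P Q N).BY → t ∣ X → t' ∣ Y →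
    LkS (Q.sys N) T X t (l * Y) t' → lam X = lam (l * Y) := by
  classical
  intro l X Y t t' hl hX hA _ _ hXY hXJ _ _ _ _ hL
  by_contra hne
  apply hA
  unfold AFC
  simp only [mem_filter, mem_univ, true_and]
  exact ⟨l, X, Y, t, t', hl, hX, rfl, hXY, hXJ, hL, hne⟩

private theorem V_kp : Tendsto (fun N : ℕ => kp N) atTop atTop :=
  (tendsto_rpow_atTop (by norm_num : (0 : ℝ) < 1 / 100)).comp (Real.tendsto_log_atTop.comp tendsto_natCast_atTop_atTop)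

private theorem V_exp (k : ℕ) {δ : ℝ} (hδ : 0 < δ) : ∀ᶠ N : ℕ in atTop, (kp N) ^ 100 = Real.log N →
    (Real.exp ((kp N) ^ 80) + 1) ^ (2 * k) ≤ (N : ℝ) ^ δ := by
  filter_upwards [V_kp.eventually_ge_atTop 1, V_kp.eventually_ge_atTop (4 * k / δ), eventually_ge_atTop 1] with N h1 h2 hN hK
  have hN0 : (0 : ℝ) < N := by exact_mod_cast hN
  have h3 : Real.exp ((kp N) ^ 80) + 1 ≤ Real.exp (2 * (kp N) ^ 80) := by
    have h4 : (1 : ℝ) ≤ (kp N) ^ 80 := one_le_pow₀ h1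
    have h5 : (1 : ℝ) ≤ Real.exp ((kp N) ^ 80) := Real.one_le_exp (by positivity)
    have h6 : (2 : ℝ) ≤ Real.exp ((kp N) ^ 80) := by
      have := Real.add_one_le_exp ((kp N) ^ 80)
      linarith
    have h7 : Real.exp (2 * (kp N) ^ 80) = Real.exp ((kp N) ^ 80) * Real.exp ((kp N) ^ 80) := by
      rw [← Real.exp_add]; congr 1; ring
    rw [h7]
    nlinarith
  have h8 : (Real.exp ((kp N) ^ 80) + 1) ^ (2 * k) ≤ Real.exp (2 * (kp N) ^ 80) ^ (2 * k) :=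
    pow_le_pow_left₀ (by positivity) h3 _
  refine h8.trans ?_
  rw [← Real.exp_nat_mul, Real.rpow_def_of_pos hN0, ← hK]
  apply Real.exp_le_exp.2
  push_cast
  have h9 : 4 * (k : ℝ) ≤ δ * kp N := by
    rw [div_le_iff₀ hδ] at h2
    linarith
  have h10 : kp N ≤ (kp N) ^ 20 := by
    calc kp N = (kp N) ^ 1 := (pow_one _).symm
      _ ≤ _ := pow_le_pow_right₀ h1 (by norm_num)
  have h11 : 4 * (k : ℝ) ≤ δ * (kp N) ^ 20 := h9.trans (mul_le_mul_of_nonneg_left h10 hδ.le)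
  have h12 : 4 * (k : ℝ) * (kp N) ^ 80 ≤ δ * (kp N) ^ 20 * (kp N) ^ 80 :=
    mul_le_mul_of_nonneg_right h11 (by positivity)
  calc 2 * (k : ℝ) * (2 * (kp N) ^ 80) = 4 * (k : ℝ) * (kp N) ^ 80 := by ring
    _ ≤ δ * (kp N) ^ 20 * (kp N) ^ 80 := h12
    _ = (kp N) ^ 100 * δ := by ring

private theorem V_mm {P : Prm} (hP : P.Ok) {W : ℕ} (hW : 0 < W) {δ : ℝ} (hδ : 0 < δ) :
    ∀ᶠ N : ℕ in atTop, 4 * (MM P (W ^ 2 * N) : ℝ) ^ 2 + 2 ≤ (N : ℝ) ^ δ := by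
  obtain ⟨N0, hN0⟩ := Pool.Agent.Lib.RH.num P hP
  filter_upwards [eventually_ge_atTop N0, eventually_ge_atTop 1,
    Pool.Agent.Lib.RH.ev_log_ge (2 * Real.log W),
    Pool.Agent.Lib.RH.ev_log_ge 1,
    Pool.Agent.Lib.RH.ev_log_pow (2 * P.C1) δ hδ (24 * 4 ^ P.C1) (by positivity)] with N h1 h2 h3 h4 h5
  have hW2 : 1 ≤ W ^ 2 := Nat.one_le_pow _ _ hW
  have hR : N ≤ W ^ 2 * N := Nat.le_mul_of_pos_left _ hW2
  have hn := hN0 (W ^ 2 * N) (h1.trans hR)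
  have h6 : Real.log ((W ^ 2 * N : ℕ) : ℝ) ≤ 2 * Real.log N := by
    have hW' : (W : ℝ) ≠ 0 := by exact_mod_cast hW.ne'
    have hN' : (N : ℝ) ≠ 0 := by
      have : N ≠ 0 := by omega
      exact_mod_cast this
    push_cast
    rw [Real.log_mul (pow_ne_zero _ hW') hN', Real.log_pow]
    push_cast
    linarith
  have h7 : (0 : ℝ) ≤ Real.log ((W ^ 2 * N : ℕ) : ℝ) := Real.log_natCast_nonneg _
  have h8 : (MM P (W ^ 2 * N) : ℝ) ≤ 2 * (2 * Real.log N) ^ P.C1 :=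
    hn.M2.trans (mul_le_mul_of_nonneg_left (pow_le_pow_left₀ h7 h6 _) (by norm_num))
  have h9 : (1 : ℝ) ≤ MM P (W ^ 2 * N) := by
    have : 1 ≤ MM P (W ^ 2 * N) := Nat.one_le_two_pow
    exact_mod_cast this
  have h10 : (MM P (W ^ 2 * N) : ℝ) ^ 2 ≤ (2 * (2 * Real.log N) ^ P.C1) ^ 2 := pow_le_pow_left₀ (by positivity) h8 _
  calc 4 * (MM P (W ^ 2 * N) : ℝ) ^ 2 + 2 ≤ 6 * (MM P (W ^ 2 * N) : ℝ) ^ 2 := by nlinarith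
    _ ≤ 6 * (2 * (2 * Real.log N) ^ P.C1) ^ 2 := by linarith
    _ = 24 * 4 ^ P.C1 * (Real.log N) ^ (2 * P.C1) := by
      rw [mul_pow 2 (Real.log N), pow_mul' (Real.log N)]
      have : (4 : ℝ) ^ P.C1 = (2 ^ P.C1) ^ 2 := by
        rw [← pow_mul, mul_comm, pow_mul]; norm_num
      rw [this]
      ring
    _ ≤ _ := h5

/-- the number of the exceptional classes -/
theorem br4_ac {P : Prm} (hP : P.Ok) {Q : MPar} (hQ : Q.Ok) {ε : ℝ} (hε : 0 < ε) (hε1 : ε ≤ 1) (he : 40 * ((Q.k : ℝ) + 1) ^ 2 * Q.e1 ≤ ε) :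
    ∀ᶠ N : ℕ in atTop, Q.Lg N → ∀ [NeZero (Q.W ^ 2 * N)], ∀ (T : Dat), T.N = N → ∀ (J : ℕ) (κ : ℝ), (κ = 1 ∨ κ = -1) →
    ((EX T κ).card : ℝ) ≤ (N : ℝ) ^ (1 - ε) → ((AFC P Q N T J).card : ℝ) ≤ ((Q.W ^ 2 * N : ℕ) : ℝ) ^ (1 - ε / 2) := by
  have hδ := hQ.e0
  filter_upwards [V_exp Q.k hδ, V_mm hP hQ.W0 hδ, Pool.Agent.Lib.RH.ev_log_pow 0 Q.e1 hδ (2 ^ (2 * (Q.k + 1))) (by positivity),
    Pool.Agent.Lib.RH.ev_log_pow 0 Q.e1 hδ (2 * (Q.k + 1)) (by positivity), eventually_ge_atTop 1] with N h1 h2 h3 h4 hN h hne T hT J κ hκ hE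
  rw [pow_zero, mul_one] at h3 h4
  have hN0 : (0 : ℝ) < N := by exact_mod_cast hN
  have hN1 : (1 : ℝ) ≤ N := by exact_mod_cast hN
  have hk : (4 : ℝ) ≤ (Q.k : ℝ) + 1 := by
    have : 3 ≤ Q.k := hQ.k3
    have : (3 : ℝ) ≤ Q.k := by exact_mod_cast this
    linarith
  have h5 := h1 h.Kk
  have h6 := af_card (P := P) hQ h hT J hκ
  set δ := Q.e1 with hd
  set m : ℝ := (Q.k : ℝ) + 1 with hm
  have one : ∀ s : ℝ, 0 ≤ s → 1 ≤ (N : ℝ) ^ s := fun s hs => Real.one_le_rpow hN1 hs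
  have g2 : (2 : ℝ) ≤ (N : ℝ) ^ δ := by
    refine le_trans ?_ h4
    linarith
  -- the second factor
  have f2 : ((N : ℝ) ^ (3 * m * δ) + 1) ^ (2 * (Q.k + 1)) ≤ (N : ℝ) ^ (6 * m ^ 2 * δ + δ) := by
    have a1 : (N : ℝ) ^ (3 * m * δ) + 1 ≤ 2 * (N : ℝ) ^ (3 * m * δ) := by
      have := one (3 * m * δ) (by positivity)
      linarith
    have a2 : ((N : ℝ) ^ (3 * m * δ)) ^ (2 * (Q.k + 1)) = (N : ℝ) ^ (6 * m ^ 2 * δ) := by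
      rw [← Real.rpow_natCast, ← Real.rpow_mul hN0.le]
      congr 1
      push_cast
      rw [← hm]
      ring
    calc ((N : ℝ) ^ (3 * m * δ) + 1) ^ (2 * (Q.k + 1)) ≤ (2 * (N : ℝ) ^ (3 * m * δ)) ^ (2 * (Q.k + 1)) :=
          pow_le_pow_left₀ (by positivity) a1 _
      _ = 2 ^ (2 * (Q.k + 1)) * (N : ℝ) ^ (6 * m ^ 2 * δ) := by rw [mul_pow, a2]
      _ ≤ (N : ℝ) ^ δ * (N : ℝ) ^ (6 * m ^ 2 * δ) := mul_le_mul_of_nonneg_right h3 (by positivity)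
      _ = _ := by rw [← Real.rpow_add hN0]; congr 1; ring
  have f4 : (N : ℝ) ^ (4 * m * δ) + 1 ≤ (N : ℝ) ^ (4 * m * δ + δ) := by
    have a1 := one (4 * m * δ) (by positivity)
    calc (N : ℝ) ^ (4 * m * δ) + 1 ≤ (N : ℝ) ^ (4 * m * δ) * 2 := by linarith
      _ ≤ (N : ℝ) ^ (4 * m * δ) * (N : ℝ) ^ δ := mul_le_mul_of_nonneg_left g2 (by positivity)
      _ = _ := by rw [← Real.rpow_add hN0]
  have h7 : ((AFC P Q N T J).card : ℝ) ≤ (N : ℝ) ^ δ * (N : ℝ) ^ (6 * m ^ 2 * δ + δ) * (N : ℝ) ^ δ * (N : ℝ) ^ (4 * m * δ + δ) * (N : ℝ) ^ δ *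
      (N : ℝ) ^ (1 - ε) := by
    refine h6.trans ?_
    gcongr
  have h8 : (N : ℝ) ^ δ * (N : ℝ) ^ (6 * m ^ 2 * δ + δ) * (N : ℝ) ^ δ * (N : ℝ) ^ (4 * m * δ + δ) * (N : ℝ) ^ δ *
      (N : ℝ) ^ (1 - ε) = (N : ℝ) ^ (1 - ε + (6 * m ^ 2 + 4 * m + 5) * δ) := by
    rw [← Real.rpow_add hN0, ← Real.rpow_add hN0, ← Real.rpow_add hN0, ← Real.rpow_add hN0, ← Real.rpow_add hN0]
    congr 1
    ring
  have h9 : 1 - ε + (6 * m ^ 2 + 4 * m + 5) * δ ≤ 1 - ε / 2 := by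
    have : (6 * m ^ 2 + 4 * m + 5) * δ ≤ 20 * m ^ 2 * δ := by
      refine mul_le_mul_of_nonneg_right ?_ hδ.le
      nlinarith
    linarith
  have hW2 : 1 ≤ Q.W ^ 2 := Nat.one_le_pow _ _ hQ.W0
  have hR : (N : ℝ) ≤ ((Q.W ^ 2 * N : ℕ) : ℝ) := by
    exact_mod_cast Nat.le_mul_of_pos_left N hW2
  calc ((AFC P Q N T J).card : ℝ) ≤ (N : ℝ) ^ (1 - ε + (6 * m ^ 2 + 4 * m + 5) * δ) := by rw [← h8]; exact h7
    _ ≤ (N : ℝ) ^ (1 - ε / 2) := Real.rpow_le_rpow_of_exponent_le hN1 h9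
    _ ≤ _ := Real.rpow_le_rpow hN0.le hR (by linarith)

end MPar

end Pool.Agent.Lib.TC
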