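import Pool.Agent.Lib.MP_7b7e48_nt.BR3.W

/-!
# BR3.W2 (90 minutes): the data of the frame are admissible

`R = W ^ 2 N`, `K = log N ≤ log R ≤ 2 K`. `y1`: `JJ ^ 4 MM ^ 4 J1 ≤ K ^ (Cf + 2 (k+1) + 6 C1 + 11020) ≤ ⌊K ^ Cp⌋` (`hCp`, `ev_J1`; `JJ ≤ K ^ 1001`, `MM ≤ K ^ (C1 + 1)`, `RH.num`). `y2`: `K ^ Cp ≤ R ^ (kap / 1000)` (`RH.ev_log_pow`).
`FamOk`: `pr`, `disj`: `sets_ok` with `W' = W ^ 2` (a prime `> y0 ≥ W` does not divide `W ^ 2`); `lo`, `lx`: `mass_lo` (`2 / K^2 ≥ 2/(log R)^3`); `up`: `fam_upX`; `tot`: `totX`,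
`K ≤ (log R)^2`; `nle`: `cnt`; `tup`: `mem_TUPX`, `small_x`: `N ^ (4 (k+1) e1) ≤ R ^ (kap/100)` by `he`. `jy`: `J0 rho ≥ JJ ^ 5 K ^ (Cf) rho ≥ JJ ^ 5` (`rhoY_lo`); `jx`: `J1 ≥ J0`, `rhoX_lo`. The fields of `Base` are the same with `JJ ^ 4`.
-/

set_option autoImplicit false

open Finset Filter

namespace Pool.Agent.Lib.TC

open Pool.Agent.Lib.TCB (famX famY)
open Pool.Agent.Lib.TCF (rho)
open Pool.Agent.Lib.RH (Prm MM JJ)

namespace MPar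

private theorem W2_famX (S : MS) (x : ℝ) (h1 : ∀ i, x ≤ ∑ p ∈ S.WX i, 1 / (p : ℝ)) (h2 : ∀ i, x ≤ ∑ p ∈ S.FX i, 1 / (p : ℝ))
    (h3 : ∀ i, x ≤ ∑ p ∈ S.OX i, 1 / (p : ℝ)) (c) : x ≤ ∑ p ∈ famX S c, 1 / (p : ℝ) := by
  unfold famX
  refine Fin.addCases (fun c => ?_) (fun c => ?_) c
  · rw [Fin.append_left]
    refine Fin.addCases (fun c => ?_) (fun c => ?_) c
    · rw [Fin.append_left]; exact h1 c
    · rw [Fin.append_right]; exact h2 c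
  · rw [Fin.append_right]; exact h3 c

private theorem W2_famY (S : MS) (x : ℝ) (h1 : ∀ i, x ≤ ∑ p ∈ S.WY i, 1 / (p : ℝ)) (h2 : ∀ i, x ≤ ∑ p ∈ S.FY i, 1 / (p : ℝ))
    (h3 : ∀ i, x ≤ ∑ p ∈ S.OY i, 1 / (p : ℝ)) (c) : x ≤ ∑ p ∈ famY S c, 1 / (p : ℝ) := by
  unfold famY
  refine Fin.addCases (fun c => ?_) (fun c => ?_) c
  · rw [Fin.append_left]
    refine Fin.addCases (fun c => ?_) (fun c => ?_) c
    · rw [Fin.append_left]; exact h1 c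
    · rw [Fin.append_right]; exact h2 c
  · rw [Fin.append_right]; exact h3 c

/-- the facts on the modulus which hold for large `N` -/
private theorem W2_ev {P : Prm} (hP : P.Ok) {Q : MPar} (hQ : Q.Ok) : ∀ᶠ N : ℕ in atTop,
    (1 : ℝ) ≤ Real.log N ∧ (Q.W : ℝ) ≤ Real.log N ∧ Real.log N ≤ Real.log ((Q.W ^ 2 * N : ℕ) : ℝ) ∧
    (JJ (Q.W ^ 2 * N) : ℝ) ≤ (Real.log N) ^ 1001 ∧ (MM P (Q.W ^ 2 * N) : ℝ) ≤ (Real.log N) ^ (P.C1 + 1) ∧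
    1 ≤ JJ (Q.W ^ 2 * N) ∧ (Real.log N) ^ Q.Cp ≤ (N : ℝ) ^ (P.kap / 1000) ∧ 2 ≤ N := by
  obtain ⟨N0, hN0⟩ := RH.num P hP
  filter_upwards [RH.ev_log_ge 1, RH.ev_log_ge (Q.W : ℝ), RH.ev_log_ge (2 * Real.log Q.W), RH.ev_log_ge ((2 : ℝ) ^ 1001),
    RH.ev_log_ge ((2 : ℝ) ^ (P.C1 + 1)), RH.ev_log_pow Q.Cp (P.kap / 1000) (by have := hP.kap0; positivity) 1 (by norm_num),
    eventually_ge_atTop (max 2 N0)] with N h1 h2 h3 h4 h5 h6 h7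
  have hN2 : 2 ≤ N := (le_max_left _ _).trans h7
  have hW := hQ.W0
  have hWN : N ≤ Q.W ^ 2 * N := Nat.le_mul_of_pos_left _ (by positivity)
  have nm := hN0 (Q.W ^ 2 * N) (((le_max_right _ _).trans h7).trans hWN)
  have hNr : (0 : ℝ) < N := by exact_mod_cast (by omega : 0 < N)
  have hWr : (0 : ℝ) < Q.W := by exact_mod_cast hW
  have hlR : Real.log ((Q.W ^ 2 * N : ℕ) : ℝ) = 2 * Real.log Q.W + Real.log N := by
    push_cast
    rw [Real.log_mul (by positivity) hNr.ne', Real.log_pow]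
    push_cast
    ring
  have hlW : 0 ≤ Real.log (Q.W : ℝ) := Real.log_nonneg (by exact_mod_cast hW)
  have hR1 : Real.log N ≤ Real.log ((Q.W ^ 2 * N : ℕ) : ℝ) := by rw [hlR]; linarith
  have hR2 : Real.log ((Q.W ^ 2 * N : ℕ) : ℝ) ≤ 2 * Real.log N := by rw [hlR]; linarith
  have hR0 : 0 ≤ Real.log ((Q.W ^ 2 * N : ℕ) : ℝ) := (zero_le_one.trans h1).trans hR1
  have hK0 : 0 ≤ Real.log (N : ℝ) := zero_le_one.trans h1
  rw [one_mul] at h6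
  refine ⟨h1, h2, hR1, ?_, ?_, ?_, h6, hN2⟩
  · refine nm.J2.trans ?_
    have h8 : (Real.log ((Q.W ^ 2 * N : ℕ) : ℝ)) ^ 1000 ≤ (2 * Real.log N) ^ 1000 := pow_le_pow_left₀ hR0 hR2 1000
    rw [mul_pow] at h8
    have h9 : (2 : ℝ) ^ 1001 * (Real.log N) ^ 1000 ≤ Real.log N * (Real.log N) ^ 1000 :=
      mul_le_mul_of_nonneg_right h4 (by positivity)
    have h10 : (2 : ℝ) ^ 1001 = 2 * 2 ^ 1000 := by rw [pow_succ]; ring
    have h11 : (Real.log (N : ℝ)) ^ 1001 = Real.log N * (Real.log N) ^ 1000 := by rw [pow_succ]; ring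
    rw [h11]
    calc 2 * (Real.log ((Q.W ^ 2 * N : ℕ) : ℝ)) ^ 1000 ≤ 2 * (2 ^ 1000 * (Real.log N) ^ 1000) :=
          mul_le_mul_of_nonneg_left h8 (by norm_num)
      _ = 2 ^ 1001 * (Real.log N) ^ 1000 := by rw [h10]; ring
      _ ≤ _ := h9
  · refine nm.M2.trans ?_
    have h8 : (Real.log ((Q.W ^ 2 * N : ℕ) : ℝ)) ^ P.C1 ≤ (2 * Real.log N) ^ P.C1 := pow_le_pow_left₀ hR0 hR2 _
    rw [mul_pow] at h8
    calc 2 * (Real.log ((Q.W ^ 2 * N : ℕ) : ℝ)) ^ P.C1 ≤ 2 * (2 ^ P.C1 * (Real.log N) ^ P.C1) :=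
          mul_le_mul_of_nonneg_left h8 (by norm_num)
      _ = 2 ^ (P.C1 + 1) * (Real.log N) ^ P.C1 := by ring
      _ ≤ Real.log N * (Real.log N) ^ P.C1 := mul_le_mul_of_nonneg_right h5 (by positivity)
      _ = _ := by ring
  · have h8 : (1 : ℝ) ≤ JJ (Q.W ^ 2 * N) := by
      refine le_trans ?_ nm.J1
      exact one_le_pow₀ (h1.trans hR1)
    exact_mod_cast h8

/-- **the data of the frame are admissible** -/
theorem ev_frame {P : Prm} (hP : P.Ok) {Q : MPar} (hQ : Q.Ok) (hCp : Q.Cf + 2 * (Q.k + 1) + 6 * P.C1 + 11021 ≤ Q.Cp)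
    (he : 4 * ((Q.k : ℝ) + 1) * Q.e1 ≤ P.kap / 100) : ∀ᶠ N : ℕ in atTop, Q.Lg N → TCF.Base P (Q.W ^ 2 * N) (fdat P Q N) := by
  have hexp : 1001 * 4 + (P.C1 + 1) * 4 + (Q.Cf + 2 * (Q.k + 1) + 2 * P.C1 + 7011) ≤ Q.Cp := by
    refine le_trans (le_of_eq_of_le (b := Q.Cf + 2 * (Q.k + 1) + 6 * P.C1 + 11019) (by ring) ?_) hCp
    exact Nat.add_le_add_left (by norm_num) _
  filter_upwards [W2_ev hP hQ, ev_J1 hP hQ] with N hev hJ1 h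
  obtain ⟨hK1, hWK, hKR, hJJ, hMM, hJJ1, hpw, hN2⟩ := hev
  have hW := hQ.W0
  have hk0 := hP.kap0
  set R := Q.W ^ 2 * N with hRdef
  set K := Real.log (N : ℝ) with hKdef
  have hK0 : 0 < K := by linarith
  have hWN : N ≤ R := Nat.le_mul_of_pos_left _ (by positivity)
  have hNr : (1 : ℝ) ≤ N := by exact_mod_cast (by omega : 1 ≤ N)
  have hNR : (N : ℝ) ≤ R := by exact_mod_cast hWN
  have hLR0 : 0 < Real.log (R : ℝ) := by linarith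
  have hJJr : (1 : ℝ) ≤ JJ R := by exact_mod_cast hJJ1
  have hMM1 : 1 ≤ MM P R := Nat.one_le_two_pow
  have hMMr : (1 : ℝ) ≤ MM P R := by exact_mod_cast hMM1
  -- the small sieve limit
  have hy0 : (Q.y0 N : ℝ) ≤ K ^ Q.Cp := Nat.floor_le (by positivity)
  have hWy : Q.W ≤ Q.y0 N := by
    refine Nat.le_floor ?_
    exact hWK.trans (le_self_pow₀ hK1 (by have := hQ.Cp; omega))
  have hsets := sets_ok hQ h (Q.W ^ 2) (fun p hp hyp hd => by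
    have h1 := Nat.le_of_dvd hW (hp.dvd_of_dvd_pow hd)
    omega)
  rw [← hRdef] at hsets
  have hkp : kp N ≤ K := by
    have hk : (0 : ℝ) ≤ Q.k := Nat.cast_nonneg _
    have hk1 : (1 : ℝ) ≤ ((Q.k : ℝ) + 1) ^ 4 := one_le_pow₀ (by linarith)
    have h1 : (10 : ℝ) ^ 10 ≤ kp N := by have := h.k0; nlinarith
    rw [hKdef, ← h.Kk]
    exact le_self_pow₀ (by linarith) (by norm_num)
  obtain ⟨m1, m2, m3, m4, m5, m6⟩ := mass_lo hQ h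
  have hmX := W2_famX (Q.sys N) _ m1 m3 m5
  have hmY := W2_famY (Q.sys N) _ m2 m4 m6
  have h23 : 2 / (Real.log (R : ℝ)) ^ 3 ≤ 2 / K ^ 2 := by
    have h1 : K ^ 2 ≤ (Real.log (R : ℝ)) ^ 3 := by
      calc K ^ 2 ≤ (Real.log (R : ℝ)) ^ 2 := by gcongr
        _ ≤ (Real.log (R : ℝ)) ^ 3 := pow_le_pow_right₀ (by linarith) (by norm_num)
    exact div_le_div_of_nonneg_left (by norm_num) (by positivity) h1
  have h13 : 1 / (Real.log (R : ℝ)) ^ 3 ≤ 2 / (Real.log (R : ℝ)) ^ 3 := by gcongr; norm_num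
  have hKR2 : K ≤ (Real.log (R : ℝ)) ^ 2 := hKR.trans (le_self_pow₀ (by linarith) (by norm_num))
  have hcnt := h.cnt
  have hkr : (0 : ℝ) ≤ Q.k := Nat.cast_nonneg _
  have hn0r : (0 : ℝ) ≤ Q.n0 N := Nat.cast_nonneg _
  have hnitr : (0 : ℝ) ≤ Q.nit N := Nat.cast_nonneg _
  have hnpr : (0 : ℝ) ≤ Q.np N := Nat.cast_nonneg _
  have hknit : (0 : ℝ) ≤ Q.k * (Q.nit N : ℝ) := by positivity
  have hknp : (0 : ℝ) ≤ Q.k * ((Q.np N : ℝ) + 1) := by positivity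
  have htup : (N : ℝ) ^ (4 * ((Q.k : ℝ) + 1) * Q.e1) ≤ (R : ℝ) ^ (P.kap / 100) := by
    calc (N : ℝ) ^ (4 * ((Q.k : ℝ) + 1) * Q.e1) ≤ (N : ℝ) ^ (P.kap / 100) :=
          Real.rpow_le_rpow_of_exponent_le hNr he
      _ ≤ _ := Real.rpow_le_rpow (by linarith) hNR (by positivity)
  have hfx : TCF.FamOk P R (Q.y0 N) (famX (Q.sys N)) := by
    refine ⟨by omega, hsets.px, hsets.dx, fun c => ?_, fam_upX hQ h, (totX hQ h).trans hKR2, ?_, fun m hm => ?_⟩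
    · exact (h13.trans h23).trans (hmX c)
    · have h1 : (((Q.k + 1 + Q.n0 N + Q.k * Q.nit N : ℕ)) : ℝ) ≤ Real.log (R : ℝ) := by
        push_cast
        linarith
      exact h1
    · rw [TCB.mem_TUPX] at hm
      obtain ⟨μ, hμ, rfl⟩ := hm
      exact (small_x hQ h hμ).trans htup
  have hfy : TCF.FamOk P R (Q.y0 N) (famY (Q.sys N)) := by
    refine ⟨by omega, hsets.py, hsets.dy, fun c => ?_, fam_upY hQ h, (totY hQ h).trans hKR2, ?_, fun m hm => ?_⟩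
    · exact (h13.trans h23).trans (hmY c)
    · have h1 : (((Q.k + 1 + Q.n0 N + Q.k * (Q.np N + 1) : ℕ)) : ℝ) ≤ Real.log (R : ℝ) := by
        push_cast
        linarith
      exact h1
    · rw [TCB.mem_TUPY] at hm
      obtain ⟨ν, hν, rfl⟩ := hm
      exact (small_y hQ h hν).trans htup
  -- the sizes of `J0`, `J1`
  have hceil : K ^ (Q.Cf + 2 * (Q.k + 1) + 1) ≤ (⌈K ^ (Q.Cf + 2 * (Q.k + 1) + 1)⌉₊ : ℝ) := Nat.le_ceil _
  have hJ0lo : (JJ R : ℝ) ^ 5 * K ^ Q.Cf ≤ J0 P Q N := by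
    unfold J0
    rw [← hRdef]
    push_cast
    refine mul_le_mul_of_nonneg_left ?_ (by positivity)
    refine le_trans ?_ hceil
    exact pow_le_pow_right₀ hK1 (by omega)
  have hJ01 : (J0 P Q N : ℝ) ≤ J1 P Q N := by
    have h1 : J0 P Q N ≤ J1 P Q N := by
      unfold J1 J2
      rw [← hRdef]
      have h2 : 1 ≤ JJ R * (8 * JJ R * MM P R ^ 2) := Nat.one_le_iff_ne_zero.mpr (by positivity)
      calc J0 P Q N = 1 * J0 P Q N := (one_mul _).symm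
        _ ≤ (JJ R * (8 * JJ R * MM P R ^ 2)) * J0 P Q N := Nat.mul_le_mul_right _ h2
        _ = _ := by ring
    exact_mod_cast h1
  have hJ54 : (JJ R : ℝ) ^ 4 ≤ (JJ R : ℝ) ^ 5 := pow_le_pow_right₀ hJJr (by norm_num)
  have hJ53 : (JJ R : ℝ) ^ 3 ≤ (JJ R : ℝ) ^ 5 := pow_le_pow_right₀ hJJr (by norm_num)
  have hrX := rhoX_lo hQ h
  have hrY := rhoY_lo hQ h
  rw [← hKdef] at hrX hrY
  have hrX0 : 0 < rho (famX (Q.sys N)) := by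
    by_contra hneg
    have h1 : K ^ Q.Cf * rho (famX (Q.sys N)) ≤ 0 := mul_nonpos_of_nonneg_of_nonpos (by positivity) (not_lt.mp hneg)
    linarith
  have hrY0 : 0 < rho (famY (Q.sys N)) := by
    by_contra hneg
    have h1 : K ^ Q.Cf * rho (famY (Q.sys N)) ≤ 0 := mul_nonpos_of_nonneg_of_nonpos (by positivity) (not_lt.mp hneg)
    linarith
  have hjy : (JJ R : ℝ) ^ 5 ≤ J0 P Q N * rho (famY (Q.sys N)) := by
    calc (JJ R : ℝ) ^ 5 = (JJ R : ℝ) ^ 5 * 1 := (mul_one _).symm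
      _ ≤ (JJ R : ℝ) ^ 5 * (K ^ Q.Cf * rho (famY (Q.sys N))) := mul_le_mul_of_nonneg_left hrY (by positivity)
      _ = (JJ R : ℝ) ^ 5 * K ^ Q.Cf * rho (famY (Q.sys N)) := by ring
      _ ≤ _ := mul_le_mul_of_nonneg_right hJ0lo hrY0.le
  have hjx : (JJ R : ℝ) ^ 5 ≤ J1 P Q N * rho (famX (Q.sys N)) := by
    calc (JJ R : ℝ) ^ 5 = (JJ R : ℝ) ^ 5 * 1 := (mul_one _).symm
      _ ≤ (JJ R : ℝ) ^ 5 * (K ^ Q.Cf * rho (famX (Q.sys N))) := mul_le_mul_of_nonneg_left hrX (by positivity)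
      _ = (JJ R : ℝ) ^ 5 * K ^ Q.Cf * rho (famX (Q.sys N)) := by ring
      _ ≤ J0 P Q N * rho (famX (Q.sys N)) := mul_le_mul_of_nonneg_right hJ0lo hrX0.le
      _ ≤ _ := mul_le_mul_of_nonneg_right hJ01 hrX0.le
  have hJ1b : (J1 P Q N : ℝ) ≤ K ^ (Q.Cf + 2 * (Q.k + 1) + 2 * P.C1 + 7011) := by
    refine le_trans ?_ hJ1
    push_cast
    have h1 : (1 : ℝ) ≤ (Q.W : ℝ) ^ 2 := one_le_pow₀ (by exact_mod_cast hW)
    have h2 : (0 : ℝ) ≤ J1 P Q N := Nat.cast_nonneg _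
    nlinarith
  have hy1 : JJ R ^ 4 * MM P R ^ 4 * J1 P Q N ≤ Q.y0 N := by
    refine Nat.le_floor ?_
    push_cast
    rw [← hKdef]
    calc (JJ R : ℝ) ^ 4 * (MM P R : ℝ) ^ 4 * J1 P Q N
        ≤ (K ^ 1001) ^ 4 * (K ^ (P.C1 + 1)) ^ 4 * K ^ (Q.Cf + 2 * (Q.k + 1) + 2 * P.C1 + 7011) := by gcongr
      _ = K ^ (1001 * 4 + (P.C1 + 1) * 4 + (Q.Cf + 2 * (Q.k + 1) + 2 * P.C1 + 7011)) := by
          rw [← pow_mul, ← pow_mul, ← pow_add, ← pow_add]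
      _ ≤ K ^ Q.Cp := pow_le_pow_right₀ hK1 hexp
  have hJ0pos : 0 < J0 P Q N := by
    have h1 : (0 : ℝ) < J0 P Q N := lt_of_lt_of_le (by positivity) hJ0lo
    exact_mod_cast h1
  have hok : (fdat P Q N).Ok P R := by
    refine ⟨hfx, hfy, hy1, ?_, hJ0pos, ?_, ?_, hJ53.trans hjy, hJ53.trans hjx⟩
    · refine hy0.trans (hpw.trans ?_)
      exact Real.rpow_le_rpow (by linarith) hNR (by positivity)
    · exact le_refl _
    · exact le_refl _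
  exact ⟨hok, fun c => h23.trans (hmX c), fun c => h23.trans (hmY c), hJ54.trans hjy, hJ54.trans hjx⟩

end MPar

end Pool.Agent.Lib.TC
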