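import Pool.Agent.Lib.MP_7b7e48_nt.BR3.W
import Pool.Agent.Lib.MP_7b7e48_nt.BR3.W2
import Pool.Agent.Lib.MP_7b7e48_nt.TC.T06
import Pool.Agent.Lib.MP_7b7e48_nt.TC.CycLam

/-!
# BR3.V1 (90 minutes): the exceptional classes (BR4): every bad class is determined by small data and one exceptional number

`S = Q.sys N`, `R = W ^ 2 N`, `T` (its `D` is irrelevant), `κ = ±1`, `EX` = the `n < N` in `T.SSet` with `λ(n) λ(N - n) = κ`. `AFC` = the classes `y` modulo `R` for which there are `l`, `X`, `Y`, `t`, `t'` with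
`Mul P R l`, `X ≡ l Y`, `Y` in the class `y`, `l Y < X ≤ J1 R`, `LkS S T X t (l Y) t'` and `λ(X) ≠ λ(l Y)`.
`Dta` = the data `(l, α, β, A, B, e, i, s, n)`; `Rel d y`: there are `X`, `Y`, `μ ∈ MX`, `ν ∈ MY`, `c`, `e`, `t` with `Mul P R l`, `l Y < X`, `X ≤ J1 R`, `X ≡ l Y mod R`, `Y` in the class `y`,
`Good (wD T ((X - l Y) / N)) c μ ν X e t`, `α = μ.1`, `β = ν.1`, `A j = AA j`, `B j = BB j` (`j < k`), `e k = e`, and `e i AA i = n` (`s = true`) or `e i BB i = n` (`s = false`).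

PROOF of `af_rel`. Unfold `LkS`, `Linked`: `Good c μ ν X e t` with `D = (X - l Y) / N`; `N ∣ R ∣ X - l Y`, so `D N = X - l Y` and `X - D N = l Y`. If all the numbers `n = e i A i`, `e i B i` (`i ≤ k`) had
`λ(n) λ(N - n) ≠ κ`, then `λ(N - n) = -κ λ(n)` (`lam_pm`), and `Cyc.lam_eq` with `-κ` gives `λ(∏ al A) = λ(∏ be B)`, that is `λ(X) = λ(l Y)` (`prodA`, `prodB`): contradiction. (Positivity: `A i > 0` because
`∏ al i A i = X > 0`; the same for `B`, `l Y > 0`: `Y > 0` since `l Y = ∏ be B` .. if `l Y = 0` then `λ(l Y)` .. avoid: `SSet` gives `0 < e i B i`, so `B i > 0`; `ext1 ν.1 i` is a prime.) So for one `i ≤ k` and one side the number `n` is in `EX`.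
PROOF of `af_det`. Two relations with the same data: `T06` (`m = k + 1 ≥ 2`; the `al`, `be` are the same functions `ext1 α`, `ext1 β`; `A i = A' i`, `B i = B' i` for `i < k`; `e k = e' k`; the same number `n`): so
`B i = B' i` for all `i ≤ k`, hence `l Y = ∏ be i B i = l Y'` and `Y = Y'` (`l > 0`: `Mul`).
-/

set_option autoImplicit false

open Finset

namespace Pool.Agent.Lib.TC

open Pool.Agent.Lib.TCB (famX famY LkS wD)
open Pool.Agent.Lib.TCF (Mul)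
open Pool.Agent.Lib.RH (Prm)
open Pool.Agent.Lib.MP_45349e_nt.LS (lam)

namespace MPar

open Classical in
/-- the exceptional numbers -/
noncomputable def EX (T : Dat) (κ : ℝ) : Finset ℕ := (range T.N).filter fun n => T.SSet n ∧ lam n * lam (T.N - n) = κ

open Classical in
/-- the exceptional classes -/
noncomputable def AFC (P : Prm) (Q : MPar) (N : ℕ) (T : Dat) (J : ℕ) [NeZero (Q.W ^ 2 * N)] : Finset (ZMod (Q.W ^ 2 * N)) :=
  univ.filter fun y => ∃ l X Y t t' : ℕ, Mul P (Q.W ^ 2 * N) l ∧ ((X : ℕ) : ZMod (Q.W ^ 2 * N)) = (l : ZMod (Q.W ^ 2 * N)) * ((Y : ℕ) : ZMod (Q.W ^ 2 * N)) ∧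
    ((Y : ℕ) : ZMod (Q.W ^ 2 * N)) = y ∧ l * Y < X ∧ X ≤ J * (Q.W ^ 2 * N) ∧ LkS (Q.sys N) T X t (l * Y) t' ∧ lam X ≠ lam (l * Y)

/-- the small data of an exceptional class -/
structure Dta (k : ℕ) where
  l : ℕ
  α : Fin (k + 1) → ℕ
  β : Fin (k + 1) → ℕ
  A : Fin k → ℕ
  B : Fin k → ℕ
  e : ℕ
  i : ℕ
  s : Bool
  n : ℕ

/-- the relation between the data and the class -/
structure Rel (P : Prm) (Q : MPar) (N : ℕ) (T : Dat) (J : ℕ) (κ : ℝ) (d : Dta Q.k) (y : ZMod (Q.W ^ 2 * N)) (X Y : ℕ) (μ : (Q.sys N).TX) (ν : (Q.sys N).TY)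
    (c : (Q.sys N).Col) (e t : ℕ → ℕ) : Prop where
  hl : Mul P (Q.W ^ 2 * N) d.l
  hX : ((X : ℕ) : ZMod (Q.W ^ 2 * N)) = (d.l : ZMod (Q.W ^ 2 * N)) * ((Y : ℕ) : ZMod (Q.W ^ 2 * N))
  hY : ((Y : ℕ) : ZMod (Q.W ^ 2 * N)) = y
  hXY : d.l * Y < X
  hXJ : X ≤ J * (Q.W ^ 2 * N)
  hμ : μ ∈ (Q.sys N).MX
  hν : ν ∈ (Q.sys N).MY
  good : (Q.sys N).Good (wD T ((X - d.l * Y) / T.N)) c μ ν X e t
  hα : d.α = μ.1
  hβ : d.β = ν.1
  hA : ∀ j : Fin Q.k, d.A j = (Q.sys N).AA N c μ ν X j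
  hB : ∀ j : Fin Q.k, d.B j = (Q.sys N).BB N c μ ν (d.l * Y) j
  he : e Q.k = d.e
  hi : d.i < Q.k + 1
  hn : (d.s = true ∧ e d.i * (Q.sys N).AA N c μ ν X d.i = d.n) ∨ (d.s = false ∧ e d.i * (Q.sys N).BB N c μ ν (d.l * Y) d.i = d.n)
  hE : d.n ∈ EX T κ

/-- positivity of the windows -/
private theorem ext_pos {n : ℕ} {a : Fin n → ℕ} (h : ∀ i, 0 < a i) (i : ℕ) : 0 < ext1 a i := by
  unfold ext1
  split_ifs with hi
  · exact h _
  · exact Nat.one_pos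

private theorem wx_pos {Q : MPar} {N : ℕ} {μ : (Q.sys N).TX} (hμ : μ ∈ (Q.sys N).MX) (i) : 0 < μ.1 i := by
  unfold MS.MX at hμ
  rw [mem_product, Fintype.mem_piFinset] at hμ
  have h := hμ.1 i
  change μ.1 i ∈ Q.WXs N i at h
  unfold WXs at h
  rw [mem_filter] at h
  exact h.2.1.pos

private theorem wy_pos {Q : MPar} {N : ℕ} {ν : (Q.sys N).TY} (hν : ν ∈ (Q.sys N).MY) (i) : 0 < ν.1 i := by
  unfold MS.MY at hν
  rw [mem_product, Fintype.mem_piFinset] at hν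
  have h := hν.1 i
  change ν.1 i ∈ Q.WYs N i at h
  unfold WYs at h
  rw [mem_filter] at h
  exact h.2.1.pos

/-- `D N = X - l Y` -/
private theorem div_eq {Q : MPar} {N : ℕ} {T : Dat} (hT : T.N = N) {l X Y : ℕ}
    (hX : ((X : ℕ) : ZMod (Q.W ^ 2 * N)) = (l : ZMod (Q.W ^ 2 * N)) * ((Y : ℕ) : ZMod (Q.W ^ 2 * N))) (hXY : l * Y < X) :
    X - (X - l * Y) / T.N * T.N = l * Y := by
  have h1 : (Q.W ^ 2 * N) ∣ X - l * Y := by
    rw [← Nat.modEq_iff_dvd' hXY.le]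
    rw [← ZMod.natCast_eq_natCast_iff]
    push_cast
    exact hX.symm
  have h2 : T.N ∣ X - l * Y := by
    rw [hT]
    exact (Dvd.intro_left _ rfl).trans h1
  rw [Nat.div_mul_cancel h2]
  omega

theorem af_rel {P : Prm} {Q : MPar} (_hQ : Q.Ok) {N : ℕ} (_h : Q.Lg N) [NeZero (Q.W ^ 2 * N)] {T : Dat} (hT : T.N = N) (J : ℕ) {κ : ℝ} (hκ : κ = 1 ∨ κ = -1)
    {y : ZMod (Q.W ^ 2 * N)} (hy : y ∈ AFC P Q N T J) : ∃ d X Y μ ν c e t, Rel P Q N T J κ d y X Y μ ν c e t := by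
  classical
  subst hT
  unfold AFC at hy
  simp only [mem_filter, mem_univ, true_and] at hy
  obtain ⟨l, X, Y, t, t', hl, hX, hY, hXY, hXJ, hL, hne⟩ := hy
  obtain ⟨μ, hμ, ν, hν, _, _, c, e, t, hG⟩ := hL
  have hd := div_eq (T := T) rfl hX hXY
  -- one of the numbers is exceptional
  have key : ∃ i < Q.k + 1, (e i * (Q.sys T.N).AA T.N c μ ν X i ∈ EX T κ) ∨ (e i * (Q.sys T.N).BB T.N c μ ν (l * Y) i ∈ EX T κ) := by
    by_contra hcon
    push Not at hcon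
    have hA : ∀ i < Q.k + 1, lam (T.N - e i * (Q.sys T.N).AA T.N c μ ν X i) = -κ * lam (e i * (Q.sys T.N).AA T.N c μ ν X i) := by
      intro i hi
      have h1 := (hcon i hi).1
      have h2 := hG.setA i hi
      change T.SSet (e i * (Q.sys T.N).AA T.N c μ ν X i) at h2
      have h3 : lam (e i * (Q.sys T.N).AA T.N c μ ν X i) * lam (T.N - e i * (Q.sys T.N).AA T.N c μ ν X i) ≠ κ := by
        intro h4
        apply h1
        unfold EX
        simp only [mem_filter, mem_range]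
        exact ⟨h2.2.1, h2, h4⟩
      rcases lam_pm (e i * (Q.sys T.N).AA T.N c μ ν X i) with q | q <;>
        rcases lam_pm (T.N - e i * (Q.sys T.N).AA T.N c μ ν X i) with q' | q' <;> rcases hκ with r | r <;>
        rw [q, q', r] at h3 <;> first | (exfalso; apply h3; norm_num; done) | (rw [q, q', r]; norm_num)
    have hB : ∀ i < Q.k + 1, lam (T.N - e i * (Q.sys T.N).BB T.N c μ ν (l * Y) i) = -κ * lam (e i * (Q.sys T.N).BB T.N c μ ν (l * Y) i) := by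
      intro i hi
      have h1 := (hcon i hi).2
      have h2 := hG.setB i hi
      change T.SSet (e i * (Q.sys T.N).BB T.N c μ ν (X - (X - l * Y) / T.N * T.N) i) at h2
      rw [hd] at h2
      have h3 : lam (e i * (Q.sys T.N).BB T.N c μ ν (l * Y) i) * lam (T.N - e i * (Q.sys T.N).BB T.N c μ ν (l * Y) i) ≠ κ := by
        intro h4
        apply h1
        unfold EX
        simp only [mem_filter, mem_range]
        exact ⟨h2.2.1, h2, h4⟩
      rcases lam_pm (e i * (Q.sys T.N).BB T.N c μ ν (l * Y) i) with q | q <;>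
        rcases lam_pm (T.N - e i * (Q.sys T.N).BB T.N c μ ν (l * Y) i) with q' | q' <;> rcases hκ with r | r <;>
        rw [q, q', r] at h3 <;> first | (exfalso; apply h3; norm_num; done) | (rw [q, q', r]; norm_num)
    have hcyc := hG.cyc
    change Cyc T.N (Q.k + 1) ((Q.sys T.N).AA T.N c μ ν X) ((Q.sys T.N).BB T.N c μ ν (X - (X - l * Y) / T.N * T.N)) (ext1 μ.1) (ext1 ν.1) e t at hcyc
    rw [hd] at hcyc
    have pA : ∀ i < Q.k + 1, 0 < (Q.sys T.N).AA T.N c μ ν X i := by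
      intro i hi
      have h2 := (hG.setA i hi).1
      exact Nat.pos_of_mul_pos_left h2
    have pB : ∀ i < Q.k + 1, 0 < (Q.sys T.N).BB T.N c μ ν (l * Y) i := by
      intro i hi
      have h2 := hG.setB i hi
      change T.SSet (e i * (Q.sys T.N).BB T.N c μ ν (X - (X - l * Y) / T.N * T.N) i) at h2
      rw [hd] at h2
      exact Nat.pos_of_mul_pos_left h2.1
    have hlam := hcyc.lam_eq (Nat.succ_pos _) pA pB (fun i _ => ext_pos (wx_pos hμ) i) (fun i _ => ext_pos (wy_pos hν) i)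
      (κ := -κ) (by rcases hκ with r | r <;> rw [r] <;> norm_num) hA hB
    have h5 := hG.prodA
    have h6 := hG.prodB
    change ∏ i ∈ range (Q.k + 1), ext1 μ.1 i * (Q.sys T.N).AA T.N c μ ν X i = X at h5
    change ∏ i ∈ range (Q.k + 1), ext1 ν.1 i * (Q.sys T.N).BB T.N c μ ν (X - (X - l * Y) / T.N * T.N) i = X - (X - l * Y) / T.N * T.N at h6
    rw [hd] at h6
    rw [h5, h6] at hlam
    exact hne hlam
  obtain ⟨i, hi, hor⟩ := key
  rcases hor with hn | hn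
  · exact ⟨⟨l, μ.1, ν.1, fun j => (Q.sys T.N).AA T.N c μ ν X j, fun j => (Q.sys T.N).BB T.N c μ ν (l * Y) j, e Q.k, i, true,
      e i * (Q.sys T.N).AA T.N c μ ν X i⟩, X, Y, μ, ν, c, e, t, ⟨hl, hX, hY, hXY, hXJ, hμ, hν, hG, rfl, rfl, fun _ => rfl, fun _ => rfl, rfl, hi,
      Or.inl ⟨rfl, rfl⟩, hn⟩⟩
  · exact ⟨⟨l, μ.1, ν.1, fun j => (Q.sys T.N).AA T.N c μ ν X j, fun j => (Q.sys T.N).BB T.N c μ ν (l * Y) j, e Q.k, i, false,
      e i * (Q.sys T.N).BB T.N c μ ν (l * Y) i⟩, X, Y, μ, ν, c, e, t, ⟨hl, hX, hY, hXY, hXJ, hμ, hν, hG, rfl, rfl, fun _ => rfl, fun _ => rfl, rfl, hi,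
      Or.inr ⟨rfl, rfl⟩, hn⟩⟩

theorem af_det {P : Prm} {Q : MPar} (hQ : Q.Ok) {N : ℕ} (_h : Q.Lg N) {T : Dat} (hT : T.N = N) {J : ℕ} {κ : ℝ}
    {d : Dta Q.k} {y y' : ZMod (Q.W ^ 2 * N)} {X Y X' Y' : ℕ} {μ μ' : (Q.sys N).TX} {ν ν' : (Q.sys N).TY} {c c' : (Q.sys N).Col} {e t e' t' : ℕ → ℕ}
    (r : Rel P Q N T J κ d y X Y μ ν c e t) (r' : Rel P Q N T J κ d y' X' Y' μ' ν' c' e' t') : y = y' := by
  subst hT
  have hd := div_eq (T := T) rfl r.hX r.hXY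
  have hd' := div_eq (T := T) rfl r'.hX r'.hXY
  have hm : μ.1 = μ'.1 := r.hα.symm.trans r'.hα
  have hn : ν.1 = ν'.1 := r.hβ.symm.trans r'.hβ
  have cy := r.good.cyc
  change Cyc T.N (Q.k + 1) ((Q.sys T.N).AA T.N c μ ν X) ((Q.sys T.N).BB T.N c μ ν (X - (X - d.l * Y) / T.N * T.N)) (ext1 μ.1) (ext1 ν.1) e t at cy
  rw [hd] at cy
  have cy' := r'.good.cyc
  change Cyc T.N (Q.k + 1) ((Q.sys T.N).AA T.N c' μ' ν' X') ((Q.sys T.N).BB T.N c' μ' ν' (X' - (X' - d.l * Y') / T.N * T.N)) (ext1 μ'.1) (ext1 ν'.1) e' t' at cy'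
  rw [hd', ← hm, ← hn] at cy'
  have pA : ∀ i < Q.k + 1, 0 < (Q.sys T.N).AA T.N c μ ν X i := by
    intro i hi
    have h2 := (r.good.setA i hi).1
    change 0 < e i * (Q.sys T.N).AA T.N c μ ν X i at h2
    exact Nat.pos_of_mul_pos_left h2
  have pB : ∀ i < Q.k + 1, 0 < (Q.sys T.N).BB T.N c μ ν (d.l * Y) i := by
    intro i hi
    have h2 := (r.good.setB i hi).1
    change 0 < e i * (Q.sys T.N).BB T.N c μ ν (X - (X - d.l * Y) / T.N * T.N) i at h2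
    rw [hd] at h2
    exact Nat.pos_of_mul_pos_left h2
  have hk := hQ.k1
  have hres := T06 (by omega) cy cy' pA pB (fun i _ => ext_pos (wx_pos r.hμ) i) (fun i _ => ext_pos (wy_pos r.hν) i)
    (fun i hi => by
      have hi' : i < Q.k := by omega
      exact ⟨(r.hA ⟨i, hi'⟩).symm.trans (r'.hA ⟨i, hi'⟩), (r.hB ⟨i, hi'⟩).symm.trans (r'.hB ⟨i, hi'⟩)⟩)
    (by rw [Nat.add_sub_cancel]; exact r.he.trans r'.he.symm) (i₀ := d.i) r.hi (by
      rcases r.hn with ⟨h1, h2⟩ | ⟨h1, h2⟩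
      · rcases r'.hn with ⟨h3, h4⟩ | ⟨h3, h4⟩
        · exact Or.inl (h2.trans h4.symm)
        · rw [h1] at h3; cases h3
      · rcases r'.hn with ⟨h3, h4⟩ | ⟨h3, h4⟩
        · rw [h1] at h3; cases h3
        · exact Or.inr (h2.trans h4.symm))
  have h6 := r.good.prodB
  change ∏ i ∈ range (Q.k + 1), ext1 ν.1 i * (Q.sys T.N).BB T.N c μ ν (X - (X - d.l * Y) / T.N * T.N) i = X - (X - d.l * Y) / T.N * T.N at h6
  rw [hd] at h6
  have h6' := r'.good.prodB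
  change ∏ i ∈ range (Q.k + 1), ext1 ν'.1 i * (Q.sys T.N).BB T.N c' μ' ν' (X' - (X' - d.l * Y') / T.N * T.N) i = X' - (X' - d.l * Y') / T.N * T.N at h6'
  rw [hd', ← hn] at h6'
  have h7 : d.l * Y = d.l * Y' := by
    rw [← h6, ← h6']
    refine prod_congr rfl fun i hi => ?_
    rw [(hres i (mem_range.1 hi)).2.2.2]
  have hl0 : 0 < d.l := by
    have h8 : 0 < ∏ i ∈ range (Q.k + 1), ext1 ν.1 i * (Q.sys T.N).BB T.N c μ ν (d.l * Y) i :=
      prod_pos fun i hi => Nat.mul_pos (ext_pos (wy_pos r.hν) i) (pB i (mem_range.1 hi))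
    rw [h6] at h8
    exact Nat.pos_of_mul_pos_right h8
  have h9 : Y = Y' := Nat.eq_of_mul_eq_mul_left hl0 h7
  rw [← r.hY, ← r'.hY, h9]

end MPar

end Pool.Agent.Lib.TC
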