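import Pool.Agent.Lib.MP_7b7e48_nt.BR3.V1

/-!
# BR3.V2 (80 minutes): the number of the exceptional classes

`rel_bd`: for a relation: `l ≤ 4 MM ^ 2` (`Mul`: `l = 1` or `l ∈ PZ R MM ⊆ (MM, 4 MM^2]`), `α i, β i ≤ 4 Z i ≤ N ^ (3 (k+1) e1)` (`w_ok`, `wi_le`), `A j, B j ≤ exp (κ ^ 80)` (`AA_le`, `comp`), `e ≤ N ^ (4 (k+1) e1)`:
`e k AA k < N ≤ D N < X = ∏_{i ≤ k} α i AA i` (`Cyc.ltE`, `D ≥ 1` as `D N = X - l Y > 0`), so `e k < ∏_{i ≤ k} α i ∏_{i < k} AA i ≤ prX id μ` (`∏_{i<k} fX oX` divides the product of the free and other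
marks: every mark has one colour) `≤ N ^ (4 (k+1) e1)` (`small_x`).
`af_card`: the data are in `range (4 MM^2 + 1) × (range (a + 1)) ^ (2 (k + 1)) × (range (b + 1)) ^ (2 k) × range (c + 1) × range (k + 1) × Bool × EX`, `a = ⌊N ^ (3(k+1) e1)⌋`, `b = ⌊exp (κ ^ 80)⌋`, `c = ⌊N ^ (4 (k+1) e1)⌋`;
choose for every class of `AFC` a datum (`af_rel`), injective by `af_det`: `|AFC| ≤` the product of the cardinalities (`Finset.card_le_card_of_injOn`; `Dta` is in bijection with a product type; `Fintype.card_piFinset_const`).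
-/

set_option autoImplicit false

open Finset

namespace Pool.Agent.Lib.TC

open Pool.Agent.Lib.RH (Prm MM)

namespace MPar

private theorem V2_wx {Q : MPar} {N : ℕ} {μ : (Q.sys N).TX} (hμ : μ ∈ (Q.sys N).MX) :
    (∀ i : Fin ((Q.sys N).k + 1), μ.1 i ∈ Q.WXs N i) ∧ (∀ f : Fin (Q.sys N).n0, μ.2.1 f ∈ (Q.sys N).FX f) ∧
      ∀ e : Fin (Q.sys N).nX, μ.2.2 e ∈ (Q.sys N).OX e := by
  unfold MS.MX at hμ
  rw [mem_product, mem_product, Fintype.mem_piFinset, Fintype.mem_piFinset, Fintype.mem_piFinset] at hμ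
  exact ⟨fun i => hμ.1 i, fun f => hμ.2.1 f, fun e => hμ.2.2 e⟩

private theorem V2_wy {Q : MPar} {N : ℕ} {ν : (Q.sys N).TY} (hν : ν ∈ (Q.sys N).MY)
    (i : Fin ((Q.sys N).k + 1)) : ν.1 i ∈ Q.WYs N i := by
  unfold MS.MY at hν
  rw [mem_product, Fintype.mem_piFinset] at hν
  exact hν.1 i

/-- the product of the short cofactors is at most the product of the marks -/
private theorem V2_prod {Q : MPar} (hQ : Q.Ok) {N : ℕ} (h : Q.Lg N) (c : (Q.sys N).Col) {μ : (Q.sys N).TX} (hμ : μ ∈ (Q.sys N).MX)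
    (ν : (Q.sys N).TY) (X : ℕ) :
    (∏ i ∈ range (Q.k + 1), ext1 μ.1 i) * ∏ i ∈ range Q.k, (Q.sys N).AA N c μ ν X i ≤ (Q.sys N).prX id μ := by
  obtain ⟨_, h2, h3⟩ := V2_wx hμ
  have p2 : ∀ f, 1 ≤ μ.2.1 f := fun f => (nw_ok hQ h (Or.inl ⟨f, h2 f⟩)).1.one_lt.le
  have p3 : ∀ e, 1 ≤ μ.2.2 e := fun e => (nw_ok hQ h (Or.inr (Or.inr (Or.inl ⟨e, h3 e⟩)))).1.one_lt.le
  have e1 : ∏ i ∈ range (Q.k + 1), ext1 μ.1 i = ∏ i, μ.1 i := by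
    change ∏ i ∈ range ((Q.sys N).k + 1), ext1 μ.1 i = ∏ i, μ.1 i
    rw [← Fin.prod_univ_eq_prod_range (fun i => ext1 μ.1 i) ((Q.sys N).k + 1)]
    refine prod_congr rfl fun i _ => ?_
    unfold ext1
    rw [dif_pos i.2]
  have e2 : ∏ i ∈ range Q.k, (Q.sys N).AA N c μ ν X i = (∏ i ∈ range Q.k, (Q.sys N).fX id c μ i) * ∏ i ∈ range Q.k, (Q.sys N).oX N id c μ ν i := by
    rw [← prod_mul_distrib]
    refine prod_congr rfl fun i hi => ?_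
    have hi' : i < (Q.sys N).k := mem_range.1 hi
    unfold MS.AA
    rw [if_pos hi']
  have e3 : ∏ i ∈ range Q.k, (Q.sys N).fX id c μ i ≤ ∏ f, μ.2.1 f := by
    have h4 : ∏ i ∈ range (Q.k + 1), (Q.sys N).fX id c μ i = ∏ f, μ.2.1 f := by
      unfold MS.fX
      exact prod_fiberwise_of_maps_to (fun f _ => mem_range.2 (c (Sum.inl f)).2) _
    rw [← h4, prod_range_succ]
    refine Nat.le_mul_of_pos_right _ ?_
    unfold MS.fX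
    exact prod_pos fun f _ => p2 f
  have e4 : ∏ i ∈ range Q.k, (Q.sys N).oX N id c μ ν i ≤ ∏ e, μ.2.2 e := by
    have h4 : ∏ i ∈ range (Q.k + 1), (Q.sys N).oX N id c μ ν i = ∏ e, μ.2.2 e := by
      unfold MS.oX
      exact prod_fiberwise_of_maps_to (fun e _ => mem_range.2 ((Q.sys N).kX N c μ ν e).2) _
    rw [← h4, prod_range_succ]
    refine Nat.le_mul_of_pos_right _ ?_
    unfold MS.oX
    exact prod_pos fun e _ => p3 e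
  rw [e1, e2]
  change (∏ i, μ.1 i) * _ ≤ (∏ i, μ.1 i) * (∏ f, μ.2.1 f) * ∏ e, μ.2.2 e
  rw [mul_assoc]
  exact Nat.mul_le_mul_left _ (Nat.mul_le_mul e3 e4)

theorem rel_bd {P : Prm} {Q : MPar} (hQ : Q.Ok) {N : ℕ} (h : Q.Lg N) {T : Dat} (hT : T.N = N) {J : ℕ} {κ : ℝ}
    {d : Dta Q.k} {y : ZMod (Q.W ^ 2 * N)} {X Y : ℕ} {μ : (Q.sys N).TX} {ν : (Q.sys N).TY} {c : (Q.sys N).Col} {e t : ℕ → ℕ}
    (r : Rel P Q N T J κ d y X Y μ ν c e t) : d.l ≤ 4 * MM P (Q.W ^ 2 * N) ^ 2 + 1 ∧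
      (∀ i, (d.α i : ℝ) ≤ (N : ℝ) ^ (3 * ((Q.k : ℝ) + 1) * Q.e1)) ∧ (∀ i, (d.β i : ℝ) ≤ (N : ℝ) ^ (3 * ((Q.k : ℝ) + 1) * Q.e1)) ∧
      (∀ j, (d.A j : ℝ) ≤ Real.exp ((kp N) ^ 80)) ∧ (∀ j, (d.B j : ℝ) ≤ Real.exp ((kp N) ^ 80)) ∧ (d.e : ℝ) ≤ (N : ℝ) ^ (4 * ((Q.k : ℝ) + 1) * Q.e1) := by
  have hcast : ∀ {p i : ℕ}, i ≤ Q.k → p ≤ 4 * Q.Z N i → (p : ℝ) ≤ (N : ℝ) ^ (3 * ((Q.k : ℝ) + 1) * Q.e1) := by
    intro p i hi hp
    refine le_trans ?_ (wi_le hQ h hi)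
    exact_mod_cast hp
  refine ⟨?_, ?_, ?_, ?_, ?_, ?_⟩
  · rcases r.hl with h1 | h1
    · rw [h1]; omega
    · unfold Pool.Agent.Lib.RG.PZ at h1
      rw [mem_filter, mem_Ioc] at h1
      omega
  · intro i
    rw [r.hα]
    have hi : (i : ℕ) ≤ Q.k := Nat.lt_succ_iff.1 i.2
    exact hcast hi (w_ok hQ h hi (Or.inl ((V2_wx r.hμ).1 i))).2.2.2
  · intro i
    rw [r.hβ]
    have hi : (i : ℕ) ≤ Q.k := Nat.lt_succ_iff.1 i.2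
    exact hcast hi (w_ok hQ h hi (Or.inr (V2_wy r.hν i))).2.2.2
  · intro j
    rw [r.hA j]
    exact AA_le hQ h c r.hμ r.hν X j.2
  · intro j
    rw [r.hB j]
    refine le_trans ?_ (AA_le hQ h c r.hμ r.hν X j.2)
    exact_mod_cast (comp hQ h c r.hμ r.hν X (d.l * Y) j.2).1.le
  · subst hT
    have hX := r.hX
    have h1 : (Q.W ^ 2 * T.N) ∣ X - d.l * Y := by
      rw [← Nat.modEq_iff_dvd' r.hXY.le]
      rw [← ZMod.natCast_eq_natCast_iff]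
      push_cast
      exact hX.symm
    have h2 : T.N ∣ X - d.l * Y := (Dvd.intro_left _ rfl).trans h1
    have hXY := r.hXY
    have h3 : T.N ≤ X - d.l * Y := Nat.le_of_dvd (by omega) h2
    have cy := r.good.cyc
    change Cyc T.N (Q.k + 1) ((Q.sys T.N).AA T.N c μ ν X) _ (ext1 μ.1) (ext1 ν.1) e t at cy
    have hb : ∀ i < Q.k + 1, 0 < ext1 ν.1 i := by
      intro i hi
      unfold ext1
      have hi' : i < (Q.sys T.N).k + 1 := hi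
      rw [dif_pos hi']
      exact (w_ok hQ h (Nat.lt_succ_iff.1 hi) (Or.inr (V2_wy r.hν ⟨i, hi'⟩))).1.pos
    have h4 := cy.ltE hb (Nat.lt_succ_self Q.k)
    have h5 := r.good.prodA
    change ∏ i ∈ range (Q.k + 1), ext1 μ.1 i * (Q.sys T.N).AA T.N c μ ν X i = X at h5
    rw [prod_mul_distrib, prod_range_succ (fun i => (Q.sys T.N).AA T.N c μ ν X i), ← mul_assoc] at h5
    have h6 : e Q.k * (Q.sys T.N).AA T.N c μ ν X Q.k < ((∏ i ∈ range (Q.k + 1), ext1 μ.1 i) * ∏ i ∈ range Q.k, (Q.sys T.N).AA T.N c μ ν X i) *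
        (Q.sys T.N).AA T.N c μ ν X Q.k := by
      rw [h5]; omega
    have h7 := Nat.lt_of_mul_lt_mul_right h6
    have h8 := V2_prod hQ h c r.hμ ν X
    rw [← r.he]
    refine le_trans ?_ (small_x hQ h r.hμ)
    exact_mod_cast (h7.le.trans h8)

theorem af_card {P : Prm} {Q : MPar} (hQ : Q.Ok) {N : ℕ} (h : Q.Lg N) [NeZero (Q.W ^ 2 * N)] {T : Dat} (hT : T.N = N) (J : ℕ) {κ : ℝ} (hκ : κ = 1 ∨ κ = -1) :
    ((AFC P Q N T J).card : ℝ) ≤ (4 * (MM P (Q.W ^ 2 * N) : ℝ) ^ 2 + 2) * ((N : ℝ) ^ (3 * ((Q.k : ℝ) + 1) * Q.e1) + 1) ^ (2 * (Q.k + 1)) *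
      (Real.exp ((kp N) ^ 80) + 1) ^ (2 * Q.k) * ((N : ℝ) ^ (4 * ((Q.k : ℝ) + 1) * Q.e1) + 1) * (2 * (Q.k + 1)) * (EX T κ).card := by
  classical
  set a : ℕ := ⌊(N : ℝ) ^ (3 * ((Q.k : ℝ) + 1) * Q.e1)⌋₊ with ha
  set b : ℕ := ⌊Real.exp ((kp N) ^ 80)⌋₊ with hb
  set g : ℕ := ⌊(N : ℝ) ^ (4 * ((Q.k : ℝ) + 1) * Q.e1)⌋₊ with hg
  have ha1 : (a : ℝ) ≤ (N : ℝ) ^ (3 * ((Q.k : ℝ) + 1) * Q.e1) := Nat.floor_le (Real.rpow_nonneg (Nat.cast_nonneg _) _)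
  have hb1 : (b : ℝ) ≤ Real.exp ((kp N) ^ 80) := Nat.floor_le (Real.exp_pos _).le
  have hg1 : (g : ℝ) ≤ (N : ℝ) ^ (4 * ((Q.k : ℝ) + 1) * Q.e1) := Nat.floor_le (Real.rpow_nonneg (Nat.cast_nonneg _) _)
  let DD : Finset (ℕ × (Fin (Q.k + 1) → ℕ) × (Fin (Q.k + 1) → ℕ) × (Fin Q.k → ℕ) × (Fin Q.k → ℕ) × ℕ × ℕ × Bool × ℕ) :=
    range (4 * MM P (Q.W ^ 2 * N) ^ 2 + 2) ×ˢ Fintype.piFinset (fun _ => range (a + 1)) ×ˢ Fintype.piFinset (fun _ => range (a + 1)) ×ˢ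
      Fintype.piFinset (fun _ => range (b + 1)) ×ˢ Fintype.piFinset (fun _ => range (b + 1)) ×ˢ range (g + 1) ×ˢ range (Q.k + 1) ×ˢ
      (univ : Finset Bool) ×ˢ EX T κ
  have hcard : (AFC P Q N T J).card ≤ DD.card := by
    refine card_le_card_of_forall_subsingleton (fun y x => ∃ X Y μ ν c e t,
      Rel P Q N T J κ ⟨x.1, x.2.1, x.2.2.1, x.2.2.2.1, x.2.2.2.2.1, x.2.2.2.2.2.1, x.2.2.2.2.2.2.1, x.2.2.2.2.2.2.2.1, x.2.2.2.2.2.2.2.2⟩ y X Y μ ν c e t) ?_ ?_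
    · intro y hy
      obtain ⟨d, X, Y, μ, ν, c, e, t, r⟩ := af_rel hQ h hT J hκ hy
      obtain ⟨b1, b2, b3, b4, b5, b6⟩ := rel_bd hQ h hT r
      refine ⟨(d.l, d.α, d.β, d.A, d.B, d.e, d.i, d.s, d.n), ?_, X, Y, μ, ν, c, e, t, r⟩
      simp only [DD, mem_product, mem_range, Fintype.mem_piFinset, mem_univ, true_and]
      refine ⟨by omega, fun i => ?_, fun i => ?_, fun j => ?_, fun j => ?_, ?_, r.hi, r.hE⟩
      · exact Nat.lt_succ_of_le (Nat.le_floor (b2 i))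
      · exact Nat.lt_succ_of_le (Nat.le_floor (b3 i))
      · exact Nat.lt_succ_of_le (Nat.le_floor (b4 j))
      · exact Nat.lt_succ_of_le (Nat.le_floor (b5 j))
      · exact Nat.lt_succ_of_le (Nat.le_floor b6)
    · intro x _ y hy y' hy'
      obtain ⟨X, Y, μ, ν, c, e, t, r⟩ := hy.2
      obtain ⟨X', Y', μ', ν', c', e', t', r'⟩ := hy'.2
      exact af_det hQ h hT r r'
  have hDD : DD.card = (4 * MM P (Q.W ^ 2 * N) ^ 2 + 2) * ((a + 1) ^ (Q.k + 1) * ((a + 1) ^ (Q.k + 1) * ((b + 1) ^ Q.k * ((b + 1) ^ Q.k *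
      ((g + 1) * ((Q.k + 1) * (2 * (EX T κ).card))))))) := by
    simp only [DD, card_product, Fintype.card_piFinset, prod_const, card_univ, Fintype.card_fin, card_range, Fintype.card_bool]
  have h1 : ((AFC P Q N T J).card : ℝ) ≤ (DD.card : ℝ) := by exact_mod_cast hcard
  refine h1.trans ?_
  rw [hDD]
  push_cast
  have q1 : ((a : ℝ) + 1) ^ (Q.k + 1) ≤ ((N : ℝ) ^ (3 * ((Q.k : ℝ) + 1) * Q.e1) + 1) ^ (Q.k + 1) :=
    pow_le_pow_left₀ (by positivity) (by linarith) _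
  have q2 : ((b : ℝ) + 1) ^ Q.k ≤ (Real.exp ((kp N) ^ 80) + 1) ^ Q.k := pow_le_pow_left₀ (by positivity) (by linarith) _
  calc (4 * (MM P (Q.W ^ 2 * N) : ℝ) ^ 2 + 2) * (((a : ℝ) + 1) ^ (Q.k + 1) * (((a : ℝ) + 1) ^ (Q.k + 1) * (((b : ℝ) + 1) ^ Q.k * (((b : ℝ) + 1) ^ Q.k *
      (((g : ℝ) + 1) * (((Q.k : ℝ) + 1) * (2 * ((EX T κ).card : ℝ))))))))
      ≤ (4 * (MM P (Q.W ^ 2 * N) : ℝ) ^ 2 + 2) * (((N : ℝ) ^ (3 * ((Q.k : ℝ) + 1) * Q.e1) + 1) ^ (Q.k + 1) *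
        (((N : ℝ) ^ (3 * ((Q.k : ℝ) + 1) * Q.e1) + 1) ^ (Q.k + 1) * ((Real.exp ((kp N) ^ 80) + 1) ^ Q.k * ((Real.exp ((kp N) ^ 80) + 1) ^ Q.k *
        (((N : ℝ) ^ (4 * ((Q.k : ℝ) + 1) * Q.e1) + 1) * (((Q.k : ℝ) + 1) * (2 * ((EX T κ).card : ℝ)))))))) := by
        gcongr
    _ = _ := by ring

end MPar

end Pool.Agent.Lib.TC
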