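import Pool.Agent.Lib.MP_7b7e48_nt.BR3.K
import Pool.Agent.Lib.MP_7b7e48_nt.BR3.RY
import Pool.Agent.Lib.MP_7b7e48_nt.BR3.TT
import Pool.Agent.Lib.MP_7b7e48_nt.TCF.Def
import Pool.Agent.Lib.MP_7b7e48_nt.RG.NUM

/-!
# BR3.W (70 minutes): the data of the frame, sizes

`R = W ^ 2 N` is the modulus of the frame, `K = log N`, `log R = K + 2 log W ≤ 2 K` for large `N`, `JJ R = ⌈(log R) ^ 1000⌉`, `MM P R ≤ 2 (log R) ^ C1` (`RH.num`, compose with `N ↦ W ^ 2 N`).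
`J0 = JJ ^ 5 ⌈K ^ (Cf + 2 (k+1) + 1)⌉`, `J2 = 8 JJ MM ^ 2 J0`, `J1 = JJ J2`.
`ev_J1`: `W ^ 2 J1 = 8 W^2 JJ ^ 7 MM ^ 2 ⌈..⌉ ≤ K ^ (7007 + 2 C1 + 2 + Cf + 2 (k + 1) + 2)` (`JJ ≤ 2 (2 K) ^ 1000 ≤ K ^ 1001`, `MM ≤ 2 (2 K) ^ C1 ≤ K ^ (C1 + 1)`, `⌈x⌉ ≤ 2 x`, `16 W ^ 2 ≤ K`).
`ev_J0`: `J0 rho BY ≥ JJ ^ 5 K ^ (Cf + 2 (k + 1) + 1) rho ≥ JJ ^ 5 K ^ (2 (k + 1) + 1) ≥ JJ ^ 4 (4 log R) ^ (2 (k+1))` (`rhoY_lo`; `JJ K ≥ 8 ^ (2 (k+1))`).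
-/

set_option autoImplicit false

open Finset Filter

namespace Pool.Agent.Lib.TC

open Pool.Agent.Lib.TCB (famX famY)
open Pool.Agent.Lib.TCF (rho)
open Pool.Agent.Lib.RH (Prm MM JJ)

namespace MPar

noncomputable def J0 (P : Prm) (Q : MPar) (N : ℕ) : ℕ :=
  JJ (Q.W ^ 2 * N) ^ 5 * ⌈(Real.log N) ^ (Q.Cf + 2 * (Q.k + 1) + 1)⌉₊

noncomputable def J2 (P : Prm) (Q : MPar) (N : ℕ) : ℕ := 8 * JJ (Q.W ^ 2 * N) * MM P (Q.W ^ 2 * N) ^ 2 * J0 P Q N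

noncomputable def J1 (P : Prm) (Q : MPar) (N : ℕ) : ℕ := JJ (Q.W ^ 2 * N) * J2 P Q N

/-- the data of the frame -/
noncomputable def fdat (P : Prm) (Q : MPar) (N : ℕ) : TCF.Dat where
  J0 := J0 P Q N
  J1 := J1 P Q N
  J2 := J2 P Q N
  y0 := Q.y0 N
  nX := (Q.sys N).k + 1 + (Q.sys N).n0 + (Q.sys N).nX
  nY := (Q.sys N).k + 1 + (Q.sys N).n0 + (Q.sys N).nY
  BX := famX (Q.sys N)
  BY := famY (Q.sys N)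

/-- the sizes for the modulus `W ^ 2 N` -/
private theorem W_ev {P : Prm} (hP : P.Ok) {Q : MPar} (hQ : Q.Ok) (T : ℝ) : ∀ᶠ N : ℕ in atTop,
    1 ≤ N ∧ T ≤ Real.log N ∧ 1 ≤ Real.log N ∧ Real.log ((Q.W ^ 2 * N : ℕ) : ℝ) ≤ 2 * Real.log N ∧
      0 ≤ Real.log ((Q.W ^ 2 * N : ℕ) : ℝ) ∧ RH.Num P (Q.W ^ 2 * N) := by
  obtain ⟨N0, hN0⟩ := RH.num P hP
  filter_upwards [eventually_ge_atTop 1, eventually_ge_atTop N0, RH.ev_log_ge T, RH.ev_log_ge 1,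
    RH.ev_log_ge (2 * Real.log Q.W)] with N h1 h2 h3 h4 h5
  have hW : 1 ≤ Q.W := hQ.W0
  have hW2 : 1 ≤ Q.W ^ 2 := Nat.one_le_pow _ _ hW
  have hWr : (0 : ℝ) < Q.W := by exact_mod_cast hW
  have hNr : (0 : ℝ) < N := by exact_mod_cast h1
  have h6 : Real.log ((Q.W ^ 2 * N : ℕ) : ℝ) = 2 * Real.log Q.W + Real.log N := by
    rw [Nat.cast_mul, Nat.cast_pow, Real.log_mul (by positivity) hNr.ne', Real.log_pow]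
    norm_num
  refine ⟨h1, h3, h4, ?_, Real.log_natCast_nonneg _, hN0 _ ?_⟩
  · rw [h6]
    linarith
  · exact h2.trans (Nat.le_mul_of_pos_left N hW2)

theorem ev_J1 {P : Prm} (hP : P.Ok) {Q : MPar} (hQ : Q.Ok) : ∀ᶠ N : ℕ in atTop,
    ((Q.W ^ 2 * J1 P Q N : ℕ) : ℝ) ≤ (Real.log N) ^ (Q.Cf + 2 * (Q.k + 1) + 2 * P.C1 + 7011) := by
  filter_upwards [W_ev hP hQ ((2 : ℝ) ^ 1001), W_ev hP hQ ((2 : ℝ) ^ (P.C1 + 1)),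
    W_ev hP hQ (16 * (Q.W : ℝ) ^ 2)] with N h1 h2 h3
  obtain ⟨hN1, hT1, hK1, hR, hR0, hnum⟩ := h1
  have hT2 := h2.2.1
  have hT3 := h3.2.1
  obtain ⟨K, hK⟩ : ∃ K : ℝ, K = Real.log N := ⟨_, rfl⟩
  have hJ := hnum.J2
  have hM := hnum.M2
  unfold J1 J2 J0
  obtain ⟨J, hJJ⟩ : ∃ J : ℕ, J = JJ (Q.W ^ 2 * N) := ⟨_, rfl⟩
  obtain ⟨M, hMM⟩ : ∃ M : ℕ, M = MM P (Q.W ^ 2 * N) := ⟨_, rfl⟩
  obtain ⟨e, he⟩ : ∃ e : ℕ, e = Q.Cf + 2 * (Q.k + 1) + 1 := ⟨_, rfl⟩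
  rw [← hJJ] at hJ ⊢
  rw [← hMM] at hM ⊢
  rw [← he]
  rw [← hK] at hT1 hT2 hT3 hK1 hR ⊢
  obtain ⟨c, hc⟩ : ∃ c : ℕ, c = ⌈K ^ e⌉₊ := ⟨_, rfl⟩
  rw [← hc]
  have hK0 : 0 < K := lt_of_lt_of_le one_pos hK1
  have hJ' : (J : ℝ) ≤ K ^ 1001 := by
    calc (J : ℝ) ≤ 2 * (Real.log ((Q.W ^ 2 * N : ℕ) : ℝ)) ^ 1000 := hJ
      _ ≤ 2 * (2 * K) ^ 1000 := mul_le_mul_of_nonneg_left (pow_le_pow_left₀ hR0 hR 1000) (by norm_num)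
      _ = 2 ^ 1001 * K ^ 1000 := by
          rw [mul_pow, ← mul_assoc, ← pow_succ']
      _ ≤ K * K ^ 1000 := mul_le_mul_of_nonneg_right hT1 (by positivity)
      _ = K ^ 1001 := by rw [← pow_succ']
  have hM' : (M : ℝ) ≤ K ^ (P.C1 + 1) := by
    calc (M : ℝ) ≤ 2 * (Real.log ((Q.W ^ 2 * N : ℕ) : ℝ)) ^ P.C1 := hM
      _ ≤ 2 * (2 * K) ^ P.C1 := mul_le_mul_of_nonneg_left (pow_le_pow_left₀ hR0 hR _) (by norm_num)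
      _ = 2 ^ (P.C1 + 1) * K ^ P.C1 := by
          rw [mul_pow, ← mul_assoc, ← pow_succ']
      _ ≤ K * K ^ P.C1 := mul_le_mul_of_nonneg_right hT2 (by positivity)
      _ = K ^ (P.C1 + 1) := by rw [← pow_succ']
  have hc' : (c : ℝ) ≤ 2 * K ^ e := by
    have h4 := Nat.ceil_lt_add_one (show 0 ≤ K ^ e by positivity)
    have h5 : (1 : ℝ) ≤ K ^ e := one_le_pow₀ hK1
    rw [hc]
    linarith only [h4, h5]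
  have h6 : ((Q.W ^ 2 * (J * (8 * J * M ^ 2 * (J ^ 5 * c))) : ℕ) : ℝ) =
      8 * (Q.W : ℝ) ^ 2 * (J : ℝ) ^ 7 * (M : ℝ) ^ 2 * c := by
    push_cast
    ring
  rw [h6]
  calc 8 * (Q.W : ℝ) ^ 2 * (J : ℝ) ^ 7 * (M : ℝ) ^ 2 * c
      ≤ 8 * (Q.W : ℝ) ^ 2 * (K ^ 1001) ^ 7 * (K ^ (P.C1 + 1)) ^ 2 * (2 * K ^ e) := by
        have a1 := pow_le_pow_left₀ (Nat.cast_nonneg J) hJ' 7
        have a2 := pow_le_pow_left₀ (Nat.cast_nonneg M) hM' 2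
        refine mul_le_mul ?_ hc' (Nat.cast_nonneg _) (by positivity)
        refine mul_le_mul ?_ a2 (by positivity) (by positivity)
        exact mul_le_mul_of_nonneg_left a1 (by positivity)
    _ = (16 * (Q.W : ℝ) ^ 2) * ((K ^ 1001) ^ 7 * (K ^ (P.C1 + 1)) ^ 2 * K ^ e) := by ring
    _ ≤ K * ((K ^ 1001) ^ 7 * (K ^ (P.C1 + 1)) ^ 2 * K ^ e) := mul_le_mul_of_nonneg_right hT3 (by positivity)
    _ = K ^ (Q.Cf + 2 * (Q.k + 1) + 2 * P.C1 + 7011) := by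
        rw [← pow_mul, ← pow_mul, ← pow_add, ← pow_add, ← pow_succ', he]
        congr 1
        ring

theorem ev_J0 {P : Prm} (hP : P.Ok) {Q : MPar} (hQ : Q.Ok) : ∀ᶠ N : ℕ in atTop, Q.Lg N →
    (JJ (Q.W ^ 2 * N) : ℝ) ^ 4 * (4 * Real.log ((Q.W ^ 2 * N : ℕ) : ℝ)) ^ (2 * (Q.k + 1)) ≤ J0 P Q N * rho (famY (Q.sys N)) := by
  filter_upwards [W_ev hP hQ ((8 : ℝ) ^ (2 * (Q.k + 1)))] with N h1 hL
  obtain ⟨hN1, hT1, hK1, hR, hR0, hnum⟩ := h1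
  have hrho := rhoY_lo hQ hL
  have hJ := hnum.J1
  have hKR : (10 : ℝ) ^ 9 ≤ Real.log ((Q.W ^ 2 * N : ℕ) : ℝ) := hnum.K
  obtain ⟨K, hK⟩ : ∃ K : ℝ, K = Real.log N := ⟨_, rfl⟩
  unfold J0
  obtain ⟨J, hJJ⟩ : ∃ J : ℕ, J = JJ (Q.W ^ 2 * N) := ⟨_, rfl⟩
  obtain ⟨r, hr⟩ : ∃ r : ℝ, r = rho (famY (Q.sys N)) := ⟨_, rfl⟩
  rw [← hJJ] at hJ ⊢
  rw [← hr] at hrho ⊢
  rw [← hK] at hT1 hK1 hR hrho ⊢
  have hK0 : 0 < K := by linarith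
  have hJ1 : (1 : ℝ) ≤ J := by
    refine le_trans (one_le_pow₀ ?_) hJ
    linarith
  have hr0 : 0 < r := by
    by_contra hneg
    push Not at hneg
    have : K ^ Q.Cf * r ≤ 0 := mul_nonpos_of_nonneg_of_nonpos (by positivity) hneg
    linarith
  have hc : K ^ (Q.Cf + 2 * (Q.k + 1) + 1) ≤ (⌈K ^ (Q.Cf + 2 * (Q.k + 1) + 1)⌉₊ : ℝ) := Nat.le_ceil _
  calc (J : ℝ) ^ 4 * (4 * Real.log ((Q.W ^ 2 * N : ℕ) : ℝ)) ^ (2 * (Q.k + 1))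
      ≤ (J : ℝ) ^ 4 * (8 * K) ^ (2 * (Q.k + 1)) := by
        refine mul_le_mul_of_nonneg_left (pow_le_pow_left₀ (by linarith) (by linarith) _) (by positivity)
    _ = (J : ℝ) ^ 4 * (8 ^ (2 * (Q.k + 1)) * K ^ (2 * (Q.k + 1))) := by rw [mul_pow]
    _ ≤ (J : ℝ) ^ 4 * ((J * K) * K ^ (2 * (Q.k + 1))) := by
        refine mul_le_mul_of_nonneg_left (mul_le_mul_of_nonneg_right ?_ (by positivity)) (by positivity)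
        calc (8 : ℝ) ^ (2 * (Q.k + 1)) ≤ K := hT1
          _ = 1 * K := (one_mul K).symm
          _ ≤ J * K := mul_le_mul_of_nonneg_right hJ1 hK0.le
    _ = (J : ℝ) ^ 5 * K ^ (2 * (Q.k + 1) + 1) * 1 := by ring
    _ ≤ (J : ℝ) ^ 5 * K ^ (2 * (Q.k + 1) + 1) * (K ^ Q.Cf * r) :=
        mul_le_mul_of_nonneg_left hrho (by positivity)
    _ = (J : ℝ) ^ 5 * K ^ (Q.Cf + 2 * (Q.k + 1) + 1) * r := by ring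
    _ ≤ (J : ℝ) ^ 5 * (⌈K ^ (Q.Cf + 2 * (Q.k + 1) + 1)⌉₊ : ℝ) * r :=
        mul_le_mul_of_nonneg_right (mul_le_mul_of_nonneg_left hc (by positivity)) hr0.le
    _ = ((J ^ 5 * ⌈K ^ (Q.Cf + 2 * (Q.k + 1) + 1)⌉₊ : ℕ) : ℝ) * r := by push_cast; ring

end MPar

end Pool.Agent.Lib.TC
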